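import Mathlib

/-!
# Definitions for stable algebraic families of endomorphisms of projective space
-/

namespace Pool.Agent.H25.Dyn

open MeasureTheory

/-- Exponents of the monomials of degree `d` in the `N + 1` variables `X 0, ..., X N`. -/
abbrev Mono (N d : ℕ) : Type := {m : Fin (N + 1) → Fin (d + 1) // ∑ j, (m j : ℕ) = d}

/-- Coefficient vectors of `(N + 1)`-tuples of homogeneous polynomials of degree `d` in `N + 1`
variables: `c i m` is the coefficient of the monomial `m` in the `i`-th polynomial. -/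
abbrev Coef (N d : ℕ) : Type := Fin (N + 1) → Mono N d → ℂ

/-- The homogeneous polynomial map of `ℂ^(N+1)` with coefficient vector `c`. -/
noncomputable def ev {N d : ℕ} (c : Coef N d) (X : Fin (N + 1) → ℂ) : Fin (N + 1) → ℂ :=
  fun i => ∑ m : Mono N d, c i m * ∏ j, X j ^ (m.1 j : ℕ)

/-- Coefficient vectors of holomorphic endomorphisms of `ℙ^N` of algebraic degree `d`: the
homogeneous coordinates have no common zero. Proportional vectors define the same endomorphism, so
this is the cone (without its vertex) over `End^N_d`. -/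
abbrev Endo (N d : ℕ) : Type := {c : Coef N d // ∀ X, ev c X = 0 → X = 0}

/-- The complex projective space of dimension `N`. -/
abbrev PSpace (N : ℕ) : Type := Projectivization ℂ (Fin (N + 1) → ℂ)

/-- The Borel sigma-algebra of `ℙ^N` (quotient of that of `ℂ^(N+1)` minus the origin). -/
noncomputable instance instMeasurableSpacePSpace (N : ℕ) : MeasurableSpace (PSpace N) :=
  MeasurableSpace.map (fun X : {X : Fin (N + 1) → ℂ // X ≠ 0} => Projectivization.mk ℂ X.1 X.2)
    inferInstance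

/-- The endomorphism of `ℙ^N` defined by `f`. -/
noncomputable def pmap {N d : ℕ} (f : Endo N d) (x : PSpace N) : PSpace N :=
  Projectivization.mk ℂ (ev f.1 x.rep) (fun h => x.rep_nonzero (f.2 _ h))

/-- The Jacobian determinant of the polynomial map of `ℂ^(N+1)` defined by `f`. -/
noncomputable def jac {N d : ℕ} (f : Endo N d) (X : Fin (N + 1) → ℂ) : ℂ :=
  (fderiv ℂ (ev f.1) X).det

/-- The Hermitian norm on `ℂ^(N+1)`. -/
noncomputable def nrm {N : ℕ} (X : Fin (N + 1) → ℂ) : ℝ := Real.sqrt (∑ i, ‖X i‖ ^ 2)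

/-- Logarithm of the modulus of the complex Jacobian determinant of the endomorphism `f` of `ℙ^N`
for the Fubini-Study metric, in homogeneous coordinates. -/
noncomputable def logJac {N d : ℕ} (f : Endo N d) (x : PSpace N) : ℝ :=
  Real.log (nrm x.rep ^ (N + 1) * ‖jac f x.rep‖ / (d * nrm (ev f.1 x.rep) ^ (N + 1)))

/-- `μ` is the equilibrium measure of `f`: the probability measure with constant Jacobian `d ^ N`
(i.e. `f^* μ = d^N μ`) which gives no mass to proper algebraic subsets. -/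
structure IsEquilibrium {N d : ℕ} (f : Endo N d) (μ : Measure (PSpace N)) : Prop where
  prob : μ Set.univ = 1
  algebraic : ∀ (P : MvPolynomial (Fin (N + 1)) ℂ) (k : ℕ), P.IsHomogeneous k → P ≠ 0 →
    μ {x | MvPolynomial.eval x.rep P = 0} = 0
  jacobian : ∀ A : Set (PSpace N), MeasurableSet A → Set.InjOn (pmap f) A →
    μ (pmap f '' A) = d ^ N * μ A

/-- The value at `f` of a polynomial `P` in the coefficients. -/
noncomputable def coefEval {N d : ℕ} (P : MvPolynomial (Fin (N + 1) × Mono N d) ℂ) (f : Endo N d) :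
    ℂ :=
  MvPolynomial.eval (fun i => f.1 i.1 i.2) P

/-- `V` is (the cone over) a closed algebraic subset of `End^N_d`: it is cut out in `End^N_d` by
homogeneous polynomial equations in the coefficients. -/
def IsZariskiClosed {N d : ℕ} (V : Set (Endo N d)) : Prop :=
  ∃ S : Set (MvPolynomial (Fin (N + 1) × Mono N d) ℂ), (∀ P ∈ S, ∃ k, P.IsHomogeneous k) ∧
    ∀ f : Endo N d, f ∈ V ↔ ∀ P ∈ S, coefEval P f = 0

/-- `V` is irreducible for the Zariski topology. -/
def IsZariskiIrreducible {N d : ℕ} (V : Set (Endo N d)) : Prop :=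
  V.Nonempty ∧ ∀ P Q : MvPolynomial (Fin (N + 1) × Mono N d) ℂ,
    (∀ f ∈ V, coefEval P f * coefEval Q f = 0) →
    (∀ f ∈ V, coefEval P f = 0) ∨ (∀ f ∈ V, coefEval Q f = 0)

/-- `V` is an algebraic family: (the cone over) an irreducible closed algebraic subvariety of
`End^N_d` of positive dimension, i.e. with infinitely many members. -/
def IsAlgebraicFamily {N d : ℕ} (V : Set (Endo N d)) : Prop :=
  IsZariskiClosed V ∧ IsZariskiIrreducible V ∧ (pmap '' V).Infinite

/-- `h` is holomorphic near `c`. -/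
def HolomorphicNear {N d : ℕ} (h : Coef N d → ℂ) (c : Coef N d) : Prop := AnalyticAt ℂ h c

/-- `L` is pluriharmonic on `V`: near every point of `V` it is the real part of a holomorphic
function of the coefficients. -/
def IsPluriharmonicOn {N d : ℕ} (V : Set (Endo N d)) (L : Endo N d → ℝ) : Prop :=
  ∀ f ∈ V, ∃ h : Coef N d → ℂ, HolomorphicNear h f.1 ∧
    ∀ᶠ c in nhds f.1, ∀ g ∈ V, g.1 = c → L g = (h c).re

/-- `V` is dynamically stable: the sum of the Lyapunov exponents of `f` with respect to its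
equilibrium measure `μ`, i.e. the integral of `logJac f` against `μ`, is a pluriharmonic function
of `f ∈ V`. -/
def IsStable {N d : ℕ} (V : Set (Endo N d)) : Prop :=
  ∃ L : Endo N d → ℝ, IsPluriharmonicOn V L ∧ ∀ f ∈ V, ∃ μ : Measure (PSpace N),
    IsEquilibrium f μ ∧ Integrable (logJac f) μ ∧ L f = ∫ x, logJac f x ∂μ

/-- `f` and `g` are conjugate by the element of `PGL_{N+1}(ℂ)` defined by an invertible
matrix `A`. -/
def IsConjugate {N d : ℕ} (f g : Endo N d) : Prop :=
  ∃ (A : Matrix (Fin (N + 1)) (Fin (N + 1)) ℂ) (t : ℂ), A.det ≠ 0 ∧ t ≠ 0 ∧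
    ∀ X, ev g.1 (A.mulVec X) = t • A.mulVec (ev f.1 X)

/-- `V` is isotrivial: all its members are conjugate to one another. -/
def IsIsotrivial {N d : ℕ} (V : Set (Endo N d)) : Prop :=
  ∀ f ∈ V, ∀ g ∈ V, IsConjugate f g

/-- `Λ` is a lattice in `ℂ^N`. -/
def IsLattice {N : ℕ} (Λ : AddSubgroup (Fin N → ℂ)) : Prop :=
  DiscreteTopology Λ ∧ Submodule.span ℝ (Λ : Set (Fin N → ℂ)) = ⊤

/-- `Φ` is a holomorphic map from `ℂ^N` to `ℙ^M`: locally it has holomorphic homogeneous
coordinates without common zero. -/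
def IsHolomorphicMap {N M : ℕ} (Φ : (Fin N → ℂ) → PSpace M) : Prop :=
  ∀ v, ∃ θ : (Fin N → ℂ) → (Fin (M + 1) → ℂ), AnalyticAt ℂ θ v ∧
    ∀ᶠ w in nhds v, ∃ h : θ w ≠ 0, Φ w = Projectivization.mk ℂ (θ w) h

/-- `A` is an affine map of the complex torus `ℂ^N / Λ`. -/
def IsAffine {N : ℕ} (Λ : AddSubgroup (Fin N → ℂ)) (A : (Fin N → ℂ) ⧸ Λ → (Fin N → ℂ) ⧸ Λ) :
    Prop :=
  ∃ (L : (Fin N → ℂ) →ₗ[ℂ] (Fin N → ℂ)) (b : Fin N → ℂ), ∀ v : Fin N → ℂ,
    A (QuotientAddGroup.mk v) = QuotientAddGroup.mk (L v + b)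

/-- `f` is a Lattès map: there are a complex torus `T = ℂ^N / Λ`, an affine map `A : T → T` and a
finite branched covering (holomorphic surjective map with finite fibres) `Θ : T → ℙ^N` with
`f ∘ Θ = Θ ∘ A`. -/
def IsLattes {N d : ℕ} (f : Endo N d) : Prop :=
  ∃ (Λ : AddSubgroup (Fin N → ℂ)) (A : (Fin N → ℂ) ⧸ Λ → (Fin N → ℂ) ⧸ Λ)
    (Θ : (Fin N → ℂ) ⧸ Λ → PSpace N),
    IsLattice Λ ∧ IsAffine Λ A ∧ IsHolomorphicMap (fun v : Fin N → ℂ => Θ (QuotientAddGroup.mk v)) ∧
    Function.Surjective Θ ∧ (∀ x, (Θ ⁻¹' {x}).Finite) ∧ ∀ p, pmap f (Θ p) = Θ (A p)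

/-- The postcritical set of `f`: the union of the images of the critical set under the iterates
`f ^ n`, `n ≥ 1`. -/
def postcritical {N d : ℕ} (f : Endo N d) : Set (PSpace N) :=
  {x | ∃ n : ℕ, 1 ≤ n ∧ ∃ y : PSpace N, jac f y.rep = 0 ∧ (pmap f)^[n] y = x}

/-- `f` is postcritically finite: its postcritical set is an algebraic subset of `ℙ^N`. -/
def IsPCF {N d : ℕ} (f : Endo N d) : Prop :=
  ∃ S : Set (MvPolynomial (Fin (N + 1)) ℂ), (∀ P ∈ S, ∃ k, P.IsHomogeneous k) ∧
    ∀ x : PSpace N, x ∈ postcritical f ↔ ∀ P ∈ S, MvPolynomial.eval x.rep P = 0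

end Pool.Agent.H25.Dyn
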