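import Pool.Agent.H25.DynDefs
namespace Pool.Agent.H25.Dyn
open MeasureTheory

def mx4 : Mono 3 4 := ⟨![4, 0, 0, 0], by decide⟩
def my4 : Mono 3 4 := ⟨![0, 4, 0, 0], by decide⟩
def mx2y2 : Mono 3 4 := ⟨![2, 2, 0, 0], by decide⟩
def mz4 : Mono 3 4 := ⟨![0, 0, 4, 0], by decide⟩
def mw4 : Mono 3 4 := ⟨![0, 0, 0, 4], by decide⟩

/-- a coefficient row with one nonzero entry -/
def sg (m : Mono 3 4) (a : ℂ) : Mono 3 4 → ℂ := Pi.single m a

/-- coefficient vector of the family -/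
noncomputable def K (κ : ℂ) : Coef 3 4 :=
  ![sg mx4 (κ ^ 2) + sg my4 (κ ^ 2) + sg mx2y2 (-2),
    sg mx4 (-κ) + sg my4 (-κ) + sg mx2y2 (2 * κ ^ 3),
    sg mz4 1 + sg mw4 (-4),
    sg mw4 1]

lemma sum_sg (m₀ : Mono 3 4) (a : ℂ) (g : Mono 3 4 → ℂ) :
    ∑ m, sg m₀ a m * g m = a * g m₀ := by
  unfold sg
  rw [Finset.sum_eq_single m₀]
  · simp
  · intro m _ hm
    simp [hm]
  · simp

/-- the two-variable Lattès lift -/
noncomputable def G (κ : ℂ) (x y : ℂ) : ℂ × ℂ :=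
  (κ ^ 2 * (x ^ 4 + y ^ 4) - 2 * x ^ 2 * y ^ 2, κ * (2 * κ ^ 2 * x ^ 2 * y ^ 2 - x ^ 4 - y ^ 4))

lemma ev_K (κ : ℂ) (X : Fin 4 → ℂ) : ev (K κ) X =
    ![(G κ (X 0) (X 1)).1, (G κ (X 0) (X 1)).2, X 2 ^ 4 - 4 * X 3 ^ 4, X 3 ^ 4] := by
  unfold ev K G
  ext i
  fin_cases i
  · simp only [Fin.zero_eta, Matrix.cons_val_zero, Pi.add_apply, add_mul, Finset.sum_add_distrib,
      sum_sg, Nat.reduceAdd]
    simp [mx4, my4, mx2y2, Fin.prod_univ_four]
    ring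
  · simp only [Fin.mk_one, Matrix.cons_val_one, Matrix.cons_val_zero, Pi.add_apply, add_mul,
      Finset.sum_add_distrib, sum_sg, Nat.reduceAdd]
    simp [mx4, my4, mx2y2, Fin.prod_univ_four]
    ring
  · simp only [Fin.reduceFinMk, Matrix.cons_val, Pi.add_apply, add_mul,
      Finset.sum_add_distrib, sum_sg, Nat.reduceAdd]
    simp [mz4, mw4, Fin.prod_univ_four]
    ring
  · simp only [Fin.reduceFinMk, Matrix.cons_val, Pi.add_apply, add_mul,
      Finset.sum_add_distrib, sum_sg, Nat.reduceAdd]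
    simp [mw4, Fin.prod_univ_four]

lemma ev_smul {N d : ℕ} (t : ℂ) (c : Coef N d) (X : Fin (N + 1) → ℂ) :
    ev (t • c) X = t • ev c X := by
  unfold ev
  ext i
  simp [Finset.mul_sum, mul_assoc]

/-- admissible parameters -/
def Good (κ : ℂ) : Prop := κ ≠ 0 ∧ κ ^ 4 ≠ 1

lemma G_eq_zero {κ : ℂ} (hκ : Good κ) {x y : ℂ} (h : G κ x y = 0) : x = 0 ∧ y = 0 := by
  obtain ⟨h0, h1⟩ := hκ
  have e1 : κ ^ 2 * (x ^ 4 + y ^ 4) - 2 * x ^ 2 * y ^ 2 = 0 := congrArg Prod.fst h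
  have e2 : κ * (2 * κ ^ 2 * x ^ 2 * y ^ 2 - x ^ 4 - y ^ 4) = 0 := congrArg Prod.snd h
  have e3 : 2 * κ ^ 2 * x ^ 2 * y ^ 2 - x ^ 4 - y ^ 4 = 0 := (mul_eq_zero.mp e2).resolve_left h0
  have e4 : (κ ^ 4 - 1) * (x ^ 2 * y ^ 2) = 0 := by
    linear_combination (1/2 : ℂ) * e1 + (κ ^ 2 / 2) * e3
  have e5 : x ^ 2 * y ^ 2 = 0 := (mul_eq_zero.mp e4).resolve_left (sub_ne_zero.mpr h1)
  have e6 : x ^ 4 + y ^ 4 = 0 := by linear_combination (2 * κ ^ 2) * e5 - e3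
  have e7 : x = 0 ∨ y = 0 := by
    have : (x * y) ^ 2 = 0 := by linear_combination e5
    exact mul_eq_zero.mp (pow_eq_zero_iff (two_ne_zero)|>.mp this)
  rcases e7 with rfl | rfl
  · refine ⟨rfl, ?_⟩
    have : y ^ 4 = 0 := by simpa using e6
    exact pow_eq_zero_iff (by norm_num) |>.mp this
  · refine ⟨?_, rfl⟩
    have : x ^ 4 = 0 := by simpa using e6
    exact pow_eq_zero_iff (by norm_num) |>.mp this

lemma nondeg {κ : ℂ} (hκ : Good κ) {t : ℂ} (ht : t ≠ 0) (X : Fin 4 → ℂ)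
    (h : ev (t • K κ) X = 0) : X = 0 := by
  rw [ev_smul, smul_eq_zero_iff_right ht, ev_K] at h
  have h0 := congrFun h 0
  have h1 := congrFun h 1
  have h2 := congrFun h 2
  have h3 := congrFun h 3
  simp at h0 h1 h2 h3
  have hG : G κ (X 0) (X 1) = 0 := Prod.ext h0 h1
  obtain ⟨hx, hy⟩ := G_eq_zero hκ hG
  rw [h3] at h2
  simp at h2
  ext i
  fin_cases i
  · exact hx
  · exact hy
  · exact h2
  · exact h3

lemma good_of_nondeg {κ t : ℂ} (h : ∀ X : Fin 4 → ℂ, ev (t • K κ) X = 0 → X = 0) :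
    Good κ ∧ t ≠ 0 := by
  have ht : t ≠ 0 := by
    rintro rfl
    have := h (fun _ => 1) (by rw [ev_smul, zero_smul])
    have := congrFun this 0
    simp at this
  refine ⟨⟨?_, ?_⟩, ht⟩
  · rintro rfl
    have := h ![1, 0, 0, 0] (by rw [ev_smul, ev_K]; ext i; fin_cases i <;> simp [G])
    have := congrFun this 0
    simp at this
  · intro h4
    -- common zero of the two quartic forms
    -- x ^ 2 = κ ^ 2 with y = 1 is a common zero
    have := h ![κ, 1, 0, 0] (by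
      rw [ev_smul, ev_K]
      ext i
      fin_cases i
      · simp [G]
        right
        linear_combination κ ^ 2 * h4
      · simp [G]
        right; right
        linear_combination h4
      · simp
      · simp)
    have := congrFun this 1
    simp at this

end Pool.Agent.H25.Dyn
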