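import Pool.Agent.H25.DynFam
namespace Pool.Agent.H25.Dyn
open MeasureTheory

/-- the family (cone over it) -/
def Fam : Set (Endo 3 4) := {f | ∃ κ t : ℂ, f.1 = t • K κ}

lemma Fam_good {f : Endo 3 4} {κ t : ℂ} (h : f.1 = t • K κ) : Good κ ∧ t ≠ 0 := by
  apply good_of_nondeg
  intro X hX
  exact f.2 X (by rw [h]; exact hX)

/-- member of the family -/
noncomputable def fam (κ : ℂ) (h : Good κ) : Endo 3 4 :=
  ⟨K κ, fun X hX => nondeg h one_ne_zero X (by rw [one_smul]; exact hX)⟩

lemma fam_mem (κ : ℂ) (h : Good κ) : fam κ h ∈ Fam := ⟨κ, 1, by simp [fam]⟩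

/-- index of a coefficient -/
abbrev Idx : Type := Fin (3 + 1) × Mono 3 4

/-- support of the coefficient vectors -/
def supp : Set Idx :=
  {(0, mx4), (0, my4), (0, mx2y2), (1, mx4), (1, my4), (1, mx2y2), (2, mz4), (2, mw4), (3, mw4)}

open MvPolynomial in
/-- the equations of the family -/
noncomputable def eqns : Set (MvPolynomial Idx ℂ) :=
  {P | ∃ p : Idx, p ∉ supp ∧ P = X p} ∪
  {X (0, mx2y2) + C 2 * X (3, mw4), X (0, my4) - X (0, mx4), X (1, my4) - X (1, mx4),
    X (2, mz4) - X (3, mw4), X (2, mw4) + C 4 * X (3, mw4),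
    X (3, mw4) * X (0, mx4) - X (1, mx4) ^ 2,
    X (3, mw4) ^ 2 * X (1, mx2y2) + C 2 * X (1, mx4) ^ 3}

lemma sg_apply_ne {m m' : Mono 3 4} (a : ℂ) (h : m' ≠ m) : sg m a m' = 0 := by
  simp [sg, h]

lemma sg_apply_eq (m : Mono 3 4) (a : ℂ) : sg m a m = a := by
  simp [sg]

lemma K_off_supp (κ : ℂ) (p : Idx) (hp : p ∉ supp) : K κ p.1 p.2 = 0 := by
  obtain ⟨i, m⟩ := p
  simp only [supp, Set.mem_insert_iff, Set.mem_singleton_iff, Prod.mk.injEq, not_or, not_and] at hp
  obtain ⟨h1, h2, h3, h4, h5, h6, h7, h8, h9⟩ := hp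
  unfold K
  fin_cases i
  · simp [sg_apply_ne _ (h1 rfl), sg_apply_ne _ (h2 rfl), sg_apply_ne _ (h3 rfl)]
  · simp [sg_apply_ne _ (h4 rfl), sg_apply_ne _ (h5 rfl), sg_apply_ne _ (h6 rfl)]
  · simp [sg_apply_ne _ (h7 rfl), sg_apply_ne _ (h8 rfl)]
  · simp [sg_apply_ne _ (h9 rfl)]

lemma ne1 : mx4 ≠ my4 := by decide
lemma ne2 : mx4 ≠ mx2y2 := by decide
lemma ne3 : my4 ≠ mx2y2 := by decide
lemma ne4 : mz4 ≠ mw4 := by decide

lemma K_0_mx4 (κ : ℂ) : K κ 0 mx4 = κ ^ 2 := by
  simp [K, sg_apply_eq, sg_apply_ne _ ne1, sg_apply_ne _ ne2]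
lemma K_0_my4 (κ : ℂ) : K κ 0 my4 = κ ^ 2 := by
  simp [K, sg_apply_eq, sg_apply_ne _ ne1.symm, sg_apply_ne _ ne3]
lemma K_0_mx2y2 (κ : ℂ) : K κ 0 mx2y2 = -2 := by
  simp [K, sg_apply_eq, sg_apply_ne _ ne2.symm, sg_apply_ne _ ne3.symm]
lemma K_1_mx4 (κ : ℂ) : K κ 1 mx4 = -κ := by
  simp [K, sg_apply_eq, sg_apply_ne _ ne1, sg_apply_ne _ ne2]
lemma K_1_my4 (κ : ℂ) : K κ 1 my4 = -κ := by
  simp [K, sg_apply_eq, sg_apply_ne _ ne1.symm, sg_apply_ne _ ne3]
lemma K_1_mx2y2 (κ : ℂ) : K κ 1 mx2y2 = 2 * κ ^ 3 := by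
  simp [K, sg_apply_eq, sg_apply_ne _ ne2.symm, sg_apply_ne _ ne3.symm]
lemma K_2_mz4 (κ : ℂ) : K κ 2 mz4 = 1 := by
  simp [K, sg_apply_eq, sg_apply_ne _ ne4]
lemma K_2_mw4 (κ : ℂ) : K κ 2 mw4 = -4 := by
  simp [K, sg_apply_eq, sg_apply_ne _ ne4.symm]
lemma K_3_mw4 (κ : ℂ) : K κ 3 mw4 = 1 := by
  simp [K, sg_apply_eq]

lemma mem_supp_iff (p : Idx) : p ∈ supp ↔ p = (0, mx4) ∨ p = (0, my4) ∨ p = (0, mx2y2) ∨
    p = (1, mx4) ∨ p = (1, my4) ∨ p = (1, mx2y2) ∨ p = (2, mz4) ∨ p = (2, mw4) ∨ p = (3, mw4) := by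
  rfl

open MvPolynomial in
lemma Fam_closed : IsZariskiClosed Fam := by
  refine ⟨eqns, ?_, ?_⟩
  · intro P hP
    rcases hP with ⟨p, -, rfl⟩ | hP
    · exact ⟨1, isHomogeneous_X _ _⟩
    · simp only [Set.mem_insert_iff, Set.mem_singleton_iff] at hP
      have hX : ∀ p : Idx, (X p : MvPolynomial Idx ℂ).IsHomogeneous 1 := fun p => isHomogeneous_X _ _
      have hC : ∀ a : ℂ, (C a : MvPolynomial Idx ℂ).IsHomogeneous 0 := fun a => isHomogeneous_C _ _
      rcases hP with rfl | rfl | rfl | rfl | rfl | rfl | rfl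
      · exact ⟨1, (hX _).add (by simpa using (hC 2).mul (hX (3, mw4)))⟩
      · exact ⟨1, (hX _).sub (hX _)⟩
      · exact ⟨1, (hX _).sub (hX _)⟩
      · exact ⟨1, (hX _).sub (hX _)⟩
      · exact ⟨1, (hX _).add (by simpa using (hC 4).mul (hX (3, mw4)))⟩
      · exact ⟨2, ((hX _).mul (hX _)).sub ((hX _).pow 2)⟩
      · exact ⟨3, (((hX _).pow 2).mul (hX _)).add (by simpa using (hC 2).mul ((hX (1, mx4)).pow 3))⟩
  · intro f
    constructor
    · rintro ⟨κ, t, hf⟩ P hP
      have hfi : ∀ i m, f.1 i m = t * K κ i m := by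
        intro i m; rw [hf]; rfl
      rcases hP with ⟨p, hp, rfl⟩ | hP
      · simp only [coefEval, eval_X]
        rw [hfi, K_off_supp κ p hp, mul_zero]
      · simp only [Set.mem_insert_iff, Set.mem_singleton_iff] at hP
        rcases hP with rfl | rfl | rfl | rfl | rfl | rfl | rfl <;>
        simp only [coefEval, map_add, map_sub, map_mul, map_pow, eval_X, eval_C, hfi, K_0_mx4,
          K_0_my4, K_0_mx2y2, K_1_mx4, K_1_my4, K_1_mx2y2, K_2_mz4, K_2_mw4, K_3_mw4] <;> ring
    · intro h
      have hoff : ∀ p : Idx, p ∉ supp → f.1 p.1 p.2 = 0 := by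
        intro p hp
        have := h (X p) (Or.inl ⟨p, hp, rfl⟩)
        simpa [coefEval] using this
      have g1 := h _ (Or.inr (Or.inl rfl))
      have g2 := h _ (Or.inr (Or.inr (Or.inl rfl)))
      have g3 := h _ (Or.inr (Or.inr (Or.inr (Or.inl rfl))))
      have g4 := h _ (Or.inr (Or.inr (Or.inr (Or.inr (Or.inl rfl)))))
      have g5 := h _ (Or.inr (Or.inr (Or.inr (Or.inr (Or.inr (Or.inl rfl))))))
      have g6 := h _ (Or.inr (Or.inr (Or.inr (Or.inr (Or.inr (Or.inr (Or.inl rfl)))))))
      have g7 := h _ (Or.inr (Or.inr (Or.inr (Or.inr (Or.inr (Or.inr (Or.inr rfl)))))))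
      simp only [coefEval, map_add, map_sub, map_mul, map_pow, eval_X, eval_C] at g1 g2 g3 g4 g5 g6 g7
      set u := f.1 3 mw4 with hu
      set b := f.1 1 mx4 with hb
      -- u is nonzero
      have hu0 : u ≠ 0 := by
        intro hu0
        have hz : ev f.1 ![0, 0, 1, 0] = 0 := by
          ext i
          unfold ev
          apply Finset.sum_eq_zero
          intro m _
          by_cases hm : m = mz4
          · subst hm
            have : f.1 i mz4 = 0 := by
              by_cases hi : i = 2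
              · subst hi
                rw [sub_eq_zero] at g4
                rw [g4, hu0]
              · apply hoff (i, mz4)
                rw [mem_supp_iff]
                simp only [Prod.mk.injEq, not_or, not_and]
                refine ⟨fun _ => by decide, fun _ => by decide, fun _ => by decide,
                  fun _ => by decide, fun _ => by decide, fun _ => by decide,
                  fun h => absurd h hi, fun _ => by decide, fun _ => by decide⟩
            rw [this, zero_mul]
          · -- the monomial vanishes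
            have : (∏ j, (![0, 0, 1, 0] : Fin 4 → ℂ) j ^ (m.1 j : ℕ)) = 0 := by
              by_contra hne
              apply hm
              rw [← ne_eq, Finset.prod_ne_zero_iff] at hne
              have c0 := hne 0 (Finset.mem_univ _)
              have c1 := hne 1 (Finset.mem_univ _)
              have c3 := hne 3 (Finset.mem_univ _)
              simp at c0 c1 c3
              have hs := m.2
              rw [Fin.sum_univ_four] at hs
              apply Subtype.ext
              ext j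
              fin_cases j
              · simp [mz4, c0]
              · simp [mz4, c1]
              · simp [mz4]
                rw [c0, c1, c3] at hs
                simpa using hs
              · simp [mz4, c3]
            rw [this, mul_zero]
        have := congrFun (f.2 _ hz) 2
        simp at this
      refine ⟨-b / u, u, ?_⟩
      have hval : ∀ p : Idx, f.1 p.1 p.2 = u * K (-b / u) p.1 p.2 := by
        intro p
        by_cases hp : p ∈ supp
        · rw [mem_supp_iff] at hp
          rcases hp with rfl | rfl | rfl | rfl | rfl | rfl | rfl | rfl | rfl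
          · simp only [K_0_mx4]
            field_simp
            linear_combination g6
          · simp only [K_0_my4]
            field_simp
            linear_combination g6 + u * g2
          · simp only [K_0_mx2y2]
            linear_combination g1
          · simp only [K_1_mx4]
            field_simp
            rfl
          · simp only [K_1_my4]
            field_simp
            linear_combination g3
          · simp only [K_1_mx2y2]
            field_simp
            linear_combination g7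
          · simp only [K_2_mz4]
            linear_combination g4
          · simp only [K_2_mw4]
            linear_combination g5
          · simp only [K_3_mw4, mul_one]
            rfl
        · rw [hoff p hp, K_off_supp _ p hp, mul_zero]
      ext i m
      exact hval (i, m)

open MvPolynomial in
/-- generic coefficients: the member `t • K κ` as polynomials in `κ = X 0` and `t = X 1` -/
noncomputable def Kgen (p : Idx) : MvPolynomial (Fin 2) ℂ :=
  X 1 * (if p = (0, mx4) then X 0 ^ 2 else if p = (0, my4) then X 0 ^ 2 else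
    if p = (0, mx2y2) then C (-2) else if p = (1, mx4) then - X 0 else
    if p = (1, my4) then - X 0 else if p = (1, mx2y2) then C 2 * X 0 ^ 3 else
    if p = (2, mz4) then 1 else if p = (2, mw4) then C (-4) else if p = (3, mw4) then 1 else 0)

open MvPolynomial in
lemma eval_Kgen (κ t : ℂ) (p : Idx) : eval ![κ, t] (Kgen p) = t * K κ p.1 p.2 := by
  by_cases hp : p ∈ supp
  · rw [mem_supp_iff] at hp
    rcases hp with rfl | rfl | rfl | rfl | rfl | rfl | rfl | rfl | rfl
    · simp [Kgen, K_0_mx4]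
    · simp [Kgen, K_0_my4]
    · simp [Kgen, K_0_mx2y2, ne2.symm, ne3.symm]
    · simp [Kgen, K_1_mx4]
    · simp [Kgen, K_1_my4]
    · simp [Kgen, K_1_mx2y2, ne2.symm, ne3.symm]
    · simp [Kgen, K_2_mz4]
    · simp [Kgen, K_2_mw4, ne4.symm]
    · simp [Kgen, K_3_mw4]
  · rw [K_off_supp κ p hp]
    rw [mem_supp_iff] at hp
    simp only [not_or] at hp
    obtain ⟨h1, h2, h3, h4, h5, h6, h7, h8, h9⟩ := hp
    simp [Kgen, h1, h2, h3, h4, h5, h6, h7, h8, h9]

open MvPolynomial in
lemma eval_subst (P : MvPolynomial Idx ℂ) (κ t : ℂ) :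
    eval ![κ, t] (bind₁ Kgen P) = eval (fun p : Idx => t * K κ p.1 p.2) P := by
  have h := MvPolynomial.eval₂Hom_bind₁ (RingHom.id ℂ) ![κ, t] Kgen P
  have h2 : (fun p : Idx => t * K κ p.1 p.2) = fun p : Idx => eval₂Hom (RingHom.id ℂ) ![κ, t] (Kgen p) := by
    ext p
    exact (eval_Kgen κ t p).symm
  rw [h2]
  exact h

lemma good_two : Good 2 := ⟨by norm_num, by norm_num⟩

open MvPolynomial in
lemma Fam_irreducible : IsZariskiIrreducible Fam := by
  refine ⟨⟨fam 2 good_two, fam_mem 2 good_two⟩, ?_⟩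
  intro P Q h
  have key : bind₁ Kgen P * bind₁ Kgen Q * (X 1 * X 0 * (X 0 ^ 4 - 1)) = 0 := by
    apply MvPolynomial.funext
    intro v
    have hv : v = ![v 0, v 1] := by
      ext i; fin_cases i <;> rfl
    rw [hv, map_mul, map_mul, eval_subst, eval_subst, map_zero]
    by_cases hg : Good (v 0) ∧ v 1 ≠ 0
    · have := h ⟨v 1 • K (v 0), fun X hX => nondeg hg.1 hg.2 X hX⟩ ⟨v 0, v 1, rfl⟩
      simp only [coefEval] at this
      have e : (fun i : Idx => (v 1 • K (v 0)) i.1 i.2) = fun p : Idx => v 1 * K (v 0) p.1 p.2 := by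
        ext p; rfl
      rw [e] at this
      rw [this, zero_mul]
    · have : eval ![v 0, v 1] (X 1 * X 0 * (X 0 ^ 4 - 1) : MvPolynomial (Fin 2) ℂ) = 0 := by
        simp
        by_contra hne
        apply hg
        simp only [not_or] at hne
        exact ⟨⟨hne.1.2, fun h4 => hne.2 (by rw [h4, sub_self])⟩, hne.1.1⟩
      rw [this, mul_zero]
  have hne : (X 1 * X 0 * (X 0 ^ 4 - 1) : MvPolynomial (Fin 2) ℂ) ≠ 0 := by
    intro h0
    have := congrArg (eval ![2, 1]) h0
    simp at this
    norm_num at this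
  have hPQ := (mul_eq_zero.mp key).resolve_right hne
  have fin : ∀ R : MvPolynomial Idx ℂ, bind₁ Kgen R = 0 → ∀ f ∈ Fam, coefEval R f = 0 := by
    rintro R hR f ⟨κ, t, hf⟩
    have := eval_subst R κ t
    rw [hR, map_zero] at this
    unfold coefEval
    rw [hf]
    exact this.symm
  rcases mul_eq_zero.mp hPQ with h0 | h0
  · exact Or.inl (fin P h0)
  · exact Or.inr (fin Q h0)

/-- the projective map in terms of any representative -/
lemma pmap_mk {N d : ℕ} (f : Endo N d) (X : Fin (N + 1) → ℂ) (hX : X ≠ 0)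
    (hhom : ∀ (a : ℂ) (Y : Fin (N + 1) → ℂ), ev f.1 (a • Y) = a ^ d • ev f.1 Y) :
    pmap f (Projectivization.mk ℂ X hX) = Projectivization.mk ℂ (ev f.1 X) (fun h => hX (f.2 _ h)) := by
  unfold pmap
  obtain ⟨a, ha⟩ := Projectivization.exists_smul_eq_mk_rep ℂ X hX
  rw [Projectivization.mk_eq_mk_iff']
  refine ⟨(a : ℂ) ^ d, ?_⟩
  rw [← ha]
  exact (hhom a X).symm

lemma ev_hom {N d : ℕ} (c : Coef N d) (a : ℂ) (Y : Fin (N + 1) → ℂ) :
    ev c (a • Y) = a ^ d • ev c Y := by
  unfold ev
  ext i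
  simp only [Pi.smul_apply, smul_eq_mul, mul_pow, Finset.prod_mul_distrib, Finset.prod_pow_eq_pow_sum,
    Finset.mul_sum]
  apply Finset.sum_congr rfl
  intro m _
  rw [m.2]
  ring

lemma Fam_infinite : (pmap '' Fam).Infinite := by
  have hinf : (Set.univ : Set ℕ).Infinite := Set.infinite_univ
  have hgood : ∀ n : ℕ, Good ((n : ℂ) + 2) := by
    intro n
    have h : ((n : ℂ) + 2) = ((n + 2 : ℕ) : ℂ) := by push_cast; ring
    rw [h]
    refine ⟨by exact_mod_cast (by omega : n + 2 ≠ 0), ?_⟩
    intro h4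
    have : (n + 2) ^ 4 = 1 := by exact_mod_cast h4
    have h5 : 1 < (n + 2) ^ 4 := Nat.one_lt_pow (by norm_num) (by omega)
    omega
  refine Set.infinite_of_injective_forall_mem (f := fun n : ℕ => pmap (fam ((n : ℂ) + 2) (hgood n))) ?_ ?_
  · intro n m hnm
    simp only at hnm
    set a : ℂ := (n : ℂ) + 2 with ha
    set b : ℂ := (m : ℂ) + 2 with hb
    have hX : (![1, 0, 0, 0] : Fin 4 → ℂ) ≠ 0 := by
      intro h; have := congrFun h 0; simp at this
    have h1 := congrFun hnm (Projectivization.mk ℂ ![1, 0, 0, 0] hX)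
    rw [pmap_mk _ _ _ (ev_hom _), pmap_mk _ _ _ (ev_hom _), Projectivization.mk_eq_mk_iff'] at h1
    obtain ⟨t, ht⟩ := h1
    simp only [fam, ev_K] at ht
    have e0 := congrFun ht 0
    have e1 := congrFun ht 1
    simp [G] at e0 e1
    -- e0 : t * b ^ 2 = a ^ 2, e1 : t * b = a
    have hbne : b ≠ 0 := (hgood m).1
    have hane : a ≠ 0 := (hgood n).1
    have e1' : t * b = a := by linear_combination -e1
    have hab : a = b := by
      have : a * b = a * a := by
        linear_combination e0 - b * e1'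
      exact (mul_left_cancel₀ hane this).symm
    have : (n : ℂ) = m := by
      simpa [ha, hb] using hab
    exact_mod_cast this
  · intro n
    exact ⟨_, fam_mem _ _, rfl⟩

lemma Fam_algebraic : IsAlgebraicFamily Fam := ⟨Fam_closed, Fam_irreducible, Fam_infinite⟩

end Pool.Agent.H25.Dyn
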