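import Pool.Agent.H25.DynPCF
namespace Pool.Agent.H25.Dyn
open MeasureTheory

/-- invariance of the fourth power of a linear form under the symmetries of the family -/
structure InvForm (a : Fin 4 → ℂ) : Prop where
  h2 : ∀ x y z w : ℂ, (a 0 * x + a 1 * y + a 2 * (Complex.I * z) + a 3 * w) ^ 4 =
    (a 0 * x + a 1 * y + a 2 * z + a 3 * w) ^ 4
  h0 : ∀ x y z w : ℂ, (a 0 * (-x) + a 1 * y + a 2 * z + a 3 * w) ^ 4 =
    (a 0 * x + a 1 * y + a 2 * z + a 3 * w) ^ 4
  hs : ∀ x y z w : ℂ, (a 0 * y + a 1 * x + a 2 * z + a 3 * w) ^ 4 =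
    (a 0 * x + a 1 * y + a 2 * z + a 3 * w) ^ 4

lemma I_sub_one_ne : (Complex.I - 1) ≠ 0 := by
  intro h
  have := congrArg Complex.im h
  simp at this

lemma InvForm.key {a : Fin 4 → ℂ} (h : InvForm a) : a 0 = 0 ∧ a 1 = 0 ∧ (a 2 = 0 ∨ a 3 = 0) := by
  have h1 : a 1 ≠ 0 → a 0 = 0 := by
    intro h1
    have := h.h0 1 (-(a 0) / a 1) 0 0
    have e : a 1 * (-(a 0) / a 1) = - a 0 := by field_simp
    rw [e] at this
    have e2 : (a 0 * -1 + -a 0 + a 2 * 0 + a 3 * 0) ^ 4 = 16 * a 0 ^ 4 := by ring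
    have e3 : (a 0 * 1 + -a 0 + a 2 * 0 + a 3 * 0) ^ 4 = 0 := by ring
    rw [e2, e3] at this
    have : a 0 ^ 4 = 0 := by linear_combination (1/16 : ℂ) * this
    exact (pow_eq_zero_iff (by norm_num)).mp this
  have h4 := h.hs 1 0 0 0
  have h4' : a 1 ^ 4 = a 0 ^ 4 := by linear_combination h4
  have h01 : a 0 = 0 ∧ a 1 = 0 := by
    by_cases h5 : a 1 = 0
    · rw [h5] at h4'
      have : a 0 ^ 4 = 0 := by linear_combination -h4'
      exact ⟨(pow_eq_zero_iff (by norm_num)).mp this, h5⟩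
    · have h6 := h1 h5
      rw [h6] at h4'
      have : a 1 ^ 4 = 0 := by linear_combination h4'
      exact ⟨h6, (pow_eq_zero_iff (by norm_num)).mp this⟩
  refine ⟨h01.1, h01.2, ?_⟩
  by_cases h3 : a 3 = 0
  · exact Or.inr h3
  · left
    have := h.h2 0 0 1 (-(a 2) / a 3)
    have e : a 3 * (-(a 2) / a 3) = - a 2 := by field_simp
    rw [e] at this
    have e2 : (a 0 * 0 + a 1 * 0 + a 2 * (Complex.I * 1) + -a 2) ^ 4 =
      (a 2 * (Complex.I - 1)) ^ 4 := by ring
    have e3 : (a 0 * 0 + a 1 * 0 + a 2 * 1 + -a 2) ^ 4 = 0 := by ring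
    rw [e2, e3] at this
    have h7 := (pow_eq_zero_iff (by norm_num)).mp this
    exact (mul_eq_zero.mp h7).resolve_right I_sub_one_ne

/-- structure of conjugacies -/
lemma conj_structure {κ κ' t : ℂ} (hκ' : Good κ') (A : Matrix (Fin 4) (Fin 4) ℂ)
    (hA : A.det ≠ 0) (ht : t ≠ 0)
    (h : ∀ X, ev (K κ') (A.mulVec X) = t • A.mulVec (ev (K κ) X)) :
    A 3 0 = 0 ∧ A 3 1 = 0 ∧ A 3 2 = 0 ∧ A 2 0 = 0 ∧ A 2 1 = 0 ∧ A 2 3 = 0 ∧
    A 0 2 = 0 ∧ A 1 2 = 0 ∧ A 0 3 = 0 ∧ A 1 3 = 0 := by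
  have hmv : ∀ (X : Fin 4 → ℂ) i, A.mulVec X i = A i 0 * X 0 + A i 1 * X 1 + A i 2 * X 2 + A i 3 * X 3 := by
    intro X i
    simp [Matrix.mulVec, dotProduct, Fin.sum_univ_four]
  -- equations by components, with explicit coordinates
  have h3 : ∀ x y z w : ℂ, (A 3 0 * x + A 3 1 * y + A 3 2 * z + A 3 3 * w) ^ 4 =
      t * (A 3 0 * (G κ x y).1 + A 3 1 * (G κ x y).2 + A 3 2 * (z ^ 4 - 4 * w ^ 4) + A 3 3 * w ^ 4) := by
    intro x y z w
    have := congrFun (h ![x, y, z, w]) 3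
    rw [ev_K, ev_K] at this
    simpa [hmv] using this
  have h2 : ∀ x y z w : ℂ, (A 2 0 * x + A 2 1 * y + A 2 2 * z + A 2 3 * w) ^ 4 -
      4 * (A 3 0 * x + A 3 1 * y + A 3 2 * z + A 3 3 * w) ^ 4 =
      t * (A 2 0 * (G κ x y).1 + A 2 1 * (G κ x y).2 + A 2 2 * (z ^ 4 - 4 * w ^ 4) + A 2 3 * w ^ 4) := by
    intro x y z w
    have := congrFun (h ![x, y, z, w]) 2
    rw [ev_K, ev_K] at this
    simpa [hmv] using this
  have hGx : ∀ x y : ℂ, G κ (-x) y = G κ x y := by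
    intro x y; unfold G; refine Prod.ext ?_ ?_ <;> simp only <;> ring
  have hGs : ∀ x y : ℂ, G κ y x = G κ x y := by
    intro x y; unfold G; refine Prod.ext ?_ ?_ <;> simp only <;> ring
  have hI : ∀ z : ℂ, (Complex.I * z) ^ 4 = z ^ 4 := by
    intro z; rw [mul_pow, Complex.I_pow_four, one_mul]
  have inv3 : InvForm (A 3) := by
    refine ⟨?_, ?_, ?_⟩
    · intro x y z w
      rw [h3, h3 x y z w, hI]
    · intro x y z w
      rw [h3, h3 x y z w, hGx]
    · intro x y z w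
      have := h3 y x z w
      rw [hGs] at this
      rw [h3 x y z w, ← this]
  obtain ⟨a30, a31, a32⟩ := inv3.key
  have a32' : A 3 2 = 0 := by
    rcases a32 with h5 | h5
    · exact h5
    · have := h3 0 0 0 1
      rw [a30, a31, h5] at this
      have h6 : t * A 3 2 = 0 := by
        simp at this
        rcases this with h7 | h7
        · exact absurd h7 ht
        · rw [h7, mul_zero]
      exact (mul_eq_zero.mp h6).resolve_left ht
  have a33 : A 3 3 ≠ 0 := by
    intro h5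
    apply hA
    apply Matrix.det_eq_zero_of_row_eq_zero 3
    intro j
    fin_cases j
    · exact a30
    · exact a31
    · exact a32'
    · exact h5
  have h2' : ∀ x y z w : ℂ, (A 2 0 * x + A 2 1 * y + A 2 2 * z + A 2 3 * w) ^ 4 =
      t * (A 2 0 * (G κ x y).1 + A 2 1 * (G κ x y).2 + A 2 2 * (z ^ 4 - 4 * w ^ 4) + A 2 3 * w ^ 4) +
      4 * (A 3 3 * w) ^ 4 := by
    intro x y z w
    have := h2 x y z w
    rw [a30, a31, a32'] at this
    linear_combination this
  have inv2 : InvForm (A 2) := by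
    refine ⟨?_, ?_, ?_⟩
    · intro x y z w
      rw [h2', h2' x y z w, hI]
    · intro x y z w
      rw [h2', h2' x y z w, hGx]
    · intro x y z w
      have := h2' y x z w
      rw [hGs] at this
      rw [h2' x y z w, ← this]
  obtain ⟨a20, a21, a2⟩ := inv2.key
  have a22 : A 2 2 ≠ 0 := by
    intro h5
    apply hA
    rw [Matrix.det_succ_row A 3]
    simp only [Fin.sum_univ_four, a30, a31, a32', mul_zero, zero_mul, zero_add]
    have : (A.submatrix (Fin.succAbove 3) (Fin.succAbove (3 : Fin 4))).det = 0 := by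
      apply Matrix.det_eq_zero_of_row_eq_zero 2
      intro j
      fin_cases j
      · exact a20
      · exact a21
      · exact h5
    rw [this, mul_zero]
  have a23 : A 2 3 = 0 := a2.resolve_left a22
  -- the upper left block is invertible
  have hdet : A.det = (A 0 0 * A 1 1 - A 0 1 * A 1 0) * A 2 2 * A 3 3 := by
    simp [Matrix.det_succ_row_zero, Fin.sum_univ_succ, a30, a31, a32', a20, a21, a23,
      show (Fin.succAbove (1 : Fin 4) (2 : Fin 3)) = 3 from rfl,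
      show (Fin.succAbove (1 : Fin 4) (1 : Fin 3)) = 2 from rfl,
      show (Fin.succAbove (2 : Fin 4) (1 : Fin 3)) = 1 from rfl,
      show (Fin.succAbove (2 : Fin 4) (2 : Fin 3)) = 3 from rfl]
    ring
  have hD : A 0 0 * A 1 1 - A 0 1 * A 1 0 ≠ 0 := by
    intro h5
    apply hA
    rw [hdet, h5]
    ring
  have h01 : ∀ x y z w : ℂ, G κ' (A 0 0 * x + A 0 1 * y + A 0 2 * z + A 0 3 * w)
      (A 1 0 * x + A 1 1 * y + A 1 2 * z + A 1 3 * w) =
      (t * (A 0 0 * (G κ x y).1 + A 0 1 * (G κ x y).2 + A 0 2 * (z ^ 4 - 4 * w ^ 4) + A 0 3 * w ^ 4),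
       t * (A 1 0 * (G κ x y).1 + A 1 1 * (G κ x y).2 + A 1 2 * (z ^ 4 - 4 * w ^ 4) + A 1 3 * w ^ 4)) := by
    intro x y z w
    have e0 := congrFun (h ![x, y, z, w]) 0
    have e1 := congrFun (h ![x, y, z, w]) 1
    rw [ev_K, ev_K] at e0 e1
    refine Prod.ext ?_ ?_
    · simpa [hmv] using e0
    · simpa [hmv] using e1
  have hG0 : G κ' 0 0 = 0 := by unfold G; simp
  -- solving the linear system
  have solve : ∀ p q : ℂ, ∃ x y : ℂ, A 0 0 * x + A 0 1 * y = p ∧ A 1 0 * x + A 1 1 * y = q := by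
    intro p q
    refine ⟨(p * A 1 1 - q * A 0 1) / (A 0 0 * A 1 1 - A 0 1 * A 1 0),
      (A 0 0 * q - A 1 0 * p) / (A 0 0 * A 1 1 - A 0 1 * A 1 0), ?_, ?_⟩
    · rw [← mul_div_assoc, ← mul_div_assoc, ← add_div, div_eq_iff hD]
      ring
    · rw [← mul_div_assoc, ← mul_div_assoc, ← add_div, div_eq_iff hD]
      ring
  have a02 : A 0 2 = 0 ∧ A 1 2 = 0 := by
    obtain ⟨x, y, hx, hy⟩ := solve (-(A 0 2)) (-(A 1 2))
    have e1 := h01 x y 1 0
    have e2 := h01 x y (Complex.I * 1) 0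
    rw [hI, ← e1, hx, hy] at e2
    have e3 : (-(A 0 2) + A 0 2 * 1 + A 0 3 * 0) = 0 := by ring
    have e4 : (-(A 1 2) + A 1 2 * 1 + A 1 3 * 0) = 0 := by ring
    have e5 : (-(A 0 2) + A 0 2 * (Complex.I * 1) + A 0 3 * 0) = A 0 2 * (Complex.I - 1) := by ring
    have e6 : (-(A 1 2) + A 1 2 * (Complex.I * 1) + A 1 3 * 0) = A 1 2 * (Complex.I - 1) := by ring
    rw [e3, e4, e5, e6, hG0] at e2
    obtain ⟨f1, f2⟩ := G_eq_zero hκ' e2
    exact ⟨(mul_eq_zero.mp f1).resolve_right I_sub_one_ne,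
      (mul_eq_zero.mp f2).resolve_right I_sub_one_ne⟩
  have a03 : A 0 3 = 0 ∧ A 1 3 = 0 := by
    obtain ⟨x, y, hx, hy⟩ := solve (-(A 0 3)) (-(A 1 3))
    have e1 := h01 x y 0 1
    have e2 := h01 x y 0 (Complex.I * 1)
    rw [hI, ← e1, hx, hy] at e2
    have e3 : (-(A 0 3) + A 0 2 * 0 + A 0 3 * 1) = 0 := by ring
    have e4 : (-(A 1 3) + A 1 2 * 0 + A 1 3 * 1) = 0 := by ring
    have e5 : (-(A 0 3) + A 0 2 * 0 + A 0 3 * (Complex.I * 1)) = A 0 3 * (Complex.I - 1) := by ring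
    have e6 : (-(A 1 3) + A 1 2 * 0 + A 1 3 * (Complex.I * 1)) = A 1 3 * (Complex.I - 1) := by ring
    rw [e3, e4, e5, e6, hG0] at e2
    obtain ⟨f1, f2⟩ := G_eq_zero hκ' e2
    exact ⟨(mul_eq_zero.mp f1).resolve_right I_sub_one_ne,
      (mul_eq_zero.mp f2).resolve_right I_sub_one_ne⟩
  exact ⟨a30, a31, a32', a20, a21, a23, a02.1, a02.2, a03.1, a03.2⟩

/-- reduction to two variables: a linear conjugacy of the Lattès lifts mapping critical lines to
critical lines -/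
lemma conj_two {κ κ' : ℂ} (hκ : Good κ) (hκ' : Good κ')
    (h : IsConjugate (fam κ hκ) (fam κ' hκ')) :
    ∃ a b c d t : ℂ, a * d - b * c ≠ 0 ∧ t ≠ 0 ∧
      (∀ x y, G κ' (a * x + b * y) (c * x + d * y) =
        (t * (a * (G κ x y).1 + b * (G κ x y).2), t * (c * (G κ x y).1 + d * (G κ x y).2))) ∧
      (∀ x y, W x y = 0 → W (a * x + b * y) (c * x + d * y) = 0) := by
  obtain ⟨A, t, hA, ht, h⟩ := h
  have h' : ∀ X, ev (K κ') (A.mulVec X) = t • A.mulVec (ev (K κ) X) := h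
  obtain ⟨a30, a31, a32, a20, a21, a23, a02, a12, a03, a13⟩ := conj_structure hκ' A hA ht h'
  have hdet : A.det = (A 0 0 * A 1 1 - A 0 1 * A 1 0) * A 2 2 * A 3 3 := by
    simp [Matrix.det_succ_row_zero, Fin.sum_univ_succ, a30, a31, a32, a20, a21, a23,
      show (Fin.succAbove (1 : Fin 4) (2 : Fin 3)) = 3 from rfl,
      show (Fin.succAbove (1 : Fin 4) (1 : Fin 3)) = 2 from rfl,
      show (Fin.succAbove (2 : Fin 4) (1 : Fin 3)) = 1 from rfl,
      show (Fin.succAbove (2 : Fin 4) (2 : Fin 3)) = 3 from rfl]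
    ring
  have hD : A 0 0 * A 1 1 - A 0 1 * A 1 0 ≠ 0 := by
    intro h5; apply hA; rw [hdet, h5]; ring
  have h22 : A 2 2 ≠ 0 := by
    intro h5; apply hA; rw [hdet, h5]; ring
  have h33 : A 3 3 ≠ 0 := by
    intro h5; apply hA; rw [hdet, h5]; ring
  have hmv : ∀ (X : Fin 4 → ℂ) i, A.mulVec X i = A i 0 * X 0 + A i 1 * X 1 + A i 2 * X 2 + A i 3 * X 3 := by
    intro X i
    simp [Matrix.mulVec, dotProduct, Fin.sum_univ_four]
  refine ⟨A 0 0, A 0 1, A 1 0, A 1 1, t, hD, ht, ?_, ?_⟩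
  · intro x y
    have e0 := congrFun (h' ![x, y, 0, 0]) 0
    have e1 := congrFun (h' ![x, y, 0, 0]) 1
    rw [ev_K, ev_K] at e0 e1
    refine Prod.ext ?_ ?_
    · simpa [hmv, a02, a12, a03, a13] using e0
    · simpa [hmv, a02, a12, a03, a13] using e1
  · intro x y hW
    -- derivative of the conjugacy equation
    set X : Fin 4 → ℂ := ![x, y, 1, 1] with hX
    have hAX : HasFDerivAt (fun Y : Fin 4 → ℂ => A.mulVec Y)
        (LinearMap.toContinuousLinearMap (Matrix.toLin' A)) X :=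
      (LinearMap.toContinuousLinearMap (Matrix.toLin' A)).hasFDerivAt
    have d1 := (hasFDerivAt_ev κ' (A.mulVec X)).comp X hAX
    have d2 := ((LinearMap.toContinuousLinearMap (Matrix.toLin' A)).hasFDerivAt.comp X
      (hasFDerivAt_ev κ X)).const_smul t
    have hfun : (ev (K κ') ∘ fun Y : Fin 4 → ℂ => A.mulVec Y) =
        t • ((LinearMap.toContinuousLinearMap (Matrix.toLin' A)) ∘ ev (K κ)) := by
      funext Y
      exact h' Y
    rw [hfun] at d1
    have heq := d1.unique d2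
    have hmat : JM κ' (A.mulVec X) * A = t • (A * JM κ X) := by
      apply Matrix.toLin'.injective
      apply LinearMap.ext
      intro v
      have h5 := congrArg (fun D => D v) heq
      simpa [Matrix.toLin'_mul, Matrix.toLin'_apply, Matrix.smul_mulVec] using h5
    have hdets := congrArg Matrix.det hmat
    rw [Matrix.det_mul, Matrix.det_smul, Matrix.det_mul] at hdets
    rw [det_JM, det_JM] at hdets
    have e0 : W (X 0) (X 1) = 0 := by simpa [hX] using hW
    rw [e0] at hdets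
    simp only [hmv] at hdets
    rw [a30, a31, a32, a20, a21, a23, a02, a12, a03, a13] at hdets
    have hX0 : X 0 = x := rfl
    have hX1 : X 1 = y := rfl
    have hX2 : X 2 = 1 := rfl
    have hX3 : X 3 = 1 := rfl
    rw [hX0, hX1, hX2, hX3] at hdets
    simp only [mul_zero, zero_mul, add_zero, zero_add, mul_one] at hdets
    have hc : 256 * κ' * (κ' ^ 4 - 1) ≠ 0 :=
      mul_ne_zero (mul_ne_zero (by norm_num) hκ'.1) (sub_ne_zero.mpr hκ'.2)
    have : (256 * κ' * (κ' ^ 4 - 1)) * (A 2 2 ^ 3 * A 3 3 ^ 3 * A.det) *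
        W (A 0 0 * x + A 0 1 * y) (A 1 0 * x + A 1 1 * y) = 0 := by
      linear_combination hdets
    have hne : (256 * κ' * (κ' ^ 4 - 1)) * (A 2 2 ^ 3 * A 3 3 ^ 3 * A.det) ≠ 0 :=
      mul_ne_zero hc (mul_ne_zero (mul_ne_zero (pow_ne_zero _ h22) (pow_ne_zero _ h33)) hA)
    exact (mul_eq_zero.mp this).resolve_left hne

/-- representatives of the six critical lines -/
noncomputable def E6 : Fin 6 → ℂ × ℂ :=
  ![(1, 0), (0, 1), (1, 1), (1, -1), (1, Complex.I), (1, -Complex.I)]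

lemma W_zero_cases {x y : ℂ} (h : W x y = 0) (hne : ¬ (x = 0 ∧ y = 0)) :
    ∃ (k : Fin 6) (c : ℂ), c ≠ 0 ∧ x = c * (E6 k).1 ∧ y = c * (E6 k).2 := by
  by_cases hx : x = 0
  · have hy : y ≠ 0 := fun hy => hne ⟨hx, hy⟩
    exact ⟨1, y, hy, by simp [E6, hx], by simp [E6]⟩
  by_cases hy : y = 0
  · exact ⟨0, x, hx, by simp [E6], by simp [E6, hy]⟩
  have h4 : x ^ 4 - y ^ 4 = 0 := by
    unfold W at h
    exact (mul_eq_zero.mp h).resolve_left (mul_ne_zero hx hy)
  have hfac : (y - x) * (y + x) * (y - Complex.I * x) * (y + Complex.I * x) = 0 := by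
    have : (y - x) * (y + x) * (y - Complex.I * x) * (y + Complex.I * x) =
      (y ^ 2 - x ^ 2) * (y ^ 2 - Complex.I ^ 2 * x ^ 2) := by ring
    rw [this, Complex.I_sq]
    linear_combination -h4
  rcases mul_eq_zero.mp hfac with h5 | h5
  · rcases mul_eq_zero.mp h5 with h6 | h6
    · rcases mul_eq_zero.mp h6 with h7 | h7
      · exact ⟨2, x, hx, by simp [E6], by simp [E6]; linear_combination h7⟩
      · exact ⟨3, x, hx, by simp [E6], by simp [E6]; linear_combination h7⟩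
    · exact ⟨4, x, hx, by simp [E6], by simp [E6]; linear_combination h6⟩
  · exact ⟨5, x, hx, by simp [E6], by simp [E6]; linear_combination h5⟩

/-- the second image of a critical line is the line through `(κ, 1)` -/
lemma GG_crit {κ x y : ℂ} (h : W x y = 0) :
    (G κ (G κ x y).1 (G κ x y).2).1 = κ * (G κ (G κ x y).1 (G κ x y).2).2 := by
  have h1 : ∀ u v : ℂ, (G κ u v).1 - κ * (G κ u v).2 = 2 * QQ κ u v := by
    intro u v; unfold G QQ; ring
  have h2 := h1 (G κ x y).1 (G κ x y).2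
  rw [QQ_G, h] at h2
  linear_combination h2

lemma G_hom (κ a x y : ℂ) : G κ (a * x) (a * y) = (a ^ 4 * (G κ x y).1, a ^ 4 * (G κ x y).2) := by
  unfold G
  refine Prod.ext ?_ ?_ <;> simp only <;> ring

/-- data attached to a conjugacy from the member `2` to the member `κ'` -/
lemma conj_data {κ' : ℂ} (hκ' : Good κ') (h : IsConjugate (fam 2 good_two) (fam κ' hκ')) :
    ∃ (k0 k1 k2 : Fin 6) (α β γ s : ℂ), γ ≠ 0 ∧ s ≠ 0 ∧
      (α * (E6 k0).1) * (β * (E6 k1).2) - (β * (E6 k1).1) * (α * (E6 k0).2) ≠ 0 ∧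
      α * (E6 k0).1 + β * (E6 k1).1 = γ * (E6 k2).1 ∧
      α * (E6 k0).2 + β * (E6 k1).2 = γ * (E6 k2).2 ∧
      2 * (α * (E6 k0).1) + β * (E6 k1).1 = s * κ' ∧
      2 * (α * (E6 k0).2) + β * (E6 k1).2 = s := by
  obtain ⟨a, b, c, d, t, hD, ht, hG, hW⟩ := conj_two good_two hκ' h
  have w0 := hW 1 0 (by simp [W])
  have w1 := hW 0 1 (by simp [W])
  have w2 := hW 1 1 (by simp [W])
  simp only [mul_one, mul_zero, add_zero, zero_add] at w0 w1 w2
  obtain ⟨k0, α, hα, ha, hc⟩ := W_zero_cases w0 (by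
    rintro ⟨h1, h2⟩; apply hD; rw [h1, h2]; ring)
  obtain ⟨k1, β, hβ, hb, hd⟩ := W_zero_cases w1 (by
    rintro ⟨h1, h2⟩; apply hD; rw [h1, h2]; ring)
  obtain ⟨k2, γ, hγ, hab, hcd⟩ := W_zero_cases w2 (by
    rintro ⟨h1, h2⟩
    apply hD
    have e1 : b = -a := by linear_combination h1
    have e2 : d = -c := by linear_combination h2
    rw [e1, e2]; ring)
  -- image of (2, 1)
  have hGG : G κ' (2 * a + b) (2 * c + d) = G κ' (2 * a + b) (2 * c + d) := rfl
  -- compute `M (2,1)` from the critical line through (0,1)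
  have e1 : G 2 0 1 = (4, -2) := by unfold G; norm_num
  have e2 : G 2 4 (-2) = (480 * 2, 480) := by unfold G; norm_num
  have g1 := hG 0 1
  rw [e1] at g1
  simp only [mul_zero, zero_add, mul_one] at g1
  have g2 := hG 4 (-2)
  rw [e2] at g2
  simp only at g2
  have g3 : G κ' (t * (a * 4 + b * -2)) (t * (c * 4 + d * -2)) =
      (t ^ 4 * (t * (a * (480 * 2) + b * 480)), t ^ 4 * (t * (c * (480 * 2) + d * 480))) := by
    rw [G_hom]
    have : G κ' (a * 4 + b * -2) (c * 4 + d * -2) = (t * (a * (480 * 2) + b * 480), t * (c * (480 * 2) + d * 480)) := g2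
    rw [this]
  have g4 := GG_crit (κ := κ') w1
  rw [g1] at g4
  simp only at g4
  rw [g3] at g4
  simp only at g4
  have g5 : (2 * a + b) = κ' * (2 * c + d) := by
    have hne : t ^ 5 * 480 ≠ 0 := mul_ne_zero (pow_ne_zero _ ht) (by norm_num)
    have : (t ^ 5 * 480) * (2 * a + b) = (t ^ 5 * 480) * (κ' * (2 * c + d)) := by
      linear_combination g4
    exact mul_left_cancel₀ hne this
  refine ⟨k0, k1, k2, α, β, γ, 2 * c + d, hγ, ?_, ?_, ?_, ?_, ?_, ?_⟩
  · intro h0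
    rw [h0, mul_zero] at g5
    apply hD
    have e3 : b = - 2 * a := by linear_combination g5
    have e4 : d = - 2 * c := by linear_combination h0
    rw [e3, e4]; ring
  · rw [← ha, ← hb, ← hc, ← hd]
    exact hD
  · rw [← ha, ← hb]; exact hab
  · rw [← hc, ← hd]; exact hcd
  · rw [← ha, ← hb, g5]; ring
  · rw [← hc, ← hd]

lemma good_nat (n : ℕ) : Good ((n : ℂ) + 2) := by
  have h : ((n : ℂ) + 2) = ((n + 2 : ℕ) : ℂ) := by push_cast; ring
  rw [h]
  refine ⟨by exact_mod_cast (by omega : n + 2 ≠ 0), ?_⟩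
  intro h4
  have : (n + 2) ^ 4 = 1 := by exact_mod_cast h4
  have h5 : 1 < (n + 2) ^ 4 := Nat.one_lt_pow (by norm_num) (by omega)
  omega

lemma Fam_not_isotrivial : ¬ IsIsotrivial Fam := by
  intro hiso
  have hc : ∀ n : ℕ, IsConjugate (fam 2 good_two) (fam ((n : ℂ) + 2) (good_nat n)) := fun n =>
    hiso _ (fam_mem _ _) _ (fam_mem _ _)
  choose k0 k1 k2 α β γ s hγ hs hD h1 h2 h3 h4 using fun n => conj_data (good_nat n) (hc n)
  obtain ⟨n, m, hnm, he⟩ := Finite.exists_ne_map_eq_of_infinite (fun n => (k0 n, k1 n, k2 n))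
  simp only [Prod.mk.injEq] at he
  obtain ⟨e0, e1, e2⟩ := he
  have a1 := h1 n
  have a2 := h2 n
  have a3 := h3 n
  have a4 := h4 n
  have aD := hD n
  have b1 := h1 m
  have b2 := h2 m
  have b3 := h3 m
  have b4 := h4 m
  rw [← e0, ← e1] at b3 b4
  rw [← e0, ← e1, ← e2] at b1 b2
  set p := (E6 (k0 n)).1
  set q := (E6 (k0 n)).2
  set u := (E6 (k1 n)).1
  set v := (E6 (k1 n)).2
  have hpq : p * v - u * q ≠ 0 := by
    intro h0
    apply aD
    linear_combination (α n * β n) * h0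
  -- proportionality of the scalars
  have c1 : (γ m * α n - γ n * α m) * (p * v - u * q) = 0 := by
    linear_combination (γ m * v) * a1 - (γ n * v) * b1 - (γ m * u) * a2 + (γ n * u) * b2
  have c2 : (γ m * β n - γ n * β m) * (p * v - u * q) = 0 := by
    linear_combination (-γ m * q) * a1 + (γ n * q) * b1 + (γ m * p) * a2 - (γ n * p) * b2
  have c1' := (mul_eq_zero.mp c1).resolve_right hpq
  have c2' := (mul_eq_zero.mp c2).resolve_right hpq
  have c3 : γ m * s n = γ n * s m := by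
    linear_combination (-γ m) * a4 + γ n * b4 + 2 * q * c1' + v * c2'
  have c4 : γ m * s n * ((n : ℂ) + 2) = γ n * s m * ((m : ℂ) + 2) := by
    linear_combination (-γ m) * a3 + γ n * b3 + 2 * p * c1' + u * c2'
  rw [c3] at c4
  have c5 := mul_left_cancel₀ (mul_ne_zero (hγ n) (hs m)) c4
  apply hnm
  have : (n : ℂ) = m := by simpa using c5
  exact_mod_cast this

end Pool.Agent.H25.Dyn
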