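import Pool.Agent.H25.DynPCF
namespace Pool.Agent.H25.Dyn
open MeasureTheory

lemma not_lattes_aux {N d : ℕ} {f : Endo N d} (a : PSpace N) (ha : ∀ x, pmap f x = a ↔ x = a)
    (y₀ y₁ : PSpace N) (hy₀ : pmap f y₀ = y₀) (hy₁ : pmap f y₁ = y₀) (hne : y₁ ≠ y₀) :
    ¬ IsLattes f := by
  rintro ⟨Λ, A, Θ, hΛ, ⟨L, b, hA⟩, -, hsurj, hfin, hcomm⟩
  have : DiscreteTopology Λ := hΛ.1
  have : Countable Λ := TopologicalSpace.separableSpace_iff_countable.mp inferInstance
  set F : Set ((Fin N → ℂ) ⧸ Λ) := Θ ⁻¹' {a} with hF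
  have hFA : ∀ p, A p ∈ F ↔ p ∈ F := by
    intro p
    simp only [hF, Set.mem_preimage, Set.mem_singleton_iff]
    rw [← hcomm, ha]
  obtain ⟨p₀, hp₀⟩ := hsurj a
  have hp₀F : p₀ ∈ F := hp₀
  obtain ⟨v₀, rfl⟩ := QuotientAddGroup.mk_surjective p₀
  have hFfin : Finite F := (hfin a).to_subtype
  -- `L` is injective
  have hLinj : Function.Injective L := by
    rw [injective_iff_map_eq_zero]
    intro v hv
    by_contra hv0
    have hmem : ∀ c : ℝ, (QuotientAddGroup.mk (v₀ + c • v) : (Fin N → ℂ) ⧸ Λ) ∈ F := by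
      intro c
      rw [← hFA, hA]
      have : L (v₀ + c • v) + b = L v₀ + b := by
        have e : (c • v) = ((c : ℂ) • v) := by
          ext i; simp
        rw [e, map_add, map_smul, hv, smul_zero, add_zero]
      rw [this, ← hA, hFA]
      exact hp₀F
    let g : ℝ → F := fun c => ⟨QuotientAddGroup.mk (v₀ + c • v), hmem c⟩
    have hs : ∀ c : ℝ, g (Function.invFun g (g c)) = g c := fun c =>
      Function.invFun_eq ⟨c, rfl⟩
    have hdiff : ∀ c : ℝ, (c - Function.invFun g (g c)) • v ∈ Λ := by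
      intro c
      have h1 := congrArg Subtype.val (hs c)
      simp only [g] at h1
      rw [QuotientAddGroup.eq] at h1
      have h2 : -(v₀ + (Function.invFun g (g c)) • v) + (v₀ + c • v) =
          (c - Function.invFun g (g c)) • v := by
        rw [sub_smul]; abel
      rw [← h2]
      exact h1
    let h : ℝ → F × Λ := fun c => (g c, ⟨(c - Function.invFun g (g c)) • v, hdiff c⟩)
    have hinj : Function.Injective h := by
      intro c c' hcc
      have h1 : g c = g c' := congrArg Prod.fst hcc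
      have h2 : (c - Function.invFun g (g c)) • v = (c' - Function.invFun g (g c')) • v :=
        congrArg (fun x => (x.2 : Fin N → ℂ)) hcc
      rw [h1] at h2
      have h3 := smul_left_injective ℝ hv0 h2
      simpa using h3
    have : Countable ℝ := hinj.countable
    exact not_countable (α := ℝ) this
  have hLsurj : Function.Surjective L := LinearMap.injective_iff_surjective.mp hLinj
  have hAsurj : Function.Surjective A := by
    intro q
    obtain ⟨w, rfl⟩ := QuotientAddGroup.mk_surjective q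
    obtain ⟨v, hv⟩ := hLsurj (w - b)
    exact ⟨QuotientAddGroup.mk v, by rw [hA, hv, sub_add_cancel]⟩
  -- `A` is injective on `F`
  have hAF : Set.InjOn A F := by
    let r : F → F := fun p => ⟨A p, (hFA p).mpr p.2⟩
    have hr : Function.Surjective r := by
      rintro ⟨q, hq⟩
      obtain ⟨p, hp⟩ := hAsurj q
      exact ⟨⟨p, (hFA p).mp (by rw [hp]; exact hq)⟩, Subtype.ext hp⟩
    have hri : Function.Injective r := Finite.injective_iff_surjective.mpr hr
    intro p hp q hq hpq
    have := @hri ⟨p, hp⟩ ⟨q, hq⟩ (Subtype.ext hpq)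
    exact congrArg Subtype.val this
  have hAinj : Function.Injective A := by
    intro p q hpq
    obtain ⟨v, rfl⟩ := QuotientAddGroup.mk_surjective p
    obtain ⟨w, rfl⟩ := QuotientAddGroup.mk_surjective q
    rw [hA, hA, QuotientAddGroup.eq] at hpq
    have h1 : A (QuotientAddGroup.mk (v₀ + (w - v))) = A (QuotientAddGroup.mk v₀) := by
      rw [hA, hA, QuotientAddGroup.eq]
      have : -(L (v₀ + (w - v)) + b) + (L v₀ + b) = -(-(L v + b) + (L w + b)) := by
        rw [map_add, map_sub]; abel
      rw [this]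
      exact neg_mem hpq
    have h2 : (QuotientAddGroup.mk (v₀ + (w - v)) : (Fin N → ℂ) ⧸ Λ) ∈ F := by
      rw [← hFA, h1, hFA]; exact hp₀F
    have h3 := hAF h2 hp₀F h1
    rw [QuotientAddGroup.eq] at h3 ⊢
    have : -(v₀ + (w - v)) + v₀ = -(-v + w) := by abel
    rw [this] at h3
    exact neg_mem_iff.mp h3
  -- fibre over the fixed point
  set E : Set ((Fin N → ℂ) ⧸ Λ) := Θ ⁻¹' {y₀} with hE
  have hEfin : Finite E := (hfin y₀).to_subtype
  have hAE : ∀ p ∈ E, A p ∈ E := by
    intro p hp
    have hp' : Θ p = y₀ := hp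
    change Θ (A p) = y₀
    rw [← hcomm, hp', hy₀]
  let r : E → E := fun p => ⟨A p, hAE p p.2⟩
  have hri : Function.Injective r := by
    intro p q hpq
    exact Subtype.ext (hAinj (congrArg Subtype.val hpq))
  have hrs : Function.Surjective r := Finite.injective_iff_surjective.mp hri
  obtain ⟨p₁, hp₁⟩ := hsurj y₁
  have h1 : A p₁ ∈ E := by
    change Θ (A p₁) = y₀
    rw [← hcomm, hp₁, hy₁]
  obtain ⟨⟨q, hq⟩, hqe⟩ := hrs ⟨A p₁, h1⟩
  have h2 : q = p₁ := hAinj (congrArg Subtype.val hqe)
  apply hne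
  rw [← hp₁, ← h2]
  exact hq

lemma G_fixed {κ : ℂ} (hκ : Good κ) : ∃ x y : ℂ, y ≠ 0 ∧ G κ x y = (x, y) := by
  obtain ⟨h0, h1⟩ := hκ
  have h1' : κ ^ 4 - 1 ≠ 0 := sub_ne_zero.mpr h1
  obtain ⟨c, hc⟩ := IsAlgClosed.exists_pow_nat_eq ((κ * (κ ^ 4 - 1))⁻¹) (n := 3) (by norm_num)
  have hc' : c ^ 3 * (κ * (κ ^ 4 - 1)) = 1 := by
    rw [hc]; exact inv_mul_cancel₀ (mul_ne_zero h0 h1')
  have hc0 : c ≠ 0 := by
    rintro rfl
    simp at hc'
  refine ⟨c * κ, c, hc0, ?_⟩
  unfold G
  refine Prod.ext ?_ ?_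
  · simp only
    linear_combination (c * κ) * hc'
  · simp only
    linear_combination c * hc'

lemma not_Lattes {f : Endo 3 4} (hf : f ∈ Fam) : ¬ IsLattes f := by
  obtain ⟨κ, t, h⟩ := hf
  obtain ⟨hκ, ht⟩ := Fam_good h
  obtain ⟨x, y, hy, hG⟩ := G_fixed hκ
  have hX : (![0, 0, 1, 0] : Fin 4 → ℂ) ≠ 0 := by
    intro h; have := congrFun h 2; simp at this
  have hv : ∀ c : ℂ, (![x, y, c, 0] : Fin 4 → ℂ) ≠ 0 := by
    intro c h; have := congrFun h 1; simp at this; exact hy this
  have hev : ∀ c : ℂ, c ^ 4 = 1 → ev (K κ) ![x, y, c, 0] = ![x, y, 1, 0] := by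
    intro c hc
    rw [ev_K]
    have e1 : (G κ x y).1 = x := by rw [hG]
    have e2 : (G κ x y).2 = y := by rw [hG]
    ext i
    fin_cases i
    · simpa using e1
    · simpa using e2
    · simpa using hc
    · simp
  apply not_lattes_aux (Projectivization.mk ℂ _ hX) _ (Projectivization.mk ℂ _ (hv 1))
    (Projectivization.mk ℂ _ (hv Complex.I))
  · rw [pmap_fam_mk h _ _ (by rw [hev 1 (by norm_num)]; exact hv 1)]
    congr 1
    exact hev 1 (by norm_num)
  · rw [pmap_fam_mk h _ _ (by rw [hev Complex.I (by simp)]; exact hv 1)]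
    congr 1
    exact hev Complex.I (by simp)
  · intro he
    rw [Projectivization.mk_eq_mk_iff'] at he
    obtain ⟨s, hs⟩ := he
    have h1 := congrFun hs 1
    have h2 := congrFun hs 2
    simp only [Pi.smul_apply, smul_eq_mul, Matrix.cons_val_one, Matrix.cons_val_zero,
      Matrix.cons_val] at h1 h2
    have h3 : s = 1 := by
      have h4 : (s - 1) * y = 0 := by
        first
        | linear_combination h1
        | linear_combination -h1
      exact sub_eq_zero.mp ((mul_eq_zero.mp h4).resolve_right hy)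
    rw [h3] at h2
    have := congrArg Complex.re h2
    simp at this
  · intro z
    induction z using Projectivization.ind with
    | h Z hZ =>
      have hZ' : ev (K κ) Z ≠ 0 := by
        intro h0
        exact hZ (f.2 Z (by rw [h, ev_smul, h0, smul_zero]))
      rw [pmap_fam_mk h _ _ hZ', Projectivization.mk_eq_mk_iff', Projectivization.mk_eq_mk_iff']
      constructor
      · rintro ⟨s, hs⟩
        rw [ev_K] at hs
        have e0 := congrFun hs 0
        have e1 := congrFun hs 1
        have e2 := congrFun hs 2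
        have e3 := congrFun hs 3
        simp at e0 e1 e2 e3
        obtain ⟨hz0, hz1⟩ := G_eq_zero hκ (Prod.ext e0.symm e1.symm : G κ (Z 0) (Z 1) = 0)
        have hz3 : Z 3 = 0 := (pow_eq_zero_iff (by norm_num)).mp e3.symm
        refine ⟨Z 2, ?_⟩
        ext i
        fin_cases i
        · simp [hz0]
        · simp [hz1]
        · simp
        · simp [hz3]
      · rintro ⟨s, hs⟩
        have e0 := congrFun hs 0
        have e1 := congrFun hs 1
        have e2 := congrFun hs 2
        have e3 := congrFun hs 3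
        simp at e0 e1 e2 e3
        refine ⟨s ^ 4, ?_⟩
        rw [ev_K]
        ext i
        fin_cases i
        · simp [← e0, ← e1, G]
        · simp [← e0, ← e1, G]
        · simp [← e2, ← e3]
        · simp [← e3]

end Pool.Agent.H25.Dyn
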