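import Pool.Agent.H25.DynMk9
import Pool.Agent.H25.DynLattes
import Pool.Agent.H25.DynIso

/-!
# The family in all dimensions `N = M + 3`

Homogeneous coordinates are `(u_1, ..., u_M, x, y, z, w)`; the map is
`(u_1 ^ 4, ..., u_M ^ 4, G_κ(x, y), z ^ 4 - 4 w ^ 4, w ^ 4)`.
-/

namespace Pool.Agent.H25.Dyn.Gen

open MeasureTheory Pool.Agent.H25.Dyn

variable {M : ℕ}

/-- the last four coordinates -/
def rr (M : ℕ) (i : Fin 4) : Fin (M + 3 + 1) := Fin.natAdd M i

/-- the first coordinates -/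
def ll {M : ℕ} (j : Fin M) : Fin (M + 3 + 1) := Fin.castAdd 4 j

/-- concatenation -/
def app (u : Fin M → ℂ) (a : Fin 4 → ℂ) : Fin (M + 3 + 1) → ℂ := @Fin.append M 4 ℂ u a

/-- the last four coordinates of a vector -/
def low (X : Fin (M + 3 + 1) → ℂ) : Fin 4 → ℂ := fun i => X (rr M i)

/-- the first coordinates of a vector -/
def upp (X : Fin (M + 3 + 1) → ℂ) : Fin M → ℂ := fun j => X (ll j)

@[simp] lemma app_rr (u : Fin M → ℂ) (a : Fin 4 → ℂ) (i : Fin 4) : app u a (rr M i) = a i :=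
  Fin.append_right u a i

@[simp] lemma app_ll (u : Fin M → ℂ) (a : Fin 4 → ℂ) (j : Fin M) : app u a (ll j) = u j :=
  Fin.append_left u a j

@[simp] lemma low_app (u : Fin M → ℂ) (a : Fin 4 → ℂ) : low (app u a) = a := by
  funext i; simp [low]

@[simp] lemma upp_app (u : Fin M → ℂ) (a : Fin 4 → ℂ) : upp (app u a) = u := by
  funext i; simp [upp]

lemma rl_cases (i : Fin (M + 3 + 1)) : (∃ j, i = ll j) ∨ (∃ k, i = rr M k) := by
  refine Fin.addCases (m := M) (n := 4) (motive := fun i : Fin (M + 4) =>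
    (∃ j, i = ll j) ∨ (∃ k, i = rr M k)) (fun j => Or.inl ⟨j, rfl⟩) (fun k => Or.inr ⟨k, rfl⟩) i

lemma vext {α : Sort*} {X Y : Fin (M + 3 + 1) → α} (h1 : ∀ j : Fin M, X (ll j) = Y (ll j))
    (h2 : ∀ k : Fin 4, X (rr M k) = Y (rr M k)) : X = Y := by
  funext i
  rcases rl_cases i with ⟨j, rfl⟩ | ⟨k, rfl⟩
  · exact h1 j
  · exact h2 k

@[simp] lemma app_upp_low (X : Fin (M + 3 + 1) → ℂ) : app (upp X) (low X) = X := by
  apply vext <;> intro i <;> simp [upp, low]

lemma ll_inj : Function.Injective (ll : Fin M → Fin (M + 3 + 1)) := by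
  intro a b h
  have := congrArg Fin.val h
  simp only [ll, Fin.val_castAdd] at this
  exact Fin.ext this

lemma rr_inj : Function.Injective (rr M) := by
  intro a b h
  have := congrArg Fin.val h
  simp only [rr, Fin.val_natAdd] at this
  exact Fin.ext (by omega)

lemma ll_ne_rr (j : Fin M) (k : Fin 4) : ll j ≠ rr M k := by
  intro h
  have := congrArg Fin.val h
  simp only [ll, rr, Fin.val_castAdd, Fin.val_natAdd] at this
  have := j.2
  omega

lemma sum_split {α : Type*} [AddCommMonoid α] (f : Fin (M + 3 + 1) → α) :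
    ∑ i, f i = ∑ j, f (ll j) + ∑ k, f (rr M k) := Fin.sum_univ_add (a := M) (b := 4) f

lemma prod_split {α : Type*} [CommMonoid α] (f : Fin (M + 3 + 1) → α) :
    ∏ i, f i = (∏ j, f (ll j)) * ∏ k, f (rr M k) := Fin.prod_univ_add (a := M) (b := 4) f

lemma app_eq_zero {u : Fin M → ℂ} {a : Fin 4 → ℂ} : app u a = 0 ↔ u = 0 ∧ a = 0 := by
  constructor
  · intro h
    refine ⟨?_, ?_⟩
    · funext j; have := congrFun h (ll j); simpa using this
    · funext k; have := congrFun h (rr M k); simpa using this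
  · rintro ⟨rfl, rfl⟩
    apply vext <;> intro i <;> simp

lemma smul_app (t : ℂ) (u : Fin M → ℂ) (a : Fin 4 → ℂ) : t • app u a = app (t • u) (t • a) := by
  apply vext <;> intro i <;> simp

/-- a monomial in the last four variables -/
def iota (M : ℕ) (m : Mono 3 4) : Mono (M + 3) 4 :=
  ⟨@Fin.append M 4 (Fin 5) (fun _ : Fin M => (0 : Fin 5)) m.1, by
    rw [sum_split]
    have h1 : ∀ j : Fin M, @Fin.append M 4 (Fin 5) (fun _ : Fin M => (0 : Fin 5)) m.1 (ll j) = 0 :=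
      fun j => Fin.append_left (fun _ : Fin M => (0 : Fin 5)) m.1 j
    have h2 : ∀ k : Fin 4, @Fin.append M 4 (Fin 5) (fun _ : Fin M => (0 : Fin 5)) m.1 (rr M k) =
      m.1 k := fun k => Fin.append_right (fun _ : Fin M => (0 : Fin 5)) m.1 k
    simp only [h1, h2]
    simpa using m.2⟩

@[simp] lemma iota_ll (m : Mono 3 4) (j : Fin M) : (iota M m).1 (ll j) = 0 :=
  Fin.append_left (fun _ : Fin M => (0 : Fin 5)) m.1 j

@[simp] lemma iota_rr (m : Mono 3 4) (k : Fin 4) : (iota M m).1 (rr M k) = m.1 k :=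
  Fin.append_right (fun _ : Fin M => (0 : Fin 5)) m.1 k

lemma iota_inj : Function.Injective (iota M) := by
  intro a b h
  apply Subtype.ext
  funext k
  have := congrFun (congrArg Subtype.val h) (rr M k)
  simpa using this

/-- the monomial `u_j ^ 4` -/
def um (j : Fin M) : Mono (M + 3) 4 :=
  ⟨fun i => if i = ll j then 4 else 0, by
    have : ∀ i : Fin (M + 3 + 1), (((if i = ll j then 4 else 0 : Fin 5)) : ℕ) =
      if i = ll j then 4 else 0 := by
      intro i; split_ifs <;> rfl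
    simp_rw [this]
    simp⟩

/-- the coefficient vector in dimension `M + 3` -/
noncomputable def EE (M : ℕ) (c : Coef 3 4) : Coef (M + 3) 4 := fun i m =>
  Fin.addCases (m := M) (n := 4) (motive := fun _ => ℂ)
    (fun j => if m = um j then c 3 mw4 else 0)
    (fun k => ∑ m' : Mono 3 4, if iota M m' = m then c k m' else 0) i

lemma EE_ll (c : Coef 3 4) (j : Fin M) (m : Mono (M + 3) 4) :
    EE M c (ll j) m = if m = um j then c 3 mw4 else 0 := by
  unfold EE ll
  rw [Fin.addCases_left]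

lemma EE_rr (c : Coef 3 4) (k : Fin 4) (m : Mono (M + 3) 4) :
    EE M c (rr M k) m = ∑ m' : Mono 3 4, if iota M m' = m then c k m' else 0 := by
  unfold EE rr
  rw [Fin.addCases_right]

lemma EE_rr_iota (c : Coef 3 4) (k : Fin 4) (m : Mono 3 4) :
    EE M c (rr M k) (iota M m) = c k m := by
  rw [EE_rr]
  simp [iota_inj.eq_iff]

lemma EE_rr_not (c : Coef 3 4) (k : Fin 4) (m : Mono (M + 3) 4) (h : m ∉ Set.range (iota M)) :
    EE M c (rr M k) m = 0 := by
  rw [EE_rr]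
  apply Finset.sum_eq_zero
  intro m' _
  rw [if_neg]
  intro h'
  exact h ⟨m', h'⟩

lemma EE_smul (t : ℂ) (c : Coef 3 4) : EE M (t • c) = t • EE M c := by
  apply vext
  · intro j
    funext m
    simp only [Pi.smul_apply, EE_ll, smul_eq_mul]
    split_ifs <;> simp
  · intro k
    funext m
    simp only [Pi.smul_apply, EE_rr, smul_eq_mul, Finset.mul_sum]
    apply Finset.sum_congr rfl
    intro m' _
    split_ifs <;> simp

lemma mono_iota (X : Fin (M + 3 + 1) → ℂ) (m : Mono 3 4) :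
    ∏ j, X j ^ ((iota M m).1 j : ℕ) = ∏ k, low X k ^ (m.1 k : ℕ) := by
  rw [prod_split]
  simp [low]

lemma mono_um (X : Fin (M + 3 + 1) → ℂ) (j : Fin M) :
    ∏ i, X i ^ ((um j).1 i : ℕ) = X (ll j) ^ 4 := by
  rw [Finset.prod_eq_single (ll j)]
  · simp [um]
  · intro i _ hi
    simp [um, hi]
  · simp

/-- evaluation -/
lemma ev_EE (c : Coef 3 4) (X : Fin (M + 3 + 1) → ℂ) :
    ev (EE M c) X = app (fun j => c 3 mw4 * X (ll j) ^ 4) (ev c (low X)) := by
  apply vext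
  · intro j
    rw [app_ll]
    unfold ev
    rw [Finset.sum_eq_single (um j)]
    · rw [EE_ll, if_pos rfl, mono_um]
    · intro m _ hm
      rw [EE_ll, if_neg hm, zero_mul]
    · simp
  · intro k
    rw [app_rr]
    unfold ev
    simp_rw [EE_rr, Finset.sum_mul]
    rw [Finset.sum_comm]
    apply Finset.sum_congr rfl
    intro m' _
    rw [Finset.sum_eq_single (iota M m')]
    · rw [if_pos rfl, mono_iota]
    · intro m _ hm
      rw [if_neg (fun h => hm h.symm), zero_mul]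
    · simp

lemma ev_EK (κ : ℂ) (X : Fin (M + 3 + 1) → ℂ) :
    ev (EE M (K κ)) X = app (fun j => X (ll j) ^ 4) (ev (K κ) (low X)) := by
  rw [ev_EE]
  congr 1
  funext j
  rw [K_3_mw4, one_mul]

/-- the family in dimension `M + 3` -/
def FamG (M : ℕ) : Set (Endo (M + 3) 4) := {f | ∃ κ t : ℂ, f.1 = t • EE M (K κ)}

lemma low_zero_of (a : Fin 4 → ℂ) (h : app (0 : Fin M → ℂ) a = 0) : a = 0 := (app_eq_zero.mp h).2

lemma FamG_good {f : Endo (M + 3) 4} {κ t : ℂ} (h : f.1 = t • EE M (K κ)) : Good κ ∧ t ≠ 0 := by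
  apply good_of_nondeg
  intro X hX
  have h1 : ev f.1 (app 0 X) = 0 := by
    rw [h, ← EE_smul, ev_EE, app_eq_zero]
    refine ⟨?_, ?_⟩
    · funext j; simp
    · rw [low_app]; exact hX
  exact low_zero_of X (f.2 _ h1)

lemma nondegG {κ : ℂ} (hκ : Good κ) {t : ℂ} (ht : t ≠ 0) (X : Fin (M + 3 + 1) → ℂ)
    (h : ev (t • EE M (K κ)) X = 0) : X = 0 := by
  rw [← EE_smul, ev_EE, app_eq_zero] at h
  obtain ⟨h1, h2⟩ := h
  have h3 : low X = 0 := nondeg hκ ht _ h2
  rw [← app_upp_low X, h3, app_eq_zero]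
  refine ⟨?_, rfl⟩
  funext j
  have h4 := congrFun h1 j
  simp only [Pi.smul_apply, K_3_mw4, smul_eq_mul, mul_one, Pi.zero_apply] at h4
  have h5 := (mul_eq_zero.mp h4).resolve_left ht
  exact (pow_eq_zero_iff (by norm_num)).mp h5

/-- member of the family -/
noncomputable def famG (M : ℕ) (κ t : ℂ) (hκ : Good κ) (ht : t ≠ 0) : Endo (M + 3) 4 :=
  ⟨t • EE M (K κ), fun X hX => nondegG hκ ht X hX⟩

lemma famG_mem (κ t : ℂ) (hκ : Good κ) (ht : t ≠ 0) : famG M κ t hκ ht ∈ FamG M := ⟨κ, t, rfl⟩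

lemma pmap_famG {f : Endo (M + 3) 4} {κ t : ℂ} (h : f.1 = t • EE M (K κ))
    (X : Fin (M + 3 + 1) → ℂ) (hX : X ≠ 0) (hY : ev (EE M (K κ)) X ≠ 0) :
    pmap f (Projectivization.mk ℂ X hX) = Projectivization.mk ℂ (ev (EE M (K κ)) X) hY := by
  rw [pmap_mk _ _ _ (ev_hom _), Projectivization.mk_eq_mk_iff']
  exact ⟨t, by rw [h, ev_smul]⟩

/-! ### the Jacobian -/

/-- Jacobian matrix of `ev (EE M (K κ))` on `Fin M ⊕ Fin 4` -/
noncomputable def JB (κ : ℂ) (X : Fin (M + 3 + 1) → ℂ) : Matrix (Fin M ⊕ Fin 4) (Fin M ⊕ Fin 4) ℂ :=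
  Matrix.fromBlocks (Matrix.diagonal fun j => 4 * X (ll j) ^ 3) 0 0 (JM κ (low X))

/-- Jacobian matrix of `ev (EE M (K κ))` -/
noncomputable def JG (κ : ℂ) (X : Fin (M + 3 + 1) → ℂ) :
    Matrix (Fin (M + 3 + 1)) (Fin (M + 3 + 1)) ℂ :=
  Matrix.reindex (finSumFinEquiv (m := M) (n := 4)) (finSumFinEquiv (m := M) (n := 4)) (JB κ X)

lemma JG_mulVec_ll (κ : ℂ) (X Y : Fin (M + 3 + 1) → ℂ) (j : Fin M) :
    (JG κ X).mulVec Y (ll j) = 4 * X (ll j) ^ 3 * Y (ll j) := by
  have e : ∀ i, JG κ X (ll j) i = JB κ X (Sum.inl j) (finSumFinEquiv.symm i) := by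
    intro i
    simp only [JG, Matrix.reindex_apply, Matrix.submatrix_apply]
    congr 1
    exact (Equiv.symm_apply_eq _).mpr rfl
  rw [Matrix.mulVec, dotProduct, sum_split]
  have e1 : ∀ j' : Fin M, JG κ X (ll j) (ll j') = if j = j' then 4 * X (ll j) ^ 3 else 0 := by
    intro j'
    rw [e]
    have : (finSumFinEquiv (m := M) (n := 4)).symm (ll j') = Sum.inl j' :=
      (Equiv.symm_apply_eq _).mpr rfl
    rw [this]
    simp [JB, Matrix.diagonal_apply]
  have e2 : ∀ k : Fin 4, JG κ X (ll j) (rr M k) = 0 := by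
    intro k
    rw [e]
    have : (finSumFinEquiv (m := M) (n := 4)).symm (rr M k) = Sum.inr k :=
      (Equiv.symm_apply_eq _).mpr rfl
    rw [this]
    simp [JB]
  simp [e1, e2]

lemma JG_mulVec_rr (κ : ℂ) (X Y : Fin (M + 3 + 1) → ℂ) (k : Fin 4) :
    (JG κ X).mulVec Y (rr M k) = (JM κ (low X)).mulVec (low Y) k := by
  have e : ∀ i, JG κ X (rr M k) i = JB κ X (Sum.inr k) (finSumFinEquiv.symm i) := by
    intro i
    simp only [JG, Matrix.reindex_apply, Matrix.submatrix_apply]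
    congr 1
    exact (Equiv.symm_apply_eq _).mpr rfl
  rw [Matrix.mulVec, dotProduct, sum_split]
  have e1 : ∀ j' : Fin M, JG κ X (rr M k) (ll j') = 0 := by
    intro j'
    rw [e]
    have : (finSumFinEquiv (m := M) (n := 4)).symm (ll j') = Sum.inl j' :=
      (Equiv.symm_apply_eq _).mpr rfl
    rw [this]
    simp [JB]
  have e2 : ∀ k' : Fin 4, JG κ X (rr M k) (rr M k') = JM κ (low X) k k' := by
    intro k'
    rw [e]
    have : (finSumFinEquiv (m := M) (n := 4)).symm (rr M k') = Sum.inr k' :=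
      (Equiv.symm_apply_eq _).mpr rfl
    rw [this]
    simp [JB]
  simp [e1, e2, Matrix.mulVec, dotProduct, low]

lemma hasFDerivAt_evG (κ : ℂ) (X : Fin (M + 3 + 1) → ℂ) :
    HasFDerivAt (ev (EE M (K κ))) (LinearMap.toContinuousLinearMap (Matrix.toLin' (JG κ X))) X := by
  have hev : ev (EE M (K κ)) = fun X : Fin (M + 3 + 1) → ℂ =>
      app (fun j => X (ll j) ^ 4) (ev (K κ) (low X)) := by
    funext X; exact ev_EK κ X
  rw [hev, hasFDerivAt_pi']
  intro i
  rcases rl_cases i with ⟨j, rfl⟩ | ⟨k, rfl⟩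
  · simp only [app_ll]
    have hp : HasFDerivAt (fun X : Fin (M + 3 + 1) → ℂ => X (ll j))
      (ContinuousLinearMap.proj (ll j) : (Fin (M + 3 + 1) → ℂ) →L[ℂ] ℂ) X := hasFDerivAt_apply _ X
    refine (hp.pow 4).congr_fderiv ?_
    apply ContinuousLinearMap.ext
    intro Y
    simp only [ContinuousLinearMap.coe_comp', Function.comp_apply, ContinuousLinearMap.proj_apply,
      LinearMap.coe_toContinuousLinearMap', Matrix.toLin'_apply, JG_mulVec_ll]
    simp
  · simp only [app_rr]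
    have hlow : HasFDerivAt (low : (Fin (M + 3 + 1) → ℂ) → (Fin 4 → ℂ))
        (ContinuousLinearMap.pi fun i : Fin 4 =>
          (ContinuousLinearMap.proj (rr M i) : (Fin (M + 3 + 1) → ℂ) →L[ℂ] ℂ)) X :=
      (ContinuousLinearMap.pi fun i : Fin 4 =>
          (ContinuousLinearMap.proj (rr M i) : (Fin (M + 3 + 1) → ℂ) →L[ℂ] ℂ)).hasFDerivAt
    have h1 := (hasFDerivAt_ev κ (low X)).comp X hlow
    have h2 := (hasFDerivAt_pi'.mp h1) k
    refine h2.congr_fderiv ?_
    apply ContinuousLinearMap.ext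
    intro Y
    simp only [ContinuousLinearMap.coe_comp', Function.comp_apply, ContinuousLinearMap.proj_apply,
      LinearMap.coe_toContinuousLinearMap', Matrix.toLin'_apply, JG_mulVec_rr]
    rfl

lemma det_JG (κ : ℂ) (X : Fin (M + 3 + 1) → ℂ) :
    (JG κ X).det = (∏ j, 4 * X (ll j) ^ 3) * (JM κ (low X)).det := by
  unfold JG JB
  rw [Matrix.det_reindex_self, Matrix.det_fromBlocks_zero₂₁, Matrix.det_diagonal]

lemma jac_famG {f : Endo (M + 3) 4} {κ t : ℂ} (h : f.1 = t • EE M (K κ))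
    (X : Fin (M + 3 + 1) → ℂ) :
    jac f X = t ^ (M + 4) * ((∏ j, 4 * X (ll j) ^ 3) *
      (256 * κ * (κ ^ 4 - 1) * W (low X 0) (low X 1) * low X 2 ^ 3 * low X 3 ^ 3)) := by
  have hev : ev f.1 = t • ev (EE M (K κ)) := by
    funext X; rw [h, ev_smul]; rfl
  unfold jac
  rw [hev, ((hasFDerivAt_evG κ X).const_smul t).fderiv, ← det_JM, ← det_JG]
  simp [ContinuousLinearMap.det, LinearMap.det_smul]

lemma jacG_eq_zero_iff {f : Endo (M + 3) 4} {κ t : ℂ} (h : f.1 = t • EE M (K κ))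
    (X : Fin (M + 3 + 1) → ℂ) :
    jac f X = 0 ↔ (∃ j : Fin M, X (ll j) = 0) ∨ W (low X 0) (low X 1) = 0 ∨ low X 2 = 0 ∨
      low X 3 = 0 := by
  obtain ⟨⟨h0, h1⟩, ht⟩ := FamG_good h
  have h1' : κ ^ 4 - 1 ≠ 0 := sub_ne_zero.mpr h1
  rw [jac_famG h]
  simp [h0, h1', ht, Finset.prod_eq_zero_iff]
  tauto

/-- criticality does not depend on the representative -/
lemma critG_rep {f : Endo (M + 3) 4} {κ t : ℂ} (h : f.1 = t • EE M (K κ))
    (X : Fin (M + 3 + 1) → ℂ) (hX : X ≠ 0) :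
    jac f (Projectivization.mk ℂ X hX).rep = 0 ↔ jac f X = 0 := by
  obtain ⟨a, ha⟩ := Projectivization.exists_smul_eq_mk_rep ℂ X hX
  rw [← ha, jacG_eq_zero_iff h, jacG_eq_zero_iff h]
  have ha0 : (a : ℂ) ≠ 0 := a.ne_zero
  have e : ∀ i, (a • X) i = (a : ℂ) * X i := fun i => rfl
  have e' : ∀ i, low (a • X) i = (a : ℂ) * low X i := fun i => rfl
  rw [e', e', e', e', W_smul]
  simp [e, ha0]

end Pool.Agent.H25.Dyn.Gen
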