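import Pool.Agent.H25.DynG0
namespace Pool.Agent.H25.Dyn.Gen
open MeasureTheory Pool.Agent.H25.Dyn
variable {M : ℕ}

/-- index of a coefficient -/
abbrev IdG (M : ℕ) : Type := Fin (M + 3 + 1) × Mono (M + 3) 4

/-- the equations of the family -/
noncomputable def eqG (M : ℕ) (S : Set (MvPolynomial Idx ℂ)) : Set (MvPolynomial (IdG M) ℂ) :=
  {P | ∃ (k : Fin 4) (m : Mono (M + 3) 4), m ∉ Set.range (iota M) ∧
    P = MvPolynomial.X (rr M k, m)} ∪
  {P | ∃ (j : Fin M) (m : Mono (M + 3) 4), m ≠ um j ∧ P = MvPolynomial.X (ll j, m)} ∪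
  {P | ∃ (j : Fin M), P = MvPolynomial.X (ll j, um j) - MvPolynomial.X (rr M 3, iota M mw4)} ∪
  {P | ∃ Q ∈ S, P = MvPolynomial.rename (fun p : Idx => ((rr M p.1, iota M p.2) : IdG M)) Q}

/-- restriction of a coefficient vector -/
def RR (c : Coef (M + 3) 4) : Coef 3 4 := fun k m => c (rr M k) (iota M m)

lemma RR_EE (c : Coef 3 4) : RR (EE M c) = c := by
  funext k m
  exact EE_rr_iota c k m

lemma EE_RR_iff (c : Coef (M + 3) 4) : c = EE M (RR c) ↔
    (∀ (k : Fin 4) (m : Mono (M + 3) 4), m ∉ Set.range (iota M) → c (rr M k) m = 0) ∧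
    (∀ (j : Fin M) (m : Mono (M + 3) 4), m ≠ um j → c (ll j) m = 0) ∧
    (∀ j : Fin M, c (ll j) (um j) = c (rr M 3) (iota M mw4)) := by
  constructor
  · intro h
    refine ⟨?_, ?_, ?_⟩
    · intro k m hm
      rw [h, EE_rr_not _ _ _ hm]
    · intro j m hm
      rw [h, EE_ll, if_neg hm]
    · intro j
      rw [h, EE_ll, if_pos rfl, EE_rr_iota]
  · rintro ⟨h1, h2, h3⟩
    apply vext
    · intro j
      funext m
      rw [EE_ll]
      split_ifs with hm
      · rw [hm, h3]; rfl
      · exact h2 j m hm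
    · intro k
      funext m
      by_cases hm : m ∈ Set.range (iota M)
      · obtain ⟨m', rfl⟩ := hm
        rw [EE_rr_iota]; rfl
      · rw [EE_rr_not _ _ _ hm, h1 k m hm]

/-- the restriction of a nondegenerate vector of the form `EE M c` is nondegenerate -/
lemma nondeg_RR (f : Endo (M + 3) 4) (h : f.1 = EE M (RR f.1)) (X : Fin 4 → ℂ)
    (hX : ev (RR f.1) X = 0) : X = 0 := by
  have h1 : ev f.1 (app 0 X) = 0 := by
    rw [h, ev_EE, app_eq_zero]
    refine ⟨?_, ?_⟩
    · funext j; simp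
    · rw [low_app]; exact hX
  exact low_zero_of X (f.2 _ h1)

open MvPolynomial in
lemma coefEval_rename (Q : MvPolynomial Idx ℂ) (f : Endo (M + 3) 4) :
    coefEval (rename (fun p : Idx => ((rr M p.1, iota M p.2) : IdG M)) Q) f =
      eval (fun p : Idx => RR f.1 p.1 p.2) Q := by
  unfold coefEval
  rw [eval_rename]
  rfl

open MvPolynomial in
lemma FamG_closed (M : ℕ) : IsZariskiClosed (FamG M) := by
  obtain ⟨S, hS, hF⟩ := Fam_closed
  refine ⟨eqG M S, ?_, ?_⟩
  · intro P hP
    rcases hP with ((⟨k, m, -, rfl⟩ | ⟨j, m, -, rfl⟩) | ⟨j, rfl⟩) | ⟨Q, hQ, rfl⟩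
    · exact ⟨1, isHomogeneous_X _ _⟩
    · exact ⟨1, isHomogeneous_X _ _⟩
    · exact ⟨1, (isHomogeneous_X _ _).sub (isHomogeneous_X _ _)⟩
    · obtain ⟨k, hk⟩ := hS Q hQ
      exact ⟨k, hk.rename_isHomogeneous⟩
  · intro f
    constructor
    · rintro ⟨κ, t, hf⟩ P hP
      have hfE : f.1 = EE M (t • K κ) := by rw [EE_smul]; exact hf
      have hfR : RR f.1 = t • K κ := by rw [hfE, RR_EE]
      have hfER : f.1 = EE M (RR f.1) := by rw [hfR]; exact hfE
      obtain ⟨e1, e2, e3⟩ := (EE_RR_iff f.1).mp hfER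
      rcases hP with ((⟨k, m, hm, rfl⟩ | ⟨j, m, hm, rfl⟩) | ⟨j, rfl⟩) | ⟨Q, hQ, rfl⟩
      · simp only [coefEval, eval_X]
        exact e1 k m hm
      · simp only [coefEval, eval_X]
        exact e2 j m hm
      · simp only [coefEval, map_sub, eval_X]
        rw [e3 j, sub_self]
      · rw [coefEval_rename]
        obtain ⟨hκ, ht⟩ := FamG_good hf
        have h0 := (hF ⟨t • K κ, fun X hX => nondeg hκ ht X hX⟩).mp ⟨κ, t, rfl⟩ Q hQ
        rw [hfR]
        exact h0
    · intro h
      have hfER : f.1 = EE M (RR f.1) := by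
        rw [EE_RR_iff]
        refine ⟨?_, ?_, ?_⟩
        · intro k m hm
          have := h _ (Or.inl (Or.inl (Or.inl ⟨k, m, hm, rfl⟩)))
          simpa [coefEval] using this
        · intro j m hm
          have := h _ (Or.inl (Or.inl (Or.inr ⟨j, m, hm, rfl⟩)))
          simpa [coefEval] using this
        · intro j
          have := h _ (Or.inl (Or.inr ⟨j, rfl⟩))
          simp only [coefEval, map_sub, eval_X] at this
          exact sub_eq_zero.mp this
      have hmem : (⟨RR f.1, fun X hX => nondeg_RR f hfER X hX⟩ : Endo 3 4) ∈ Fam := by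
        rw [hF]
        intro Q hQ
        have := h _ (Or.inr ⟨Q, hQ, rfl⟩)
        rw [coefEval_rename] at this
        exact this
      obtain ⟨κ, t, hκt⟩ := hmem
      refine ⟨κ, t, ?_⟩
      rw [← EE_smul, hfER]
      congr 1

open MvPolynomial in
/-- pull back of a polynomial in the coefficients under `EE M` -/
noncomputable def pull (P : MvPolynomial (IdG M) ℂ) : MvPolynomial Idx ℂ :=
  bind₁ (fun p : IdG M => Fin.addCases (m := M) (n := 4) (motive := fun _ => MvPolynomial Idx ℂ)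
    (fun j => if p.2 = um j then X (3, mw4) else 0)
    (fun k => ∑ m' : Mono 3 4, if iota M m' = p.2 then X (k, m') else 0) p.1) P

open MvPolynomial in
lemma eval_pull (P : MvPolynomial (IdG M) ℂ) (c : Coef 3 4) :
    eval (fun p : Idx => c p.1 p.2) (pull P) = eval (fun p : IdG M => EE M c p.1 p.2) P := by
  have h := MvPolynomial.eval₂Hom_bind₁ (RingHom.id ℂ) (fun p : Idx => c p.1 p.2)
    (fun p : IdG M => Fin.addCases (m := M) (n := 4) (motive := fun _ => MvPolynomial Idx ℂ)
    (fun j => if p.2 = um j then X (3, mw4) else 0)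
    (fun k => ∑ m' : Mono 3 4, if iota M m' = p.2 then X (k, m') else 0) p.1) P
  have h2 : (fun p : IdG M => EE M c p.1 p.2) = fun p : IdG M =>
      eval₂Hom (RingHom.id ℂ) (fun p : Idx => c p.1 p.2)
    (Fin.addCases (m := M) (n := 4) (motive := fun _ => MvPolynomial Idx ℂ)
    (fun j => if p.2 = um j then X (3, mw4) else 0)
    (fun k => ∑ m' : Mono 3 4, if iota M m' = p.2 then X (k, m') else 0) p.1) := by
    funext p
    obtain ⟨i, m⟩ := p
    rcases rl_cases i with ⟨j, rfl⟩ | ⟨k, rfl⟩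
    · simp only [EE_ll]
      unfold ll
      rw [Fin.addCases_left]
      split_ifs <;> simp
    · simp only [EE_rr]
      unfold rr
      rw [Fin.addCases_right, map_sum]
      apply Finset.sum_congr rfl
      intro m' _
      split_ifs <;> simp
  rw [h2]
  exact h

open MvPolynomial in
lemma FamG_irreducible (M : ℕ) : IsZariskiIrreducible (FamG M) := by
  refine ⟨⟨famG M 2 1 good_two one_ne_zero, famG_mem _ _ _ _⟩, ?_⟩
  intro P Q h
  have key : ∀ (R : MvPolynomial (IdG M) ℂ) (f : Endo (M + 3) 4) (g : Endo 3 4),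
      f.1 = EE M g.1 → coefEval R f = coefEval (pull R) g := by
    intro R f g hfg
    unfold coefEval
    rw [eval_pull, hfg]
  have h1 := Fam_irreducible.2 (pull P) (pull Q) (by
    rintro g ⟨κ, t, hg⟩
    obtain ⟨hκ, ht⟩ := Fam_good hg
    have hfg : (famG M κ t hκ ht).1 = EE M g.1 := by
      rw [hg, EE_smul]; rfl
    rw [← key P _ g hfg, ← key Q _ g hfg]
    exact h _ (famG_mem _ _ _ _))
  have fin : ∀ R : MvPolynomial (IdG M) ℂ, (∀ g ∈ Fam, coefEval (pull R) g = 0) →
      ∀ f ∈ FamG M, coefEval R f = 0 := by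
    rintro R hR f ⟨κ, t, hf⟩
    obtain ⟨hκ, ht⟩ := FamG_good hf
    rw [key R f ⟨t • K κ, fun X hX => nondeg hκ ht X hX⟩ (by rw [hf, EE_smul])]
    exact hR _ ⟨κ, t, rfl⟩
  rcases h1 with h0 | h0
  · exact Or.inl (fin P h0)
  · exact Or.inr (fin Q h0)

lemma FamG_infinite (M : ℕ) : (pmap '' (FamG M)).Infinite := by
  refine Set.infinite_of_injective_forall_mem
    (f := fun n : ℕ => pmap (famG M ((n : ℂ) + 2) 1 (good_nat n) one_ne_zero)) ?_ ?_
  · intro n m hnm
    simp only at hnm
    set a : ℂ := (n : ℂ) + 2 with ha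
    set b : ℂ := (m : ℂ) + 2 with hb
    have hX : (app 0 ![1, 0, 0, 0] : Fin (M + 3 + 1) → ℂ) ≠ 0 := by
      intro h; have := congrFun (low_zero_of _ h) 0; simp at this
    have h1 := congrFun hnm (Projectivization.mk ℂ (app 0 ![1, 0, 0, 0]) hX)
    rw [pmap_mk _ _ _ (ev_hom _), pmap_mk _ _ _ (ev_hom _), Projectivization.mk_eq_mk_iff'] at h1
    obtain ⟨t, ht⟩ := h1
    simp only [famG, one_smul, ev_EK] at ht
    have e0 := congrFun ht (rr M 0)
    have e1 := congrFun ht (rr M 1)
    simp [ev_K, G] at e0 e1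
    have hbne : b ≠ 0 := (good_nat m).1
    have hane : a ≠ 0 := (good_nat n).1
    have e1' : t * b = a := by linear_combination -e1
    have hab : a = b := by
      have : a * b = a * a := by
        linear_combination e0 - b * e1'
      exact (mul_left_cancel₀ hane this).symm
    have : (n : ℂ) = m := by
      simpa [ha, hb] using hab
    exact_mod_cast this
  · intro n
    exact ⟨_, famG_mem _ _ _ _, rfl⟩

lemma FamG_algebraic (M : ℕ) : IsAlgebraicFamily (FamG M) :=
  ⟨FamG_closed M, FamG_irreducible M, FamG_infinite M⟩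

end Pool.Agent.H25.Dyn.Gen
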