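import Pool.Agent.H25.DynG0
namespace Pool.Agent.H25.Dyn.Gen
open MeasureTheory Pool.Agent.H25.Dyn
variable {M : ℕ}

/-- value of a linear form -/
noncomputable def lf (a X : Fin (M + 3 + 1) → ℂ) : ℂ := ∑ i, a i * X i

lemma lf_single (a : Fin (M + 3 + 1) → ℂ) (i : Fin (M + 3 + 1)) (c : ℂ) :
    lf a (Pi.single i c) = a i * c := by
  unfold lf
  rw [Finset.sum_eq_single i]
  · simp
  · intro k _ hk
    simp [Pi.single_eq_of_ne hk]
  · simp

lemma lf_add (a X Y : Fin (M + 3 + 1) → ℂ) : lf a (X + Y) = lf a X + lf a Y := by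
  unfold lf
  simp [mul_add, Finset.sum_add_distrib]

/-- invariance of the fourth power of a linear form under the symmetries of the family -/
structure InvG (a : Fin (M + 3 + 1) → ℂ) : Prop where
  h0 : ∀ X Y : Fin (M + 3 + 1) → ℂ, (∀ k, k ≠ rr M 0 → Y k = X k) →
    Y (rr M 0) = - X (rr M 0) → lf a Y ^ 4 = lf a X ^ 4
  hs : lf a (Pi.single (rr M 1) 1) ^ 4 = lf a (Pi.single (rr M 0) 1) ^ 4

lemma InvG.key {a : Fin (M + 3 + 1) → ℂ} (h : InvG a) : a (rr M 0) = 0 ∧ a (rr M 1) = 0 := by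
  have h1 : a (rr M 1) ≠ 0 → a (rr M 0) = 0 := by
    intro h1
    have h2 := h.h0 (Pi.single (rr M 0) 1 + Pi.single (rr M 1) (-(a (rr M 0)) / a (rr M 1)))
      (Pi.single (rr M 0) (-1) + Pi.single (rr M 1) (-(a (rr M 0)) / a (rr M 1))) (by
        intro k hk
        simp [Pi.single_eq_of_ne hk]) (by
        have : rr M 0 ≠ rr M 1 := fun h => by simpa using rr_inj h
        simp [Pi.single_eq_of_ne this])
    rw [lf_add, lf_add, lf_single, lf_single, lf_single] at h2
    have e : a (rr M 1) * (-(a (rr M 0)) / a (rr M 1)) = - a (rr M 0) := by field_simp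
    rw [e] at h2
    have : a (rr M 0) ^ 4 = 0 := by linear_combination (1/16 : ℂ) * h2
    exact (pow_eq_zero_iff (by norm_num)).mp this
  have h4 := h.hs
  rw [lf_single, lf_single, mul_one, mul_one] at h4
  by_cases h5 : a (rr M 1) = 0
  · rw [h5] at h4
    have : a (rr M 0) ^ 4 = 0 := by linear_combination -h4
    exact ⟨(pow_eq_zero_iff (by norm_num)).mp this, h5⟩
  · have h6 := h1 h5
    rw [h6] at h4
    have : a (rr M 1) ^ 4 = 0 := by linear_combination h4
    exact ⟨h6, (pow_eq_zero_iff (by norm_num)).mp this⟩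

lemma ev_neg (κ : ℂ) (X Y : Fin (M + 3 + 1) → ℂ) (hk : ∀ k, k ≠ rr M 0 → Y k = X k)
    (hi : Y (rr M 0) = - X (rr M 0)) : ev (EE M (K κ)) Y = ev (EE M (K κ)) X := by
  rw [ev_EK, ev_EK]
  congr 1
  · funext j
    rw [hk _ (ll_ne_rr j 0)]
  · rw [ev_K, ev_K]
    have e1 : Y (rr M 1) = X (rr M 1) := hk _ (fun h => by simpa using rr_inj h)
    have e2 : Y (rr M 2) = X (rr M 2) := hk _ (fun h => by simpa using rr_inj h)
    have e3 : Y (rr M 3) = X (rr M 3) := hk _ (fun h => by simpa using rr_inj h)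
    simp only [low]
    rw [hi, e1, e2, e3]
    have hG : ∀ x y : ℂ, G κ (-x) y = G κ x y := by
      intro x y; unfold G; refine Prod.ext ?_ ?_ <;> simp only <;> ring
    rw [hG]

lemma ev_sw (κ : ℂ) : ev (EE M (K κ)) (Pi.single (rr M 1) 1) = ev (EE M (K κ)) (Pi.single (rr M 0) 1) := by
  rw [ev_EK, ev_EK]
  congr 1
  · funext j
    simp [Pi.single_eq_of_ne (ll_ne_rr j 0), Pi.single_eq_of_ne (ll_ne_rr j 1)]
  · rw [ev_K, ev_K]
    have n : ∀ a b : Fin 4, a ≠ b → rr M a ≠ rr M b := fun a b hab h => hab (rr_inj h)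
    simp only [low]
    simp [Pi.single_eq_of_ne (n 0 1 (by decide)), Pi.single_eq_of_ne (n 1 0 (by decide)),
      Pi.single_eq_of_ne (n 2 1 (by decide)), Pi.single_eq_of_ne (n 2 0 (by decide)),
      Pi.single_eq_of_ne (n 3 1 (by decide)), Pi.single_eq_of_ne (n 3 0 (by decide)), G]

lemma mulVec_lf (A : Matrix (Fin (M + 3 + 1)) (Fin (M + 3 + 1)) ℂ) (X : Fin (M + 3 + 1) → ℂ)
    (r : Fin (M + 3 + 1)) : A.mulVec X r = lf (A r) X := rfl

/-- reduction to `N = 3` -/
lemma conj_reduce {κ κ' t : ℂ} (hκ' : Good κ')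
    (A : Matrix (Fin (M + 3 + 1)) (Fin (M + 3 + 1)) ℂ) (hA : A.det ≠ 0) (ht : t ≠ 0)
    (h : ∀ X, ev (EE M (K κ')) (A.mulVec X) = t • A.mulVec (ev (EE M (K κ)) X)) :
    ∃ A' : Matrix (Fin 4) (Fin 4) ℂ, A'.det ≠ 0 ∧
      ∀ X, ev (K κ') (A'.mulVec X) = t • A'.mulVec (ev (K κ) X) := by
  have n : ∀ a b : Fin 4, a ≠ b → rr M a ≠ rr M b := fun a b hab h => hab (rr_inj h)
  -- fourth powers of the rows
  have hinv : ∀ X Y : Fin (M + 3 + 1) → ℂ, ev (EE M (K κ)) Y = ev (EE M (K κ)) X →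
      ∀ r, r ≠ rr M 0 → r ≠ rr M 1 → lf (A r) Y ^ 4 = lf (A r) X ^ 4 := by
    intro X Y hXY r h0 h1
    have hE : ev (EE M (K κ')) (A.mulVec Y) = ev (EE M (K κ')) (A.mulVec X) := by
      rw [h, h, hXY]
    rw [ev_EK, ev_EK, ev_K, ev_K] at hE
    have h3 : lf (A (rr M 3)) Y ^ 4 = lf (A (rr M 3)) X ^ 4 := by
      have := congrFun hE (rr M 3)
      simp only [app_rr] at this
      exact this
    rcases rl_cases r with ⟨j, rfl⟩ | ⟨k, rfl⟩
    · have := congrFun hE (ll j)
      simp only [app_ll] at this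
      exact this
    · fin_cases k
      · exact absurd rfl h0
      · exact absurd rfl h1
      · have := congrFun hE (rr M 2)
        simp only [app_rr] at this
        have h4 : lf (A (rr M 2)) Y ^ 4 - 4 * lf (A (rr M 3)) Y ^ 4 =
          lf (A (rr M 2)) X ^ 4 - 4 * lf (A (rr M 3)) X ^ 4 := this
        rw [h3] at h4
        exact sub_left_inj.mp h4
      · exact h3
  have hrow : ∀ r, r ≠ rr M 0 → r ≠ rr M 1 → A r (rr M 0) = 0 ∧ A r (rr M 1) = 0 := by
    intro r h0 h1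
    apply InvG.key
    refine ⟨?_, ?_⟩
    · intro X Y hk hi
      exact hinv X Y (ev_neg κ X Y hk hi) r h0 h1
    · exact hinv _ _ (ev_sw κ) r h0 h1
  set a := A (rr M 0) (rr M 0) with ha
  set b := A (rr M 0) (rr M 1) with hb
  set c := A (rr M 1) (rr M 0) with hc
  set d := A (rr M 1) (rr M 1) with hd
  -- vectors in the plane
  set P : ℂ → ℂ → Fin (M + 3 + 1) → ℂ := fun x y => Pi.single (rr M 0) x + Pi.single (rr M 1) y
    with hP
  have hP0 : ∀ x y, lf (A (rr M 0)) (P x y) = a * x + b * y := by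
    intro x y; rw [hP]; simp only; rw [lf_add, lf_single, lf_single]
  have hP1 : ∀ x y, lf (A (rr M 1)) (P x y) = c * x + d * y := by
    intro x y; rw [hP]; simp only; rw [lf_add, lf_single, lf_single]
  have hD : a * d - b * c ≠ 0 := by
    intro hD
    -- a kernel vector
    obtain ⟨x, y, hxy, k0, k1⟩ : ∃ x y : ℂ, (x ≠ 0 ∨ y ≠ 0) ∧ a * x + b * y = 0 ∧ c * x + d * y = 0 := by
      by_cases hab : a = 0 ∧ b = 0
      · by_cases hcd : c = 0 ∧ d = 0
        · exact ⟨1, 0, Or.inl one_ne_zero, by rw [hab.1, hab.2]; ring, by rw [hcd.1, hcd.2]; ring⟩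
        · refine ⟨d, -c, ?_, by rw [hab.1, hab.2]; ring, by ring⟩
          by_contra hcon
          simp only [ne_eq, not_or, not_not, neg_eq_zero] at hcon
          exact hcd ⟨hcon.2, hcon.1⟩
      · refine ⟨-b, a, ?_, by ring, by linear_combination hD⟩
        by_contra hcon
        simp only [ne_eq, not_or, not_not, neg_eq_zero] at hcon
        exact hab ⟨hcon.2, hcon.1⟩
    have hker : A.mulVec (P x y) = 0 := by
      funext r
      rw [mulVec_lf]
      by_cases h0 : r = rr M 0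
      · rw [h0, hP0, k0]; rfl
      by_cases h1 : r = rr M 1
      · rw [h1, hP1, k1]; rfl
      · rw [hP]
        simp only
        rw [lf_add, lf_single, lf_single, (hrow r h0 h1).1, (hrow r h0 h1).2]
        simp
    have hz := Matrix.eq_zero_of_mulVec_eq_zero hA hker
    have z0 := congrFun hz (rr M 0)
    have z1 := congrFun hz (rr M 1)
    simp only [hP, Pi.add_apply, Pi.single_eq_same, Pi.single_eq_of_ne (n 0 1 (by decide)),
      Pi.single_eq_of_ne (n 1 0 (by decide)), add_zero, zero_add, Pi.zero_apply] at z0 z1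
    rcases hxy with hx | hy
    · exact hx z0
    · exact hy z1
  -- the planar equation
  have hevP : ∀ x y, ev (EE M (K κ)) (P x y) = P (G κ x y).1 (G κ x y).2 := by
    intro x y
    rw [ev_EK, ev_K]
    have l0 : low (P x y) 0 = x := by
      simp [low, hP, Pi.single_eq_of_ne (n 0 1 (by decide))]
    have l1 : low (P x y) 1 = y := by
      simp [low, hP, Pi.single_eq_of_ne (n 1 0 (by decide))]
    have l2 : low (P x y) 2 = 0 := by
      simp [low, hP, Pi.single_eq_of_ne (n 2 0 (by decide)), Pi.single_eq_of_ne (n 2 1 (by decide))]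
    have l3 : low (P x y) 3 = 0 := by
      simp [low, hP, Pi.single_eq_of_ne (n 3 0 (by decide)), Pi.single_eq_of_ne (n 3 1 (by decide))]
    rw [l0, l1, l2, l3]
    apply vext
    · intro j
      simp [hP, Pi.single_eq_of_ne (ll_ne_rr j 0), Pi.single_eq_of_ne (ll_ne_rr j 1)]
    · intro k
      rw [app_rr]
      fin_cases k
      · simp [hP, Pi.single_eq_of_ne (n 0 1 (by decide))]
      · simp [hP, Pi.single_eq_of_ne (n 1 0 (by decide))]
      · simp [hP, Pi.single_eq_of_ne (n 2 0 (by decide)), Pi.single_eq_of_ne (n 2 1 (by decide))]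
      · simp [hP, Pi.single_eq_of_ne (n 3 0 (by decide)), Pi.single_eq_of_ne (n 3 1 (by decide))]
  have hG : ∀ x y, G κ' (a * x + b * y) (c * x + d * y) =
      (t * (a * (G κ x y).1 + b * (G κ x y).2), t * (c * (G κ x y).1 + d * (G κ x y).2)) := by
    intro x y
    have h1 := h (P x y)
    rw [hevP, ev_EK, ev_K] at h1
    have l0 : low (A.mulVec (P x y)) 0 = a * x + b * y := hP0 x y
    have l1 : low (A.mulVec (P x y)) 1 = c * x + d * y := hP1 x y
    have e0 := congrFun h1 (rr M 0)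
    have e1 := congrFun h1 (rr M 1)
    rw [l0, l1, app_rr, Pi.smul_apply, mulVec_lf, hP0] at e0
    rw [l0, l1, app_rr, Pi.smul_apply, mulVec_lf, hP1] at e1
    refine Prod.ext ?_ ?_
    · simpa using e0
    · simpa using e1
  obtain ⟨s, hs⟩ := IsAlgClosed.exists_pow_nat_eq t (n := 3) (by norm_num)
  have hs0 : s ≠ 0 := by
    rintro rfl
    apply ht
    rw [← hs]
    norm_num
  refine ⟨!![a, b, 0, 0; c, d, 0, 0; 0, 0, s, 0; 0, 0, 0, s], ?_, ?_⟩
  · have : (!![a, b, 0, 0; c, d, 0, 0; 0, 0, s, 0; 0, 0, 0, s] : Matrix (Fin 4) (Fin 4) ℂ).det =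
        (a * d - b * c) * s * s := by
      simp [Matrix.det_succ_row_zero, Fin.sum_univ_succ,
        show (Fin.succAbove (1 : Fin 4) (2 : Fin 3)) = 3 from rfl]
      ring
    rw [this]
    exact mul_ne_zero (mul_ne_zero hD hs0) hs0
  · intro X
    have e : (!![a, b, 0, 0; c, d, 0, 0; 0, 0, s, 0; 0, 0, 0, s] : Matrix (Fin 4) (Fin 4) ℂ).mulVec X =
        ![a * X 0 + b * X 1, c * X 0 + d * X 1, s * X 2, s * X 3] := by
      funext i
      fin_cases i <;> simp [Matrix.mulVec, dotProduct, Fin.sum_univ_four]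
    have e' : ∀ Y : Fin 4 → ℂ, (!![a, b, 0, 0; c, d, 0, 0; 0, 0, s, 0; 0, 0, 0, s] :
        Matrix (Fin 4) (Fin 4) ℂ).mulVec Y =
        ![a * Y 0 + b * Y 1, c * Y 0 + d * Y 1, s * Y 2, s * Y 3] := by
      intro Y
      funext i
      fin_cases i <;> simp [Matrix.mulVec, dotProduct, Fin.sum_univ_four]
    rw [e, e', ev_K, ev_K]
    funext i
    fin_cases i
    · simp [hG]
    · simp [hG]
    · simp
      rw [← hs]; ring
    · simp
      rw [← hs]; ring

lemma FamG_not_isotrivial (M : ℕ) : ¬ IsIsotrivial (FamG M) := by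
  intro hiso
  apply Fam_not_isotrivial
  rintro f ⟨κ, s, hf⟩ g ⟨κ', s', hg⟩
  obtain ⟨hκ, hs⟩ := Fam_good hf
  obtain ⟨hκ', hs'⟩ := Fam_good hg
  obtain ⟨A, t, hA, ht, h⟩ := hiso _ (famG_mem κ s hκ hs) _ (famG_mem κ' s' hκ' hs')
  have h2 : ∀ X, ev (EE M (K κ')) (A.mulVec X) = (s'⁻¹ * (t * s)) • A.mulVec (ev (EE M (K κ)) X) := by
    intro X
    have h3 := h X
    change ev (s' • EE M (K κ')) (A.mulVec X) = t • A.mulVec (ev (s • EE M (K κ)) X) at h3
    rw [ev_smul, ev_smul, Matrix.mulVec_smul] at h3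
    have h4 : s'⁻¹ • (s' • ev (EE M (K κ')) (A.mulVec X)) =
        s'⁻¹ • (t • s • A.mulVec (ev (EE M (K κ)) X)) := by rw [h3]
    rw [smul_smul, inv_mul_cancel₀ hs', one_smul] at h4
    rw [h4, smul_smul, smul_smul, mul_assoc]
  obtain ⟨A', hA', h3⟩ := conj_reduce hκ' A hA (mul_ne_zero (inv_ne_zero hs') (mul_ne_zero ht hs)) h2
  refine ⟨A', t, hA', ht, fun X => ?_⟩
  rw [hf, hg, ev_smul, ev_smul, h3, Matrix.mulVec_smul, smul_smul, smul_smul]
  congr 1
  field_simp

end Pool.Agent.H25.Dyn.Gen
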