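import Pool.Agent.H25.DynG7
namespace Pool.Agent.H25.Dyn.Gen
open MeasureTheory Pool.Agent.H25.Dyn
variable {M : ℕ}

lemma not_LattesG {f : Endo (M + 3) 4} (hf : f ∈ FamG M) : ¬ IsLattes f := by
  obtain ⟨κ, t, h⟩ := hf
  obtain ⟨hκ, ht⟩ := FamG_good h
  obtain ⟨x, y, hy, hG⟩ := G_fixed hκ
  have hX : (app 0 ![0, 0, 1, 0] : Fin (M + 3 + 1) → ℂ) ≠ 0 := by
    intro h; have := congrFun (low_zero_of _ h) 2; simp at this
  have hv : ∀ c : ℂ, (app 0 ![x, y, c, 0] : Fin (M + 3 + 1) → ℂ) ≠ 0 := by
    intro c h; have := congrFun (low_zero_of _ h) 1; simp at this; exact hy this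
  have hev : ∀ c : ℂ, c ^ 4 = 1 → ev (EE M (K κ)) (app 0 ![x, y, c, 0]) = app 0 ![x, y, 1, 0] := by
    intro c hc
    rw [ev_EK, low_app, ev_K]
    have e1 : (G κ x y).1 = x := by rw [hG]
    have e2 : (G κ x y).2 = y := by rw [hG]
    apply vext
    · intro j; simp
    · intro i
      simp only [app_rr]
      fin_cases i
      · simpa using e1
      · simpa using e2
      · simpa using hc
      · simp
  apply not_lattes_aux (Projectivization.mk ℂ _ hX) _ (Projectivization.mk ℂ _ (hv 1))
    (Projectivization.mk ℂ _ (hv Complex.I))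
  · rw [pmap_famG h _ _ (by rw [hev 1 (by norm_num)]; exact hv 1)]
    congr 1
    exact hev 1 (by norm_num)
  · rw [pmap_famG h _ _ (by rw [hev Complex.I (by simp)]; exact hv 1)]
    congr 1
    exact hev Complex.I (by simp)
  · intro he
    rw [Projectivization.mk_eq_mk_iff'] at he
    obtain ⟨s, hs⟩ := he
    have h1 := congrFun hs (rr M 1)
    have h2 := congrFun hs (rr M 2)
    simp only [Pi.smul_apply, smul_eq_mul, app_rr, Matrix.cons_val_one, Matrix.cons_val_zero,
      Matrix.cons_val] at h1 h2
    have h3 : s = 1 := by
      have h4 : (s - 1) * y = 0 := by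
        first
        | linear_combination h1
        | linear_combination -h1
      exact sub_eq_zero.mp ((mul_eq_zero.mp h4).resolve_right hy)
    rw [h3] at h2
    have := congrArg Complex.re h2
    simp at this
  · intro z
    induction z using Projectivization.ind with
    | h Z hZ =>
      have hZ' : ev (EE M (K κ)) Z ≠ 0 := by
        intro h0
        exact hZ (f.2 Z (by rw [h, ev_smul, h0, smul_zero]))
      rw [pmap_famG h _ _ hZ', Projectivization.mk_eq_mk_iff', Projectivization.mk_eq_mk_iff']
      constructor
      · rintro ⟨s, hs⟩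
        rw [ev_EK, ev_K] at hs
        have e0 := congrFun hs (rr M 0)
        have e1 := congrFun hs (rr M 1)
        have e3 := congrFun hs (rr M 3)
        have eu : ∀ j : Fin M, Z (ll j) = 0 := by
          intro j
          have := congrFun hs (ll j)
          simp at this
          exact (pow_eq_zero_iff (by norm_num)).mp this.symm
        simp at e0 e1 e3
        obtain ⟨hz0, hz1⟩ := G_eq_zero hκ (Prod.ext e0.symm e1.symm : G κ (low Z 0) (low Z 1) = 0)
        have hz3 : low Z 3 = 0 := (pow_eq_zero_iff (by norm_num)).mp e3.symm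
        refine ⟨low Z 2, ?_⟩
        apply vext
        · intro j
          simp [eu]
        · intro i
          change low Z 2 * app 0 ![0, 0, 1, 0] (rr M i) = low Z i
          rw [app_rr]
          fin_cases i
          · simp [hz0]
          · simp [hz1]
          · simp
          · simp [hz3]
      · rintro ⟨s, hs⟩
        refine ⟨s ^ 4, ?_⟩
        rw [← hs, ev_hom, ev_EK, low_app, ev_K]
        congr 1
        apply vext
        · intro j
          simp
        · intro i
          simp only [app_rr]
          fin_cases i <;> simp [G]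

end Pool.Agent.H25.Dyn.Gen
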