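import Pool.Agent.H25.DynG7
namespace Pool.Agent.H25.Dyn.Gen
open MeasureTheory Pool.Agent.H25.Dyn
variable {M : ℕ}

lemma pmap_chG_iter {f : Endo (M + 3) 4} {κ t : ℂ} (h : f.1 = t • EE M (K κ)) (n : ℕ) (u : Sp M) :
    (pmap f)^[n] (chG u) = chG ((FG κ)^[n] u) := by
  induction n with
  | zero => rfl
  | succ n ih => rw [Function.iterate_succ_apply', ih, pmap_chG h, Function.iterate_succ_apply']

lemma FG_iter (κ : ℂ) (n : ℕ) (u : Sp M) :
    (FG κ)^[n] u = (fun j => u.1 j ^ (4 ^ n), (FF κ)^[n] u.2) := by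
  induction n with
  | zero => simp
  | succ n ih =>
    rw [Function.iterate_succ_apply', ih, Function.iterate_succ_apply']
    refine Prod.ext ?_ rfl
    funext j
    simp only [FG]
    rw [← pow_mul, pow_succ]

lemma not_PCFG {f : Endo (M + 3) 4} (hf : f ∈ FamG M) : ¬ IsPCF f := by
  obtain ⟨κ, t, h⟩ := hf
  obtain ⟨hκ, ht⟩ := FamG_good h
  rintro ⟨S, hS, hpc⟩
  have hsub : ∀ (P : MvPolynomial (Fin (M + 3 + 1)) ℂ) (v : (ℂ × ℂ) × ℂ),
      MvPolynomial.eval (vec v) (sub4 (fun _ => 1) P) =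
        MvPolynomial.eval (vecG ((fun _ => 1 : Fin M → ℂ), v)) P := by
    intro P v
    rw [eval_sub4]
    have : (vec v) 3 = 1 := by simp [vec]
    rw [this]
    simp only [mul_one]
    rfl
  -- postcritical hyperplanes
  have h1 : ∀ P ∈ S, ∀ (x y : ℂ) (n : ℕ),
      MvPolynomial.eval ![x, y, pp^[n + 1] 0, 1] (sub4 (fun _ => 1) P) = 0 := by
    intro P hP x y n
    obtain ⟨u, hu⟩ := (GG_surj hκ).iterate (n + 1) (x, y)
    have hmem : chG ((fun _ => 1 : Fin M → ℂ), ((x, y), pp^[n + 1] 0)) ∈ postcritical f := by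
      refine ⟨n + 1, by omega, chG ((fun _ => 1 : Fin M → ℂ), (u, 0)), ?_, ?_⟩
      · unfold chG
        rw [critG_rep h, jacG_eq_zero_iff h]
        right; right; left
        simp [vec]
      · rw [pmap_chG_iter h, FG_iter, FF_iter]
        simp only [one_pow]
        rw [hu]
    have h2 := (hpc _).mp hmem P hP
    obtain ⟨k, hk⟩ := hS P hP
    have h3 := (eval_repG hk _).mp h2
    rw [← hsub] at h3
    exact h3
  -- the point `(1, ..., 1, 0, 1, 0)` is postcritical
  have h2 : chG ((fun _ => 1 : Fin M → ℂ), ((0, 1), 0)) ∈ postcritical f := by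
    rw [hpc]
    intro P hP
    obtain ⟨k, hk⟩ := hS P hP
    rw [eval_repG hk, ← hsub]
    exact vanish_chart _ (h1 P hP) 0 1 0
  -- but it is not
  obtain ⟨n, hn, y, hy, hny⟩ := h2
  obtain ⟨m, rfl⟩ : ∃ m, n = m + 1 := ⟨n - 1, by omega⟩
  rcases chG_or y with ⟨u, rfl⟩ | hy3
  · rw [pmap_chG_iter h, FG_iter, FF_iter] at hny
    have hu := chG_injective hny
    have e0 : ∀ j, u.1 j ^ (4 ^ (m + 1)) = 1 := fun j => congrFun (congrArg Prod.fst hu) j
    have e12 := congrArg Prod.snd hu
    simp only at e12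
    have e1 : (GG κ)^[m + 1] u.2.1 = (0, 1) := congrArg Prod.fst e12
    have e2 : pp^[m + 1] u.2.2 = 0 := congrArg Prod.snd e12
    unfold chG at hy
    rw [critG_rep h, jacG_eq_zero_iff h] at hy
    rcases hy with ⟨j, hj⟩ | hy | hy | hy
    · have hj' : u.1 j = 0 := by simpa using hj
      have := e0 j
      rw [hj', zero_pow (by positivity)] at this
      exact zero_ne_one this
    · have hW : W u.2.1.1 u.2.1.2 = 0 := by simpa [vec] using hy
      have := QQ_iter κ m u.2.1 hW
      rw [e1] at this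
      have h0 := hκ.1
      simp [QQ, h0] at this
    · have hz : u.2.2 = 0 := by simpa [vec] using hy
      rw [hz] at e2
      have := crit_orbit m
      rw [e2, norm_zero] at this
      linarith
    · simp [vec] at hy
  · have : ∀ k, ((pmap f)^[k] y).rep (rr M 3) = 0 := by
      intro k
      induction k with
      | zero => exact hy3
      | succ k ih => rw [Function.iterate_succ_apply']; exact pmap_repG h _ ih
    have h4 := this (m + 1)
    rw [hny] at h4
    unfold chG at h4
    rw [repG_mk] at h4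
    simp [vec] at h4

end Pool.Agent.H25.Dyn.Gen
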