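import Pool.Agent.H25.DynG0
open MeasureTheory Filter Topology
open scoped ENNReal
namespace Pool.Agent.H25.Dyn.Gen
open Pool.Agent.H25.Dyn
variable {M : ℕ}

/-! ### the circle measure -/

/-- Haar measure of the unit circle, as a measure on the plane -/
noncomputable def circ : Measure ℂ := Measure.map ee volume

lemma measurable_ee : Measurable ee := ee_cont.measurable

instance circ_prob : IsProbabilityMeasure circ :=
  Measure.isProbabilityMeasure_map measurable_ee.aemeasurable

lemma circ_pow : MeasurePreserving (fun z : ℂ => z ^ 4) circ circ := by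
  refine ⟨by fun_prop, ?_⟩
  unfold circ
  rw [Measure.map_map (by fun_prop) measurable_ee]
  have h : (fun z : ℂ => z ^ 4) ∘ ee = ee ∘ (fun θ : Om => (4 : ℕ) • θ) := by
    funext θ
    simp [ee_nsmul]
  rw [h, ← Measure.map_map measurable_ee mp4.measurable, mp4.map_eq]

lemma circ_rot' {c : ℂ} (hc : ‖c‖ = 1) : MeasurePreserving (fun z : ℂ => c * z) circ circ := by
  refine ⟨by fun_prop, ?_⟩
  obtain ⟨a, rfl⟩ := ee_surj c hc
  unfold circ
  rw [Measure.map_map (by fun_prop) measurable_ee]
  have h : (fun z : ℂ => ee a * z) ∘ ee = ee ∘ (fun θ : Om => θ + a) := by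
    funext θ
    simp [ee_add, mul_comm]
  rw [h, ← Measure.map_map measurable_ee (mpadd a).measurable, (mpadd a).map_eq]

lemma circ_norm : ∀ᵐ z ∂circ, ‖z‖ = 1 := by
  unfold circ
  rw [ae_map_iff measurable_ee.aemeasurable
    (measurableSet_eq_fun (f := fun z : ℂ => ‖z‖) (by fun_prop) measurable_const)]
  exact Eventually.of_forall ee_norm

lemma circ_poly_null (p : Polynomial ℂ) (hp : p ≠ 0) : ∀ᵐ z ∂circ, p.eval z ≠ 0 := by
  unfold circ
  rw [ae_map_iff measurable_ee.aemeasurable
    (isOpen_ne_fun p.continuous continuous_const).measurableSet]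
  exact ee_poly_null p hp

/-! ### products of circles -/

/-- product of `M` circle measures -/
noncomputable def piM (M : ℕ) : Measure (Fin M → ℂ) := Measure.pi (fun _ : Fin M => circ)

instance piM_prob (M : ℕ) : IsProbabilityMeasure (piM M) := by unfold piM; infer_instance

lemma piM_pow (M : ℕ) : MeasurePreserving (fun (u : Fin M → ℂ) (j : Fin M) => u j ^ 4)
    (piM M) (piM M) :=
  measurePreserving_pi (fun _ : Fin M => circ) (fun _ : Fin M => circ) (fun _ => circ_pow)

lemma piM_rot (k : Fin M → Fin 4) :
    MeasurePreserving (fun (u : Fin M → ℂ) (j : Fin M) => im (k j) * u j) (piM M) (piM M) :=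
  measurePreserving_pi (fun _ : Fin M => circ) (fun _ : Fin M => circ)
    (fun j => circ_rot' (im_norm (k j)))

lemma piM_norm (M : ℕ) : ∀ᵐ u ∂(piM M), ∀ j : Fin M, ‖u j‖ = 1 := by
  rw [ae_all_iff]
  intro j
  exact (Measure.quasiMeasurePreserving_eval (fun _ : Fin M => circ) j).ae circ_norm

lemma piM_poly_null (M : ℕ) (P : MvPolynomial (Fin M) ℂ) (hP : P ≠ 0) :
    ∀ᵐ u ∂(piM M), MvPolynomial.eval u P ≠ 0 := by
  induction M with
  | zero =>
    refine Eventually.of_forall fun u => ?_
    intro h
    apply hP
    apply MvPolynomial.funext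
    intro v
    rw [map_zero, ← h]
    congr 2
    exact Subsingleton.elim _ _
  | succ M ih =>
    have hmp := measurePreserving_piFinSuccAbove (fun _ : Fin (M + 1) => circ) 0
    set Q := MvPolynomial.finSuccEquiv ℂ M P with hQ
    have hQ0 : Q ≠ 0 := by
      rw [hQ]
      simpa using hP
    have h1 : ∀ᵐ s ∂(piM M), MvPolynomial.eval s Q.leadingCoeff ≠ 0 :=
      ih _ (Polynomial.leadingCoeff_ne_zero.mpr hQ0)
    have hmeas : MeasurableSet {v : ℂ × (Fin M → ℂ) |
        MvPolynomial.eval (Fin.cons v.1 v.2 : Fin (M + 1) → ℂ) P ≠ 0} := by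
      apply IsOpen.measurableSet
      apply isOpen_ne_fun
      · apply (MvPolynomial.continuous_eval P).comp
        apply continuous_pi
        intro i
        refine Fin.cases ?_ (fun j => ?_) i
        · simp only [Fin.cons_zero]; fun_prop
        · simp only [Fin.cons_succ]; fun_prop
      · exact continuous_const
    have h2 : ∀ᵐ v ∂(circ.prod (piM M)),
        MvPolynomial.eval (Fin.cons v.1 v.2 : Fin (M + 1) → ℂ) P ≠ 0 := by
      have hsw : ∀ᵐ v ∂((piM M).prod circ),
          MvPolynomial.eval (Fin.cons v.2 v.1 : Fin (M + 1) → ℂ) P ≠ 0 := by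
        rw [Measure.ae_prod_iff_ae_ae]
        · filter_upwards [h1] with s hs
          have hne : Polynomial.map (MvPolynomial.eval s) Q ≠ 0 := by
            intro h0
            apply hs
            have := congrArg (fun q => q.coeff Q.natDegree) h0
            simpa [Polynomial.coeff_map] using this
          filter_upwards [circ_poly_null _ hne] with y hy
          rw [MvPolynomial.eval_eq_eval_mv_eval']
          exact hy
        · exact measurable_swap hmeas
      have := (Measure.measurePreserving_swap (μ := circ) (ν := piM M)).quasiMeasurePreserving.ae hsw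
      exact this
    have h3 := hmp.quasiMeasurePreserving.ae h2
    refine h3.mono fun u hu => ?_
    have e : (Fin.cons (MeasurableEquiv.piFinSuccAbove (fun _ : Fin (M + 1) => ℂ) 0 u).1
      (MeasurableEquiv.piFinSuccAbove (fun _ : Fin (M + 1) => ℂ) 0 u).2 : Fin (M + 1) → ℂ) = u := by
      funext i
      refine Fin.cases ?_ (fun j => ?_) i
      · simp [MeasurableEquiv.piFinSuccAbove]
      · simp [MeasurableEquiv.piFinSuccAbove, Fin.tail]
    rw [e] at hu
    exact hu

end Pool.Agent.H25.Dyn.Gen
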