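import Pool.Agent.H25.DynG5
open MeasureTheory Filter Topology
open scoped ENNReal
namespace Pool.Agent.H25.Dyn.Gen
open Pool.Agent.H25.Dyn
variable {M : ℕ}

/-- the affine chart space -/
abbrev Sp (M : ℕ) : Type := (Fin M → ℂ) × ((ℂ × ℂ) × ℂ)

/-- the equilibrium measure in the affine chart -/
noncomputable def muM (M : ℕ) (κ : ℂ) : Measure (Sp M) := (piM M).prod (mu3 κ)

lemma muM_prob {κ : ℂ} (hκ : Good κ) : IsProbabilityMeasure (muM M κ) := by
  have := mu3_prob hκ
  unfold muM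
  infer_instance

/-- the product map in the affine chart -/
noncomputable def FG (κ : ℂ) (v : Sp M) : Sp M := (fun j => v.1 j ^ 4, FF κ v.2)

lemma muM_FG {κ : ℂ} (hκ : Good κ) : MeasurePreserving (FG κ) (muM M κ) (muM M κ) := by
  have := mu3_prob hκ
  exact (piM_pow M).prod (mu3_FF hκ)

/-- deck transformations -/
noncomputable def gamM (i : (Fin M → Fin 4) × (Ix × Fin 4)) (v : Sp M) : Sp M :=
  (fun j => im (i.1 j) * v.1 j, gam3 i.2 v.2)

lemma gamM_mp {κ : ℂ} (hκ : Good κ) (i : (Fin M → Fin 4) × (Ix × Fin 4)) :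
    MeasurePreserving (gamM i) (muM M κ) (muM M κ) := by
  have := mu3_prob hκ
  exact (piM_rot i.1).prod (gam3_mp hκ i.2)

lemma gamM_inv (κ : ℂ) (i : (Fin M → Fin 4) × (Ix × Fin 4)) (v : Sp M) :
    FG κ (gamM i v) = FG κ v := by
  unfold FG gamM
  simp only [gam3_inv, mul_pow, im_four, one_mul]

lemma four_fib {z w : ℂ} (h3 : z ^ 4 = w ^ 4) : ∃ k, im k * z = w := by
  by_cases hv : z = 0
  · rw [hv] at h3 ⊢
    have hw : w = 0 := by
      have : w ^ 4 = 0 := by rw [← h3]; ring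
      exact pow_eq_zero_iff (by norm_num) |>.mp this
    exact ⟨0, by rw [hw, mul_zero]⟩
  · obtain ⟨k, hk⟩ := im_of_four (z := w / z)
      (by rw [div_pow, ← h3, div_self (pow_ne_zero _ hv)])
    exact ⟨k, by rw [hk]; field_simp⟩

lemma gamM_fib {κ : ℂ} (hκ : Good κ) (v w : Sp M) (h : FG κ v = FG κ w) :
    ∃ i, gamM i v = w := by
  have h1 : ∀ j, v.1 j ^ 4 = w.1 j ^ 4 := fun j => congrFun (congrArg Prod.fst h) j
  have h2 : FF κ v.2 = FF κ w.2 := congrArg Prod.snd h
  choose k hk using fun j => four_fib (h1 j)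
  obtain ⟨i, hi⟩ := gam3_fib hκ _ _ h2
  exact ⟨(k, i), Prod.ext (funext hk) hi⟩

/-- a measurable set is of full measure if almost all slices are -/
lemma muM_ae {κ : ℂ} (hκ : Good κ) {P : Sp M → Prop} (hP : MeasurableSet {v | P v})
    (h : ∀ᵐ u ∂(piM M), ∀ᵐ v ∂(mu3 κ), P (u, v)) : ∀ᵐ v ∂(muM M κ), P v := by
  have := mu3_prob hκ
  unfold muM
  rw [Measure.ae_prod_iff_ae_ae hP]
  exact h

lemma muM_fst {κ : ℂ} (hκ : Good κ) {P : (Fin M → ℂ) → Prop} (h : ∀ᵐ u ∂(piM M), P u) :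
    ∀ᵐ v ∂(muM M κ), P v.1 := by
  have := mu3_prob hκ
  exact (Measure.quasiMeasurePreserving_fst (μ := piM M) (ν := mu3 κ)).ae h

lemma muM_snd {κ : ℂ} (hκ : Good κ) {P : (ℂ × ℂ) × ℂ → Prop} (h : ∀ᵐ u ∂(mu3 κ), P u) :
    ∀ᵐ v ∂(muM M κ), P v.2 := by
  have := mu3_prob hκ
  exact (Measure.quasiMeasurePreserving_snd (μ := piM M) (ν := mu3 κ)).ae h

lemma muM_free {κ : ℂ} (hκ : Good κ) :
    ∀ᵐ v ∂(muM M κ), ∀ i j, gamM i v = gamM j v → i = j := by
  filter_upwards [muM_fst hκ (piM_norm M), muM_snd hκ (mu3_free hκ)] with v hv1 hv2 i j hij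
  have e1 : ∀ l, im (i.1 l) * v.1 l = im (j.1 l) * v.1 l := fun l =>
    congrFun (congrArg Prod.fst hij) l
  have e2 : gam3 i.2 v.2 = gam3 j.2 v.2 := congrArg Prod.snd hij
  refine Prod.ext ?_ (hv2 _ _ e2)
  funext l
  have hne : v.1 l ≠ 0 := by
    intro h
    have := hv1 l
    rw [h, norm_zero] at this
    exact zero_ne_one this
  exact im_inj (mul_right_cancel₀ hne (e1 l))

lemma muM_jac {κ : ℂ} (hκ : Good κ) {A : Set (Sp M)} (hA : MeasurableSet A)
    (hi : Set.InjOn (FG κ) A) : muM M κ (FG κ '' A) = 4 ^ (M + 3) * muM M κ A := by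
  have := deck gamM (gamM_mp hκ) (muM_FG hκ) (gamM_inv κ) (gamM_fib hκ) (muM_free hκ) hA hi
  rw [this]
  congr 1
  simp
  rw [pow_add]
  norm_num

/-! ### algebraic sets are null -/

/-- the chart vector -/
noncomputable def vecG (v : Sp M) : Fin (M + 3 + 1) → ℂ := app v.1 (vec v.2)

lemma continuous_vecG : Continuous (vecG (M := M)) := by
  apply continuous_pi
  intro i
  rcases rl_cases i with ⟨j, rfl⟩ | ⟨k, rfl⟩
  · simp only [vecG, app_ll]; fun_prop
  · simp only [vecG, app_rr]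
    unfold vec
    fin_cases k <;> simp <;> fun_prop

/-- substitution `u_j = u j * w` -/
noncomputable def sub4 (u : Fin M → ℂ) (P : MvPolynomial (Fin (M + 3 + 1)) ℂ) :
    MvPolynomial (Fin 4) ℂ :=
  MvPolynomial.bind₁ (fun i : Fin (M + 3 + 1) => Fin.addCases (m := M) (n := 4)
    (motive := fun _ => MvPolynomial (Fin 4) ℂ)
    (fun j => MvPolynomial.C (u j) * MvPolynomial.X 3) (fun k => MvPolynomial.X k) i) P

lemma eval_sub4 (u : Fin M → ℂ) (P : MvPolynomial (Fin (M + 3 + 1)) ℂ) (a : Fin 4 → ℂ) :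
    MvPolynomial.eval a (sub4 u P) = MvPolynomial.eval (app (fun j => u j * a 3) a) P := by
  have h := MvPolynomial.eval₂Hom_bind₁ (RingHom.id ℂ) a
    (fun i : Fin (M + 3 + 1) => Fin.addCases (m := M) (n := 4)
    (motive := fun _ => MvPolynomial (Fin 4) ℂ)
    (fun j => MvPolynomial.C (u j) * MvPolynomial.X 3) (fun k => MvPolynomial.X k) i) P
  have h2 : app (fun j => u j * a 3) a = fun i : Fin (M + 3 + 1) =>
      MvPolynomial.eval₂Hom (RingHom.id ℂ) a (Fin.addCases (m := M) (n := 4)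
    (motive := fun _ => MvPolynomial (Fin 4) ℂ)
    (fun j => MvPolynomial.C (u j) * MvPolynomial.X 3) (fun k => MvPolynomial.X k) i) := by
    apply vext
    · intro j
      rw [app_ll]
      unfold ll
      rw [Fin.addCases_left]
      simp
    · intro k
      rw [app_rr]
      unfold rr
      rw [Fin.addCases_right]
      simp
  rw [h2]
  exact h

/-- restriction to fixed last coordinates, as a polynomial in the first ones -/
noncomputable def subM (a : Fin 4 → ℂ) (P : MvPolynomial (Fin (M + 3 + 1)) ℂ) :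
    MvPolynomial (Fin M) ℂ :=
  MvPolynomial.bind₁ (fun i : Fin (M + 3 + 1) => Fin.addCases (m := M) (n := 4)
    (motive := fun _ => MvPolynomial (Fin M) ℂ)
    (fun j => MvPolynomial.X j) (fun k => MvPolynomial.C (a k)) i) P

lemma eval_subM (a : Fin 4 → ℂ) (P : MvPolynomial (Fin (M + 3 + 1)) ℂ) (u : Fin M → ℂ) :
    MvPolynomial.eval u (subM a P) = MvPolynomial.eval (app u a) P := by
  have h := MvPolynomial.eval₂Hom_bind₁ (RingHom.id ℂ) u
    (fun i : Fin (M + 3 + 1) => Fin.addCases (m := M) (n := 4)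
    (motive := fun _ => MvPolynomial (Fin M) ℂ)
    (fun j => MvPolynomial.X j) (fun k => MvPolynomial.C (a k)) i) P
  have h2 : app u a = fun i : Fin (M + 3 + 1) =>
      MvPolynomial.eval₂Hom (RingHom.id ℂ) u (Fin.addCases (m := M) (n := 4)
    (motive := fun _ => MvPolynomial (Fin M) ℂ)
    (fun j => MvPolynomial.X j) (fun k => MvPolynomial.C (a k)) i) := by
    apply vext
    · intro j
      rw [app_ll]
      unfold ll
      rw [Fin.addCases_left]
      simp
    · intro k
      rw [app_rr]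
      unfold rr
      rw [Fin.addCases_right]
      simp
  rw [h2]
  exact h

lemma muM_alg {κ : ℂ} (hκ : Good κ) (P : MvPolynomial (Fin (M + 3 + 1)) ℂ)
    (hP : ∃ (u : Fin M → ℂ) (s a z : ℂ), MvPolynomial.eval (vecG (u, ((a * s, a), z))) P ≠ 0) :
    ∀ᵐ v ∂(muM M κ), MvPolynomial.eval (vecG v) P ≠ 0 := by
  obtain ⟨u0, s0, a0, z0, h0⟩ := hP
  have hcont : Continuous (fun v : Sp M => MvPolynomial.eval (vecG v) P) :=
    (MvPolynomial.continuous_eval P).comp continuous_vecG
  apply muM_ae hκ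
  · exact (isOpen_ne_fun hcont continuous_const).measurableSet
  · have hne : subM (vec ((a0 * s0, a0), z0)) P ≠ 0 := by
      intro h
      apply h0
      have := eval_subM (vec ((a0 * s0, a0), z0)) P u0
      rw [h, map_zero] at this
      exact this.symm
    filter_upwards [piM_poly_null M _ hne] with u hu
    rw [eval_subM] at hu
    have h3 : ∀ v : (ℂ × ℂ) × ℂ, MvPolynomial.eval (vec v) (sub4 u P) =
        MvPolynomial.eval (vecG (u, v)) P := by
      intro v
      rw [eval_sub4]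
      have : (vec v) 3 = 1 := by simp [vec]
      rw [this]
      simp only [mul_one]
      rfl
    have h4 := mu3_alg hκ (sub4 u P) ⟨s0, a0, z0, by rw [h3]; exact hu⟩
    filter_upwards [h4] with v hv
    rwa [h3] at hv

end Pool.Agent.H25.Dyn.Gen
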