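import Pool.Agent.H25.DynG6
open MeasureTheory Filter Topology
open scoped ENNReal
namespace Pool.Agent.H25.Dyn.Gen
open Pool.Agent.H25.Dyn
variable {M : ℕ}

@[simp] lemma vecG_ll (v : Sp M) (j : Fin M) : vecG v (ll j) = v.1 j := app_ll _ _ _
@[simp] lemma vecG_rr (v : Sp M) (k : Fin 4) : vecG v (rr M k) = vec v.2 k := app_rr _ _ _
@[simp] lemma low_vecG (v : Sp M) : low (vecG v) = vec v.2 := low_app _ _
@[simp] lemma upp_vecG (v : Sp M) : upp (vecG v) = v.1 := upp_app _ _

lemma vecG_ne (v : Sp M) : vecG v ≠ 0 := by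
  intro h
  have := congrFun h (rr M 3)
  simp [vec] at this

lemma ev_vecG (κ : ℂ) (v : Sp M) : ev (EE M (K κ)) (vecG v) = vecG (FG κ v) := by
  rw [ev_EK]
  unfold FG
  simp only [vecG_ll, low_vecG, ev_vec]
  rfl

/-- affine chart -/
noncomputable def chG (v : Sp M) : PSpace (M + 3) := Projectivization.mk ℂ (vecG v) (vecG_ne v)

lemma pmap_chG {f : Endo (M + 3) 4} {κ t : ℂ} (h : f.1 = t • EE M (K κ)) (v : Sp M) :
    pmap f (chG v) = chG (FG κ v) := by
  unfold chG
  rw [pmap_famG h _ _ (by rw [ev_vecG]; exact vecG_ne _)]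
  congr 1
  exact ev_vecG κ v

/-- affine coordinates -/
noncomputable def choG (X : Fin (M + 3 + 1) → ℂ) : Sp M :=
  (fun j => X (ll j) / X (rr M 3), cho (low X))

lemma measurable_choG : Measurable (choG (M := M)) := by
  unfold choG
  refine Measurable.prodMk ?_ ?_
  · rw [measurable_pi_iff]
    intro j
    fun_prop
  · apply measurable_cho.comp
    rw [measurable_pi_iff]
    intro k
    exact measurable_pi_apply _

lemma choG_vecG (v : Sp M) : choG (vecG v) = v := by
  unfold choG
  rw [low_vecG, cho_vec]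
  refine Prod.ext ?_ rfl
  funext j
  simp [vec]

lemma choG_smul {a : ℂ} (ha : a ≠ 0) (X : Fin (M + 3 + 1) → ℂ) : choG (a • X) = choG X := by
  unfold choG cho low
  simp only [Pi.smul_apply, smul_eq_mul]
  simp only [mul_div_mul_left _ _ ha]

lemma vecG_choG (X : Fin (M + 3 + 1) → ℂ) (h3 : X (rr M 3) ≠ 0) :
    vecG (choG X) = (X (rr M 3))⁻¹ • X := by
  apply vext
  · intro j
    simp only [vecG_ll, choG, Pi.smul_apply, smul_eq_mul]
    field_simp
  · intro k
    simp only [vecG_rr, choG, Pi.smul_apply, smul_eq_mul]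
    fin_cases k
    · simp [vec, cho, low]; field_simp
    · simp [vec, cho, low]; field_simp
    · simp [vec, cho, low]; field_simp
    · simp [vec, h3]

lemma chG_injective : Function.Injective (chG (M := M)) := by
  intro u v h
  unfold chG at h
  rw [Projectivization.mk_eq_mk_iff'] at h
  obtain ⟨a, ha⟩ := h
  have h3 := congrFun ha (rr M 3)
  have ha0 : a ≠ 0 := by
    rintro rfl
    simp [vec] at h3
  rw [← choG_vecG u, ← choG_vecG v, ← ha, choG_smul ha0]

lemma measurable_chG : Measurable (chG (M := M)) := by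
  have h : chG (M := M) = (fun X : {X : Fin (M + 3 + 1) → ℂ // X ≠ 0} =>
      Projectivization.mk ℂ X.1 X.2) ∘
      (fun v => (⟨vecG v, vecG_ne v⟩ : {X : Fin (M + 3 + 1) → ℂ // X ≠ 0})) := rfl
  rw [h]
  exact measurable_mk.comp (continuous_vecG.measurable.subtype_mk)

lemma chG_choG (X : Fin (M + 3 + 1) → ℂ) (hX : X ≠ 0) (h3 : X (rr M 3) ≠ 0) :
    chG (choG X) = Projectivization.mk ℂ X hX := by
  unfold chG
  rw [Projectivization.mk_eq_mk_iff']
  exact ⟨(X (rr M 3))⁻¹, (vecG_choG X h3).symm⟩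

lemma chG_emb : MeasurableEmbedding (chG (M := M)) := by
  refine ⟨chG_injective, measurable_chG, ?_⟩
  intro B hB
  change MeasurableSet ((fun X : {X : Fin (M + 3 + 1) → ℂ // X ≠ 0} =>
    Projectivization.mk ℂ X.1 X.2) ⁻¹' (chG '' B))
  have : ((fun X : {X : Fin (M + 3 + 1) → ℂ // X ≠ 0} => Projectivization.mk ℂ X.1 X.2) ⁻¹'
    (chG '' B)) = {X : {X : Fin (M + 3 + 1) → ℂ // X ≠ 0} | X.1 (rr M 3) ≠ 0 ∧ choG X.1 ∈ B} := by
    ext X
    simp only [Set.mem_preimage, Set.mem_image, Set.mem_ofPred_eq]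
    constructor
    · rintro ⟨v, hv, h⟩
      unfold chG at h
      rw [Projectivization.mk_eq_mk_iff'] at h
      obtain ⟨a, ha⟩ := h
      have h3 := congrFun ha (rr M 3)
      have ha0 : a ≠ 0 := by
        rintro rfl
        simp [vec] at h3
      have hX3 : X.1 (rr M 3) ≠ 0 := by
        intro h0
        simp [vec, h0] at h3
      refine ⟨hX3, ?_⟩
      have : choG X.1 = v := by
        rw [← choG_vecG v, ← ha, choG_smul ha0]
      rw [this]
      exact hv
    · rintro ⟨h3, hB'⟩
      exact ⟨_, hB', chG_choG X.1 X.2 h3⟩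
  rw [this]
  apply MeasurableSet.inter
  · have h1 : Measurable (fun X : {X : Fin (M + 3 + 1) → ℂ // X ≠ 0} => X.1 (rr M 3)) :=
      (measurable_pi_apply _).comp measurable_subtype_coe
    exact (h1 (measurableSet_singleton 0)).compl
  · exact (measurable_choG.comp measurable_subtype_coe) hB

/-- the equilibrium measure of the members of the family -/
noncomputable def muP (M : ℕ) (κ : ℂ) : Measure (PSpace (M + 3)) := (muM M κ).map chG

/-- every point is in the chart or at infinity -/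
lemma chG_or (x : PSpace (M + 3)) : (∃ u, x = chG u) ∨ x.rep (rr M 3) = 0 := by
  by_cases h : x.rep (rr M 3) = 0
  · exact Or.inr h
  · left
    refine ⟨choG x.rep, ?_⟩
    rw [chG_choG _ x.rep_nonzero h, x.mk_rep]

lemma repG_mk (X : Fin (M + 3 + 1) → ℂ) (hX : X ≠ 0) :
    (Projectivization.mk ℂ X hX).rep (rr M 3) = 0 ↔ X (rr M 3) = 0 := by
  obtain ⟨a, ha⟩ := Projectivization.exists_smul_eq_mk_rep ℂ X hX
  rw [← ha]
  have e : (a • X) (rr M 3) = (a : ℂ) * X (rr M 3) := rfl
  rw [e]
  simp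

lemma pmap_repG {f : Endo (M + 3) 4} {κ t : ℂ} (h : f.1 = t • EE M (K κ)) (x : PSpace (M + 3))
    (hx : x.rep (rr M 3) = 0) : (pmap f x).rep (rr M 3) = 0 := by
  unfold pmap
  rw [repG_mk, h, ev_smul, ev_EK, Pi.smul_apply, app_rr, ev_K]
  have : low x.rep 3 = 0 := hx
  simp [this]

lemma image_chG {f : Endo (M + 3) 4} {κ t : ℂ} (h : f.1 = t • EE M (K κ))
    (A : Set (PSpace (M + 3))) : chG ⁻¹' (pmap f '' A) = FG κ '' (chG ⁻¹' A) := by
  ext v
  simp only [Set.mem_preimage, Set.mem_image]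
  constructor
  · rintro ⟨x, hx, hxv⟩
    rcases chG_or x with ⟨u, rfl⟩ | h3
    · refine ⟨u, hx, ?_⟩
      rw [pmap_chG h] at hxv
      exact chG_injective hxv
    · exfalso
      have := pmap_repG h x h3
      rw [hxv] at this
      unfold chG at this
      rw [repG_mk] at this
      simp [vec] at this
  · rintro ⟨u, hu, rfl⟩
    exact ⟨chG u, hu, pmap_chG h u⟩

/-- evaluation on a representative -/
lemma eval_repG {P : MvPolynomial (Fin (M + 3 + 1)) ℂ} {k : ℕ} (hk : P.IsHomogeneous k)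
    (v : Sp M) : MvPolynomial.eval (chG v).rep P = 0 ↔ MvPolynomial.eval (vecG v) P = 0 := by
  obtain ⟨a, ha⟩ := Projectivization.exists_smul_eq_mk_rep ℂ _ (vecG_ne v)
  have h3 := hom_eval hk (a : ℂ) (vecG v)
  have h4 : (chG v).rep = (a : ℂ) • vecG v := ha.symm
  rw [h4, h3]
  simp

theorem muP_equilibrium {f : Endo (M + 3) 4} {κ t : ℂ} (h : f.1 = t • EE M (K κ)) :
    IsEquilibrium f (muP M κ) := by
  obtain ⟨hκ, ht⟩ := FamG_good h
  have hprob := muM_prob (M := M) hκ
  refine ⟨?_, ?_, ?_⟩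
  · unfold muP
    rw [chG_emb.map_apply]
    simp
  · intro P k hk hP
    unfold muP
    rw [chG_emb.map_apply]
    have e : chG ⁻¹' {x : PSpace (M + 3) | MvPolynomial.eval x.rep P = 0} =
        {v | ¬ (MvPolynomial.eval (vecG v) P ≠ 0)} := by
      ext v
      simp only [Set.mem_preimage, Set.mem_ofPred_eq, not_not]
      exact eval_repG hk v
    rw [e, ← ae_iff]
    apply muM_alg hκ
    have h1 : P * (MvPolynomial.X (rr M 1) * MvPolynomial.X (rr M 3)) ≠ 0 :=
      mul_ne_zero hP (mul_ne_zero (MvPolynomial.X_ne_zero _) (MvPolynomial.X_ne_zero _))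
    obtain ⟨X, hX⟩ : ∃ X : Fin (M + 3 + 1) → ℂ, MvPolynomial.eval X
        (P * (MvPolynomial.X (rr M 1) * MvPolynomial.X (rr M 3))) ≠ 0 := by
      by_contra hcon
      push Not at hcon
      exact h1 (MvPolynomial.funext fun X => by rw [hcon X, map_zero])
    rw [map_mul, map_mul, MvPolynomial.eval_X, MvPolynomial.eval_X] at hX
    have hX0 := left_ne_zero_of_mul hX
    have hX1 := left_ne_zero_of_mul (right_ne_zero_of_mul hX)
    have hX3 := right_ne_zero_of_mul (right_ne_zero_of_mul hX)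
    refine ⟨fun j => X (ll j) / X (rr M 3), X (rr M 0) / X (rr M 1), X (rr M 1) / X (rr M 3),
      X (rr M 2) / X (rr M 3), ?_⟩
    have e2 : vecG ((fun j => X (ll j) / X (rr M 3)), ((X (rr M 1) / X (rr M 3) *
        (X (rr M 0) / X (rr M 1)), X (rr M 1) / X (rr M 3)), X (rr M 2) / X (rr M 3))) =
        (X (rr M 3))⁻¹ • X := by
      apply vext
      · intro j
        simp only [vecG_ll, Pi.smul_apply, smul_eq_mul]
        field_simp
      · intro i
        simp only [vecG_rr, Pi.smul_apply, smul_eq_mul]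
        fin_cases i
        · simp [vec]; field_simp
        · simp [vec]; field_simp
        · simp [vec]; field_simp
        · simp [vec, hX3]
    rw [e2, hom_eval hk]
    exact mul_ne_zero (pow_ne_zero _ (inv_ne_zero hX3)) hX0
  · intro A hA hi
    unfold muP
    rw [chG_emb.map_apply, chG_emb.map_apply, image_chG h]
    have := muM_jac hκ (A := chG ⁻¹' A) (measurable_chG hA) (by
      intro u hu v hv huv
      apply chG_injective
      apply hi hu hv
      rw [pmap_chG h, pmap_chG h, huv])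
    rw [this]
    norm_num

end Pool.Agent.H25.Dyn.Gen
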