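import Pool.Agent.H25.DynG7
open MeasureTheory Filter Topology
open scoped ENNReal
namespace Pool.Agent.H25.Dyn.Gen
open Pool.Agent.H25.Dyn
variable {M : ℕ}

/-- norm in the chart -/
noncomputable def nnG (v : Sp M) : ℝ := nrm (vecG v)

lemma nnG_eq (v : Sp M) : nnG v = Real.sqrt (∑ j, ‖v.1 j‖ ^ 2 +
    (‖v.2.1.1‖ ^ 2 + ‖v.2.1.2‖ ^ 2 + ‖v.2.2‖ ^ 2 + 1)) := by
  unfold nnG nrm
  congr 1
  rw [sum_split]
  simp [Fin.sum_univ_four, vec]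

lemma nnG_ge (v : Sp M) : 1 ≤ nnG v := by
  rw [nnG_eq]
  apply Real.le_sqrt_of_sq_le
  have : 0 ≤ ∑ j, ‖v.1 j‖ ^ 2 := Finset.sum_nonneg fun j _ => sq_nonneg _
  nlinarith [sq_nonneg ‖v.2.1.1‖, sq_nonneg ‖v.2.1.2‖, sq_nonneg ‖v.2.2‖]

lemma nnG_le {v : Sp M} {b : ℝ} (hb : 0 ≤ b) (h0 : ∀ j, ‖v.1 j‖ = 1) (h1 : ‖v.2.1‖ ≤ b)
    (h2 : ‖v.2.2‖ ≤ 2) : nnG v ≤ Real.sqrt (M + (2 * b ^ 2 + 5)) := by
  rw [nnG_eq]
  apply Real.sqrt_le_sqrt
  have h3 : ‖v.2.1.1‖ ≤ b := (norm_fst_le v.2.1).trans h1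
  have h4 : ‖v.2.1.2‖ ≤ b := (norm_snd_le v.2.1).trans h1
  have h5 := norm_nonneg v.2.1.1
  have h6 := norm_nonneg v.2.1.2
  have h7 := norm_nonneg v.2.2
  have h8 : ∑ j, ‖v.1 j‖ ^ 2 = M := by simp [h0]
  rw [h8]
  nlinarith

lemma measurable_nnG : Measurable (nnG (M := M)) := by
  have : nnG (M := M) = fun v => Real.sqrt (∑ j, ‖v.1 j‖ ^ 2 +
    (‖v.2.1.1‖ ^ 2 + ‖v.2.1.2‖ ^ 2 + ‖v.2.2‖ ^ 2 + 1)) := funext nnG_eq
  rw [this]
  fun_prop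

/-- the Jacobian in the chart -/
lemma logJac_chG {f : Endo (M + 3) 4} {κ t : ℂ} (h : f.1 = t • EE M (K κ)) (v : Sp M)
    (hu : ∀ j, ‖v.1 j‖ = 1)
    (hW : W v.2.1.1 v.2.1.2 ≠ 0) (hz : v.2.2 ≠ 0) (hQ : QQ κ v.2.1.1 v.2.1.2 ≠ 0) :
    logJac f (chG v) = ((M : ℝ) + 4) * (Real.log (nnG v) - Real.log (nnG (FG κ v))) +
      (1 / 2) * (Real.log ‖QQ κ (FF κ v.2).1.1 (FF κ v.2).1.2‖ - Real.log ‖QQ κ v.2.1.1 v.2.1.2‖) +
      (3 * Real.log ‖v.2.2‖ + (Real.log 32 + M * Real.log 4)) := by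
  obtain ⟨hκ, ht⟩ := FamG_good h
  have hc : κ ^ 4 - 1 ≠ 0 := sub_ne_zero.mpr hκ.2
  obtain ⟨a, ha⟩ := Projectivization.exists_smul_eq_mk_rep ℂ _ (vecG_ne v)
  have h4 : (chG v).rep = (a : ℂ) • vecG v := ha.symm
  have ha0 : (a : ℂ) ≠ 0 := a.ne_zero
  have han : 0 < ‖(a : ℂ)‖ := norm_pos_iff.mpr ha0
  have htn : 0 < ‖t‖ := norm_pos_iff.mpr ht
  have hnp1 : 0 < nnG v := by have := nnG_ge v; linarith
  have hnp2 : 0 < nnG (FG κ v) := by have := nnG_ge (FG κ v); linarith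
  have hkn : 0 < ‖κ‖ := norm_pos_iff.mpr hκ.1
  have hcn : 0 < ‖κ ^ 4 - 1‖ := norm_pos_iff.mpr hc
  have hWn : 0 < ‖W v.2.1.1 v.2.1.2‖ := norm_pos_iff.mpr hW
  have hQn : 0 < ‖QQ κ v.2.1.1 v.2.1.2‖ := norm_pos_iff.mpr hQ
  have hzn : 0 < ‖v.2.2‖ := norm_pos_iff.mpr hz
  unfold logJac
  have e1 : ‖jac f (chG v).rep‖ = ‖t‖ ^ (M + 4) * ((4 ^ M * ‖(a : ℂ)‖ ^ (3 * M)) *
      (256 * ‖κ‖ * ‖κ ^ 4 - 1‖ * (‖(a : ℂ)‖ ^ 6 * ‖W v.2.1.1 v.2.1.2‖) *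
        (‖(a : ℂ)‖ * ‖v.2.2‖) ^ 3 * ‖(a : ℂ)‖ ^ 3)) := by
    rw [jac_famG h, h4]
    have hp : ‖∏ j : Fin M, 4 * ((a : ℂ) • vecG v) (ll j) ^ 3‖ = 4 ^ M * ‖(a : ℂ)‖ ^ (3 * M) := by
      rw [norm_prod]
      have : ∀ j : Fin M, ‖4 * ((a : ℂ) • vecG v) (ll j) ^ 3‖ = 4 * ‖(a : ℂ)‖ ^ 3 := by
        intro j
        simp only [Pi.smul_apply, smul_eq_mul, vecG_ll, norm_mul, norm_pow, hu j]
        norm_num
      simp only [this, Finset.prod_const, Finset.card_univ, Fintype.card_fin]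
      rw [mul_pow, ← pow_mul]
    have hl : ∀ k, low ((a : ℂ) • vecG v) k = (a : ℂ) * vec v.2 k := by
      intro k
      simp [low]
    rw [norm_mul, norm_mul, hp, hl, hl, hl, hl, W_smul]
    have h256 : ‖(256:ℂ)‖ = 256 := by norm_num
    simp only [norm_mul, norm_pow, h256]
    simp [vec]
  have e2 : nrm (ev f.1 (chG v).rep) = ‖(a : ℂ)‖ ^ 4 * (‖t‖ * nnG (FG κ v)) := by
    rw [h4, ev_hom, nrm_smul, h, ev_smul, nrm_smul, ev_vecG, norm_pow]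
    rfl
  have e3 : nrm (chG v).rep = ‖(a : ℂ)‖ * nnG v := by
    rw [h4, nrm_smul]; rfl
  rw [e1, e2, e3]
  have e4 : QQ κ (FF κ v.2).1.1 (FF κ v.2).1.2 = 4 * κ ^ 2 * (κ ^ 4 - 1) ^ 2 *
      (W v.2.1.1 v.2.1.2) ^ 2 * QQ κ v.2.1.1 v.2.1.2 := QQ_G κ _ _
  have e5 : Real.log ‖QQ κ (FF κ v.2).1.1 (FF κ v.2).1.2‖ = 2 * Real.log 2 + 2 * Real.log ‖κ‖ +
      2 * Real.log ‖κ ^ 4 - 1‖ + 2 * Real.log ‖W v.2.1.1 v.2.1.2‖ +
      Real.log ‖QQ κ v.2.1.1 v.2.1.2‖ := by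
    rw [e4]
    have h44 : ‖(4:ℂ)‖ = 2 ^ 2 := by norm_num
    rw [norm_mul, norm_mul, norm_mul, norm_mul, norm_pow, norm_pow, norm_pow, h44]
    rw [Real.log_mul (by positivity) (by positivity), Real.log_mul (by positivity) (by positivity),
      Real.log_mul (by positivity) (by positivity), Real.log_mul (by positivity) (by positivity)]
    simp only [Real.log_pow]
    push_cast
    ring
  rw [e5]
  have e6 : (‖(a : ℂ)‖ * nnG v) ^ (M + 3 + 1) * (‖t‖ ^ (M + 4) * ((4 ^ M * ‖(a : ℂ)‖ ^ (3 * M)) *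
      (256 * ‖κ‖ * ‖κ ^ 4 - 1‖ * (‖(a : ℂ)‖ ^ 6 * ‖W v.2.1.1 v.2.1.2‖) *
        (‖(a : ℂ)‖ * ‖v.2.2‖) ^ 3 * ‖(a : ℂ)‖ ^ 3))) /
      ((4 : ℕ) * (‖(a : ℂ)‖ ^ 4 * (‖t‖ * nnG (FG κ v))) ^ (M + 3 + 1)) =
      nnG v ^ (M + 4) * (2 ^ 6 * 4 ^ M * ‖κ‖ * ‖κ ^ 4 - 1‖ * ‖W v.2.1.1 v.2.1.2‖ * ‖v.2.2‖ ^ 3) /
        nnG (FG κ v) ^ (M + 4) := by
    have g1 : M + 3 + 1 = M + 4 := rfl
    rw [g1, mul_pow, mul_pow, mul_pow, mul_pow, div_eq_div_iff (by positivity) (by positivity)]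
    have g2 : ((‖(a : ℂ)‖ ^ 4) ^ (M + 4)) = ‖(a : ℂ)‖ ^ (M + 4) * ‖(a : ℂ)‖ ^ (3 * M) *
      ‖(a : ℂ)‖ ^ 12 := by
      rw [← pow_mul, ← pow_add, ← pow_add]
      congr 1
      ring
    rw [g2]
    push_cast
    ring
  rw [e6]
  have h32 : Real.log 32 = 5 * Real.log 2 := by
    have : (32:ℝ) = 2 ^ 5 := by norm_num
    rw [this, Real.log_pow]; norm_num
  rw [Real.log_div (by positivity) (by positivity), Real.log_mul (by positivity) (by positivity),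
    Real.log_mul (by positivity) (by positivity), Real.log_mul (by positivity) (by positivity),
    Real.log_mul (by positivity) (by positivity), Real.log_mul (by positivity) (by positivity),
    Real.log_mul (by positivity) (by positivity), h32]
  simp only [Real.log_pow]
  push_cast
  ring

/-! ### integrals -/

lemma muM_norm {κ : ℂ} (hκ : Good κ) : ∃ b : ℝ, 0 < b ∧
    ∀ᵐ v ∂(muM M κ), (∀ j, ‖v.1 j‖ = 1) ∧ ‖v.2.1‖ ≤ b ∧ ‖v.2.2‖ ≤ 2 ∧ 1 ≤ ‖v.2.2‖ := by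
  obtain ⟨b, hb, h⟩ := mu3_norm hκ
  refine ⟨b, hb, ?_⟩
  filter_upwards [muM_fst hκ (piM_norm M), muM_snd hκ h] with v h1 h2
  exact ⟨h1, h2⟩

/-- integral of the normalisation coboundary -/
lemma int_nnG {κ : ℂ} (hκ : Good κ) :
    Integrable (fun v : Sp M => Real.log (nnG v) - Real.log (nnG (FG κ v))) (muM M κ) ∧
    ∫ v, (Real.log (nnG v) - Real.log (nnG (FG κ v))) ∂(muM M κ) = 0 := by
  have := muM_prob (M := M) hκ
  obtain ⟨b, hb, hbd⟩ := muM_norm (M := M) hκ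
  have hm : Measurable (fun v : Sp M => Real.log (nnG v)) := Real.measurable_log.comp measurable_nnG
  have hint : Integrable (fun v : Sp M => Real.log (nnG v)) (muM M κ) := by
    refine Integrable.of_bound hm.aestronglyMeasurable
      (Real.log (Real.sqrt (M + (2 * b ^ 2 + 5)))) ?_
    filter_upwards [hbd] with v hv
    have h1 := nnG_ge v
    have h2 := nnG_le hb.le hv.1 hv.2.1 hv.2.2.1
    rw [Real.norm_eq_abs, abs_of_nonneg (Real.log_nonneg h1)]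
    exact Real.log_le_log (by linarith) h2
  have hT := muM_FG (M := M) hκ
  have hint2 : Integrable (fun v : Sp M => Real.log (nnG (FG κ v))) (muM M κ) :=
    hT.integrable_comp_of_integrable hint
  refine ⟨hint.sub hint2, ?_⟩
  rw [integral_sub hint hint2]
  have h3 := integral_map hT.measurable.aemeasurable (μ := muM M κ)
    (f := fun v : Sp M => Real.log (nnG v))
    (by rw [hT.map_eq]; exact hm.aestronglyMeasurable)
  rw [hT.map_eq] at h3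
  rw [h3, sub_self]

lemma mp_snd {κ : ℂ} (hκ : Good κ) :
    MeasurePreserving (Prod.snd : Sp M → (ℂ × ℂ) × ℂ) (muM M κ) (mu3 κ) := by
  have := mu3_prob hκ
  exact measurePreserving_snd

/-- integral of a function of the last coordinates -/
lemma int_snd {κ : ℂ} (hκ : Good κ) {g : (ℂ × ℂ) × ℂ → ℝ} (hg : Integrable g (mu3 κ)) :
    Integrable (fun v : Sp M => g v.2) (muM M κ) ∧
    ∫ v, g v.2 ∂(muM M κ) = ∫ v, g v ∂(mu3 κ) := by
  have hmp := mp_snd (M := M) hκ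
  refine ⟨hmp.integrable_comp_of_integrable hg, ?_⟩
  have h3 := integral_map hmp.measurable.aemeasurable (μ := muM M κ) (f := g)
    (by rw [hmp.map_eq]; exact hg.aestronglyMeasurable)
  rw [hmp.map_eq] at h3
  exact h3.symm

theorem lyapunovG {f : Endo (M + 3) 4} {κ t : ℂ} (h : f.1 = t • EE M (K κ)) :
    Integrable (logJac f) (muP M κ) ∧ ∫ x, logJac f x ∂(muP M κ) = L0 + M * Real.log 4 := by
  obtain ⟨hκ, ht⟩ := FamG_good h
  have := muM_prob (M := M) hκ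
  obtain ⟨b, hb, hbd⟩ := muM_norm (M := M) hκ
  have hae : ∀ᵐ v ∂(muM M κ), ((M : ℝ) + 4) * (Real.log (nnG v) - Real.log (nnG (FG κ v))) +
      (1 / 2) * (Real.log ‖QQ κ (FF κ v.2).1.1 (FF κ v.2).1.2‖ - Real.log ‖QQ κ v.2.1.1 v.2.1.2‖) +
      (3 * Real.log ‖v.2.2‖ + (Real.log 32 + M * Real.log 4)) = logJac f (chG v) := by
    filter_upwards [hbd, muM_snd hκ (mu3_Q hκ)] with v hv hQ
    have hz : v.2.2 ≠ 0 := by
      intro h0
      have := hv.2.2.2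
      rw [h0, norm_zero] at this
      linarith
    exact (logJac_chG h v hv.1 hQ.1 hz hQ.2).symm
  obtain ⟨j2, k2⟩ := int_snd (M := M) hκ (int_QQ hκ).1
  obtain ⟨j3, k3⟩ := int_snd (M := M) hκ (int_z hκ).1
  have i1 := (int_nnG (M := M) hκ).1.const_mul ((M : ℝ) + 4)
  have i2 := j2.const_mul (1 / 2)
  have i3 := (j3.const_mul 3).add (integrable_const (Real.log 32 + M * Real.log 4))
  constructor
  · unfold muP
    rw [chG_emb.integrable_map_iff]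
    exact ((i1.add i2).add i3).congr hae
  · unfold muP
    rw [chG_emb.integral_map, ← integral_congr_ae hae]
    rw [integral_add (f := fun v : Sp M => ((M : ℝ) + 4) * (Real.log (nnG v) -
        Real.log (nnG (FG κ v))) +
      (1 / 2) * (Real.log ‖QQ κ (FF κ v.2).1.1 (FF κ v.2).1.2‖ - Real.log ‖QQ κ v.2.1.1 v.2.1.2‖))
      (g := fun v : Sp M => 3 * Real.log ‖v.2.2‖ + (Real.log 32 + M * Real.log 4)) (i1.add i2) i3]
    rw [integral_add i1 i2, integral_const_mul, integral_const_mul, (int_nnG hκ).2, k2,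
      (int_QQ hκ).2]
    rw [integral_add (j3.const_mul 3) (integrable_const _), integral_const_mul, k3, (int_z hκ).2]
    unfold L0
    simp
    ring

/-- the family is dynamically stable -/
theorem FamG_stable (M : ℕ) : IsStable (FamG M) := by
  refine ⟨fun _ => L0 + M * Real.log 4, ?_, ?_⟩
  · intro f _
    refine ⟨fun _ => ((L0 + M * Real.log 4 : ℝ) : ℂ), analyticAt_const, ?_⟩
    exact Filter.Eventually.of_forall fun c g _ _ => (Complex.ofReal_re _).symm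
  · rintro f ⟨κ, t, h⟩
    obtain ⟨h1, h2⟩ := lyapunovG h
    exact ⟨muP M κ, muP_equilibrium h, h1, h2.symm⟩

end Pool.Agent.H25.Dyn.Gen
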