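import Pool.Agent.H25.DynFam2
namespace Pool.Agent.H25.Dyn
open MeasureTheory

/-- Jacobian matrix -/
noncomputable def JM (κ : ℂ) (X : Fin 4 → ℂ) : Matrix (Fin 4) (Fin 4) ℂ :=
  !![4 * κ ^ 2 * X 0 ^ 3 - 4 * X 0 * X 1 ^ 2, 4 * κ ^ 2 * X 1 ^ 3 - 4 * X 0 ^ 2 * X 1, 0, 0;
     κ * (4 * κ ^ 2 * X 0 * X 1 ^ 2 - 4 * X 0 ^ 3), κ * (4 * κ ^ 2 * X 0 ^ 2 * X 1 - 4 * X 1 ^ 3), 0, 0;
     0, 0, 4 * X 2 ^ 3, - 16 * X 3 ^ 3;
     0, 0, 0, 4 * X 3 ^ 3]

lemma hasFDerivAt_ev (κ : ℂ) (X : Fin 4 → ℂ) :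
    HasFDerivAt (ev (K κ)) (LinearMap.toContinuousLinearMap (Matrix.toLin' (JM κ X))) X := by
  have hev : ev (K κ) = fun X : Fin 4 → ℂ => ![(G κ (X 0) (X 1)).1, (G κ (X 0) (X 1)).2,
    X 2 ^ 4 - 4 * X 3 ^ 4, X 3 ^ 4] := by
    funext X; exact ev_K κ X
  rw [hev, hasFDerivAt_pi']
  have hp : ∀ i : Fin 4, HasFDerivAt (fun X : Fin 4 → ℂ => X i)
    (ContinuousLinearMap.proj i : (Fin 4 → ℂ) →L[ℂ] ℂ) X := fun i => hasFDerivAt_apply i X
  have h0 := hp 0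
  have h1 := hp 1
  have h2 := hp 2
  have h3 := hp 3
  intro i
  fin_cases i
  · simp only [Fin.zero_eta, Matrix.cons_val_zero, G]
    have := ((((h0.pow 4).add (h1.pow 4)).const_mul (κ ^ 2)).sub
      (((h0.pow 2).const_mul 2).mul (h1.pow 2)))
    refine this.congr_fderiv ?_
    ext Y
    simp [JM, Matrix.toLin'_apply, Matrix.mulVec, dotProduct, Fin.sum_univ_four]
    ring
  · simp only [Fin.mk_one, Matrix.cons_val_one, Matrix.cons_val_zero, G]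
    have := (((((h0.pow 2).const_mul (2 * κ ^ 2)).mul (h1.pow 2)).sub (h0.pow 4)).sub
      (h1.pow 4)).const_mul κ
    refine this.congr_fderiv ?_
    ext Y
    simp [JM, Matrix.toLin'_apply, Matrix.mulVec, dotProduct, Fin.sum_univ_four]
    ring
  · simp only [Fin.reduceFinMk, Matrix.cons_val]
    have := (h2.pow 4).sub ((h3.pow 4).const_mul 4)
    refine this.congr_fderiv ?_
    ext Y
    simp [JM, Matrix.toLin'_apply, Matrix.mulVec, dotProduct, Fin.sum_univ_four]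
    ring
  · simp only [Fin.reduceFinMk, Matrix.cons_val]
    have := (h3.pow 4)
    refine this.congr_fderiv ?_
    ext Y
    simp [JM, Matrix.toLin'_apply, Matrix.mulVec, dotProduct, Fin.sum_univ_four]

/-- the critical form -/
noncomputable def W (x y : ℂ) : ℂ := x * y * (x ^ 4 - y ^ 4)

lemma det_JM (κ : ℂ) (X : Fin 4 → ℂ) :
    (JM κ X).det = 256 * κ * (κ ^ 4 - 1) * W (X 0) (X 1) * X 2 ^ 3 * X 3 ^ 3 := by
  unfold JM W
  simp [Matrix.det_succ_row_zero, Fin.sum_univ_succ,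
    show (Fin.succAbove (1 : Fin 4) (2 : Fin 3)) = 3 from rfl]
  ring

lemma jac_fam {f : Endo 3 4} {κ t : ℂ} (h : f.1 = t • K κ) (X : Fin 4 → ℂ) :
    jac f X = t ^ 4 * (256 * κ * (κ ^ 4 - 1) * W (X 0) (X 1) * X 2 ^ 3 * X 3 ^ 3) := by
  have hev : ev f.1 = t • ev (K κ) := by
    funext X; rw [h, ev_smul]; rfl
  unfold jac
  rw [hev, ((hasFDerivAt_ev κ X).const_smul t).fderiv, ← det_JM]
  simp [ContinuousLinearMap.det, LinearMap.det_smul]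

end Pool.Agent.H25.Dyn
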