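import Pool.Agent.H25.DynNu
open MeasureTheory Filter Topology
open scoped ENNReal
namespace Pool.Agent.H25.Dyn

/-- change of variables for injective holomorphic maps -/
lemma cov {S : Set ℂ} (hS : MeasurableSet S) {f f' : ℂ → ℂ} (hf : ∀ s ∈ S, HasDerivAt f (f' s) s)
    (hinj : Set.InjOn f S) (g : ℂ → ℝ≥0∞) :
    ∫⁻ x in f '' S, g x = ∫⁻ x in S, ENNReal.ofReal (‖f' x‖ ^ 2) * g (f x) := by
  have h := lintegral_image_eq_lintegral_abs_det_fderiv_mul (μ := (volume : Measure ℂ)) hS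
    (f' := fun x => ((ContinuousLinearMap.toSpanSingleton ℂ (f' x)).restrictScalars ℝ))
    (fun x hx => ((hf x hx).hasFDerivAt.restrictScalars ℝ).hasFDerivWithinAt) hinj g
  rw [h]
  apply setLIntegral_congr_fun hS
  intro x hx
  simp only
  congr 2
  simp [ContinuousLinearMap.det, LinearMap.det_restrictScalars, Algebra.norm_complex_eq,
    Complex.normSq_eq_norm_sq]

/-- the model integrable function -/
lemma integrable_model : Integrable (fun v : ℂ => ‖v‖⁻¹ * (1 + ‖v‖) ^ (-3 : ℝ)) := by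
  have h := (integrable_fun_norm_addHaar (volume : Measure ℂ) (f := fun r : ℝ => r⁻¹ * (1 + r) ^ (-3 : ℝ))).mpr
  apply h
  have h1 : Integrable (fun r : ℝ => (1 + ‖r‖) ^ (-(3:ℝ))) := integrable_one_add_norm (by simp)
  refine (h1.integrableOn (s := Set.Ioi 0)).congr_fun ?_ measurableSet_Ioi
  intro r hr
  have hr' : (0:ℝ) < r := hr
  simp only [Complex.finrank_real_complex, smul_eq_mul, Real.norm_eq_abs, abs_of_pos hr']
  field_simp
  norm_num

/-- product of inverse distances to four distinct points -/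
lemma integrable_prod (a : Fin 4 → ℂ) (ha : Function.Injective a) :
    Integrable (fun s : ℂ => ∏ i, ‖s - a i‖⁻¹) := by
  -- separation
  obtain ⟨δ, hδ, hsep⟩ : ∃ δ : ℝ, 0 < δ ∧ ∀ i j, i ≠ j → δ ≤ ‖a i - a j‖ := by
    have hfin : (Set.univ : Set (Fin 4 × Fin 4)).Finite := Set.finite_univ
    have hne : (Finset.univ.filter (fun p : Fin 4 × Fin 4 => p.1 ≠ p.2)).Nonempty :=
      ⟨(0, 1), by simp⟩
    obtain ⟨p, hp, hmin⟩ := Finset.exists_min_image _ (fun p : Fin 4 × Fin 4 => ‖a p.1 - a p.2‖) hne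
    refine ⟨‖a p.1 - a p.2‖, ?_, ?_⟩
    · rw [norm_pos_iff, sub_ne_zero]
      intro h
      simp at hp
      exact hp (ha h)
    · intro i j hij
      exact hmin (i, j) (by simp [hij])
  set c : ℝ := min 1 (δ / 2) / 2 with hc
  have hcpos : 0 < c := by positivity
  have hc1 : c ≤ 1 / 2 := by
    rw [hc]; have := min_le_left 1 (δ / 2); linarith
  have hc2 : c ≤ δ / 4 := by
    rw [hc]; have := min_le_right 1 (δ / 2); linarith
  -- integrable dominating function
  have hdom : Integrable (fun s : ℂ => c⁻¹ ^ 3 * ∑ i, ‖s - a i‖⁻¹ * (1 + ‖s - a i‖) ^ (-3 : ℝ)) := by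
    apply Integrable.const_mul
    apply integrable_finsetSum
    intro i _
    exact integrable_model.comp_sub_right (a i)
  refine hdom.mono' ?_ ?_
  · apply Measurable.aestronglyMeasurable
    fun_prop
  · refine Eventually.of_forall ?_
    intro s
    rw [Real.norm_of_nonneg (Finset.prod_nonneg fun i _ => inv_nonneg.mpr (norm_nonneg _))]
    obtain ⟨i, -, hi⟩ := Finset.exists_min_image (Finset.univ : Finset (Fin 4)) (fun i => ‖s - a i‖)
      ⟨0, Finset.mem_univ _⟩
    set t := ‖s - a i‖ with ht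
    have ht0 : 0 ≤ t := norm_nonneg _
    have hfar : ∀ j, j ≠ i → c * (1 + t) ≤ ‖s - a j‖ := by
      intro j hj
      have h1 : δ ≤ ‖a i - a j‖ := hsep i j (Ne.symm hj)
      have h2 : ‖a i - a j‖ ≤ t + ‖s - a j‖ := by
        have : a i - a j = -(s - a i) + (s - a j) := by ring
        rw [this]
        refine (norm_add_le _ _).trans ?_
        rw [norm_neg]
      have h3 : t ≤ ‖s - a j‖ := hi j (Finset.mem_univ _)
      nlinarith
    have hprod : ∏ j, ‖s - a j‖⁻¹ ≤ t⁻¹ * (c⁻¹ ^ 3 * (1 + t) ^ (-3 : ℝ)) := by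
      rw [← Finset.mul_prod_erase Finset.univ _ (Finset.mem_univ i)]
      apply mul_le_mul_of_nonneg_left _ (inv_nonneg.mpr ht0)
      have h4 : ∏ j ∈ Finset.univ.erase i, ‖s - a j‖⁻¹ ≤ ∏ j ∈ Finset.univ.erase i, (c * (1 + t))⁻¹ := by
        apply Finset.prod_le_prod
        · intro j _; positivity
        · intro j hj
          have hj' : j ≠ i := (Finset.mem_erase.mp hj).1
          exact inv_anti₀ (by positivity) (hfar j hj')
      refine h4.trans ?_
      rw [Finset.prod_const, Finset.card_erase_of_mem (Finset.mem_univ i)]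
      simp only [Finset.card_univ, Fintype.card_fin]
      have e : (1 + t) ^ (-3 : ℝ) = ((1 + t) ^ 3)⁻¹ := by
        rw [Real.rpow_neg (by positivity)]
        norm_num
      rw [e]
      apply le_of_eq
      norm_num
      rw [mul_pow, inv_pow]
      ring
    refine hprod.trans ?_
    have hle : t⁻¹ * (1 + t) ^ (-3 : ℝ) ≤ ∑ j, ‖s - a j‖⁻¹ * (1 + ‖s - a j‖) ^ (-3 : ℝ) :=
      Finset.single_le_sum (f := fun j => ‖s - a j‖⁻¹ * (1 + ‖s - a j‖) ^ (-3 : ℝ))
        (fun j _ => by positivity) (Finset.mem_univ i)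
    calc t⁻¹ * (c⁻¹ ^ 3 * (1 + t) ^ (-3 : ℝ)) = c⁻¹ ^ 3 * (t⁻¹ * (1 + t) ^ (-3 : ℝ)) := by ring
      _ ≤ _ := by gcongr

end Pool.Agent.H25.Dyn
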