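import Pool.Agent.H25.DynPCF
import Pool.Agent.H25.DynMk
open MeasureTheory Filter Topology
open scoped ENNReal
namespace Pool.Agent.H25.Dyn

/-- density -/
noncomputable def rho (κ s : ℂ) : ℝ≥0∞ := ENNReal.ofReal (‖QQ κ s 1‖⁻¹)

lemma measurable_rho (κ : ℂ) : Measurable (rho κ) := by
  unfold rho QQ
  fun_prop

lemma QQ_factor {κ : ℂ} (hκ : κ ≠ 0) (s : ℂ) :
    QQ κ s 1 = κ ^ 2 * ∏ i, (s - (![κ, -κ, κ⁻¹, -κ⁻¹] : Fin 4 → ℂ) i) := by
  unfold QQ
  simp [Fin.prod_univ_four]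
  field_simp
  ring

lemma roots_injective {κ : ℂ} (hκ : Good κ) :
    Function.Injective (![κ, -κ, κ⁻¹, -κ⁻¹] : Fin 4 → ℂ) := by
  obtain ⟨h0, h4⟩ := hκ
  have h2 : κ ^ 2 ≠ 1 := by
    intro h; apply h4
    have : κ ^ 4 = (κ ^ 2) ^ 2 := by ring
    rw [this, h]; norm_num
  have h2' : κ ^ 2 ≠ -1 := by
    intro h; apply h4
    have : κ ^ 4 = (κ ^ 2) ^ 2 := by ring
    rw [this, h]; norm_num
  have e1 : κ ≠ -κ := by
    intro h; apply h0
    have : (2 : ℂ) * κ = 0 := by linear_combination h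
    simpa using this
  have e2 : κ ≠ κ⁻¹ := by
    intro h; apply h2
    field_simp at h
    exact h
  have e3 : κ ≠ -κ⁻¹ := by
    intro h; apply h2'
    have : κ * κ = -κ⁻¹ * κ := by rw [← h]
    rw [neg_mul, inv_mul_cancel₀ h0] at this
    rw [sq]; exact this
  have e4 : κ⁻¹ ≠ -κ⁻¹ := by
    intro h
    have : (2 : ℂ) * κ⁻¹ = 0 := by linear_combination h
    simp at this
    exact h0 this
  intro i j hij
  fin_cases i <;> fin_cases j <;> simp at hij ⊢
  · exact e1 hij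
  · exact e2 hij
  · exact e3 hij
  · exact e1 hij.symm
  · exact e3 (by rw [← hij]; ring)
  · exact e2 hij
  · exact e2 hij.symm
  · exact e3 (by rw [hij]; ring)
  · exact e4 hij
  · exact e3 hij.symm
  · exact e2 hij.symm
  · exact e4 hij.symm

lemma lintegral_rho_lt {κ : ℂ} (hκ : Good κ) : ∫⁻ s, rho κ s < ⊤ := by
  have h := (integrable_prod _ (roots_injective hκ)).const_mul (‖κ ^ 2‖⁻¹)
  have h2 : ∀ s, rho κ s = ENNReal.ofReal (‖κ ^ 2‖⁻¹ * ∏ i, ‖s - (![κ, -κ, κ⁻¹, -κ⁻¹] : Fin 4 → ℂ) i‖⁻¹) := by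
    intro s
    unfold rho
    rw [QQ_factor hκ.1, norm_mul, norm_prod, mul_inv, Finset.prod_inv_distrib]
  simp_rw [h2]
  have h3 := h.2
  rw [hasFiniteIntegral_iff_norm] at h3
  refine lt_of_le_of_lt (lintegral_mono fun s => ?_) h3
  exact ENNReal.ofReal_le_ofReal (le_abs_self _)

lemma lintegral_rho_pos {κ : ℂ} (hκ : Good κ) : 0 < ∫⁻ s, rho κ s := by
  rw [lintegral_pos_iff_support (measurable_rho κ)]
  have hsupp : {s | QQ κ s 1 ≠ 0} ⊆ Function.support (rho κ) := by
    intro s hs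
    simp only [Function.mem_support, rho, ne_eq, ENNReal.ofReal_eq_zero, not_le]
    exact inv_pos.mpr (norm_pos_iff.mpr hs)
  refine lt_of_lt_of_le ?_ (measure_mono hsupp)
  apply IsOpen.measure_pos
  · apply isOpen_ne_fun
    · unfold QQ; fun_prop
    · fun_prop
  · refine ⟨0, ?_⟩
    simp [QQ, hκ.1]

lemma QQ_neg (κ s : ℂ) : QQ κ (-s) 1 = QQ κ s 1 := by unfold QQ; ring

lemma QQ_inv (κ : ℂ) {s : ℂ} (hs : s ≠ 0) : QQ κ s⁻¹ 1 * s ^ 4 = QQ κ s 1 := by
  unfold QQ
  field_simp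
  ring

/-- invariance of the density under the inversion -/
lemma rho_inv (κ : ℂ) {s : ℂ} (hs : s ≠ 0) :
    ENNReal.ofReal (‖-(s ^ 2)⁻¹‖ ^ 2) * rho κ s⁻¹ = rho κ s := by
  unfold rho
  rw [← ENNReal.ofReal_mul (by positivity), ← QQ_inv κ hs]
  congr 1
  have hs' : ‖s‖ ≠ 0 := norm_ne_zero_iff.mpr hs
  simp only [norm_neg, norm_inv, norm_mul, norm_pow, mul_inv]
  ring

lemma hasDerivAt_inv' {s : ℂ} (hs : s ≠ 0) : HasDerivAt (fun z : ℂ => z⁻¹) (-(s ^ 2)⁻¹) s :=
  hasDerivAt_inv hs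

/-- half disc -/
def DD : Set ℂ := {s | ‖s‖ < 1 ∧ 0 < s.re}

lemma measurableSet_DD : MeasurableSet DD :=
  (measurableSet_lt (f := fun s : ℂ => ‖s‖) measurable_norm measurable_const).inter
    (measurableSet_lt (g := fun s : ℂ => s.re) measurable_const Complex.measurable_re)

lemma null_sphere : volume {s : ℂ | ‖s‖ = 1} = 0 := by
  have := Measure.addHaar_sphere (volume : Measure ℂ) (0 : ℂ) 1
  have e : {s : ℂ | ‖s‖ = 1} = Metric.sphere (0 : ℂ) 1 := by ext s; simp
  rw [e]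
  exact Measure.addHaar_sphere _ _ _

lemma null_line : volume {s : ℂ | s.re = 0} = 0 := by
  have hk : {s : ℂ | s.re = 0} = (LinearMap.ker (Complex.reLm) : Submodule ℝ ℂ) := by
    ext s; simp
  rw [hk]
  apply Measure.addHaar_submodule
  intro h
  have : (1 : ℂ) ∈ (LinearMap.ker (Complex.reLm) : Submodule ℝ ℂ) := by rw [h]; trivial
  simp at this

/-- folding an even, inversion invariant integral to the half disc -/
lemma fold (κ : ℂ) {h : ℂ → ℝ≥0∞} (hneg : ∀ s, h (-s) = h s)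
    (hinv : ∀ s, s ≠ 0 → h s⁻¹ = h s) :
    ∫⁻ s, h s * rho κ s = 4 * ∫⁻ s in DD, h s * rho κ s := by
  set F : ℂ → ℝ≥0∞ := fun s => h s * rho κ s with hF
  have hFneg : ∀ s, F (-s) = F s := by
    intro s; simp only [hF, rho, QQ_neg, hneg]
  have hpos : MeasurableSet {s : ℂ | 0 < s.re} :=
    measurableSet_lt (g := fun s : ℂ => s.re) measurable_const Complex.measurable_re
  have hneg' : MeasurableSet {s : ℂ | s.re < 0} :=
    measurableSet_lt (f := fun s : ℂ => s.re) Complex.measurable_re measurable_const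
  -- first fold
  have h1 : ∫⁻ s, F s = 2 * ∫⁻ s in {s : ℂ | 0 < s.re}, F s := by
    rw [← lintegral_add_compl F hpos]
    have e1 : ({s : ℂ | 0 < s.re}ᶜ : Set ℂ) =ᵐ[volume] {s : ℂ | s.re < 0} := by
      have hz : ∀ᵐ s : ℂ, s.re ≠ 0 := by
        rw [ae_iff]
        simpa using null_line
      filter_upwards [hz] with s hs
      apply propext
      change ¬ (0 < s.re) ↔ s.re < 0
      rw [not_lt]
      exact ⟨fun h => lt_of_le_of_ne h hs, le_of_lt⟩
    rw [setLIntegral_congr e1]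
    have e2 : ∫⁻ s in {s : ℂ | s.re < 0}, F s = ∫⁻ s in {s : ℂ | 0 < s.re}, F s := by
      have hmp := Measure.measurePreserving_neg (volume : Measure ℂ)
      have := hmp.setLIntegral_comp_preimage_emb (MeasurableEquiv.neg ℂ).measurableEmbedding F {s : ℂ | s.re < 0}
      rw [← this]
      have e3 : (Neg.neg : ℂ → ℂ) ⁻¹' {s : ℂ | s.re < 0} = {s : ℂ | 0 < s.re} := by
        ext s; simp
      have e4 : (fun x : ℂ => -x) ⁻¹' {s : ℂ | s.re < 0} = {s : ℂ | 0 < s.re} := by
        ext s; simp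
      simp only [hFneg]
      rw [e4]
    rw [e2, two_mul]
  -- second fold
  have h2 : ∫⁻ s in {s : ℂ | 0 < s.re}, F s = 2 * ∫⁻ s in DD, F s := by
    have e1 : ({s : ℂ | 0 < s.re} : Set ℂ) =ᵐ[volume] (DD ∪ (fun z : ℂ => z⁻¹) '' DD : Set ℂ) := by
      have hz : ∀ᵐ s : ℂ, ‖s‖ ≠ 1 := by
        rw [ae_iff]
        simpa using null_sphere
      filter_upwards [hz] with s hs
      apply propext
      change (0 < s.re) ↔ s ∈ (DD ∪ (fun z : ℂ => z⁻¹) '' DD : Set ℂ)
      constructor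
      · intro h0
        rcases lt_or_gt_of_ne hs with h1 | h1
        · exact Or.inl ⟨h1, h0⟩
        · right
          refine ⟨s⁻¹, ⟨?_, ?_⟩, inv_inv s⟩
          · rw [norm_inv]; exact inv_lt_one_of_one_lt₀ h1
          · rw [Complex.inv_re]
            apply div_pos h0
            rw [Complex.normSq_pos]
            intro h; rw [h] at h0; simp at h0
      · rintro (h0 | ⟨z, hz, rfl⟩)
        · exact h0.2
        · simp only [Complex.inv_re]
          apply div_pos hz.2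
          rw [Complex.normSq_pos]
          intro h; have := hz.2; rw [h] at this; simp at this
    rw [setLIntegral_congr e1]
    have hne : ∀ s ∈ DD, s ≠ 0 := by
      intro s hs h; have := hs.2; rw [h] at this; simp at this
    have himg : MeasurableSet ((fun z : ℂ => z⁻¹) '' DD) := by
      rw [Set.image_inv_eq_inv]
      exact measurableSet_DD.inv
    rw [lintegral_union himg]
    · rw [cov measurableSet_DD (f' := fun s => -(s ^ 2)⁻¹) (fun s hs => hasDerivAt_inv' (hne s hs))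
        (inv_injective.injOn) F]
      have e2 : ∫⁻ x in DD, ENNReal.ofReal (‖-(x ^ 2)⁻¹‖ ^ 2) * F x⁻¹ = ∫⁻ x in DD, F x := by
        apply setLIntegral_congr_fun measurableSet_DD
        intro x hx
        simp only [hF]
        rw [hinv x (hne x hx), ← rho_inv κ (hne x hx)]
        ring
      rw [e2, two_mul]
    · rw [Set.disjoint_left]
      rintro s hs ⟨z, hz, hzs⟩
      have h3 : ‖s‖ * ‖z‖ = 1 := by
        rw [← norm_mul, ← hzs]
        simp only
        rw [inv_mul_cancel₀ (hne z hz), norm_one]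
      have h4 := hs.1
      have h5 := hz.1
      nlinarith [norm_nonneg s, norm_nonneg z]
  rw [h1, h2, ← mul_assoc]
  norm_num

end Pool.Agent.H25.Dyn
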