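import Pool.Agent.H25.DynMk2
import Pool.Agent.H25.DynIso
open MeasureTheory Filter Topology
open scoped ENNReal
namespace Pool.Agent.H25.Dyn

/-- Lattès map in the affine coordinate -/
noncomputable def gg (κ s : ℂ) : ℂ := (G κ s 1).1 / (G κ s 1).2

lemma gg_neg (κ s : ℂ) : gg κ (-s) = gg κ s := by
  unfold gg G
  simp only
  ring_nf

lemma gg_inv (κ : ℂ) {s : ℂ} (hs : s ≠ 0) : gg κ s⁻¹ = gg κ s := by
  unfold gg
  have h1 : (G κ s⁻¹ 1).1 = (s ^ 4)⁻¹ * (G κ s 1).1 := by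
    unfold G; simp only; field_simp
    ring
  have h2 : (G κ s⁻¹ 1).2 = (s ^ 4)⁻¹ * (G κ s 1).2 := by
    unfold G; simp only; field_simp
    ring
  rw [h1, h2, mul_div_mul_left]
  exact inv_ne_zero (pow_ne_zero _ hs)

lemma gg_deriv (κ : ℂ) {s : ℂ} (h : (G κ s 1).2 ≠ 0) :
    HasDerivAt (gg κ) (4 * κ * (κ ^ 4 - 1) * W s 1 / (G κ s 1).2 ^ 2) s := by
  have hN : HasDerivAt (fun s : ℂ => (G κ s 1).1) (κ ^ 2 * (4 * s ^ 3) - 4 * s) s := by
    have h1 : HasDerivAt (fun s : ℂ => κ ^ 2 * (s ^ 4 + 1) - 2 * s ^ 2) (κ ^ 2 * (4 * s ^ 3) - 2 * (2 * s)) s := by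
      have := (((hasDerivAt_pow 4 s).add_const 1).const_mul (κ ^ 2)).fun_sub ((hasDerivAt_pow 2 s).const_mul 2)
      simpa using this
    have e : (fun s : ℂ => (G κ s 1).1) = fun s : ℂ => κ ^ 2 * (s ^ 4 + 1) - 2 * s ^ 2 := by
      funext s; unfold G; simp only; ring
    rw [e]
    refine h1.congr_deriv ?_
    ring
  have hD : HasDerivAt (fun s : ℂ => (G κ s 1).2) (κ * (4 * κ ^ 2 * s - 4 * s ^ 3)) s := by
    have h1 : HasDerivAt (fun s : ℂ => κ * (2 * κ ^ 2 * s ^ 2 - s ^ 4 - 1)) (κ * (2 * κ ^ 2 * (2 * s) - 4 * s ^ 3)) s := by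
      have := ((((hasDerivAt_pow 2 s).const_mul (2 * κ ^ 2)).fun_sub (hasDerivAt_pow 4 s)).sub_const 1).const_mul κ
      simpa using this
    have e : (fun s : ℂ => (G κ s 1).2) = fun s : ℂ => κ * (2 * κ ^ 2 * s ^ 2 - s ^ 4 - 1) := by
      funext s; unfold G; simp only; ring
    rw [e]
    refine h1.congr_deriv ?_
    ring
  have := hN.fun_div hD h
  refine HasDerivAt.congr_deriv (f := fun s => (G κ s 1).1 / (G κ s 1).2) this ?_
  congr 1
  unfold G W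
  simp only
  ring

/-- the key density identity -/
lemma rho_gg {κ s : ℂ} (hκ : Good κ) (hW : W s 1 ≠ 0) (hQ : QQ κ s 1 ≠ 0) (hD : (G κ s 1).2 ≠ 0) :
    ENNReal.ofReal (‖4 * κ * (κ ^ 4 - 1) * W s 1 / (G κ s 1).2 ^ 2‖ ^ 2) * rho κ (gg κ s) =
      4 * rho κ s := by
  have h1 : QQ κ (gg κ s) 1 = 4 * κ ^ 2 * (κ ^ 4 - 1) ^ 2 * (W s 1) ^ 2 * QQ κ s 1 / (G κ s 1).2 ^ 4 := by
    rw [← QQ_G, eq_div_iff (pow_ne_zero _ hD)]
    unfold gg QQ
    field_simp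
  have hc : κ ^ 4 - 1 ≠ 0 := sub_ne_zero.mpr hκ.2
  have hc' : ‖κ ^ 4 - 1‖ ≠ 0 := norm_ne_zero_iff.mpr hc
  have hk : ‖κ‖ ≠ 0 := norm_ne_zero_iff.mpr hκ.1
  have hW' : ‖W s 1‖ ≠ 0 := norm_ne_zero_iff.mpr hW
  have hQ' : ‖QQ κ s 1‖ ≠ 0 := norm_ne_zero_iff.mpr hQ
  have hD' : ‖(G κ s 1).2‖ ≠ 0 := norm_ne_zero_iff.mpr hD
  unfold rho
  rw [h1, ← ENNReal.ofReal_mul (by positivity)]
  have h4 : (4 : ℝ≥0∞) = ENNReal.ofReal 4 := by norm_num
  rw [h4, ← ENNReal.ofReal_mul (by norm_num)]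
  congr 1
  simp only [norm_mul, norm_div, norm_pow]
  have : ‖(4:ℂ)‖ = 4 := by norm_num
  rw [this]
  field_simp

/-- good part of the half disc -/
def DDg (κ : ℂ) : Set ℂ := {s | s ∈ DD ∧ W s 1 ≠ 0 ∧ QQ κ s 1 ≠ 0 ∧ (G κ s 1).2 ≠ 0}

/-- zero sets of nonzero polynomials are null -/
lemma null_poly (p : Polynomial ℂ) (hp : p ≠ 0) : volume {s : ℂ | p.eval s = 0} = 0 := by
  have : {s : ℂ | p.eval s = 0} = (p.roots.toFinset : Set ℂ) := by
    ext s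
    simp [Polynomial.mem_roots hp]
  rw [this]
  exact (Finset.finite_toSet _).measure_zero _

open Polynomial in
lemma null_bad {κ : ℂ} (hκ : Good κ) :
    volume {s : ℂ | W s 1 = 0 ∨ QQ κ s 1 = 0 ∨ (G κ s 1).2 = 0} = 0 := by
  have h1 : volume {s : ℂ | W s 1 = 0} = 0 := by
    have := null_poly (X * (X ^ 4 - 1)) (by
      intro h
      have := congrArg (Polynomial.eval 2) h
      simp at this
      norm_num at this)
    convert this using 3
    simp [W]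
  have h2 : volume {s : ℂ | QQ κ s 1 = 0} = 0 := by
    have := null_poly ((X ^ 2 - C (κ ^ 2)) * (C (κ ^ 2) * X ^ 2 - 1)) (by
      intro h
      have := congrArg (Polynomial.eval 0) h
      simp at this
      exact hκ.1 this)
    convert this using 3
    simp [QQ]
  have h3 : volume {s : ℂ | (G κ s 1).2 = 0} = 0 := by
    have := null_poly (C κ * (C (2 * κ ^ 2) * X ^ 2 - X ^ 4 - 1)) (by
      intro h
      have := congrArg (Polynomial.eval 0) h
      simp at this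
      exact hκ.1 this)
    convert this using 3
    simp [G]
  have : {s : ℂ | W s 1 = 0 ∨ QQ κ s 1 = 0 ∨ (G κ s 1).2 = 0} =
      {s : ℂ | W s 1 = 0} ∪ ({s : ℂ | QQ κ s 1 = 0} ∪ {s : ℂ | (G κ s 1).2 = 0}) := by
    ext s; rfl
  rw [this]
  exact measure_union_null h1 (measure_union_null h2 h3)

lemma DDg_ae {κ : ℂ} (hκ : Good κ) : (DD : Set ℂ) =ᵐ[volume] (DDg κ : Set ℂ) := by
  have hz : ∀ᵐ s : ℂ, ¬ (W s 1 = 0 ∨ QQ κ s 1 = 0 ∨ (G κ s 1).2 = 0) := by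
    rw [ae_iff]
    simpa only [not_not] using null_bad hκ
  filter_upwards [hz] with s hs
  apply propext
  change s ∈ DD ↔ s ∈ DDg κ
  simp only [not_or] at hs
  exact ⟨fun h => ⟨h, hs⟩, fun h => h.1⟩

lemma measurableSet_DDg (κ : ℂ) : MeasurableSet (DDg κ) := by
  have h1 : MeasurableSet {s : ℂ | W s 1 ≠ 0} :=
    (isOpen_ne_fun (by unfold W; fun_prop) continuous_const).measurableSet
  have h2 : MeasurableSet {s : ℂ | QQ κ s 1 ≠ 0} :=
    (isOpen_ne_fun (by unfold QQ; fun_prop) continuous_const).measurableSet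
  have h3 : MeasurableSet {s : ℂ | (G κ s 1).2 ≠ 0} :=
    (isOpen_ne_fun (by unfold G; fun_prop) continuous_const).measurableSet
  exact measurableSet_DD.inter (h1.inter (h2.inter h3))

/-- fibres of the lift -/
lemma G_fibre {κ : ℂ} (hκ : Good κ) {x y x' y' : ℂ} (h : G κ x y = G κ x' y') :
    x ^ 4 + y ^ 4 = x' ^ 4 + y' ^ 4 ∧ x ^ 2 * y ^ 2 = x' ^ 2 * y' ^ 2 := by
  obtain ⟨h0, h1⟩ := hκ
  have e1 : κ ^ 2 * (x ^ 4 + y ^ 4) - 2 * x ^ 2 * y ^ 2 =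
    κ ^ 2 * (x' ^ 4 + y' ^ 4) - 2 * x' ^ 2 * y' ^ 2 := congrArg Prod.fst h
  have e2 : κ * (2 * κ ^ 2 * x ^ 2 * y ^ 2 - x ^ 4 - y ^ 4) =
    κ * (2 * κ ^ 2 * x' ^ 2 * y' ^ 2 - x' ^ 4 - y' ^ 4) := congrArg Prod.snd h
  have e3 := mul_left_cancel₀ h0 e2
  have e4 : (κ ^ 4 - 1) * (x ^ 2 * y ^ 2) = (κ ^ 4 - 1) * (x' ^ 2 * y' ^ 2) := by
    linear_combination (1/2 : ℂ) * e1 + (κ ^ 2 / 2) * e3
  have e5 := mul_left_cancel₀ (sub_ne_zero.mpr h1) e4
  exact ⟨by linear_combination (2 * κ ^ 2) * e5 - e3, e5⟩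

lemma gg_injOn {κ : ℂ} (hκ : Good κ) : Set.InjOn (gg κ) (DDg κ) := by
  intro s hs z hz h
  -- G κ s 1 and G κ z 1 are proportional
  have hsD := hs.2.2.2
  have hzD := hz.2.2.2
  -- choose a fourth root of the ratio
  obtain ⟨c, hc⟩ := IsAlgClosed.exists_pow_nat_eq ((G κ s 1).2 / (G κ z 1).2) (n := 4) (by norm_num)
  have h1 : G κ (c * z) (c * 1) = G κ s 1 := by
    rw [G_hom, hc]
    unfold gg at h
    refine Prod.ext ?_ ?_
    · simp only
      have : (G κ s 1).1 = (G κ z 1).1 / (G κ z 1).2 * (G κ s 1).2 := by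
        rw [← h]; field_simp
      rw [this]; ring
    · simp only
      field_simp
  obtain ⟨e1, e2⟩ := G_fibre hκ h1
  -- c ^ 4 (z ^ 4 + 1) = s ^ 4 + 1, c ^ 4 z ^ 2 = s ^ 2
  have e1' : c ^ 4 * (z ^ 4 + 1) = s ^ 4 + 1 := by linear_combination e1
  have e2' : c ^ 4 * z ^ 2 = s ^ 2 := by linear_combination e2
  have e3 : (s ^ 2 - z ^ 2) * (s ^ 2 * z ^ 2 - 1) = 0 := by
    linear_combination (-s ^ 2) * e1' * 0 + z ^ 2 * e1' * (-1) + (z ^ 4 + 1) * e2'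
  rcases mul_eq_zero.mp e3 with h3 | h3
  · have h4 : (s - z) * (s + z) = 0 := by linear_combination h3
    rcases mul_eq_zero.mp h4 with h5 | h5
    · exact sub_eq_zero.mp h5
    · exfalso
      have h6 : s = -z := eq_neg_of_add_eq_zero_left h5
      have h7 := hs.1.2
      have h8 := hz.1.2
      rw [h6] at h7
      simp at h7
      linarith
  · exfalso
    have h4 : ‖s‖ ^ 2 * ‖z‖ ^ 2 = 1 := by
      rw [← norm_pow, ← norm_pow, ← norm_mul, sub_eq_zero.mp h3, norm_one]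
    have h5 := hs.1.1
    have h6 := hz.1.1
    have h7 : ‖s‖ ^ 2 < 1 := by nlinarith [norm_nonneg s]
    have h8 : ‖z‖ ^ 2 < 1 := by nlinarith [norm_nonneg z]
    nlinarith [sq_nonneg ‖s‖, sq_nonneg ‖z‖]

lemma W_neg (s : ℂ) : W (-s) 1 = - W s 1 := by unfold W; ring
lemma W_inv {s : ℂ} (hs : s ≠ 0) : W s⁻¹ 1 * s ^ 6 = - W s 1 := by
  unfold W
  field_simp
  ring

lemma G2_neg (κ s : ℂ) : (G κ (-s) 1).2 = (G κ s 1).2 := by unfold G; simp only; ring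
lemma G2_inv (κ : ℂ) {s : ℂ} (hs : s ≠ 0) : (G κ s⁻¹ 1).2 * s ^ 4 = (G κ s 1).2 := by
  unfold G; simp only; field_simp; ring

lemma DDg_image {κ : ℂ} (hκ : Good κ) : ((gg κ) '' (DDg κ) : Set ℂ) =ᵐ[volume] Set.univ := by
  set B : Set ℂ := {s | (‖s‖ = 1 ∨ s.re = 0 ∨ W s 1 = 0 ∨ QQ κ s 1 = 0) ∧ (G κ s 1).2 ≠ 0} with hB
  have hBnull : volume B = 0 := by
    refine measure_mono_null (t := {s : ℂ | ‖s‖ = 1} ∪ ({s : ℂ | s.re = 0} ∪
      {s : ℂ | W s 1 = 0 ∨ QQ κ s 1 = 0 ∨ (G κ s 1).2 = 0})) ?_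
      (measure_union_null null_sphere (measure_union_null null_line (null_bad hκ)))
    rintro s ⟨h | h | h | h, -⟩
    · exact Or.inl h
    · exact Or.inr (Or.inl h)
    · exact Or.inr (Or.inr (Or.inl h))
    · exact Or.inr (Or.inr (Or.inr (Or.inl h)))
  have himg : volume ((gg κ) '' B) = 0 := by
    apply addHaar_image_eq_zero_of_differentiableOn_of_addHaar_eq_zero
    · intro s hs
      exact ((gg_deriv κ hs.2).hasFDerivAt.restrictScalars ℝ).differentiableAt.differentiableWithinAt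
    · exact hBnull
  rw [ae_eq_univ]
  refine measure_mono_null (t := {-κ} ∪ (gg κ) '' B) ?_ (measure_union_null (measure_singleton _) himg)
  intro t ht
  by_cases htk : t = -κ
  · exact Or.inl htk
  right
  obtain ⟨⟨x, y⟩, hxy⟩ := GG_surj hκ (t, 1)
  have hG1 : (G κ x y).1 = t := congrArg Prod.fst hxy
  have hG2 : (G κ x y).2 = 1 := congrArg Prod.snd hxy
  have hy : y ≠ 0 := by
    intro hy
    subst hy
    have h1 : κ ^ 2 * x ^ 4 = t := by rw [← hG1]; unfold G; simp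
    have h2 : -(κ * x ^ 4) = 1 := by rw [← hG2]; unfold G; simp
    apply htk
    rw [← h1]
    linear_combination (-κ) * h2
  set s := x / y with hs
  have hxs : x = y * s := by rw [hs]; field_simp
  have hy1 : y = y * 1 := by ring
  rw [hxs] at hG1 hG2
  nth_rewrite 2 [hy1] at hG1
  nth_rewrite 2 [hy1] at hG2
  rw [G_hom] at hG1 hG2
  simp only at hG1 hG2
  have hD : (G κ s 1).2 ≠ 0 := by
    intro h; rw [h, mul_zero] at hG2; exact zero_ne_one hG2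
  have hgs : gg κ s = t := by
    unfold gg
    rw [div_eq_iff hD, ← hG1]
    have : y ^ 4 * (G κ s 1).1 * (G κ s 1).2 = (y ^ 4 * (G κ s 1).2) * (G κ s 1).1 := by ring
    rw [this, hG2, one_mul]
  by_cases hsB : s ∈ B
  · exact ⟨s, hsB, hgs⟩
  exfalso
  apply ht
  have hs2 : ¬ (‖s‖ = 1 ∨ s.re = 0 ∨ W s 1 = 0 ∨ QQ κ s 1 = 0) := fun h => hsB ⟨h, hD⟩
  simp only [not_or] at hs2
  obtain ⟨hn, hre, hW, hQ⟩ := hs2
  have hs0 : s ≠ 0 := by
    intro h; rw [h] at hre; simp at hre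
  -- a candidate `z` with positive real part
  have key : ∀ z : ℂ, z ≠ 0 → 0 < z.re → ‖z‖ ≠ 1 → W z 1 ≠ 0 → QQ κ z 1 ≠ 0 → (G κ z 1).2 ≠ 0 →
      gg κ z ∈ (gg κ) '' (DDg κ) := by
    intro z hz0 hzre hzn hzW hzQ hzD
    rcases lt_or_gt_of_ne hzn with h1 | h1
    · exact ⟨z, ⟨⟨h1, hzre⟩, hzW, hzQ, hzD⟩, rfl⟩
    · refine ⟨z⁻¹, ⟨⟨?_, ?_⟩, ?_, ?_, ?_⟩, gg_inv κ hz0⟩
      · rw [norm_inv]; exact inv_lt_one_of_one_lt₀ h1
      · rw [Complex.inv_re]
        exact div_pos hzre (Complex.normSq_pos.mpr hz0)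
      · intro h
        have := W_inv hz0
        rw [h, zero_mul] at this
        exact hzW (neg_eq_zero.mp this.symm)
      · intro h
        have := QQ_inv κ hz0
        rw [h, zero_mul] at this
        exact hzQ this.symm
      · intro h
        have := G2_inv κ hz0
        rw [h, zero_mul] at this
        exact hzD this.symm
  rw [← hgs]
  rcases lt_or_gt_of_ne hre with h1 | h1
  · rw [← gg_neg]
    apply key (-s) (neg_ne_zero.mpr hs0)
    · simp; exact h1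
    · rw [norm_neg]; exact hn
    · rw [W_neg]; exact neg_ne_zero.mpr hW
    · rw [QQ_neg]; exact hQ
    · rw [G2_neg]; exact hD
  · exact key s hs0 h1 hn hW hQ hD

/-- invariance of the density under the Lattès map -/
lemma lintegral_gg {κ : ℂ} (hκ : Good κ) (φ : ℂ → ℝ≥0∞) :
    ∫⁻ s, φ (gg κ s) * rho κ s = ∫⁻ s, φ s * rho κ s := by
  rw [fold κ (h := fun s => φ (gg κ s)) (fun s => by simp only [gg_neg])
    (fun s hs => by simp only [gg_inv κ hs])]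
  rw [setLIntegral_congr (DDg_ae hκ)]
  have h1 := cov (measurableSet_DDg κ)
    (f' := fun s => 4 * κ * (κ ^ 4 - 1) * W s 1 / (G κ s 1).2 ^ 2)
    (fun s hs => gg_deriv κ hs.2.2.2) (gg_injOn hκ) (fun s => φ s * rho κ s)
  rw [setLIntegral_congr (DDg_image hκ), setLIntegral_univ] at h1
  rw [h1, ← lintegral_const_mul']
  · apply setLIntegral_congr_fun (measurableSet_DDg κ)
    intro s hs
    simp only
    have := rho_gg hκ hs.2.1 hs.2.2.1 hs.2.2.2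
    calc 4 * (φ (gg κ s) * rho κ s) = φ (gg κ s) * (4 * rho κ s) := by ring
      _ = φ (gg κ s) * (ENNReal.ofReal (‖4 * κ * (κ ^ 4 - 1) * W s 1 / (G κ s 1).2 ^ 2‖ ^ 2) * rho κ (gg κ s)) := by
        rw [this]
      _ = _ := by ring
  · norm_num

end Pool.Agent.H25.Dyn
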