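import Pool.Agent.H25.DynMk3
open MeasureTheory Filter Topology
open scoped ENNReal
namespace Pool.Agent.H25.Dyn

/-- total mass -/
noncomputable def tm (κ : ℂ) : ℝ≥0∞ := ∫⁻ s, rho κ s

/-- the normalised Lattès measure -/
noncomputable def mm (κ : ℂ) : Measure ℂ := volume.withDensity (fun s => (tm κ)⁻¹ * rho κ s)

lemma measurable_dens (κ : ℂ) : Measurable (fun s => (tm κ)⁻¹ * rho κ s) :=
  (measurable_rho κ).const_mul _

lemma mm_lintegral (κ : ℂ) {φ : ℂ → ℝ≥0∞} (hφ : Measurable φ) :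
    ∫⁻ s, φ s ∂(mm κ) = (tm κ)⁻¹ * ∫⁻ s, φ s * rho κ s := by
  unfold mm
  rw [lintegral_withDensity_eq_lintegral_mul _ (measurable_dens κ) hφ, ← lintegral_const_mul]
  · apply lintegral_congr
    intro s
    simp only [Pi.mul_apply]
    ring
  · exact hφ.mul (measurable_rho κ)

lemma mm_prob {κ : ℂ} (hκ : Good κ) : IsProbabilityMeasure (mm κ) := by
  constructor
  have := mm_lintegral κ (φ := fun _ => 1) measurable_const
  simp only [lintegral_const, one_mul] at this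
  rw [this]
  exact ENNReal.inv_mul_cancel (lintegral_rho_pos hκ).ne' (lintegral_rho_lt hκ).ne

lemma mm_ac (κ : ℂ) : mm κ ≪ volume := withDensity_absolutelyContinuous _ _

lemma measurable_gg (κ : ℂ) : Measurable (gg κ) := by
  unfold gg G
  fun_prop

lemma mm_lintegral_gg {κ : ℂ} (hκ : Good κ) {φ : ℂ → ℝ≥0∞} (hφ : Measurable φ) :
    ∫⁻ s, φ (gg κ s) ∂(mm κ) = ∫⁻ s, φ s ∂(mm κ) := by
  rw [mm_lintegral κ hφ, mm_lintegral κ (φ := fun s => φ (gg κ s)) (hφ.comp (measurable_gg κ))]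
  rw [lintegral_gg hκ]

lemma lintegral_neg_rho (κ : ℂ) (φ : ℂ → ℝ≥0∞) :
    ∫⁻ s, φ (-s) * rho κ s = ∫⁻ s, φ s * rho κ s := by
  have h := lintegral_neg_eq_self (μ := (volume : Measure ℂ)) (fun s => φ s * rho κ s)
  rw [← h]
  apply lintegral_congr
  intro s
  unfold rho
  rw [QQ_neg]

lemma lintegral_inv_rho (κ : ℂ) (φ : ℂ → ℝ≥0∞) :
    ∫⁻ s, φ s⁻¹ * rho κ s = ∫⁻ s, φ s * rho κ s := by
  have h1 : ∀ F : ℂ → ℝ≥0∞, ∫⁻ s, F s = ∫⁻ s in {0}ᶜ, F s := by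
    intro F
    have : (Set.univ : Set ℂ) =ᵐ[volume] ({0}ᶜ : Set ℂ) := by
      symm
      rw [ae_eq_univ]
      simp
    rw [← setLIntegral_univ, setLIntegral_congr this]
  rw [h1, h1 (fun s => φ s * rho κ s)]
  have h2 := cov (S := {0}ᶜ) (f' := fun s => -(s ^ 2)⁻¹) (measurableSet_singleton (0:ℂ)).compl
    (fun s hs => hasDerivAt_inv' hs)
    (inv_injective.injOn) (fun s => φ s * rho κ s)
  have h3 : (fun z : ℂ => z⁻¹) '' ({0}ᶜ : Set ℂ) = {0}ᶜ := by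
    ext z
    constructor
    · rintro ⟨w, hw, rfl⟩
      exact inv_ne_zero hw
    · intro hz
      exact ⟨z⁻¹, inv_ne_zero hz, inv_inv z⟩
  rw [h3] at h2
  rw [h2]
  apply setLIntegral_congr_fun (measurableSet_singleton (0:ℂ)).compl
  intro s hs
  simp only
  rw [← rho_inv κ (s := s) hs]
  ring

lemma mm_lintegral_neg (κ : ℂ) {φ : ℂ → ℝ≥0∞} (hφ : Measurable φ) :
    ∫⁻ s, φ (-s) ∂(mm κ) = ∫⁻ s, φ s ∂(mm κ) := by
  rw [mm_lintegral κ hφ, mm_lintegral κ (φ := fun s => φ (-s)) (hφ.comp measurable_neg), lintegral_neg_rho]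

lemma mm_lintegral_inv (κ : ℂ) {φ : ℂ → ℝ≥0∞} (hφ : Measurable φ) :
    ∫⁻ s, φ s⁻¹ ∂(mm κ) = ∫⁻ s, φ s ∂(mm κ) := by
  rw [mm_lintegral κ hφ, mm_lintegral κ (φ := fun s => φ s⁻¹) (hφ.comp measurable_inv), lintegral_inv_rho]

/-! ### Green function -/

lemma GG_cont (κ : ℂ) : Continuous (GG κ) := by
  unfold GG G
  fun_prop

lemma GG_ne {κ : ℂ} (hκ : Good κ) {p : ℂ × ℂ} (hp : p ≠ 0) : GG κ p ≠ 0 := by
  intro h
  obtain ⟨h1, h2⟩ := G_eq_zero hκ h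
  exact hp (Prod.ext h1 h2)

lemma GG_smul (κ a : ℂ) (p : ℂ × ℂ) : GG κ (a • p) = a ^ 4 • GG κ p := by
  unfold GG
  have : G κ (a • p).1 (a • p).2 = G κ (a * p.1) (a * p.2) := rfl
  rw [this, G_hom]
  rfl

lemma GG_bounds {κ : ℂ} (hκ : Good κ) : ∃ a b : ℝ, 0 < a ∧ 0 < b ∧ ∀ p : ℂ × ℂ,
    a * ‖p‖ ^ 4 ≤ ‖GG κ p‖ ∧ ‖GG κ p‖ ≤ b * ‖p‖ ^ 4 := by
  have hc : IsCompact (Metric.sphere (0 : ℂ × ℂ) 1) := isCompact_sphere _ _
  have hne : (Metric.sphere (0 : ℂ × ℂ) 1).Nonempty := ⟨(1, 0), by simp [Prod.norm_def]⟩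
  obtain ⟨p₁, hp₁, hmin⟩ := hc.exists_isMinOn hne (GG_cont κ).norm.continuousOn
  obtain ⟨p₂, hp₂, hmax⟩ := hc.exists_isMaxOn hne (GG_cont κ).norm.continuousOn
  have hne0 : ∀ p ∈ Metric.sphere (0 : ℂ × ℂ) 1, p ≠ 0 := by
    intro p hp h; subst h; simp at hp
  refine ⟨‖GG κ p₁‖, ‖GG κ p₂‖, norm_pos_iff.mpr (GG_ne hκ (hne0 _ hp₁)),
    norm_pos_iff.mpr (GG_ne hκ (hne0 _ hp₂)), ?_⟩
  intro p
  by_cases hp : p = 0
  · subst hp
    have : GG κ 0 = 0 := by unfold GG G; simp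
    simp [this]
  have hn : ‖p‖ ≠ 0 := norm_ne_zero_iff.mpr hp
  set q : ℂ × ℂ := ((‖p‖ : ℂ)⁻¹) • p with hq
  have hqs : q ∈ Metric.sphere (0 : ℂ × ℂ) 1 := by
    rw [mem_sphere_zero_iff_norm, hq, norm_smul, norm_inv, Complex.norm_real, norm_norm,
      inv_mul_cancel₀ hn]
  have hpq : p = (‖p‖ : ℂ) • q := by
    rw [hq, smul_smul, mul_inv_cancel₀ (by exact_mod_cast hn), one_smul]
  have hG : ‖GG κ p‖ = ‖p‖ ^ 4 * ‖GG κ q‖ := by
    conv_lhs => rw [hpq, GG_smul, norm_smul, norm_pow, Complex.norm_real, norm_norm]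
  rw [hG]
  have h1 : ‖GG κ p₁‖ ≤ ‖GG κ q‖ := hmin hqs
  have h2 : ‖GG κ q‖ ≤ ‖GG κ p₂‖ := hmax hqs
  have h3 : (0:ℝ) ≤ ‖p‖ ^ 4 := by positivity
  constructor <;> nlinarith

/-- the defect -/
noncomputable def uu (κ : ℂ) (p : ℂ × ℂ) : ℝ := Real.log ‖GG κ p‖ - 4 * Real.log ‖p‖

lemma uu_bound {κ : ℂ} (hκ : Good κ) : ∃ C : ℝ, 0 ≤ C ∧ ∀ p : ℂ × ℂ, |uu κ p| ≤ C := by
  obtain ⟨a, b, ha, hb, hab⟩ := GG_bounds hκ
  refine ⟨|Real.log a| + |Real.log b|, by positivity, ?_⟩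
  intro p
  by_cases hp : p = 0
  · subst hp
    have : GG κ 0 = 0 := by unfold GG G; simp
    unfold uu
    rw [this]
    simp
    positivity
  have hn : 0 < ‖p‖ := norm_pos_iff.mpr hp
  have hG : 0 < ‖GG κ p‖ := norm_pos_iff.mpr (GG_ne hκ hp)
  obtain ⟨h1, h2⟩ := hab p
  have l1 := Real.log_le_log (by positivity) h1
  have l2 := Real.log_le_log hG h2
  rw [Real.log_mul ha.ne' (by positivity), Real.log_pow] at l1
  rw [Real.log_mul hb.ne' (by positivity), Real.log_pow] at l2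
  push_cast at l1 l2
  unfold uu
  rw [abs_le]
  constructor
  · have := neg_abs_le (Real.log a)
    have := abs_nonneg (Real.log b)
    linarith
  · have := le_abs_self (Real.log b)
    have := abs_nonneg (Real.log a)
    linarith

/-- Green function -/
noncomputable def gr (κ : ℂ) (p : ℂ × ℂ) : ℝ :=
  Real.log ‖p‖ + ∑' n : ℕ, (1/4 : ℝ) ^ (n + 1) * uu κ ((GG κ)^[n] p)

lemma gr_summable {κ : ℂ} (hκ : Good κ) (p : ℂ × ℂ) :
    Summable (fun n : ℕ => (1/4 : ℝ) ^ (n + 1) * uu κ ((GG κ)^[n] p)) := by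
  obtain ⟨C, hC, hb⟩ := uu_bound hκ
  have hg : Summable (fun n : ℕ => C * (1/4 : ℝ) ^ n) :=
    (summable_geometric_of_lt_one (by norm_num) (by norm_num)).mul_left C
  refine Summable.of_norm_bounded hg ?_
  intro n
  rw [Real.norm_eq_abs, abs_mul, abs_of_pos (by positivity : (0:ℝ) < (1/4) ^ (n+1))]
  have h1 := hb ((GG κ)^[n] p)
  have h2 : (0:ℝ) < (1/4 : ℝ) ^ n := by positivity
  rw [pow_succ]
  nlinarith [abs_nonneg (uu κ ((GG κ)^[n] p))]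

lemma gr_bound {κ : ℂ} (hκ : Good κ) : ∃ C : ℝ, ∀ p : ℂ × ℂ, |gr κ p - Real.log ‖p‖| ≤ C := by
  obtain ⟨C, hC, hb⟩ := uu_bound hκ
  refine ⟨C * (1 - 1/4)⁻¹, ?_⟩
  intro p
  have hg : HasSum (fun n : ℕ => C * (1/4 : ℝ) ^ n) (C * (1 - 1/4)⁻¹) :=
    (hasSum_geometric_of_lt_one (by norm_num) (by norm_num)).mul_left C
  unfold gr
  rw [add_sub_cancel_left, ← Real.norm_eq_abs]
  refine tsum_of_norm_bounded hg ?_
  intro n
  rw [Real.norm_eq_abs, abs_mul, abs_of_pos (by positivity : (0:ℝ) < (1/4) ^ (n+1))]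
  have h1 := hb ((GG κ)^[n] p)
  have h2 : (0:ℝ) < (1/4 : ℝ) ^ n := by positivity
  rw [pow_succ]
  nlinarith [abs_nonneg (uu κ ((GG κ)^[n] p))]

lemma gr_GG {κ : ℂ} (hκ : Good κ) (p : ℂ × ℂ) : gr κ (GG κ p) = 4 * gr κ p := by
  unfold gr
  have h1 := (gr_summable hκ p).tsum_eq_zero_add
  rw [h1]
  have h2 : ∑' n : ℕ, (1/4 : ℝ) ^ (n + 1) * uu κ ((GG κ)^[n] (GG κ p)) =
      4 * ∑' n : ℕ, (1/4 : ℝ) ^ (n + 1 + 1) * uu κ ((GG κ)^[n + 1] p) := by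
    rw [← tsum_mul_left]
    apply tsum_congr
    intro n
    rw [Function.iterate_succ_apply, pow_succ (1/4 : ℝ) (n + 1)]
    ring
  rw [h2]
  simp only [zero_add, pow_one, Function.iterate_zero, id_eq]
  unfold uu
  ring

lemma uu_smul {κ : ℂ} (hκ : Good κ) {a : ℂ} (ha : a ≠ 0) {p : ℂ × ℂ} (hp : p ≠ 0) :
    uu κ (a • p) = uu κ p := by
  unfold uu
  rw [GG_smul, norm_smul, norm_smul, norm_pow, Real.log_mul, Real.log_mul, Real.log_pow]
  · push_cast; ring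
  · exact norm_ne_zero_iff.mpr ha
  · exact norm_ne_zero_iff.mpr hp
  · exact pow_ne_zero _ (norm_ne_zero_iff.mpr ha)
  · exact norm_ne_zero_iff.mpr (GG_ne hκ hp)

lemma GG_iter_smul (κ a : ℂ) (p : ℂ × ℂ) (n : ℕ) :
    (GG κ)^[n] (a • p) = a ^ (4 ^ n) • (GG κ)^[n] p := by
  induction n with
  | zero => simp
  | succ n ih =>
    rw [Function.iterate_succ_apply', ih, GG_smul, Function.iterate_succ_apply', ← pow_mul, pow_succ]

lemma GG_iter_ne {κ : ℂ} (hκ : Good κ) {p : ℂ × ℂ} (hp : p ≠ 0) (n : ℕ) : (GG κ)^[n] p ≠ 0 := by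
  induction n with
  | zero => exact hp
  | succ n ih => rw [Function.iterate_succ_apply']; exact GG_ne hκ ih

lemma gr_smul {κ : ℂ} (hκ : Good κ) {a : ℂ} (ha : a ≠ 0) {p : ℂ × ℂ} (hp : p ≠ 0) :
    gr κ (a • p) = Real.log ‖a‖ + gr κ p := by
  unfold gr
  rw [norm_smul, Real.log_mul (norm_ne_zero_iff.mpr ha) (norm_ne_zero_iff.mpr hp)]
  have : ∀ n : ℕ, (1/4 : ℝ) ^ (n + 1) * uu κ ((GG κ)^[n] (a • p)) =
      (1/4 : ℝ) ^ (n + 1) * uu κ ((GG κ)^[n] p) := by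
    intro n
    rw [GG_iter_smul, uu_smul hκ (pow_ne_zero _ ha) (GG_iter_ne hκ hp n)]
  simp_rw [this]
  ring

/-- symmetries of the lift do not change the Green function -/
lemma gr_symm (κ : ℂ) {p q : ℂ × ℂ} (h1 : GG κ p = GG κ q) (h2 : ‖p‖ = ‖q‖) : gr κ p = gr κ q := by
  unfold gr
  have : ∀ n : ℕ, uu κ ((GG κ)^[n] p) = uu κ ((GG κ)^[n] q) := by
    intro n
    cases n with
    | zero => simp only [Function.iterate_zero, id_eq]; unfold uu; rw [h1, h2]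
    | succ n => rw [Function.iterate_succ_apply, Function.iterate_succ_apply, h1]
  simp_rw [this, h2]

lemma measurable_gr (κ : ℂ) (hκ : Good κ) : Measurable (gr κ) := by
  have hu : Measurable (uu κ) := by
    unfold uu
    have := (GG_cont κ).measurable
    fun_prop
  have hi : ∀ n, Measurable ((GG κ)^[n]) := fun n => (GG_cont κ).measurable.iterate n
  have h1 : Measurable (fun p : ℂ × ℂ => ∑' n : ℕ, (1/4 : ℝ) ^ (n + 1) * uu κ ((GG κ)^[n] p)) := by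
    refine measurable_of_tendsto_metrizable
      (f := fun (N : ℕ) (p : ℂ × ℂ) => ∑ n ∈ Finset.range N, (1/4 : ℝ) ^ (n + 1) * uu κ ((GG κ)^[n] p)) ?_ ?_
    · intro N
      apply Finset.measurable_fun_sum
      intro n _
      exact (hu.comp (hi n)).const_mul _
    · rw [tendsto_pi_nhds]
      intro p
      exact (gr_summable hκ p).hasSum.tendsto_sum_nat
  unfold gr
  exact (Real.measurable_log.comp measurable_norm).add h1

/-- radius of the support above `s` -/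
noncomputable def RR (κ s : ℂ) : ℝ := Real.exp (-gr κ (s, 1))

lemma RR_pos (κ s : ℂ) : 0 < RR κ s := Real.exp_pos _

lemma measurable_RR {κ : ℂ} (hκ : Good κ) : Measurable (RR κ) := by
  unfold RR
  have := measurable_gr κ hκ
  fun_prop

lemma pair_ne (s : ℂ) : ((s, 1) : ℂ × ℂ) ≠ 0 := by
  intro h; have := congrArg Prod.snd h; simp at this

lemma GG_pair (κ : ℂ) {s : ℂ} (h : (G κ s 1).2 ≠ 0) :
    GG κ (s, 1) = (G κ s 1).2 • (gg κ s, 1) := by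
  unfold GG gg
  refine Prod.ext ?_ ?_
  · simp only [Prod.smul_fst, smul_eq_mul]
    field_simp
  · simp

lemma RR_gg {κ s : ℂ} (hκ : Good κ) (h : (G κ s 1).2 ≠ 0) :
    RR κ (gg κ s) = RR κ s ^ 4 * ‖(G κ s 1).2‖ := by
  have h1 := gr_GG hκ (s, 1)
  rw [GG_pair κ h, gr_smul hκ h (pair_ne _)] at h1
  unfold RR
  have h2 : -gr κ (gg κ s, 1) = (4 : ℕ) * (-gr κ (s, 1)) + Real.log ‖(G κ s 1).2‖ := by
    push_cast; linarith
  rw [h2, Real.exp_add, Real.exp_log (norm_pos_iff.mpr h), Real.exp_nat_mul]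

lemma RR_neg {κ : ℂ} (hκ : Good κ) (s : ℂ) : RR κ (-s) = RR κ s := by
  unfold RR
  congr 2
  apply gr_symm
  · unfold GG G
    simp only
    ring_nf
  · simp [Prod.norm_def]

lemma RR_inv {κ s : ℂ} (hκ : Good κ) (hs : s ≠ 0) : RR κ s⁻¹ = ‖s‖ * RR κ s := by
  have h1 : ((s⁻¹, 1) : ℂ × ℂ) = s⁻¹ • (1, s) := by
    refine Prod.ext ?_ ?_ <;> simp [hs]
  have h2 : gr κ (1, s) = gr κ (s, 1) := by
    apply gr_symm
    · unfold GG G
      simp only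
      ring_nf
    · simp [Prod.norm_def, max_comm]
  have h3 : ((1, s) : ℂ × ℂ) ≠ 0 := by
    intro h; have := congrArg Prod.fst h; simp at this
  unfold RR
  rw [h1, gr_smul hκ (inv_ne_zero hs) h3, h2, norm_inv, Real.log_inv, neg_add, neg_neg, Real.exp_add,
    Real.exp_log (norm_pos_iff.mpr hs)]

/-- the support is bounded -/
lemma RR_bound {κ : ℂ} (hκ : Good κ) : ∃ a b : ℝ, 0 < a ∧ 0 < b ∧ ∀ s : ℂ,
    a ≤ RR κ s * ‖((s, 1) : ℂ × ℂ)‖ ∧ RR κ s * ‖((s, 1) : ℂ × ℂ)‖ ≤ b := by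
  obtain ⟨C, hC⟩ := gr_bound hκ
  refine ⟨Real.exp (-C), Real.exp C, Real.exp_pos _, Real.exp_pos _, ?_⟩
  intro s
  have h1 := hC (s, 1)
  rw [abs_le] at h1
  have h2 : RR κ s * ‖((s, 1) : ℂ × ℂ)‖ = Real.exp (-(gr κ (s, 1) - Real.log ‖((s, 1) : ℂ × ℂ)‖)) := by
    unfold RR
    rw [neg_sub, sub_eq_add_neg, Real.exp_add, Real.exp_log (norm_pos_iff.mpr (pair_ne s)), mul_comm]
  rw [h2]
  constructor
  · exact Real.exp_le_exp.mpr (by linarith)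
  · exact Real.exp_le_exp.mpr (by linarith)

end Pool.Agent.H25.Dyn
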