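import Pool.Agent.H25.DynMk4
open MeasureTheory Filter Topology
open scoped ENNReal
namespace Pool.Agent.H25.Dyn

/-- parametrisation of the support -/
noncomputable def XX (κ : ℂ) (q : ℂ × Om) : ℂ × ℂ := (ee q.2 * (RR κ q.1 : ℂ)) • (q.1, 1)

lemma measurable_XX {κ : ℂ} (hκ : Good κ) : Measurable (XX κ) := by
  unfold XX
  have h1 := measurable_RR hκ
  have h2 := ee_cont.measurable
  have h3 : Measurable (fun q : ℂ × Om => ee q.2 * (RR κ q.1 : ℂ)) :=
    (h2.comp measurable_snd).mul (Complex.measurable_ofReal.comp (h1.comp measurable_fst))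
  exact h3.smul (measurable_fst.prodMk measurable_const)

/-- the equilibrium measure of the lift on `ℂ²` -/
noncomputable def muG (κ : ℂ) : Measure (ℂ × ℂ) :=
  Measure.map (XX κ) ((mm κ).prod (volume : Measure Om))

lemma muG_prob {κ : ℂ} (hκ : Good κ) : IsProbabilityMeasure (muG κ) := by
  have := mm_prob hκ
  exact Measure.isProbabilityMeasure_map (measurable_XX hκ).aemeasurable

lemma muG_lintegral {κ : ℂ} (hκ : Good κ) {F : ℂ × ℂ → ℝ≥0∞} (hF : Measurable F) :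
    ∫⁻ p, F p ∂(muG κ) = ∫⁻ s, ∫⁻ θ : Om, F (XX κ (s, θ)) ∂volume ∂(mm κ) := by
  have := mm_prob hκ
  unfold muG
  rw [lintegral_map hF (measurable_XX hκ)]
  rw [lintegral_prod (fun q => F (XX κ q)) (hF.comp (measurable_XX hκ)).aemeasurable]

lemma circ_rot {H : ℂ → ℝ≥0∞} (hH : Measurable H) {c : ℂ} (hc : ‖c‖ = 1) :
    ∫⁻ θ : Om, H (c * ee θ) = ∫⁻ θ : Om, H (ee θ) := by
  obtain ⟨a, ha⟩ := ee_surj c hc
  have h := (mpadd a).lintegral_comp (hH.comp ee_cont.measurable)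
  simp only [Function.comp_apply, ee_add, ha] at h
  rw [← h]
  apply lintegral_congr
  intro θ
  rw [mul_comm]

lemma circ_four {H : ℂ → ℝ≥0∞} (hH : Measurable H) :
    ∫⁻ θ : Om, H (ee θ ^ 4) = ∫⁻ θ : Om, H (ee θ) := by
  have h := mp4.lintegral_comp (hH.comp ee_cont.measurable)
  simp only [Function.comp_apply, ee_nsmul] at h
  exact h

/-- inner integral -/
noncomputable def Inn (κ : ℂ) (F : ℂ × ℂ → ℝ≥0∞) (s : ℂ) : ℝ≥0∞ :=
  ∫⁻ θ : Om, F (XX κ (s, θ))

lemma measurable_Inn {κ : ℂ} (hκ : Good κ) {F : ℂ × ℂ → ℝ≥0∞} (hF : Measurable F) :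
    Measurable (Inn κ F) :=
  (hF.comp (measurable_XX hκ)).lintegral_prod_right'

lemma unit_div {D : ℂ} (hD : D ≠ 0) : ‖D / (‖D‖ : ℂ)‖ = 1 := by
  rw [norm_div, Complex.norm_real, norm_norm, div_self (norm_ne_zero_iff.mpr hD)]

lemma meas_ray {F : ℂ × ℂ → ℝ≥0∞} (hF : Measurable F) (r : ℂ) (p : ℂ × ℂ) :
    Measurable (fun z : ℂ => F ((z * r) • p)) := by
  apply hF.comp
  exact (measurable_id.mul_const r).smul measurable_const

lemma Inn_GG {κ s : ℂ} (hκ : Good κ) (hD : (G κ s 1).2 ≠ 0) {F : ℂ × ℂ → ℝ≥0∞} (hF : Measurable F) :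
    ∫⁻ θ : Om, F (GG κ (XX κ (s, θ))) = Inn κ F (gg κ s) := by
  unfold Inn XX
  simp only
  set c := (G κ s 1).2 / (‖(G κ s 1).2‖ : ℂ) with hc
  have hn : (‖(G κ s 1).2‖ : ℂ) ≠ 0 := by exact_mod_cast norm_ne_zero_iff.mpr hD
  have h1 : ∀ θ : Om, GG κ ((ee θ * (RR κ s : ℂ)) • (s, 1)) =
      ((c * ee θ ^ 4) * (RR κ (gg κ s) : ℂ)) • (gg κ s, 1) := by
    intro θ
    rw [GG_smul, GG_pair κ hD, smul_smul, RR_gg hκ hD, hc]
    congr 1
    push_cast
    field_simp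
  simp_rw [h1]
  have h2 := circ_four (H := fun z => F (((c * z) * (RR κ (gg κ s) : ℂ)) • (gg κ s, 1)))
    ((meas_ray hF (RR κ (gg κ s) : ℂ) (gg κ s, 1)).comp (measurable_const_mul c))
  rw [h2]
  exact circ_rot (meas_ray hF (RR κ (gg κ s) : ℂ) (gg κ s, 1)) (unit_div hD)

lemma ae_of_poly_bad {κ : ℂ} (hκ : Good κ) :
    ∀ᵐ s ∂(mm κ), W s 1 ≠ 0 ∧ QQ κ s 1 ≠ 0 ∧ (G κ s 1).2 ≠ 0 := by
  apply (mm_ac κ).ae_le
  have hz : ∀ᵐ s : ℂ, ¬ (W s 1 = 0 ∨ QQ κ s 1 = 0 ∨ (G κ s 1).2 = 0) := by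
    rw [ae_iff]
    simpa only [not_not] using null_bad hκ
  filter_upwards [hz] with s hs
  simp only [not_or] at hs
  exact hs

lemma muG_GG {κ : ℂ} (hκ : Good κ) : MeasurePreserving (GG κ) (muG κ) (muG κ) := by
  refine ⟨(GG_cont κ).measurable, ?_⟩
  apply Measure.ext_of_lintegral
  intro F hF
  rw [lintegral_map hF (GG_cont κ).measurable, muG_lintegral hκ (F := fun p => F (GG κ p))
    (hF.comp (GG_cont κ).measurable), muG_lintegral hκ hF]
  rw [← mm_lintegral_gg hκ (φ := fun s => ∫⁻ θ : Om, F (XX κ (s, θ))) (measurable_Inn hκ hF)]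
  apply lintegral_congr_ae
  filter_upwards [ae_of_poly_bad hκ] with s hs
  exact Inn_GG hκ hs.2.2 hF

lemma muG_rot {κ : ℂ} (hκ : Good κ) {c : ℂ} (hc : ‖c‖ = 1) :
    MeasurePreserving (fun p : ℂ × ℂ => c • p) (muG κ) (muG κ) := by
  have hm : Measurable (fun p : ℂ × ℂ => c • p) := measurable_const_smul c
  refine ⟨hm, ?_⟩
  apply Measure.ext_of_lintegral
  intro F hF
  rw [lintegral_map hF hm, muG_lintegral hκ (F := fun p => F (c • p)) (hF.comp hm),
    muG_lintegral hκ hF]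
  apply lintegral_congr
  intro s
  have := circ_rot (meas_ray hF (RR κ s : ℂ) (s, 1)) hc
  unfold XX
  simp only at this ⊢
  rw [← this]
  apply lintegral_congr
  intro θ
  rw [smul_smul, mul_assoc]

lemma muG_sgn {κ : ℂ} (hκ : Good κ) :
    MeasurePreserving (fun p : ℂ × ℂ => (p.1, -p.2)) (muG κ) (muG κ) := by
  have hm : Measurable (fun p : ℂ × ℂ => (p.1, -p.2)) := by fun_prop
  refine ⟨hm, ?_⟩
  apply Measure.ext_of_lintegral
  intro F hF
  rw [lintegral_map hF hm, muG_lintegral hκ (F := fun p => F (p.1, -p.2)) (hF.comp hm),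
    muG_lintegral hκ hF]
  rw [← mm_lintegral_neg κ (φ := fun s => ∫⁻ θ : Om, F (XX κ (s, θ))) (measurable_Inn hκ hF)]
  apply lintegral_congr
  intro s
  have := circ_rot (meas_ray hF (RR κ (-s) : ℂ) (-s, 1)) (c := -1) (by simp)
  unfold XX
  simp only at this ⊢
  rw [← this]
  apply lintegral_congr
  intro θ
  congr 1
  rw [RR_neg hκ]
  refine Prod.ext ?_ ?_ <;> simp

lemma muG_swap {κ : ℂ} (hκ : Good κ) :
    MeasurePreserving (fun p : ℂ × ℂ => (p.2, p.1)) (muG κ) (muG κ) := by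
  have hm : Measurable (fun p : ℂ × ℂ => (p.2, p.1)) := by fun_prop
  refine ⟨hm, ?_⟩
  apply Measure.ext_of_lintegral
  intro F hF
  rw [lintegral_map hF hm, muG_lintegral hκ (F := fun p => F (p.2, p.1)) (hF.comp hm),
    muG_lintegral hκ hF]
  rw [← mm_lintegral_inv κ (φ := fun s => ∫⁻ θ : Om, F (XX κ (s, θ))) (measurable_Inn hκ hF)]
  apply lintegral_congr_ae
  filter_upwards [ae_of_poly_bad hκ] with s hs
  have hs0 : s ≠ 0 := by
    intro h; apply hs.1; rw [h]; simp [W]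
  have hn : (‖s‖ : ℂ) ≠ 0 := by exact_mod_cast norm_ne_zero_iff.mpr hs0
  have := circ_rot (meas_ray hF (RR κ s⁻¹ : ℂ) (s⁻¹, 1)) (unit_div hs0)
  unfold XX
  simp only at this ⊢
  rw [← this]
  apply lintegral_congr
  intro θ
  congr 1
  rw [RR_inv hκ hs0]
  refine Prod.ext ?_ ?_
  · simp only [Prod.smul_mk, smul_eq_mul]
    push_cast
    field_simp
  · simp only [Prod.smul_mk, smul_eq_mul]
    push_cast
    field_simp

/-! ### size of the support -/

lemma muG_ae {κ : ℂ} (hκ : Good κ) {P : ℂ × ℂ → Prop} (hP : MeasurableSet {p | P p})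
    (h : ∀ᵐ s ∂(mm κ), ∀ᵐ θ : Om, P (XX κ (s, θ))) : ∀ᵐ p ∂(muG κ), P p := by
  have := mm_prob hκ
  unfold muG
  rw [ae_map_iff (measurable_XX hκ).aemeasurable hP]
  rw [Measure.ae_prod_iff_ae_ae]
  · exact h
  · exact measurable_XX hκ hP

lemma muG_norm {κ : ℂ} (hκ : Good κ) : ∃ a b : ℝ, 0 < a ∧ 0 < b ∧
    ∀ᵐ p ∂(muG κ), a ≤ ‖p‖ ∧ ‖p‖ ≤ b := by
  obtain ⟨a, b, ha, hb, h⟩ := RR_bound hκ
  refine ⟨a, b, ha, hb, ?_⟩
  apply muG_ae hκ
  · exact (measurableSet_le measurable_const measurable_norm).inter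
      (measurableSet_le measurable_norm measurable_const)
  · refine Eventually.of_forall fun s => Eventually.of_forall fun θ => ?_
    have : ‖XX κ (s, θ)‖ = RR κ s * ‖((s, 1) : ℂ × ℂ)‖ := by
      unfold XX
      rw [norm_smul, norm_mul, ee_norm, one_mul, Complex.norm_real, Real.norm_eq_abs,
        abs_of_pos (RR_pos κ s)]
    rw [this]
    exact h s

/-- fibres of `ee` -/
lemma ee_inj {a b : Om} (h : ee a = ee b) : a = b :=
  AddCircle.injective_toCircle one_ne_zero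
    (Subtype.ext (p := fun x => x ∈ Submonoid.unitSphere ℂ) (a1 := AddCircle.toCircle a)
      (a2 := AddCircle.toCircle b) h)

lemma ee_null (z : ℂ) : (volume : Measure Om) {θ | ee θ = z} = 0 := by
  by_cases h : ∃ θ, ee θ = z
  · obtain ⟨a, rfl⟩ := h
    have : {θ | ee θ = ee a} = {a} := by
      ext θ
      exact ⟨fun h => ee_inj h, fun h => by rw [h]; rfl⟩
    rw [this]
    refine le_antisymm ?_ bot_le
    have h1 : ∀ ε : ℝ, 0 < ε → (volume : Measure Om) {a} ≤ ENNReal.ofReal (2 * ε) := by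
      intro ε hε
      calc (volume : Measure Om) {a} ≤ volume (Metric.closedBall a ε) :=
            measure_mono (by simpa using hε.le)
        _ = ENNReal.ofReal (min 1 (2 * ε)) := AddCircle.volume_closedBall 1 ε
        _ ≤ ENNReal.ofReal (2 * ε) := ENNReal.ofReal_le_ofReal (min_le_right _ _)
    refine ENNReal.le_of_forall_pos_le_add ?_
    intro ε hε _
    rw [zero_add]
    have := h1 (ε / 2) (by positivity)
    have h2 : 2 * ((ε : ℝ) / 2) = ε := by ring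
    rw [h2] at this
    simpa using this
  · have : {θ | ee θ = z} = ∅ := by
      ext θ
      simp only [Set.mem_ofPred_eq, Set.mem_empty_iff_false, iff_false]
      exact fun h' => h ⟨θ, h'⟩
    rw [this, measure_empty]

lemma ee_poly_null (p : Polynomial ℂ) (hp : p ≠ 0) : ∀ᵐ θ : Om, p.eval (ee θ) ≠ 0 := by
  rw [ae_iff]
  have : {θ : Om | ¬ p.eval (ee θ) ≠ 0} = ⋃ z ∈ p.roots.toFinset, {θ : Om | ee θ = z} := by
    ext θ
    simp [Polynomial.mem_roots hp]
  rw [this]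
  exact (measure_biUnion_null_iff (Finset.countable_toSet _)).mpr fun z _ => ee_null z

lemma nu_poly_null (p : Polynomial ℂ) (hp : p ≠ 0) : ∀ᵐ z ∂nu, p.eval z ≠ 0 := by
  rw [ae_iff]
  have : {z : ℂ | ¬ p.eval z ≠ 0} = (p.roots.toFinset : Set ℂ) := by
    ext s
    simp [Polynomial.mem_roots hp]
  rw [this]
  exact (Finset.finite_toSet _).measure_zero _

lemma mm_poly_null (κ : ℂ) (p : Polynomial ℂ) (hp : p ≠ 0) : ∀ᵐ z ∂(mm κ), p.eval z ≠ 0 := by
  have h : ∀ᵐ z : ℂ, p.eval z ≠ 0 := by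
    rw [ae_iff]
    simpa using null_poly p hp
  exact (mm_ac κ).ae_le h

end Pool.Agent.H25.Dyn
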