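import Pool.Agent.H25.DynMk5
open MeasureTheory Filter Topology
open scoped ENNReal
namespace Pool.Agent.H25.Dyn

/-- a map whose fibres are the orbits of finitely many measure preserving maps has constant
Jacobian -/
lemma deck {Y : Type*} [MeasurableSpace Y] [StandardBorelSpace Y] {μ : Measure Y}
    {I : Type*} [Fintype I] (γ : I → Y → Y) (hγ : ∀ i, MeasurePreserving (γ i) μ μ)
    {F : Y → Y} (hF : MeasurePreserving F μ μ) (hinv : ∀ i y, F (γ i y) = F y)
    (hfib : ∀ y y', F y = F y' → ∃ i, γ i y = y')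
    (hfree : ∀ᵐ y ∂μ, ∀ i j, γ i y = γ j y → i = j)
    {A : Set Y} (hA : MeasurableSet A) (hi : Set.InjOn F A) :
    μ (F '' A) = Fintype.card I * μ A := by
  have hFA : MeasurableSet (F '' A) := hA.image_of_measurable_injOn hF.measurable hi
  have h1 : μ (F '' A) = μ (F ⁻¹' (F '' A)) := (hF.measure_preimage hFA.nullMeasurableSet).symm
  have h2 : F ⁻¹' (F '' A) = ⋃ i, γ i ⁻¹' A := by
    ext y
    simp only [Set.mem_preimage, Set.mem_image, Set.mem_iUnion]
    constructor
    · rintro ⟨a, ha, hay⟩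
      obtain ⟨i, hi'⟩ := hfib y a hay.symm
      exact ⟨i, by rw [hi']; exact ha⟩
    · rintro ⟨i, hi'⟩
      exact ⟨γ i y, hi', hinv i y⟩
  rw [h1, h2, measure_iUnion₀]
  · rw [tsum_fintype]
    have : ∀ i, μ (γ i ⁻¹' A) = μ A := fun i => (hγ i).measure_preimage hA.nullMeasurableSet
    simp [this]
  · intro i j hij
    change μ (γ i ⁻¹' A ∩ γ j ⁻¹' A) = 0
    rw [ae_iff] at hfree
    refine measure_mono_null ?_ hfree
    rintro y ⟨h3, h4⟩
    simp only [Set.mem_ofPred_eq, not_forall]
    refine ⟨i, j, ?_, hij⟩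
    exact hi h3 h4 ((hinv i y).trans (hinv j y).symm)
  · intro i
    exact ((hγ i).measurable hA).nullMeasurableSet

/-- index of deck transformations of the planar lift -/
abbrev Ix : Type := Fin 4 × Bool × Bool

/-- fourth roots of unity -/
noncomputable def im (k : Fin 4) : ℂ := Complex.I ^ (k : ℕ)

lemma im_four (k : Fin 4) : im k ^ 4 = 1 := by
  unfold im
  rw [← pow_mul, mul_comm, pow_mul, Complex.I_pow_four, one_pow]

lemma im_norm (k : Fin 4) : ‖im k‖ = 1 := by
  unfold im; simp

lemma im_ne (k : Fin 4) : im k ≠ 0 := by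
  intro h; have := im_norm k; rw [h, norm_zero] at this; exact zero_ne_one this

lemma im_inj : Function.Injective im := by
  intro k l h1
  unfold im at h1
  fin_cases k <;> fin_cases l <;> first | rfl | (exfalso; simp [Complex.ext_iff, pow_succ] at h1; try norm_num at h1)

lemma im_of_four {z : ℂ} (hz : z ^ 4 = 1) : ∃ k, im k = z := by
  have h : (z - 1) * ((z + 1) * ((z - Complex.I) * (z + Complex.I))) = 0 := by
    have hI := Complex.I_sq
    linear_combination hz - (z ^ 2 - 1) * hI
  rcases mul_eq_zero.mp h with h | h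
  · exact ⟨0, by simp [im]; linear_combination -h⟩
  rcases mul_eq_zero.mp h with h | h
  · exact ⟨2, by simp [im]; linear_combination -h⟩
  rcases mul_eq_zero.mp h with h | h
  · exact ⟨1, by simp [im]; linear_combination -h⟩
  · exact ⟨3, by simp [im, Complex.I_pow_three]; linear_combination -h⟩

/-- sign and swap -/
def sgs (b c : Bool) (p : ℂ × ℂ) : ℂ × ℂ :=
  let q := if b then (p.1, -p.2) else p
  if c then (q.2, q.1) else q

/-- deck transformations of the planar lift -/
noncomputable def gam (i : Ix) (p : ℂ × ℂ) : ℂ × ℂ := im i.1 • sgs i.2.1 i.2.2 p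

lemma gam_mp {κ : ℂ} (hκ : Good κ) (i : Ix) : MeasurePreserving (gam i) (muG κ) (muG κ) := by
  obtain ⟨k, b, c⟩ := i
  have h1 : MeasurePreserving (fun p : ℂ × ℂ => if b then (p.1, -p.2) else p) (muG κ) (muG κ) := by
    cases b
    · simp only [Bool.false_eq_true, if_false]; exact MeasurePreserving.id (muG κ)
    · simpa using muG_sgn hκ
  have h2 : MeasurePreserving (fun p : ℂ × ℂ => if c then (p.2, p.1) else p) (muG κ) (muG κ) := by
    cases c
    · simp only [Bool.false_eq_true, if_false]; exact MeasurePreserving.id (muG κ)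
    · simpa using muG_swap hκ
  exact (muG_rot hκ (im_norm k)).comp (h2.comp h1)

lemma gam_inv (κ : ℂ) (i : Ix) (p : ℂ × ℂ) : GG κ (gam i p) = GG κ p := by
  obtain ⟨k, b, c⟩ := i
  unfold gam
  rw [GG_smul, im_four, one_smul]
  unfold sgs GG G
  cases b <;> cases c <;> (refine Prod.ext ?_ ?_ <;> simp only [Bool.false_eq_true, if_false, if_true] <;> ring)

lemma gam_fib {κ : ℂ} (hκ : Good κ) {p q : ℂ × ℂ} (h : GG κ p = GG κ q) : ∃ i, gam i p = q := by
  obtain ⟨x, y⟩ := p
  obtain ⟨x', y'⟩ := q
  obtain ⟨e1, e2⟩ := G_fibre hκ h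
  -- squares
  have e3 : (x ^ 2 + y ^ 2 - (x' ^ 2 + y' ^ 2)) * (x ^ 2 + y ^ 2 + (x' ^ 2 + y' ^ 2)) = 0 := by
    linear_combination e1 + 2 * e2
  -- general claim : x' ^ 4 = x ^ 4 etc.
  have e4 : (x' ^ 4 - x ^ 4) * (x' ^ 4 - y ^ 4) = 0 := by
    have h2 : x ^ 4 * y ^ 4 = x' ^ 4 * y' ^ 4 := by
      have : (x ^ 2 * y ^ 2) ^ 2 = (x' ^ 2 * y' ^ 2) ^ 2 := by rw [e2]
      linear_combination this
    linear_combination (-x' ^ 4) * e1 + h2
  -- the non swapped case
  have key : ∀ u v : ℂ, u ^ 2 * v ^ 2 = x' ^ 2 * y' ^ 2 → u ^ 4 + v ^ 4 = x' ^ 4 + y' ^ 4 →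
      x' ^ 4 = u ^ 4 → ∃ (k : Fin 4) (b : Bool), (x', y') = (im k * u, im k * (if b then -v else v)) := by
    intro u v h1 h2 h3
    have h4 : y' ^ 4 = v ^ 4 := by linear_combination -h2 - h3
    by_cases hu : u = 0
    · subst hu
      have hx0 : x' = 0 := by
        have : x' ^ 4 = 0 := by rw [h3]; ring
        exact pow_eq_zero_iff (by norm_num) |>.mp this
      subst hx0
      by_cases hv : v = 0
      · subst hv
        have hy0 : y' = 0 := by
          have : y' ^ 4 = 0 := by rw [h4]; ring
          exact pow_eq_zero_iff (by norm_num) |>.mp this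
        subst hy0
        exact ⟨0, false, by simp⟩
      · obtain ⟨k, hk⟩ := im_of_four (z := y' / v) (by rw [div_pow, h4, div_self (pow_ne_zero _ hv)])
        exact ⟨k, false, by simp [hk, hv]⟩
    · obtain ⟨k, hk⟩ := im_of_four (z := x' / u) (by rw [div_pow, h3, div_self (pow_ne_zero _ hu)])
      have hx' : x' = im k * u := by rw [hk]; field_simp
      have hk0 := im_ne k
      have h5 : (im k) ^ 2 * y' ^ 2 = v ^ 2 := by
        have : u ^ 2 * ((im k) ^ 2 * y' ^ 2 - v ^ 2) = 0 := by
          rw [hx'] at h1; linear_combination -h1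
        have := (mul_eq_zero.mp this).resolve_left (pow_ne_zero _ hu)
        linear_combination this
      have hk4 := im_four k
      have h6 : (y' - im k * v) * (y' + im k * v) = 0 := by
        have : (im k) ^ 2 * ((y' - im k * v) * (y' + im k * v)) = 0 := by
          linear_combination h5 - v ^ 2 * hk4
        exact (mul_eq_zero.mp this).resolve_left (pow_ne_zero _ hk0)
      rcases mul_eq_zero.mp h6 with h7 | h7
      · exact ⟨k, false, by rw [hx']; simp; linear_combination h7⟩
      · exact ⟨k, true, by rw [hx']; simp; linear_combination h7⟩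
  rcases mul_eq_zero.mp e4 with h4 | h4
  · obtain ⟨k, b, hkb⟩ := key x y e2 e1 (by linear_combination h4)
    refine ⟨(k, b, false), ?_⟩
    rw [hkb]
    cases b <;> simp [gam, sgs]
  · obtain ⟨k, b, hkb⟩ := key y x (by linear_combination e2) (by linear_combination e1)
      (by linear_combination h4)
    cases b
    · refine ⟨(k, false, true), ?_⟩
      rw [hkb]
      simp [gam, sgs]
    · -- need (im k * y, - im k * x) = im k' • (-y, x), k' = k + 2
      obtain ⟨l, hl⟩ := im_of_four (z := - im k) (by rw [neg_pow, im_four]; norm_num)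
      refine ⟨(l, true, true), ?_⟩
      rw [hkb]
      simp [gam, sgs, hl]

lemma gam_free {x y : ℂ} (hW : W x y ≠ 0) (i j : Ix) (h : gam i (x, y) = gam j (x, y)) : i = j := by
  obtain ⟨k, b, c⟩ := i
  obtain ⟨l, b', c'⟩ := j
  have hx : x ≠ 0 := by intro h; apply hW; rw [h]; simp [W]
  have hy : y ≠ 0 := by intro h; apply hW; rw [h]; simp [W]
  have hxy : x ^ 4 - y ^ 4 ≠ 0 := by intro h; apply hW; unfold W; rw [h]; simp
  have h1 := congrArg Prod.fst h
  have h2 := congrArg Prod.snd h
  have hk4 := im_four k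
  have hl4 := im_four l
  have hI : ∀ u : ℂ, u ≠ 0 → ¬ (im k * u = - (im k * u)) := by
    intro u hu hh
    have : (2 : ℂ) * (im k * u) = 0 := by linear_combination hh
    simp [im_ne, hu] at this
  have hxy1 : ¬ (im k * x = im l * y) := by
    intro hh
    apply hxy
    have : (im k * x) ^ 4 = (im l * y) ^ 4 := by rw [hh]
    rw [mul_pow, mul_pow, hk4, hl4] at this
    linear_combination this
  have hxy2 : ¬ (im k * x = - (im l * y)) := by
    intro hh
    apply hxy
    have : (im k * x) ^ 4 = (- (im l * y)) ^ 4 := by rw [hh]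
    rw [mul_pow, hk4] at this
    linear_combination this + y ^ 4 * hl4
  have hxy3 : ¬ (im k * y = im l * x) := by
    intro hh
    apply hxy
    have : (im k * y) ^ 4 = (im l * x) ^ 4 := by rw [hh]
    rw [mul_pow, mul_pow, hk4, hl4] at this
    linear_combination -this
  have hxy4 : ¬ (-(im k * y) = im l * x) := by
    intro hh
    apply hxy
    have : (-(im k * y)) ^ 4 = (im l * x) ^ 4 := by rw [hh]
    rw [mul_pow (im l), hl4] at this
    linear_combination -this + y ^ 4 * hk4
  cases b <;> cases c <;> cases b' <;> cases c' <;> simp [gam, sgs] at h1 h2 ⊢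
  all_goals first
    | (exfalso; first | exact hxy1 h1 | exact hxy2 h1 | exact hxy3 h1 | exact hxy4 h1 | exact hxy1 h2 | exact hxy2 h2 | exact hxy3 h2 | exact hxy4 h2)
    | skip
  all_goals first
    | exact im_inj (h1.resolve_right hx)
    | exact im_inj (h1.resolve_right hy)
    | (rw [← h1.resolve_right hx] at h2; exact hI y hy h2)
    | (rw [← h1.resolve_right hx] at h2; exact hI y hy h2.symm)
    | (rw [← h2.resolve_right hx] at h1; exact hI y hy h1)
    | (rw [← h2.resolve_right hx] at h1; exact hI y hy h1.symm)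

/-! ### the product measure -/

/-- the equilibrium measure in the affine chart -/
noncomputable def mu3 (κ : ℂ) : Measure ((ℂ × ℂ) × ℂ) := (muG κ).prod nu

lemma mu3_prob {κ : ℂ} (hκ : Good κ) : IsProbabilityMeasure (mu3 κ) := by
  have := muG_prob hκ
  unfold mu3
  infer_instance

lemma nu_pp : MeasurePreserving pp nu nu := by
  refine ⟨by unfold pp; fun_prop, ?_⟩
  exact nu_map_pp

lemma nu_rot {c : ℂ} (hc : c ^ 4 = 1) : MeasurePreserving (fun z : ℂ => c * z) nu nu :=
  ⟨by fun_prop, nu_map_rot c hc⟩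

lemma mu3_FF {κ : ℂ} (hκ : Good κ) : MeasurePreserving (FF κ) (mu3 κ) (mu3 κ) := by
  have := muG_prob hκ
  exact (muG_GG hκ).prod nu_pp

/-- deck transformations -/
noncomputable def gam3 (i : Ix × Fin 4) (v : (ℂ × ℂ) × ℂ) : (ℂ × ℂ) × ℂ :=
  (gam i.1 v.1, im i.2 * v.2)

lemma gam3_mp {κ : ℂ} (hκ : Good κ) (i : Ix × Fin 4) :
    MeasurePreserving (gam3 i) (mu3 κ) (mu3 κ) := by
  have := muG_prob hκ
  exact (gam_mp hκ i.1).prod (nu_rot (im_four i.2))

lemma gam3_inv (κ : ℂ) (i : Ix × Fin 4) (v : (ℂ × ℂ) × ℂ) : FF κ (gam3 i v) = FF κ v := by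
  unfold FF gam3
  simp only
  rw [gam_inv]
  congr 1
  unfold pp
  rw [mul_pow, im_four, one_mul]

lemma gam3_fib {κ : ℂ} (hκ : Good κ) (v w : (ℂ × ℂ) × ℂ) (h : FF κ v = FF κ w) :
    ∃ i, gam3 i v = w := by
  have h1 : GG κ v.1 = GG κ w.1 := congrArg Prod.fst h
  have h2 : pp v.2 = pp w.2 := congrArg Prod.snd h
  obtain ⟨i, hi⟩ := gam_fib hκ h1
  have h3 : v.2 ^ 4 = w.2 ^ 4 := by unfold pp at h2; linear_combination h2
  have h4 : ∃ k, im k * v.2 = w.2 := by
    by_cases hv : v.2 = 0
    · rw [hv] at h3 ⊢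
      have hw : w.2 = 0 := by
        have : w.2 ^ 4 = 0 := by rw [← h3]; ring
        exact pow_eq_zero_iff (by norm_num) |>.mp this
      exact ⟨0, by rw [hw, mul_zero]⟩
    · obtain ⟨k, hk⟩ := im_of_four (z := w.2 / v.2)
        (by rw [div_pow, ← h3, div_self (pow_ne_zero _ hv)])
      exact ⟨k, by rw [hk]; field_simp⟩
  obtain ⟨k, hk⟩ := h4
  exact ⟨(i, k), Prod.ext hi hk⟩

/-- a measurable set of `μ₃` is null if it is null on almost all slices -/
lemma mu3_ae {κ : ℂ} (hκ : Good κ) {P : (ℂ × ℂ) × ℂ → Prop} (hP : MeasurableSet {v | P v})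
    (h : ∀ᵐ p ∂(muG κ), ∀ᵐ z ∂nu, P (p, z)) : ∀ᵐ v ∂(mu3 κ), P v := by
  have := muG_prob hκ
  unfold mu3
  rw [Measure.ae_prod_iff_ae_ae hP]
  exact h

lemma muG_W {κ : ℂ} (hκ : Good κ) : ∀ᵐ p ∂(muG κ), W p.1 p.2 ≠ 0 := by
  apply muG_ae hκ (P := fun p => W p.1 p.2 ≠ 0)
  · apply IsOpen.measurableSet
    apply isOpen_ne_fun
    · unfold W; fun_prop
    · exact continuous_const
  · filter_upwards [ae_of_poly_bad hκ] with s hs
    refine Eventually.of_forall fun θ => ?_
    have h1 : W (XX κ (s, θ)).1 (XX κ (s, θ)).2 = (ee θ * (RR κ s : ℂ)) ^ 6 * W s 1 := by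
      have := W_smul (ee θ * (RR κ s : ℂ)) s 1
      exact this
    rw [h1]
    refine mul_ne_zero (pow_ne_zero _ (mul_ne_zero (ee_ne θ) ?_)) hs.1
    exact_mod_cast (RR_pos κ s).ne'

lemma mu3_free {κ : ℂ} (hκ : Good κ) :
    ∀ᵐ v ∂(mu3 κ), ∀ i j : Ix × Fin 4, gam3 i v = gam3 j v → i = j := by
  have h1 : ∀ᵐ v ∂(mu3 κ), W v.1.1 v.1.2 ≠ 0 ∧ v.2 ≠ 0 := by
    apply mu3_ae hκ
    · apply MeasurableSet.inter
      · apply IsOpen.measurableSet
        apply isOpen_ne_fun
        · unfold W; fun_prop
        · exact continuous_const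
      · exact (isOpen_ne_fun continuous_snd continuous_const).measurableSet
    · filter_upwards [muG_W hκ] with p hp
      filter_upwards [nu_norm_le] with z hz
      refine ⟨hp, ?_⟩
      intro h
      have := hz.2
      rw [h, norm_zero] at this
      linarith
  filter_upwards [h1] with v hv i j hij
  have e1 : gam i.1 v.1 = gam j.1 v.1 := congrArg Prod.fst hij
  have e2 : im i.2 * v.2 = im j.2 * v.2 := congrArg Prod.snd hij
  refine Prod.ext ?_ ?_
  · exact gam_free hv.1 _ _ e1
  · exact im_inj (mul_right_cancel₀ hv.2 e2)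

lemma mu3_jac {κ : ℂ} (hκ : Good κ) {A : Set ((ℂ × ℂ) × ℂ)} (hA : MeasurableSet A)
    (hi : Set.InjOn (FF κ) A) : mu3 κ (FF κ '' A) = 4 ^ 3 * mu3 κ A := by
  have := deck gam3 (gam3_mp hκ) (mu3_FF hκ) (gam3_inv κ) (gam3_fib hκ) (mu3_free hκ) hA hi
  rw [this]
  congr 1
  simp
  norm_num

/-! ### algebraic sets are null -/

/-- one variable restriction of a polynomial -/
lemma restrict (P : MvPolynomial (Fin 4) ℂ) (a : Fin 4 → Polynomial ℂ) (z : ℂ) :
    (MvPolynomial.aeval a P).eval z = MvPolynomial.eval (fun i => (a i).eval z) P := by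
  have h2 : (Polynomial.evalRingHom z).comp (MvPolynomial.aeval a).toRingHom =
    MvPolynomial.eval (fun i => (a i).eval z) := by
    apply MvPolynomial.ringHom_ext
    · intro r
      simp
    · intro i
      simp
  have := congrArg (fun g => g P) h2
  simpa using this

lemma mu3_alg {κ : ℂ} (hκ : Good κ) (P : MvPolynomial (Fin 4) ℂ)
    (hP : ∃ s a z : ℂ, MvPolynomial.eval (vec ((a * s, a), z)) P ≠ 0) :
    ∀ᵐ v ∂(mu3 κ), MvPolynomial.eval (vec v) P ≠ 0 := by
  obtain ⟨s0, a0, z0, h0⟩ := hP
  have hcont : Continuous (fun v : (ℂ × ℂ) × ℂ => MvPolynomial.eval (vec v) P) := by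
    apply (MvPolynomial.continuous_eval P).comp
    unfold vec
    apply continuous_pi
    intro i
    fin_cases i <;> simp <;> fun_prop
  have hcont2 : Continuous (fun p : ℂ × ℂ => MvPolynomial.eval (vec (p, z0)) P) :=
    hcont.comp (by fun_prop)
  apply mu3_ae hκ
  · exact (isOpen_ne_fun hcont continuous_const).measurableSet
  · have h1 : ∀ᵐ p ∂(muG κ), MvPolynomial.eval (vec (p, z0)) P ≠ 0 := by
      apply muG_ae hκ
      · exact (isOpen_ne_fun hcont2 continuous_const).measurableSet
      · -- almost every slope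
        have h2 : ∀ᵐ s ∂(mm κ), MvPolynomial.eval (vec ((a0 * s, a0), z0)) P ≠ 0 := by
          set q : Polynomial ℂ := MvPolynomial.aeval (![Polynomial.C a0 * Polynomial.X,
            Polynomial.C a0, Polynomial.C z0, 1] : Fin 4 → Polynomial ℂ) P with hq
          have hev : ∀ w : ℂ, q.eval w = MvPolynomial.eval (vec ((a0 * w, a0), z0)) P := by
            intro w
            rw [hq, restrict]
            congr 1
            congr 1
            ext i
            fin_cases i <;> simp [vec]
          have hq0 : q ≠ 0 := by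
            intro h
            apply h0
            rw [← hev, h, Polynomial.eval_zero]
          filter_upwards [mm_poly_null κ q hq0] with s hs
          rwa [hev] at hs
        filter_upwards [h2] with s hs
        set q : Polynomial ℂ := MvPolynomial.aeval
          (![Polynomial.C ((RR κ s : ℂ) * s) * Polynomial.X,
          Polynomial.C (RR κ s : ℂ) * Polynomial.X, Polynomial.C z0, 1] : Fin 4 → Polynomial ℂ) P with hq
        have hev : ∀ w : ℂ, q.eval w = MvPolynomial.eval
            (vec (((w * (RR κ s : ℂ)) • ((s, 1) : ℂ × ℂ)), z0)) P := by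
          intro w
          rw [hq, restrict]
          congr 1
          congr 1
          ext i
          fin_cases i
          · simp [vec]; ring
          · simp [vec]; ring
          · simp [vec]
          · simp [vec]
        have hR : (RR κ s : ℂ) ≠ 0 := by exact_mod_cast (RR_pos κ s).ne'
        have hq0 : q ≠ 0 := by
          intro h
          apply hs
          have h3 := hev (a0 / (RR κ s : ℂ))
          rw [h, Polynomial.eval_zero] at h3
          have e : ((a0 / (RR κ s : ℂ) * (RR κ s : ℂ)) • ((s, 1) : ℂ × ℂ)) = (a0 * s, a0) := by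
            rw [div_mul_cancel₀ _ hR]; simp
          rw [e] at h3
          exact h3.symm
        filter_upwards [ee_poly_null q hq0] with θ hθ
        rw [hev] at hθ
        exact hθ
    filter_upwards [h1] with p hp
    set q : Polynomial ℂ := MvPolynomial.aeval (![Polynomial.C p.1,
            Polynomial.C p.2, Polynomial.X, 1] : Fin 4 → Polynomial ℂ) P with hq
    have hev : ∀ w : ℂ, q.eval w = MvPolynomial.eval (vec (p, w)) P := by
      intro w
      rw [hq, restrict]
      congr 1
      congr 1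
      ext i
      fin_cases i <;> simp [vec]
    have hq0 : q ≠ 0 := by
      intro h
      apply hp
      rw [← hev, h, Polynomial.eval_zero]
    filter_upwards [nu_poly_null q hq0] with z hz
    rwa [hev] at hz

end Pool.Agent.H25.Dyn
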