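import Pool.Agent.H25.DynMk6
open MeasureTheory Filter Topology
open scoped ENNReal
namespace Pool.Agent.H25.Dyn

lemma measurable_vec : Measurable vec := by
  unfold vec
  rw [measurable_pi_iff]
  intro i
  fin_cases i <;> simp <;> fun_prop

lemma measurable_mk {N : ℕ} :
    Measurable (fun X : {X : Fin (N + 1) → ℂ // X ≠ 0} => Projectivization.mk ℂ X.1 X.2) :=
  fun _ h => h

lemma measurable_chart : Measurable chart := by
  have h : chart = (fun X : {X : Fin (3 + 1) → ℂ // X ≠ 0} => Projectivization.mk ℂ X.1 X.2) ∘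
      (fun v => (⟨vec v, vec_ne v⟩ : {X : Fin (3 + 1) → ℂ // X ≠ 0})) := rfl
  rw [h]
  exact measurable_mk.comp (measurable_vec.subtype_mk)

/-- affine coordinates -/
noncomputable def cho (X : Fin 4 → ℂ) : (ℂ × ℂ) × ℂ := ((X 0 / X 3, X 1 / X 3), X 2 / X 3)

lemma measurable_cho : Measurable cho := by
  unfold cho
  fun_prop

lemma chart_cho (X : Fin 4 → ℂ) (hX : X ≠ 0) (h3 : X 3 ≠ 0) :
    chart (cho X) = Projectivization.mk ℂ X hX := by
  unfold chart
  rw [Projectivization.mk_eq_mk_iff']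
  refine ⟨(X 3)⁻¹, ?_⟩
  ext i
  fin_cases i
  · simp [vec, cho]; field_simp
  · simp [vec, cho]; field_simp
  · simp [vec, cho]; field_simp
  · simp [vec, cho, h3]

lemma cho_vec (v : (ℂ × ℂ) × ℂ) : cho (vec v) = v := by
  simp [cho, vec]

lemma chart_emb : MeasurableEmbedding chart := by
  refine ⟨chart_injective, measurable_chart, ?_⟩
  intro B hB
  change MeasurableSet ((fun X : {X : Fin (3 + 1) → ℂ // X ≠ 0} => Projectivization.mk ℂ X.1 X.2) ⁻¹'
    (chart '' B))
  have : ((fun X : {X : Fin (3 + 1) → ℂ // X ≠ 0} => Projectivization.mk ℂ X.1 X.2) ⁻¹'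
    (chart '' B)) = {X : {X : Fin (3 + 1) → ℂ // X ≠ 0} | X.1 3 ≠ 0 ∧ cho X.1 ∈ B} := by
    ext X
    simp only [Set.mem_preimage, Set.mem_image, Set.mem_ofPred_eq]
    constructor
    · rintro ⟨v, hv, h⟩
      unfold chart at h
      rw [Projectivization.mk_eq_mk_iff'] at h
      obtain ⟨a, ha⟩ := h
      have h3 := congrFun ha 3
      have ha0 : a ≠ 0 := by
        rintro rfl
        simp [vec] at h3
      have hX3 : X.1 3 ≠ 0 := by
        intro h0
        simp [vec, h0] at h3
      refine ⟨hX3, ?_⟩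
      have : cho X.1 = v := by
        rw [← cho_vec v, ← ha]
        unfold cho
        simp only [Pi.smul_apply, smul_eq_mul]
        rw [mul_div_mul_left _ _ ha0, mul_div_mul_left _ _ ha0, mul_div_mul_left _ _ ha0]
      rw [this]
      exact hv
    · rintro ⟨h3, hB'⟩
      exact ⟨_, hB', chart_cho X.1 X.2 h3⟩
  rw [this]
  apply MeasurableSet.inter
  · have h1 : Measurable (fun X : {X : Fin (3 + 1) → ℂ // X ≠ 0} => X.1 3) :=
      (measurable_pi_apply 3).comp measurable_subtype_coe
    exact (h1 (measurableSet_singleton 0)).compl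
  · exact (measurable_cho.comp measurable_subtype_coe) hB

/-- the equilibrium measure of the members of the family -/
noncomputable def mu (κ : ℂ) : Measure (PSpace 3) := (mu3 κ).map chart

lemma image_chart {f : Endo 3 4} {κ t : ℂ} (h : f.1 = t • K κ) (A : Set (PSpace 3)) :
    chart ⁻¹' (pmap f '' A) = FF κ '' (chart ⁻¹' A) := by
  ext v
  simp only [Set.mem_preimage, Set.mem_image]
  constructor
  · rintro ⟨x, hx, hxv⟩
    rcases chart_or x with ⟨u, rfl⟩ | h3
    · refine ⟨u, hx, ?_⟩
      rw [pmap_chart h] at hxv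
      exact chart_injective hxv
    · exfalso
      have := pmap_rep3 h x h3
      rw [hxv] at this
      unfold chart at this
      rw [rep3_mk] at this
      simp [vec] at this
  · rintro ⟨u, hu, rfl⟩
    exact ⟨chart u, hu, pmap_chart h u⟩

/-- evaluation on a representative -/
lemma eval_rep {P : MvPolynomial (Fin 4) ℂ} {k : ℕ} (hk : P.IsHomogeneous k)
    (v : (ℂ × ℂ) × ℂ) : MvPolynomial.eval (chart v).rep P = 0 ↔ MvPolynomial.eval (vec v) P = 0 := by
  obtain ⟨a, ha⟩ := Projectivization.exists_smul_eq_mk_rep ℂ _ (vec_ne v)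
  have h3 := hom_eval hk (a : ℂ) (vec v)
  have h4 : (chart v).rep = (a : ℂ) • vec v := ha.symm
  rw [h4, h3]
  simp

theorem mu_equilibrium {f : Endo 3 4} {κ t : ℂ} (h : f.1 = t • K κ) :
    IsEquilibrium f (mu κ) := by
  obtain ⟨hκ, ht⟩ := Fam_good h
  have hprob := mu3_prob hκ
  refine ⟨?_, ?_, ?_⟩
  · unfold mu
    rw [chart_emb.map_apply]
    simp
  · intro P k hk hP
    unfold mu
    rw [chart_emb.map_apply]
    have e : chart ⁻¹' {x : PSpace 3 | MvPolynomial.eval x.rep P = 0} =
        {v | ¬ (MvPolynomial.eval (vec v) P ≠ 0)} := by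
      ext v
      simp only [Set.mem_preimage, Set.mem_ofPred_eq, not_not]
      exact eval_rep hk v
    rw [e, ← ae_iff]
    apply mu3_alg hκ
    -- a point with `P ≠ 0`, `X 1 ≠ 0`, `X 3 ≠ 0`
    have h1 : P * (MvPolynomial.X 1 * MvPolynomial.X 3) ≠ 0 :=
      mul_ne_zero hP (mul_ne_zero (MvPolynomial.X_ne_zero _) (MvPolynomial.X_ne_zero _))
    obtain ⟨X, hX⟩ : ∃ X : Fin 4 → ℂ, MvPolynomial.eval X (P * (MvPolynomial.X 1 * MvPolynomial.X 3)) ≠ 0 := by
      by_contra hcon
      push Not at hcon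
      exact h1 (MvPolynomial.funext fun X => by rw [hcon X, map_zero])
    rw [map_mul, map_mul, MvPolynomial.eval_X, MvPolynomial.eval_X] at hX
    have hX0 := left_ne_zero_of_mul hX
    have hX1 := left_ne_zero_of_mul (right_ne_zero_of_mul hX)
    have hX3 := right_ne_zero_of_mul (right_ne_zero_of_mul hX)
    refine ⟨X 0 / X 1, X 1 / X 3, X 2 / X 3, ?_⟩
    have e2 : vec ((X 1 / X 3 * (X 0 / X 1), X 1 / X 3), X 2 / X 3) = (X 3)⁻¹ • X := by
      ext i
      fin_cases i
      · simp [vec]; field_simp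
      · simp [vec]; field_simp
      · simp [vec]; field_simp
      · simp [vec, hX3]
    rw [e2, hom_eval hk]
    exact mul_ne_zero (pow_ne_zero _ (inv_ne_zero hX3)) hX0
  · intro A hA hi
    unfold mu
    rw [chart_emb.map_apply, chart_emb.map_apply, image_chart h]
    have := mu3_jac hκ (A := chart ⁻¹' A) (measurable_chart hA) (by
      intro u hu v hv huv
      apply chart_injective
      apply hi hu hv
      rw [pmap_chart h, pmap_chart h, huv])
    rw [this]
    norm_num

end Pool.Agent.H25.Dyn
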