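import Pool.Agent.H25.DynMk7
open MeasureTheory Filter Topology
open scoped ENNReal
namespace Pool.Agent.H25.Dyn

/-- coboundaries with bounded positive part have zero mean -/
lemma cob {Y : Type*} [MeasurableSpace Y] {μ : Measure Y} [IsProbabilityMeasure μ] {T : Y → Y}
    (hT : MeasurePreserving T μ μ) {ψ : Y → ℝ} (hψ : Measurable ψ) {C D : ℝ}
    (h1 : ∀ᵐ y ∂μ, ψ y ≤ C) (h2 : ∀ᵐ y ∂μ, ψ (T y) - ψ y ≤ D) :
    Integrable (fun y => ψ (T y) - ψ y) μ ∧ ∫ y, (ψ (T y) - ψ y) ∂μ = 0 := by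
  set E : ℝ := max D 0 with hE
  set ψn : ℕ → Y → ℝ := fun n y => max (ψ y) (-(n : ℝ)) with hψn
  set φ : Y → ℝ := fun y => ψ (T y) - ψ y with hφ
  set φn : ℕ → Y → ℝ := fun n y => ψn n (T y) - ψn n y with hφn
  have hψnm : ∀ n, Measurable (ψn n) := fun n => hψ.max measurable_const
  have hφm : Measurable φ := (hψ.comp hT.measurable).sub hψ
  have hφnm : ∀ n, Measurable (φn n) := fun n => ((hψnm n).comp hT.measurable).sub (hψnm n)
  have hint : ∀ n, Integrable (ψn n) μ := by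
    intro n
    refine Integrable.of_bound (hψnm n).aestronglyMeasurable (|C| + n) ?_
    filter_upwards [h1] with y hy
    rw [Real.norm_eq_abs, abs_le]
    simp only [hψn]
    constructor
    · have := le_max_right (ψ y) (-(n : ℝ))
      have := abs_nonneg C
      linarith
    · apply max_le
      · have := le_abs_self C
        have : (0:ℝ) ≤ n := Nat.cast_nonneg n
        linarith
      · have := abs_nonneg C
        have : (0:ℝ) ≤ n := Nat.cast_nonneg n
        linarith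
  have hintT : ∀ n, Integrable (fun y => ψn n (T y)) μ := fun n =>
    hT.integrable_comp_of_integrable (hint n)
  have hzero : ∀ n, ∫ y, φn n y ∂μ = 0 := by
    intro n
    simp only [hφn]
    rw [integral_sub (hintT n) (hint n)]
    have : ∫ y, ψn n (T y) ∂μ = ∫ y, ψn n y ∂μ := by
      have h3 := integral_map hT.measurable.aemeasurable (μ := μ) (f := ψn n)
        (by rw [hT.map_eq]; exact (hψnm n).aestronglyMeasurable)
      rw [hT.map_eq] at h3
      exact h3.symm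
    rw [this, sub_self]
  have hlim : ∀ y, Tendsto (fun n => φn n y) atTop (𝓝 (φ y)) := by
    intro y
    obtain ⟨N, hN⟩ := exists_nat_ge (|ψ (T y)| + |ψ y|)
    apply tendsto_const_nhds.congr'
    filter_upwards [eventually_ge_atTop N] with n hn
    have hn' : (N : ℝ) ≤ n := by exact_mod_cast hn
    simp only [hφn, hψn, hφ]
    rw [max_eq_left, max_eq_left]
    · have := neg_abs_le (ψ y)
      have := abs_nonneg (ψ (T y))
      linarith
    · have := neg_abs_le (ψ (T y))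
      have := abs_nonneg (ψ y)
      linarith
  have hle : ∀ n, ∀ᵐ y ∂μ, φn n y ≤ E := by
    intro n
    filter_upwards [h2] with y hy
    simp only [hφn, hψn]
    rw [sub_le_iff_le_add]
    apply max_le
    · have := le_max_left (ψ y) (-(n : ℝ))
      have := le_max_left D 0
      linarith
    · have := le_max_right (ψ y) (-(n : ℝ))
      have := le_max_right D 0
      linarith
  have hlefin : ∀ᵐ y ∂μ, φ y ≤ E := by
    filter_upwards [h2] with y hy
    exact hy.trans (le_max_left D 0)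
  have hφnint : ∀ n, Integrable (φn n) μ := fun n => (hintT n).sub (hint n)
  -- Fatou
  have hfatou : ∫⁻ y, ENNReal.ofReal (E - φ y) ∂μ ≤ ENNReal.ofReal E := by
    have e1 : ∀ y, ENNReal.ofReal (E - φ y) = liminf (fun n => ENNReal.ofReal (E - φn n y)) atTop := by
      intro y
      symm
      apply Tendsto.liminf_eq
      apply ENNReal.tendsto_ofReal
      exact (hlim y).const_sub E
    simp_rw [e1]
    refine (lintegral_liminf_le (fun n => ((hφnm n).const_sub E).ennreal_ofReal)).trans ?_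
    have e2 : ∀ n, ∫⁻ y, ENNReal.ofReal (E - φn n y) ∂μ = ENNReal.ofReal E := by
      intro n
      rw [← ofReal_integral_eq_lintegral_ofReal]
      · congr 1
        rw [integral_sub (integrable_const E) (hφnint n), hzero n]
        simp
      · exact (integrable_const E).sub (hφnint n)
      · filter_upwards [hle n] with y hy
        simp only [Pi.zero_apply]
        linarith
    simp_rw [e2]
    simp
  have hint2 : Integrable (fun y => E - φ y) μ := by
    refine ⟨(hφm.const_sub E).aestronglyMeasurable, ?_⟩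
    rw [hasFiniteIntegral_iff_ofReal]
    · exact lt_of_le_of_lt hfatou ENNReal.ofReal_lt_top
    · filter_upwards [hlefin] with y hy
      simp only [Pi.zero_apply]
      linarith
  have hφint : Integrable φ μ := by
    have := (integrable_const (μ := μ) E).sub hint2
    refine this.congr (Eventually.of_forall fun y => ?_)
    simp
  refine ⟨hφint, ?_⟩
  have hdct := tendsto_integral_of_dominated_convergence (μ := μ) (F := φn) (f := φ) (fun y => |φ y|)
    (fun n => (hφnm n).aestronglyMeasurable) hφint.abs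
    (fun n => Eventually.of_forall fun y => by
      rw [Real.norm_eq_abs]
      exact abs_max_sub_max_le_abs _ _ _)
    (Eventually.of_forall hlim)
  simp_rw [hzero] at hdct
  exact (tendsto_nhds_unique hdct tendsto_const_nhds)

lemma nrm_nonneg {N : ℕ} (X : Fin (N + 1) → ℂ) : 0 ≤ nrm X := Real.sqrt_nonneg _

lemma nrm_smul {N : ℕ} (a : ℂ) (X : Fin (N + 1) → ℂ) : nrm (a • X) = ‖a‖ * nrm X := by
  unfold nrm
  simp only [Pi.smul_apply, smul_eq_mul, norm_mul, mul_pow, ← Finset.mul_sum]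
  rw [Real.sqrt_mul (by positivity), Real.sqrt_sq (norm_nonneg _)]

/-- norm in the chart -/
noncomputable def nn (v : (ℂ × ℂ) × ℂ) : ℝ := nrm (vec v)

lemma nn_eq (v : (ℂ × ℂ) × ℂ) :
    nn v = Real.sqrt (‖v.1.1‖ ^ 2 + ‖v.1.2‖ ^ 2 + ‖v.2‖ ^ 2 + 1) := by
  unfold nn nrm vec
  congr 1
  simp [Fin.sum_univ_four]

lemma nn_ge (v : (ℂ × ℂ) × ℂ) : 1 ≤ nn v := by
  rw [nn_eq]
  apply Real.le_sqrt_of_sq_le
  nlinarith [sq_nonneg ‖v.1.1‖, sq_nonneg ‖v.1.2‖, sq_nonneg ‖v.2‖]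

lemma nn_le {v : (ℂ × ℂ) × ℂ} {b : ℝ} (hb : 0 ≤ b) (h1 : ‖v.1‖ ≤ b) (h2 : ‖v.2‖ ≤ 2) :
    nn v ≤ Real.sqrt (2 * b ^ 2 + 5) := by
  rw [nn_eq]
  apply Real.sqrt_le_sqrt
  have h3 : ‖v.1.1‖ ≤ b := (norm_fst_le v.1).trans h1
  have h4 : ‖v.1.2‖ ≤ b := (norm_snd_le v.1).trans h1
  have := norm_nonneg v.1.1
  have := norm_nonneg v.1.2
  have := norm_nonneg v.2
  nlinarith

lemma measurable_nn : Measurable nn := by
  have : nn = fun v => Real.sqrt (‖v.1.1‖ ^ 2 + ‖v.1.2‖ ^ 2 + ‖v.2‖ ^ 2 + 1) := funext nn_eq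
  rw [this]
  fun_prop

/-- the Jacobian in the chart -/
lemma logJac_chart {f : Endo 3 4} {κ t : ℂ} (h : f.1 = t • K κ) (v : (ℂ × ℂ) × ℂ)
    (hW : W v.1.1 v.1.2 ≠ 0) (hz : v.2 ≠ 0) (hQ : QQ κ v.1.1 v.1.2 ≠ 0) :
    logJac f (chart v) = 4 * (Real.log (nn v) - Real.log (nn (FF κ v))) +
      (1 / 2) * (Real.log ‖QQ κ (FF κ v).1.1 (FF κ v).1.2‖ - Real.log ‖QQ κ v.1.1 v.1.2‖) +
      (3 * Real.log ‖v.2‖ + Real.log 32) := by
  obtain ⟨hκ, ht⟩ := Fam_good h
  have hc : κ ^ 4 - 1 ≠ 0 := sub_ne_zero.mpr hκ.2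
  obtain ⟨a, ha⟩ := Projectivization.exists_smul_eq_mk_rep ℂ _ (vec_ne v)
  have h4 : (chart v).rep = (a : ℂ) • vec v := ha.symm
  have ha0 : (a : ℂ) ≠ 0 := a.ne_zero
  have han : ‖(a : ℂ)‖ ≠ 0 := norm_ne_zero_iff.mpr ha0
  have htn : ‖t‖ ≠ 0 := norm_ne_zero_iff.mpr ht
  have hnn1 : nn v ≠ 0 := by have := nn_ge v; linarith
  have hnn2 : nn (FF κ v) ≠ 0 := by have := nn_ge (FF κ v); linarith
  unfold logJac
  have e1 : jac f (chart v).rep = (a : ℂ) ^ 12 * (t ^ 4 * (256 * κ * (κ ^ 4 - 1) * W v.1.1 v.1.2 * v.2 ^ 3)) := by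
    rw [jac_fam h, h4]
    simp only [Pi.smul_apply, smul_eq_mul]
    rw [W_smul]
    simp [vec]
    ring
  have e2 : nrm (ev f.1 (chart v).rep) = ‖(a : ℂ)‖ ^ 4 * (‖t‖ * nn (FF κ v)) := by
    rw [h4, ev_hom, nrm_smul, h, ev_smul, nrm_smul, ev_vec, norm_pow]
    rfl
  have e3 : nrm (chart v).rep = ‖(a : ℂ)‖ * nn v := by
    rw [h4, nrm_smul]; rfl
  rw [e1, e2, e3]
  have hkn : ‖κ‖ ≠ 0 := norm_ne_zero_iff.mpr hκ.1
  have hcn : ‖κ ^ 4 - 1‖ ≠ 0 := norm_ne_zero_iff.mpr hc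
  have hWn : ‖W v.1.1 v.1.2‖ ≠ 0 := norm_ne_zero_iff.mpr hW
  have hQn : ‖QQ κ v.1.1 v.1.2‖ ≠ 0 := norm_ne_zero_iff.mpr hQ
  have hzn : ‖v.2‖ ≠ 0 := norm_ne_zero_iff.mpr hz
  have e4 : QQ κ (FF κ v).1.1 (FF κ v).1.2 = 4 * κ ^ 2 * (κ ^ 4 - 1) ^ 2 * (W v.1.1 v.1.2) ^ 2 *
      QQ κ v.1.1 v.1.2 := QQ_G κ _ _
  have e5 : Real.log ‖QQ κ (FF κ v).1.1 (FF κ v).1.2‖ = 2 * Real.log 2 + 2 * Real.log ‖κ‖ +
      2 * Real.log ‖κ ^ 4 - 1‖ + 2 * Real.log ‖W v.1.1 v.1.2‖ + Real.log ‖QQ κ v.1.1 v.1.2‖ := by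
    rw [e4]
    have h44 : ‖(4:ℂ)‖ = 2 ^ 2 := by norm_num
    rw [norm_mul, norm_mul, norm_mul, norm_mul, norm_pow, norm_pow, norm_pow, h44]
    rw [Real.log_mul (by positivity) (by positivity), Real.log_mul (by positivity) (by positivity),
      Real.log_mul (by positivity) (by positivity), Real.log_mul (by positivity) (by positivity)]
    simp only [Real.log_pow]
    push_cast
    ring
  rw [e5]
  have e6 : (‖(a : ℂ)‖ * nn v) ^ (3 + 1) * ‖(a : ℂ) ^ 12 * (t ^ 4 * (256 * κ * (κ ^ 4 - 1) *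
      W v.1.1 v.1.2 * v.2 ^ 3))‖ / ((4 : ℕ) * (‖(a : ℂ)‖ ^ 4 * (‖t‖ * nn (FF κ v))) ^ (3 + 1)) =
      nn v ^ 4 * (2 ^ 6 * ‖κ‖ * ‖κ ^ 4 - 1‖ * ‖W v.1.1 v.1.2‖ * ‖v.2‖ ^ 3) / nn (FF κ v) ^ 4 := by
    have h256 : ‖(256:ℂ)‖ = 256 := by norm_num
    simp only [norm_mul, norm_pow, h256]
    push_cast
    field_simp
    norm_num
  rw [e6]
  have hnp1 : 0 < nn v := by have := nn_ge v; linarith
  have hnp2 : 0 < nn (FF κ v) := by have := nn_ge (FF κ v); linarith
  have h32 : Real.log 32 = 5 * Real.log 2 := by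
    have : (32:ℝ) = 2 ^ 5 := by norm_num
    rw [this, Real.log_pow]; norm_num
  rw [Real.log_div (by positivity) (by positivity), Real.log_mul (by positivity) (by positivity),
    Real.log_mul (by positivity) (by positivity), Real.log_mul (by positivity) (by positivity),
    Real.log_mul (by positivity) (by positivity), Real.log_mul (by positivity) (by positivity), h32]
  simp only [Real.log_pow]
  push_cast
  ring

end Pool.Agent.H25.Dyn
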