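import Pool.Agent.H25.DynMk8
open MeasureTheory Filter Topology
open scoped ENNReal
namespace Pool.Agent.H25.Dyn

/-- the value of the sum of the Lyapunov exponents -/
noncomputable def L0 : ℝ := 3 * ∫ z, Real.log ‖z‖ ∂nu + Real.log 32

lemma mu3_norm {κ : ℂ} (hκ : Good κ) : ∃ b : ℝ, 0 < b ∧
    ∀ᵐ v ∂(mu3 κ), ‖v.1‖ ≤ b ∧ ‖v.2‖ ≤ 2 ∧ 1 ≤ ‖v.2‖ := by
  obtain ⟨a, b, ha, hb, h⟩ := muG_norm hκ
  refine ⟨b, hb, ?_⟩
  apply mu3_ae hκ
  · refine MeasurableSet.inter ?_ (MeasurableSet.inter ?_ ?_)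
    · exact measurableSet_le (f := fun v : (ℂ × ℂ) × ℂ => ‖v.1‖) (by fun_prop) measurable_const
    · exact measurableSet_le (f := fun v : (ℂ × ℂ) × ℂ => ‖v.2‖) (by fun_prop) measurable_const
    · exact measurableSet_le (g := fun v : (ℂ × ℂ) × ℂ => ‖v.2‖) measurable_const (by fun_prop)
  · filter_upwards [h] with p hp
    filter_upwards [nu_norm_le] with z hz
    exact ⟨hp.2, hz⟩

lemma muG_Q {κ : ℂ} (hκ : Good κ) : ∀ᵐ p ∂(muG κ), W p.1 p.2 ≠ 0 ∧ QQ κ p.1 p.2 ≠ 0 := by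
  apply muG_ae hκ (P := fun p => W p.1 p.2 ≠ 0 ∧ QQ κ p.1 p.2 ≠ 0)
  · apply MeasurableSet.inter
    · apply IsOpen.measurableSet
      apply isOpen_ne_fun
      · unfold W; fun_prop
      · exact continuous_const
    · apply IsOpen.measurableSet
      apply isOpen_ne_fun
      · unfold QQ; fun_prop
      · exact continuous_const
  · filter_upwards [ae_of_poly_bad hκ] with s hs
    refine Eventually.of_forall fun θ => ?_
    have h1 : W (XX κ (s, θ)).1 (XX κ (s, θ)).2 = (ee θ * (RR κ s : ℂ)) ^ 6 * W s 1 := by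
      have := W_smul (ee θ * (RR κ s : ℂ)) s 1
      exact this
    have h2 : QQ κ (XX κ (s, θ)).1 (XX κ (s, θ)).2 = (ee θ * (RR κ s : ℂ)) ^ 4 * QQ κ s 1 := by
      unfold XX QQ
      simp only [Prod.smul_mk, smul_eq_mul]
      ring
    have h3 : ee θ * (RR κ s : ℂ) ≠ 0 := by
      refine mul_ne_zero (ee_ne θ) ?_
      exact_mod_cast (RR_pos κ s).ne'
    rw [h1, h2]
    exact ⟨mul_ne_zero (pow_ne_zero _ h3) hs.1, mul_ne_zero (pow_ne_zero _ h3) hs.2.1⟩

lemma mu3_Q {κ : ℂ} (hκ : Good κ) :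
    ∀ᵐ v ∂(mu3 κ), W v.1.1 v.1.2 ≠ 0 ∧ QQ κ v.1.1 v.1.2 ≠ 0 := by
  apply mu3_ae hκ
  · apply MeasurableSet.inter
    · apply IsOpen.measurableSet
      apply isOpen_ne_fun
      · unfold W; fun_prop
      · exact continuous_const
    · apply IsOpen.measurableSet
      apply isOpen_ne_fun
      · unfold QQ; fun_prop
      · exact continuous_const
  · filter_upwards [muG_Q hκ] with p hp
    exact Eventually.of_forall fun z => hp

/-- integral of the normalisation coboundary -/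
lemma int_nn {κ : ℂ} (hκ : Good κ) :
    Integrable (fun v => Real.log (nn v) - Real.log (nn (FF κ v))) (mu3 κ) ∧
    ∫ v, (Real.log (nn v) - Real.log (nn (FF κ v))) ∂(mu3 κ) = 0 := by
  have := mu3_prob hκ
  obtain ⟨b, hb, hbd⟩ := mu3_norm hκ
  have hm : Measurable (fun v => Real.log (nn v)) := Real.measurable_log.comp measurable_nn
  have hint : Integrable (fun v => Real.log (nn v)) (mu3 κ) := by
    refine Integrable.of_bound hm.aestronglyMeasurable (Real.log (Real.sqrt (2 * b ^ 2 + 5))) ?_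
    filter_upwards [hbd] with v hv
    have h1 := nn_ge v
    have h2 := nn_le hb.le hv.1 hv.2.1
    rw [Real.norm_eq_abs, abs_of_nonneg (Real.log_nonneg h1)]
    exact Real.log_le_log (by linarith) h2
  have hT := mu3_FF hκ
  have hint2 : Integrable (fun v => Real.log (nn (FF κ v))) (mu3 κ) :=
    hT.integrable_comp_of_integrable hint
  refine ⟨hint.sub hint2, ?_⟩
  rw [integral_sub hint hint2]
  have h3 := integral_map hT.measurable.aemeasurable (μ := mu3 κ) (f := fun v => Real.log (nn v))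
    (by rw [hT.map_eq]; exact hm.aestronglyMeasurable)
  rw [hT.map_eq] at h3
  rw [h3, sub_self]

/-- integral of the critical coboundary -/
lemma int_QQ {κ : ℂ} (hκ : Good κ) :
    Integrable (fun v : (ℂ × ℂ) × ℂ => Real.log ‖QQ κ (FF κ v).1.1 (FF κ v).1.2‖ -
      Real.log ‖QQ κ v.1.1 v.1.2‖) (mu3 κ) ∧
    ∫ v : (ℂ × ℂ) × ℂ, (Real.log ‖QQ κ (FF κ v).1.1 (FF κ v).1.2‖ -
      Real.log ‖QQ κ v.1.1 v.1.2‖) ∂(mu3 κ) = 0 := by
  have := mu3_prob hκ
  obtain ⟨b, hb, hbd⟩ := mu3_norm hκ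
  have hcQ : Continuous (fun p : ℂ × ℂ => QQ κ p.1 p.2) := by unfold QQ; fun_prop
  have hcW : Continuous (fun p : ℂ × ℂ => 4 * κ ^ 2 * (κ ^ 4 - 1) ^ 2 * (W p.1 p.2) ^ 2) := by
    unfold W; fun_prop
  have hK : IsCompact (Metric.closedBall (0 : ℂ × ℂ) b) := isCompact_closedBall _ _
  obtain ⟨M, hM⟩ := hK.exists_bound_of_continuousOn hcQ.continuousOn
  obtain ⟨M', hM'⟩ := hK.exists_bound_of_continuousOn hcW.continuousOn
  refine cob (mu3_FF hκ) (ψ := fun v : (ℂ × ℂ) × ℂ => Real.log ‖QQ κ v.1.1 v.1.2‖) (C := M) (D := M')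
    ?_ ?_ ?_
  · have : Measurable (fun v : (ℂ × ℂ) × ℂ => QQ κ v.1.1 v.1.2) :=
      (hcQ.comp continuous_fst).measurable
    fun_prop
  · filter_upwards [hbd] with v hv
    have h1 : v.1 ∈ Metric.closedBall (0 : ℂ × ℂ) b := by simpa using hv.1
    exact (Real.log_le_self (norm_nonneg _)).trans (hM v.1 h1)
  · filter_upwards [hbd, mu3_Q hκ] with v hv hQ
    have h1 : v.1 ∈ Metric.closedBall (0 : ℂ × ℂ) b := by simpa using hv.1
    have e4 : QQ κ (FF κ v).1.1 (FF κ v).1.2 = 4 * κ ^ 2 * (κ ^ 4 - 1) ^ 2 * (W v.1.1 v.1.2) ^ 2 *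
      QQ κ v.1.1 v.1.2 := QQ_G κ _ _
    have hc : κ ^ 4 - 1 ≠ 0 := sub_ne_zero.mpr hκ.2
    have hne : 4 * κ ^ 2 * (κ ^ 4 - 1) ^ 2 * (W v.1.1 v.1.2) ^ 2 ≠ 0 := by
      exact mul_ne_zero (mul_ne_zero (mul_ne_zero (by norm_num) (pow_ne_zero _ hκ.1))
        (pow_ne_zero _ hc)) (pow_ne_zero _ hQ.1)
    rw [e4, norm_mul, Real.log_mul (norm_ne_zero_iff.mpr hne) (norm_ne_zero_iff.mpr hQ.2),
      add_sub_cancel_right]
    exact (Real.log_le_self (norm_nonneg _)).trans (hM' v.1 h1)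

lemma int_z {κ : ℂ} (hκ : Good κ) :
    Integrable (fun v : (ℂ × ℂ) × ℂ => Real.log ‖v.2‖) (mu3 κ) ∧
    ∫ v : (ℂ × ℂ) × ℂ, Real.log ‖v.2‖ ∂(mu3 κ) = ∫ z, Real.log ‖z‖ ∂nu := by
  have := mu3_prob hκ
  have := muG_prob hκ
  have hm : Measurable (fun z : ℂ => Real.log ‖z‖) := by fun_prop
  have hmp : MeasurePreserving (Prod.snd : (ℂ × ℂ) × ℂ → ℂ) (mu3 κ) nu := measurePreserving_snd
  have hint : Integrable (fun z : ℂ => Real.log ‖z‖) nu := by
    refine Integrable.of_bound hm.aestronglyMeasurable (Real.log 2) ?_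
    filter_upwards [nu_norm_le] with z hz
    rw [Real.norm_eq_abs, abs_of_nonneg (Real.log_nonneg hz.2)]
    exact Real.log_le_log (by linarith [hz.2]) hz.1
  refine ⟨hmp.integrable_comp_of_integrable hint, ?_⟩
  have h3 := integral_map hmp.measurable.aemeasurable (μ := mu3 κ) (f := fun z : ℂ => Real.log ‖z‖)
    (by rw [hmp.map_eq]; exact hm.aestronglyMeasurable)
  rw [hmp.map_eq] at h3
  exact h3.symm

theorem lyapunov {f : Endo 3 4} {κ t : ℂ} (h : f.1 = t • K κ) :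
    Integrable (logJac f) (mu κ) ∧ ∫ x, logJac f x ∂(mu κ) = L0 := by
  obtain ⟨hκ, ht⟩ := Fam_good h
  have := mu3_prob hκ
  obtain ⟨b, hb, hbd⟩ := mu3_norm hκ
  have hae : ∀ᵐ v ∂(mu3 κ), 4 * (Real.log (nn v) - Real.log (nn (FF κ v))) +
      (1 / 2) * (Real.log ‖QQ κ (FF κ v).1.1 (FF κ v).1.2‖ - Real.log ‖QQ κ v.1.1 v.1.2‖) +
      (3 * Real.log ‖v.2‖ + Real.log 32) = logJac f (chart v) := by
    filter_upwards [hbd, mu3_Q hκ] with v hv hQ
    have hz : v.2 ≠ 0 := by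
      intro h0
      have := hv.2.2
      rw [h0, norm_zero] at this
      linarith
    exact (logJac_chart h v hQ.1 hz hQ.2).symm
  have i1 := (int_nn hκ).1.const_mul 4
  have i2 := (int_QQ hκ).1.const_mul (1 / 2)
  have i3 := ((int_z hκ).1.const_mul 3).add (integrable_const (Real.log 32))
  constructor
  · unfold mu
    rw [chart_emb.integrable_map_iff]
    exact ((i1.add i2).add i3).congr hae
  · unfold mu
    rw [chart_emb.integral_map, ← integral_congr_ae hae]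
    rw [integral_add (f := fun v => 4 * (Real.log (nn v) - Real.log (nn (FF κ v))) +
      (1 / 2) * (Real.log ‖QQ κ (FF κ v).1.1 (FF κ v).1.2‖ - Real.log ‖QQ κ v.1.1 v.1.2‖))
      (g := fun v => 3 * Real.log ‖v.2‖ + Real.log 32) (i1.add i2) i3]
    rw [integral_add i1 i2, integral_const_mul, integral_const_mul, (int_nn hκ).2, (int_QQ hκ).2]
    rw [integral_add ((int_z hκ).1.const_mul 3) (integrable_const _), integral_const_mul, (int_z hκ).2]
    unfold L0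
    simp

end Pool.Agent.H25.Dyn
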