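import Mathlib
open MeasureTheory Filter Topology
namespace Pool.Agent.H25.Dyn

/-- probability space -/
abbrev Om : Type := UnitAddCircle

instance : IsProbabilityMeasure (volume : Measure Om) := ⟨UnitAddCircle.measure_univ⟩

/-- the unit complex number attached to a point of the circle -/
noncomputable def ee (θ : Om) : ℂ := (AddCircle.toCircle θ : ℂ)

lemma ee_norm (θ : Om) : ‖ee θ‖ = 1 := by simp [ee]

lemma ee_ne (θ : Om) : ee θ ≠ 0 := by
  intro h; have := ee_norm θ; rw [h, norm_zero] at this; exact zero_ne_one this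

lemma ee_cont : Continuous ee := continuous_subtype_val.comp AddCircle.continuous_toCircle

lemma ee_add (a b : Om) : ee (a + b) = ee a * ee b := by simp [ee, AddCircle.toCircle_add]

lemma ee_nsmul (n : ℕ) (a : Om) : ee (n • a) = ee a ^ n := by
  simp [ee, AddCircle.toCircle_nsmul]

lemma ee_surj (c : ℂ) (hc : ‖c‖ = 1) : ∃ θ : Om, ee θ = c := by
  refine ⟨((Complex.arg c / (2 * Real.pi) : ℝ) : AddCircle (1:ℝ)), ?_⟩
  unfold ee
  rw [AddCircle.toCircle_apply_mk, Circle.coe_exp]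
  have h1 : (2 * Real.pi / 1 * (Complex.arg c / (2 * Real.pi)) : ℝ) = Complex.arg c := by
    have := Real.pi_pos
    field_simp
  rw [h1]
  have h2 := Complex.norm_mul_exp_arg_mul_I c
  rw [hc] at h2
  simpa using h2

/-- multiplication by four -/
lemma mp4 : MeasurePreserving (fun θ : Om => (4 : ℕ) • θ) volume volume :=
  (AddCircle.ergodic_nsmul (T := (1:ℝ)) (n := 4) (by norm_num)).toMeasurePreserving

/-- translation -/
lemma mpadd (a : Om) : MeasurePreserving (fun θ : Om => θ + a) volume volume :=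
  measurePreserving_add_right volume a

/-- the fourth root branch -/
noncomputable def rt (x : ℂ) : ℂ := (x + 4) ^ ((1/4 : ℝ) : ℂ)

lemma re_pos {x : ℂ} (hx : ‖x‖ ≤ 2) : 2 ≤ (x + 4).re := by
  have := Complex.abs_re_le_norm x
  rw [abs_le] at this
  simp
  linarith

lemma rt_pow {x : ℂ} : rt x ^ 4 = x + 4 := by
  unfold rt
  rw [← Complex.cpow_nat_mul]
  norm_num

lemma rt_norm_le {x : ℂ} (hx : ‖x‖ ≤ 2) : ‖rt x‖ ≤ 2 := by
  have h1 : ‖rt x‖ ^ 4 ≤ 2 ^ 4 := by
    rw [← norm_pow, rt_pow]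
    calc ‖x + 4‖ ≤ ‖x‖ + ‖(4:ℂ)‖ := norm_add_le _ _
      _ ≤ 2 ^ 4 := by norm_num; linarith
  exact le_of_pow_le_pow_left₀ (by norm_num) (by norm_num) h1

lemma rt_norm_ge {x : ℂ} (hx : ‖x‖ ≤ 2) : 1 ≤ ‖rt x‖ := by
  have h1 : 1 ^ 4 ≤ ‖rt x‖ ^ 4 := by
    rw [← norm_pow, rt_pow]
    have := re_pos hx
    have h2 := Complex.re_le_norm (x + 4)
    linarith
  exact le_of_pow_le_pow_left₀ (by norm_num) (norm_nonneg _) h1

lemma rt_lip {x y : ℂ} (hx : ‖x‖ ≤ 2) (hy : ‖y‖ ≤ 2) : ‖rt y - rt x‖ ≤ 1/4 * ‖y - x‖ := by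
  have hconv : Convex ℝ (Metric.closedBall (0:ℂ) 2) := convex_closedBall _ _
  have hmem : ∀ z : ℂ, ‖z‖ ≤ 2 → z ∈ Metric.closedBall (0:ℂ) 2 := fun z hz => by simpa using hz
  have hder : ∀ z ∈ Metric.closedBall (0:ℂ) 2, HasDerivWithinAt rt
      (((1/4 : ℝ) : ℂ) * (z + 4) ^ (((1/4 : ℝ) : ℂ) - 1) * 1) (Metric.closedBall (0:ℂ) 2) z := by
    intro z hz
    have hz' : ‖z‖ ≤ 2 := by simpa using hz
    have h1 : HasDerivAt (fun w : ℂ => w + 4) 1 z := (hasDerivAt_id z).add_const 4
    have h2 : (z + 4) ∈ Complex.slitPlane := Or.inl (by linarith [re_pos hz'])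
    exact (h1.cpow_const h2).hasDerivWithinAt
  refine Convex.norm_image_sub_le_of_norm_hasDerivWithin_le hder ?_ hconv (hmem x hx) (hmem y hy)
  intro z hz
  have hz' : ‖z‖ ≤ 2 := by simpa using hz
  have h1 : ((1/4 : ℝ) : ℂ) - 1 = ((-3/4 : ℝ) : ℂ) := by push_cast; ring
  rw [h1, mul_one, norm_mul, Complex.norm_cpow_real]
  have h3 : 1 ≤ ‖z + 4‖ := by
    have := re_pos hz'
    have h2 := Complex.re_le_norm (z + 4)
    linarith
  have h4 : ‖z + 4‖ ^ (-3/4 : ℝ) ≤ 1 := Real.rpow_le_one_of_one_le_of_nonpos h3 (by norm_num)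
  have h5 : ‖((1/4 : ℝ) : ℂ)‖ = 1/4 := by
    rw [Complex.norm_real]; norm_num
  rw [h5]
  linarith

lemma rt_measurable : Measurable rt := by
  unfold rt
  fun_prop

/-- digit function -/
noncomputable def bb (θ : Om) : ℂ := ee θ / (ee θ ^ 4) ^ ((1/4 : ℝ) : ℂ)

lemma bb_pow (θ : Om) : bb θ ^ 4 = 1 := by
  unfold bb
  rw [div_pow, ← Complex.cpow_nat_mul]
  norm_num
  exact ee_ne θ

lemma bb_norm (θ : Om) : ‖bb θ‖ = 1 := by
  have h : ‖bb θ‖ ^ 4 = 1 := by rw [← norm_pow, bb_pow, norm_one]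
  exact (pow_eq_one_iff_of_nonneg (norm_nonneg _) (by norm_num)).mp h

lemma bb_measurable : Measurable bb := by
  unfold bb
  have := ee_cont.measurable
  fun_prop

lemma bb_add (θ a : Om) (ha : ee a ^ 4 = 1) : bb (θ + a) = ee a * bb θ := by
  unfold bb
  rw [ee_add]
  have : (ee θ * ee a) ^ 4 = ee θ ^ 4 := by rw [mul_pow, ha, mul_one]
  rw [this]
  ring

/-- approximations of the coding map -/
noncomputable def pin : ℕ → Om → ℂ
  | 0 => fun _ => 0
  | n + 1 => fun θ => bb θ * rt (pin n ((4 : ℕ) • θ))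

lemma pin_norm (n : ℕ) (θ : Om) : ‖pin n θ‖ ≤ 2 := by
  induction n generalizing θ with
  | zero => simp [pin]
  | succ n ih =>
    simp only [pin, norm_mul, bb_norm, one_mul]
    exact rt_norm_le (ih _)

lemma pin_diff (n : ℕ) (θ : Om) : ‖pin (n + 1) θ - pin n θ‖ ≤ 2 * (1/4) ^ n := by
  induction n generalizing θ with
  | zero => simpa [pin] using pin_norm 1 θ
  | succ n ih =>
    have h : pin (n + 1 + 1) θ - pin (n + 1) θ =
        bb θ * (rt (pin (n + 1) ((4 : ℕ) • θ)) - rt (pin n ((4 : ℕ) • θ))) := by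
      simp only [pin]; ring
    rw [h, norm_mul, bb_norm, one_mul]
    refine (rt_lip (pin_norm _ _) (pin_norm _ _)).trans ?_
    have := ih ((4 : ℕ) • θ)
    rw [pow_succ]
    linarith

lemma pin_cauchy (θ : Om) : CauchySeq (fun n => pin n θ) := by
  apply cauchySeq_of_le_geometric (r := 1/4) (C := 2) (by norm_num)
  intro n
  rw [dist_comm, dist_eq_norm]
  exact pin_diff n θ

/-- the coding map -/
noncomputable def pii (θ : Om) : ℂ := limUnder atTop (fun n => pin n θ)

lemma pii_tendsto (θ : Om) : Tendsto (fun n => pin n θ) atTop (𝓝 (pii θ)) :=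
  (pin_cauchy θ).tendsto_limUnder

lemma pii_norm (θ : Om) : ‖pii θ‖ ≤ 2 :=
  le_of_tendsto (pii_tendsto θ).norm (Eventually.of_forall fun n => pin_norm n θ)

lemma rt_cont {x : ℂ} (hx : ‖x‖ ≤ 2) : ContinuousAt rt x := by
  have h1 : HasDerivAt (fun w : ℂ => w + 4) 1 x := (hasDerivAt_id x).add_const 4
  have h2 : (x + 4) ∈ Complex.slitPlane := Or.inl (by linarith [re_pos hx])
  exact (h1.cpow_const h2).continuousAt

lemma pii_eq (θ : Om) : pii θ = bb θ * rt (pii ((4 : ℕ) • θ)) := by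
  have h1 : Tendsto (fun n => pin (n + 1) θ) atTop (𝓝 (pii θ)) :=
    (tendsto_add_atTop_iff_nat 1).mpr (pii_tendsto θ)
  have h2 : Tendsto (fun n => pin (n + 1) θ) atTop (𝓝 (bb θ * rt (pii ((4 : ℕ) • θ)))) := by
    simp only [pin]
    exact ((rt_cont (pii_norm _)).tendsto.comp (pii_tendsto _)).const_mul (bb θ)
  exact tendsto_nhds_unique h1 h2

lemma pin_measurable (n : ℕ) : Measurable (pin n) := by
  induction n with
  | zero => exact measurable_const
  | succ n ih =>
    exact bb_measurable.mul (rt_measurable.comp (ih.comp mp4.measurable))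

lemma pii_measurable : Measurable pii :=
  measurable_of_tendsto_metrizable pin_measurable (tendsto_pi_nhds.mpr pii_tendsto)

lemma pii_pow (θ : Om) : pii θ ^ 4 = pii ((4 : ℕ) • θ) + 4 := by
  rw [pii_eq, mul_pow, bb_pow, one_mul, rt_pow]

lemma pii_norm_ge (θ : Om) : 1 ≤ ‖pii θ‖ := by
  rw [pii_eq, norm_mul, bb_norm, one_mul]
  exact rt_norm_ge (pii_norm _)

lemma nsmul_four_add (θ a : Om) (ha : ee a ^ 4 = 1) : (4 : ℕ) • (θ + a) = (4 : ℕ) • θ := by
  rw [smul_add]
  have : (4 : ℕ) • a = 0 := by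
    have h : ee ((4 : ℕ) • a) = ee 0 := by
      rw [ee_nsmul, ha]
      simp [ee]
    have h2 := Subtype.ext (p := fun x => x ∈ Submonoid.unitSphere ℂ) (a1 := AddCircle.toCircle ((4 : ℕ) • a))
      (a2 := AddCircle.toCircle (0 : Om)) h
    exact AddCircle.injective_toCircle one_ne_zero h2
  rw [this, add_zero]

lemma pii_add (θ a : Om) (ha : ee a ^ 4 = 1) : pii (θ + a) = ee a * pii θ := by
  rw [pii_eq, pii_eq θ, bb_add _ _ ha, nsmul_four_add _ _ ha, mul_assoc]

/-- equilibrium measure of `z ^ 4 - 4` -/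
noncomputable def nu : Measure ℂ := Measure.map pii volume

instance : IsProbabilityMeasure nu := Measure.isProbabilityMeasure_map pii_measurable.aemeasurable

lemma nu_map_pp : Measure.map (fun z : ℂ => z ^ 4 - 4) nu = nu := by
  unfold nu
  have hm : Measurable (fun z : ℂ => z ^ 4 - 4) := by fun_prop
  rw [Measure.map_map hm pii_measurable]
  have : (fun z : ℂ => z ^ 4 - 4) ∘ pii = pii ∘ (fun θ : Om => (4 : ℕ) • θ) := by
    ext θ
    simp only [Function.comp_apply]
    rw [pii_pow]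
    ring
  rw [this, ← Measure.map_map pii_measurable mp4.measurable, mp4.map_eq]

lemma nu_map_rot (c : ℂ) (hc : c ^ 4 = 1) : Measure.map (fun z : ℂ => c * z) nu = nu := by
  unfold nu
  have hm : Measurable (fun z : ℂ => c * z) := by fun_prop
  have hn : ‖c‖ = 1 := by
    have h : ‖c‖ ^ 4 = 1 := by rw [← norm_pow, hc, norm_one]
    exact (pow_eq_one_iff_of_nonneg (norm_nonneg _) (by norm_num)).mp h
  obtain ⟨a, ha⟩ := ee_surj c hn
  rw [Measure.map_map hm pii_measurable]
  have : (fun z : ℂ => c * z) ∘ pii = pii ∘ (fun θ : Om => θ + a) := by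
    ext θ
    simp only [Function.comp_apply]
    rw [pii_add θ a (by rw [ha, hc]), ha]
  rw [this, ← Measure.map_map pii_measurable (mpadd a).measurable, (mpadd a).map_eq]

lemma nu_norm_le : ∀ᵐ z ∂nu, ‖z‖ ≤ 2 ∧ 1 ≤ ‖z‖ := by
  unfold nu
  rw [ae_map_iff pii_measurable.aemeasurable]
  · exact Eventually.of_forall fun θ => ⟨pii_norm θ, pii_norm_ge θ⟩
  · exact (measurableSet_le (f := fun z : ℂ => ‖z‖) measurable_norm measurable_const).inter
      (measurableSet_le (g := fun z : ℂ => ‖z‖) measurable_const measurable_norm)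

lemma nu_zero : nu {0} = 0 := by
  have h := nu_norm_le
  rw [ae_iff] at h
  refine measure_mono_null ?_ h
  intro z hz
  have hz0 : z = 0 := hz
  subst hz0
  simp

lemma nu_atom_le (n : ℕ) (z : ℂ) : 4 ^ n * nu {z} ≤ 1 := by
  induction n generalizing z with
  | zero => simpa using prob_le_one
  | succ n ih =>
    by_cases hz : z = 0
    · subst hz; rw [nu_zero]; simp
    · -- the four points `i ^ k z`
      have hmem : ∀ k : Fin 4, nu {Complex.I ^ (k : ℕ) * z} = nu {z} := by
        intro k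
        have hI : (Complex.I ^ (k : ℕ)) ^ 4 = 1 := by
          rw [← pow_mul, mul_comm, pow_mul, Complex.I_pow_four, one_pow]
        have hI0 : Complex.I ^ (k : ℕ) ≠ 0 := pow_ne_zero _ Complex.I_ne_zero
        conv_lhs => rw [← nu_map_rot _ hI]
        rw [Measure.map_apply (by fun_prop) (measurableSet_singleton _)]
        congr 1
        ext w
        simp [hI0]
      have hinj : Function.Injective (fun k : Fin 4 => Complex.I ^ (k : ℕ) * z) := by
        intro k l hkl
        have h1 : Complex.I ^ (k : ℕ) = Complex.I ^ (l : ℕ) := mul_right_cancel₀ hz hkl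
        fin_cases k <;> fin_cases l <;> first | rfl | (exfalso; simp [Complex.ext_iff, pow_succ] at h1; try norm_num at h1)
      have hsub : (⋃ k : Fin 4, {Complex.I ^ (k : ℕ) * z}) ⊆ (fun z : ℂ => z ^ 4 - 4) ⁻¹' {z ^ 4 - 4} := by
        intro w hw
        simp only [Set.mem_iUnion, Set.mem_singleton_iff] at hw
        obtain ⟨k, rfl⟩ := hw
        have hI : (Complex.I ^ (k : ℕ)) ^ 4 = 1 := by
          rw [← pow_mul, mul_comm, pow_mul, Complex.I_pow_four, one_pow]
        simp [mul_pow, hI]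
      have hunion : nu (⋃ k : Fin 4, {Complex.I ^ (k : ℕ) * z}) = 4 * nu {z} := by
        rw [measure_iUnion]
        · simp [hmem]
        · intro k l hkl
          simp only [Function.onFun, Set.disjoint_singleton]
          exact fun h => hkl (hinj h)
        · intro k; exact measurableSet_singleton _
      have h2 : 4 * nu {z} ≤ nu {z ^ 4 - 4} := by
        rw [← hunion]
        calc nu (⋃ k : Fin 4, {Complex.I ^ (k : ℕ) * z})
            ≤ nu ((fun z : ℂ => z ^ 4 - 4) ⁻¹' {z ^ 4 - 4}) := measure_mono hsub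
          _ = Measure.map (fun z : ℂ => z ^ 4 - 4) nu {z ^ 4 - 4} := by
            rw [Measure.map_apply (by fun_prop) (measurableSet_singleton _)]
          _ = nu {z ^ 4 - 4} := by rw [nu_map_pp]
      calc 4 ^ (n + 1) * nu {z} = 4 ^ n * (4 * nu {z}) := by ring
        _ ≤ 4 ^ n * nu {z ^ 4 - 4} := by gcongr
        _ ≤ 1 := ih _

instance : NullSingletonClass nu := by
  constructor
  intro z
  by_contra h
  have h1 := fun n => nu_atom_le n z
  have hfin : nu {z} ≠ ⊤ := measure_ne_top _ _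
  have hpos : 0 < (nu {z}).toReal := ENNReal.toReal_pos h hfin
  have h2 : ∀ n : ℕ, (4:ℝ) ^ n * (nu {z}).toReal ≤ 1 := by
    intro n
    have := ENNReal.toReal_mono ENNReal.one_ne_top (h1 n)
    simpa using this
  obtain ⟨n, hn⟩ := pow_unbounded_of_one_lt (1 / (nu {z}).toReal) (by norm_num : (1:ℝ) < 4)
  rw [div_lt_iff₀ hpos] at hn
  linarith [h2 n]

end Pool.Agent.H25.Dyn
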