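import Pool.Agent.H25.DynJac
namespace Pool.Agent.H25.Dyn
open MeasureTheory

/-- the second block -/
def pp (z : ℂ) : ℂ := z ^ 4 - 4

/-- `G` on pairs -/
noncomputable def GG (κ : ℂ) (u : ℂ × ℂ) : ℂ × ℂ := G κ u.1 u.2

/-- affine chart vector -/
def vec (u : (ℂ × ℂ) × ℂ) : Fin 4 → ℂ := ![u.1.1, u.1.2, u.2, 1]

lemma vec_ne (u : (ℂ × ℂ) × ℂ) : vec u ≠ 0 := by
  intro h; have := congrFun h 3; simp [vec] at this

/-- the product map in the affine chart -/
noncomputable def FF (κ : ℂ) (u : (ℂ × ℂ) × ℂ) : (ℂ × ℂ) × ℂ := (GG κ u.1, pp u.2)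

lemma ev_vec (κ : ℂ) (u : (ℂ × ℂ) × ℂ) : ev (K κ) (vec u) = vec (FF κ u) := by
  rw [ev_K]
  ext i
  fin_cases i <;> simp [vec, FF, GG, pp]

/-- affine chart -/
noncomputable def chart (u : (ℂ × ℂ) × ℂ) : PSpace 3 := Projectivization.mk ℂ (vec u) (vec_ne u)

lemma pmap_fam_mk {f : Endo 3 4} {κ t : ℂ} (h : f.1 = t • K κ) (X : Fin 4 → ℂ) (hX : X ≠ 0)
    (hY : ev (K κ) X ≠ 0) :
    pmap f (Projectivization.mk ℂ X hX) = Projectivization.mk ℂ (ev (K κ) X) hY := by
  rw [pmap_mk _ _ _ (ev_hom _), Projectivization.mk_eq_mk_iff']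
  exact ⟨t, by rw [h, ev_smul]⟩

lemma pmap_chart {f : Endo 3 4} {κ t : ℂ} (h : f.1 = t • K κ) (u : (ℂ × ℂ) × ℂ) :
    pmap f (chart u) = chart (FF κ u) := by
  unfold chart
  rw [pmap_fam_mk h _ _ (by rw [ev_vec]; exact vec_ne _)]
  congr 1
  exact ev_vec κ u

lemma pmap_chart_iter {f : Endo 3 4} {κ t : ℂ} (h : f.1 = t • K κ) (n : ℕ) (u : (ℂ × ℂ) × ℂ) :
    (pmap f)^[n] (chart u) = chart ((FF κ)^[n] u) := by
  induction n with
  | zero => rfl
  | succ n ih => rw [Function.iterate_succ_apply', ih, pmap_chart h, Function.iterate_succ_apply']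

lemma FF_iter (κ : ℂ) (n : ℕ) (u : (ℂ × ℂ) × ℂ) :
    (FF κ)^[n] u = ((GG κ)^[n] u.1, pp^[n] u.2) := by
  induction n with
  | zero => rfl
  | succ n ih => rw [Function.iterate_succ_apply', ih, Function.iterate_succ_apply',
      Function.iterate_succ_apply']; rfl

lemma chart_injective : Function.Injective chart := by
  intro u v h
  unfold chart at h
  rw [Projectivization.mk_eq_mk_iff'] at h
  obtain ⟨a, ha⟩ := h
  have h3 := congrFun ha 3
  simp [vec] at h3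
  subst h3
  have h0 := congrFun ha 0
  have h1 := congrFun ha 1
  have h2 := congrFun ha 2
  simp [vec] at h0 h1 h2
  exact Prod.ext (Prod.ext h0.symm h1.symm) h2.symm

/-- `G` is surjective -/
lemma GG_surj {κ : ℂ} (hκ : Good κ) : Function.Surjective (GG κ) := by
  rintro ⟨a, b⟩
  obtain ⟨h0, h1⟩ := hκ
  have h1' : κ ^ 4 - 1 ≠ 0 := sub_ne_zero.mpr h1
  set u := (b / κ + κ ^ 2 * a) / (κ ^ 4 - 1) with hu
  set v := κ ^ 2 * u - a with hv
  obtain ⟨m, hm⟩ := IsAlgClosed.exists_pow_nat_eq (u + v) (n := 2) (by norm_num)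
  obtain ⟨n, hn⟩ := IsAlgClosed.exists_pow_nat_eq (u - v) (n := 2) (by norm_num)
  obtain ⟨x, hx⟩ := IsAlgClosed.exists_pow_nat_eq ((m + n) / 2) (n := 2) (by norm_num)
  obtain ⟨y, hy⟩ := IsAlgClosed.exists_pow_nat_eq ((m - n) / 2) (n := 2) (by norm_num)
  refine ⟨(x, y), ?_⟩
  have e1 : x ^ 4 + y ^ 4 = u := by
    have : x ^ 4 + y ^ 4 = (x ^ 2) ^ 2 + (y ^ 2) ^ 2 := by ring
    rw [this, hx, hy]
    linear_combination (1/2 : ℂ) * hm + (1/2 : ℂ) * hn
  have e2 : 2 * x ^ 2 * y ^ 2 = v := by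
    rw [hx, hy]
    linear_combination (1/2 : ℂ) * hm - (1/2 : ℂ) * hn
  have e3 : κ ^ 2 * u - v = a := by rw [hv]; ring
  have e4 : κ * (κ ^ 2 * v - u) = b := by
    have : (κ ^ 4 - 1) * u = b / κ + κ ^ 2 * a := by rw [hu]; field_simp
    have h5 : κ * (κ ^ 2 * v - u) = κ * ((κ ^ 4 - 1) * u - κ ^ 2 * a) := by rw [hv]; ring
    rw [h5, this]
    field_simp
    ring
  unfold GG G
  refine Prod.ext ?_ ?_
  · simp only
    rw [e1, e2, e3]
  · simp only
    have : 2 * κ ^ 2 * x ^ 2 * y ^ 2 - x ^ 4 - y ^ 4 = κ ^ 2 * (2 * x ^ 2 * y ^ 2) - (x ^ 4 + y ^ 4) := by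
      ring
    rw [this, e1, e2, e4]

/-- the postcritical form -/
noncomputable def QQ (κ x y : ℂ) : ℂ := (x ^ 2 - κ ^ 2 * y ^ 2) * (κ ^ 2 * x ^ 2 - y ^ 2)

lemma QQ_G (κ x y : ℂ) : QQ κ (G κ x y).1 (G κ x y).2 =
    4 * κ ^ 2 * (κ ^ 4 - 1) ^ 2 * (W x y) ^ 2 * QQ κ x y := by
  unfold QQ G W
  ring

lemma pp_norm (z : ℂ) (hz : 2 ≤ ‖z‖) : ‖z‖ < ‖pp z‖ := by
  have h1 : ‖z‖ ^ 4 - 4 ≤ ‖pp z‖ := by
    unfold pp
    have := norm_sub_norm_le (z ^ 4) 4
    rw [norm_pow] at this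
    simpa using this
  have h2 : ‖z‖ + 4 < ‖z‖ ^ 4 := by
    nlinarith [sq_nonneg (‖z‖ ^ 2 - 4), sq_nonneg (‖z‖ - 2), mul_self_nonneg (‖z‖ ^ 2),
      mul_nonneg (sub_nonneg.mpr hz) (sub_nonneg.mpr hz)]
  linarith

lemma crit_orbit (n : ℕ) : 4 ≤ ‖pp^[n + 1] 0‖ := by
  induction n with
  | zero => simp [pp]
  | succ n ih =>
    rw [Function.iterate_succ_apply']
    exact ih.trans (pp_norm _ (by linarith)).le

lemma crit_orbit_strictMono : StrictMono (fun n : ℕ => ‖pp^[n + 1] 0‖) := by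
  apply strictMono_nat_of_lt_succ
  intro n
  rw [Function.iterate_succ_apply' pp (n + 1)]
  exact pp_norm _ (by linarith [crit_orbit n])

lemma jac_eq_zero_iff {f : Endo 3 4} {κ t : ℂ} (h : f.1 = t • K κ) (X : Fin 4 → ℂ) :
    jac f X = 0 ↔ W (X 0) (X 1) = 0 ∨ X 2 = 0 ∨ X 3 = 0 := by
  obtain ⟨⟨h0, h1⟩, ht⟩ := Fam_good h
  have h1' : κ ^ 4 - 1 ≠ 0 := sub_ne_zero.mpr h1
  rw [jac_fam h]
  simp [h0, h1', ht]
  tauto

lemma W_smul (a x y : ℂ) : W (a * x) (a * y) = a ^ 6 * W x y := by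
  unfold W; ring

/-- criticality does not depend on the representative -/
lemma crit_rep {f : Endo 3 4} {κ t : ℂ} (h : f.1 = t • K κ) (X : Fin 4 → ℂ) (hX : X ≠ 0) :
    jac f (Projectivization.mk ℂ X hX).rep = 0 ↔ jac f X = 0 := by
  obtain ⟨a, ha⟩ := Projectivization.exists_smul_eq_mk_rep ℂ X hX
  rw [← ha, jac_eq_zero_iff h, jac_eq_zero_iff h]
  have ha0 : (a : ℂ) ≠ 0 := a.ne_zero
  have e : ∀ i, (a • X) i = (a : ℂ) * X i := fun i => rfl
  rw [e, e, e, e, W_smul]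
  simp [ha0]

lemma hom_eval {n : ℕ} {P : MvPolynomial (Fin n) ℂ} {k : ℕ} (hk : P.IsHomogeneous k) (a : ℂ)
    (X : Fin n → ℂ) : MvPolynomial.eval (a • X) P = a ^ k * MvPolynomial.eval X P := by
  rw [MvPolynomial.eval_eq', MvPolynomial.eval_eq', Finset.mul_sum]
  apply Finset.sum_congr rfl
  intro d hd
  have h1 : ∑ i, d i = k := by
    have h2 := hk (MvPolynomial.mem_support_iff.mp hd)
    rw [Finsupp.weight_apply, Finsupp.sum_fintype] at h2
    · simpa using h2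
    · simp
  simp only [Pi.smul_apply, smul_eq_mul, mul_pow, Finset.prod_mul_distrib,
    Finset.prod_pow_eq_pow_sum, h1]
  ring

/-- a polynomial vanishing on infinitely many hyperplanes `z = a n` vanishes on the chart -/
lemma vanish_chart (P : MvPolynomial (Fin 4) ℂ)
    (h : ∀ (x y : ℂ) (n : ℕ), MvPolynomial.eval ![x, y, pp^[n + 1] 0, 1] P = 0) (x y z : ℂ) :
    MvPolynomial.eval ![x, y, z, 1] P = 0 := by
  set q : Polynomial ℂ := MvPolynomial.aeval
    (![Polynomial.C x, Polynomial.C y, Polynomial.X, 1] : Fin 4 → Polynomial ℂ) P with hq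
  have hev : ∀ w : ℂ, q.eval w = MvPolynomial.eval ![x, y, w, 1] P := by
    intro w
    have h2 : (Polynomial.evalRingHom w).comp (MvPolynomial.aeval
      (![Polynomial.C x, Polynomial.C y, Polynomial.X, 1] : Fin 4 → Polynomial ℂ)).toRingHom =
      MvPolynomial.eval ![x, y, w, 1] := by
      apply MvPolynomial.ringHom_ext
      · intro r
        simp
      · intro i
        fin_cases i <;> simp
    have := congrArg (fun g => g P) h2
    simpa using this
  have hq0 : q = 0 := by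
    apply Polynomial.eq_zero_of_infinite_isRoot
    refine Set.infinite_of_injective_forall_mem (f := fun n : ℕ => pp^[n + 1] 0) ?_ ?_
    · intro n m hnm
      apply crit_orbit_strictMono.injective
      simp only at hnm ⊢
      rw [hnm]
    · intro n
      simp only [Set.mem_ofPred_eq, Polynomial.IsRoot]
      rw [hev]
      exact h x y n
  rw [← hev, hq0, Polynomial.eval_zero]

lemma QQ_iter (κ : ℂ) (n : ℕ) (u : ℂ × ℂ) (hu : W u.1 u.2 = 0) :
    QQ κ ((GG κ)^[n + 1] u).1 ((GG κ)^[n + 1] u).2 = 0 := by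
  induction n with
  | zero =>
    simp only [zero_add, Function.iterate_one, GG]
    rw [QQ_G, hu]
    ring
  | succ n ih =>
    rw [Function.iterate_succ_apply']
    unfold GG at ih ⊢
    rw [QQ_G, ih, mul_zero]

/-- every point of the projective space is in the chart or has last coordinate zero -/
lemma chart_or (x : PSpace 3) : (∃ u, x = chart u) ∨ x.rep 3 = 0 := by
  by_cases h : x.rep 3 = 0
  · exact Or.inr h
  · left
    refine ⟨((x.rep 0 / x.rep 3, x.rep 1 / x.rep 3), x.rep 2 / x.rep 3), ?_⟩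
    conv_lhs => rw [← x.mk_rep]
    unfold chart
    rw [Projectivization.mk_eq_mk_iff']
    refine ⟨x.rep 3, ?_⟩
    ext i
    fin_cases i
    · simp [vec]; field_simp
    · simp [vec]; field_simp
    · simp [vec]; field_simp
    · simp [vec]

lemma rep3_mk (X : Fin 4 → ℂ) (hX : X ≠ 0) :
    (Projectivization.mk ℂ X hX).rep 3 = 0 ↔ X 3 = 0 := by
  obtain ⟨a, ha⟩ := Projectivization.exists_smul_eq_mk_rep ℂ X hX
  rw [← ha]
  have e : (a • X) 3 = (a : ℂ) * X 3 := rfl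
  rw [e]
  simp

lemma pmap_rep3 {f : Endo 3 4} {κ t : ℂ} (h : f.1 = t • K κ) (x : PSpace 3) (hx : x.rep 3 = 0) :
    (pmap f x).rep 3 = 0 := by
  unfold pmap
  rw [rep3_mk, h, ev_smul, ev_K]
  simp [hx]

lemma not_PCF {f : Endo 3 4} (hf : f ∈ Fam) : ¬ IsPCF f := by
  obtain ⟨κ, t, h⟩ := hf
  obtain ⟨hκ, ht⟩ := Fam_good h
  rintro ⟨S, hS, hpc⟩
  -- postcritical hyperplanes
  have h1 : ∀ P ∈ S, ∀ (x y : ℂ) (n : ℕ), MvPolynomial.eval ![x, y, pp^[n + 1] 0, 1] P = 0 := by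
    intro P hP x y n
    obtain ⟨u, hu⟩ := (GG_surj hκ).iterate (n + 1) (x, y)
    have hmem : chart ((x, y), pp^[n + 1] 0) ∈ postcritical f := by
      refine ⟨n + 1, by omega, chart (u, 0), ?_, ?_⟩
      · unfold chart
        rw [crit_rep h, jac_eq_zero_iff h]
        right; left
        simp [vec]
      · rw [pmap_chart_iter h, FF_iter]
        simp only
        rw [hu]
    have h2 := (hpc _).mp hmem P hP
    obtain ⟨k, hk⟩ := hS P hP
    obtain ⟨a, ha⟩ := Projectivization.exists_smul_eq_mk_rep ℂ _ (vec_ne ((x, y), pp^[n + 1] 0))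
    unfold chart at h2
    rw [← ha] at h2
    have h3 := hom_eval hk (a : ℂ) (vec ((x, y), pp^[n + 1] 0))
    have h2' : MvPolynomial.eval ((a : ℂ) • vec ((x, y), pp^[n + 1] 0)) P = 0 := h2
    rw [h3] at h2'
    have ha0 : (a : ℂ) ^ k ≠ 0 := pow_ne_zero _ a.ne_zero
    exact (mul_eq_zero.mp h2').resolve_left ha0
  -- the point [0 : 1 : 0 : 1] is postcritical
  have h2 : chart ((0, 1), 0) ∈ postcritical f := by
    rw [hpc]
    intro P hP
    obtain ⟨k, hk⟩ := hS P hP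
    obtain ⟨a, ha⟩ := Projectivization.exists_smul_eq_mk_rep ℂ _ (vec_ne ((0, 1), 0))
    unfold chart
    rw [← ha]
    have h3 := hom_eval hk (a : ℂ) (vec ((0, 1), 0))
    have h4 : MvPolynomial.eval (vec ((0, 1), 0)) P = 0 := vanish_chart P (h1 P hP) 0 1 0
    rw [h4, mul_zero] at h3
    exact h3
  -- but it is not
  obtain ⟨n, hn, y, hy, hny⟩ := h2
  obtain ⟨m, rfl⟩ : ∃ m, n = m + 1 := ⟨n - 1, by omega⟩
  rcases chart_or y with ⟨u, rfl⟩ | hy3
  · rw [pmap_chart_iter h, FF_iter] at hny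
    have hu := chart_injective hny
    have e1 : (GG κ)^[m + 1] u.1 = (0, 1) := congrArg Prod.fst hu
    have e2 : pp^[m + 1] u.2 = 0 := congrArg Prod.snd hu
    unfold chart at hy
    rw [crit_rep h, jac_eq_zero_iff h] at hy
    rcases hy with hy | hy | hy
    · have hW : W u.1.1 u.1.2 = 0 := by simpa [vec] using hy
      have := QQ_iter κ m u.1 hW
      rw [e1] at this
      have h0 := hκ.1
      simp [QQ, h0] at this
    · have hz : u.2 = 0 := by simpa [vec] using hy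
      rw [hz] at e2
      have := crit_orbit m
      rw [e2, norm_zero] at this
      linarith
    · simp [vec] at hy
  · have : ∀ k, ((pmap f)^[k] y).rep 3 = 0 := by
      intro k
      induction k with
      | zero => exact hy3
      | succ k ih => rw [Function.iterate_succ_apply']; exact pmap_rep3 h _ ih
    have h4 := this (m + 1)
    rw [hny] at h4
    unfold chart at h4
    rw [rep3_mk] at h4
    simp [vec] at h4

end Pool.Agent.H25.Dyn
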