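import Mathlib
open scoped RealInnerProductSpace
open MeasureTheory

namespace Pool.Agent.H25.Rot

/-- one-variable functional equation -/
theorem cauchy_local (F : ℝ → ℝ) (hc : ContinuousOn F (Set.Icc (-1) 1))
    (h : ∀ z h : ℝ, z ^ 2 ≤ 1 → h ^ 2 ≤ 1 - z ^ 2 →
      F z + F (-z / 2 + Real.sqrt 3 / 2 * h) + F (-z / 2 - Real.sqrt 3 / 2 * h) = 0) :
    ∀ z : ℝ, z ^ 2 ≤ 1 → F z = z * F 1 := by
  have h3 : Real.sqrt 3 * Real.sqrt 3 = 3 := Real.mul_self_sqrt (by norm_num)
  have hs3 : 0 < Real.sqrt 3 := Real.sqrt_pos.mpr (by norm_num)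
  have h0 : F 0 = 0 := by
    have := h 0 0 (by norm_num) (by norm_num)
    simp at this
    linarith
  have hodd : ∀ x : ℝ, x ^ 2 ≤ 3 / 4 → F (-x) = - F x := by
    intro x hx
    have := h 0 (2 * x / Real.sqrt 3) (by norm_num) (by
      rw [div_pow, mul_pow, Real.sq_sqrt (by norm_num)]
      linarith)
    have e : Real.sqrt 3 / 2 * (2 * x / Real.sqrt 3) = x := by
      field_simp
    rw [e] at this
    simp only [neg_zero, zero_div, zero_add, zero_sub, h0] at this
    linarith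
  have hadd : ∀ a b : ℝ, |a| ≤ 1 / 4 → |b| ≤ 1 / 4 → F (a + b) = F a + F b := by
    intro a b ha hb
    rw [abs_le] at ha hb
    have := h (-(a + b)) ((a - b) / Real.sqrt 3) (by nlinarith) (by
      rw [div_pow, Real.sq_sqrt (by norm_num)]
      nlinarith)
    have e : Real.sqrt 3 / 2 * ((a - b) / Real.sqrt 3) = (a - b) / 2 := by
      field_simp
    rw [e] at this
    have e1 : -(-(a + b)) / 2 + (a - b) / 2 = a := by ring
    have e2 : -(-(a + b)) / 2 - (a - b) / 2 = b := by ring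
    rw [e1, e2, hodd (a + b) (by nlinarith)] at this
    linarith
  have hscale : ∀ z : ℝ, z ^ 2 ≤ 1 → F z = 4 * F (z / 4) := by
    intro z hz
    have h1 := h z 0 hz (by simpa using hz)
    have h2 := h (-z / 2) 0 (by nlinarith) (by nlinarith)
    simp only [mul_zero, add_zero, sub_zero] at h1 h2
    have e : - (-z / 2) / 2 = z / 4 := by ring
    rw [e] at h2
    linarith
  -- the difference with the linear function
  set D : ℝ → ℝ := fun x => F x - 4 * x * F (1 / 4) with hD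
  have hDadd : ∀ a b : ℝ, |a| ≤ 1 / 4 → |b| ≤ 1 / 4 → D (a + b) = D a + D b := by
    intro a b ha hb
    simp only [hD, hadd a b ha hb]
    ring
  have hDq : D (1 / 4) = 0 := by simp [hD]
  have hDcont : ContinuousOn (fun x => |D x|) (Set.Icc (-(1/4)) (1/4)) := by
    apply ContinuousOn.abs
    apply ContinuousOn.sub
    · exact hc.mono (Set.Icc_subset_Icc (by norm_num) (by norm_num))
    · fun_prop
  obtain ⟨x, hx, hmax⟩ := (isCompact_Icc (a := (-(1/4) : ℝ)) (b := 1/4)).exists_isMaxOn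
    ⟨0, by norm_num, by norm_num⟩ hDcont
  have hmax' : ∀ y, |y| ≤ 1 / 4 → |D y| ≤ |D x| := by
    intro y hy
    exact hmax (show y ∈ Set.Icc (-(1/4) : ℝ) (1/4) from abs_le.mp hy)
  have key : ∀ y, |y| ≤ 1 / 8 → |D y| = |D x| → D x = 0 := by
    intro y hy hy'
    have h1 := hDadd y y (by linarith) (by linarith)
    have h2 := hmax' (y + y) (by
      rw [← two_mul, abs_mul, abs_two]; linarith)
    rw [h1, ← two_mul, abs_mul, abs_two, hy'] at h2
    have : |D x| ≤ 0 := by linarith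
    exact abs_nonpos_iff.mp this
  have hDx : D x = 0 := by
    by_cases hx8 : |x| ≤ 1 / 8
    · exact key x hx8 rfl
    · push Not at hx8
      rcases lt_abs.mp hx8 with hp | hn
      · have h1 := hDadd (x - 1/4) (1/4) (by rw [abs_le]; constructor <;> linarith [hx.2]) (by norm_num)
        have e : x - 1 / 4 + 1 / 4 = x := by ring
        rw [e, hDq, add_zero] at h1
        exact key (x - 1/4) (by rw [abs_le]; constructor <;> linarith [hx.2]) (by rw [h1])
      · have h1 := hDadd x (1/4) (by rw [abs_le]; constructor <;> linarith [hx.1]) (by norm_num)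
        rw [hDq, add_zero] at h1
        exact key (x + 1/4) (by rw [abs_le]; constructor <;> linarith [hx.1]) (by rw [h1])
  have hDzero : ∀ y, |y| ≤ 1 / 4 → D y = 0 := by
    intro y hy
    have := hmax' y hy
    rw [hDx, abs_zero] at this
    exact abs_nonpos_iff.mp this
  intro z hz
  have hz1 : |z| ≤ 1 := by
    rw [← sq_abs] at hz
    nlinarith [abs_nonneg z]
  have h1 : D (z / 4) = 0 := hDzero _ (by rw [abs_div]; norm_num; linarith)
  have h2 : F (z / 4) = z * F (1 / 4) := by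
    simp only [hD] at h1
    linarith
  have h3 : F 1 = 4 * F (1 / 4) := hscale 1 (by norm_num)
  rw [hscale z hz, h2, h3]
  ring


abbrev E3 := EuclideanSpace ℝ (Fin 3)

noncomputable def rotLin (θ : ℝ) : E3 →ₗ[ℝ] E3 where
  toFun x := !₂[Real.cos θ * x 0 - Real.sin θ * x 1, Real.sin θ * x 0 + Real.cos θ * x 1, x 2]
  map_add' x y := by
    ext i
    fin_cases i <;> simp <;> ring
  map_smul' c x := by
    ext i
    fin_cases i <;> simp <;> ring

@[simp] lemma rotLin_apply_zero (θ : ℝ) (x : E3) :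
    rotLin θ x 0 = Real.cos θ * x 0 - Real.sin θ * x 1 := rfl
@[simp] lemma rotLin_apply_one (θ : ℝ) (x : E3) :
    rotLin θ x 1 = Real.sin θ * x 0 + Real.cos θ * x 1 := rfl
@[simp] lemma rotLin_apply_two (θ : ℝ) (x : E3) : rotLin θ x 2 = x 2 := rfl

lemma norm_sq_eq (x : E3) : ‖x‖ ^ 2 = x 0 ^ 2 + x 1 ^ 2 + x 2 ^ 2 := by
  rw [EuclideanSpace.norm_sq_eq, Fin.sum_univ_three]
  simp

lemma inner_eq (x y : E3) : ⟪x, y⟫ = x 0 * y 0 + x 1 * y 1 + x 2 * y 2 := by
  rw [PiLp.inner_apply, Fin.sum_univ_three]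
  simp [mul_comm]

lemma norm_rotLin (θ : ℝ) (x : E3) : ‖rotLin θ x‖ = ‖x‖ := by
  have h : ‖rotLin θ x‖ ^ 2 = ‖x‖ ^ 2 := by
    rw [norm_sq_eq, norm_sq_eq]
    simp only [rotLin_apply_zero, rotLin_apply_one, rotLin_apply_two]
    linear_combination (x 0 ^ 2 + x 1 ^ 2) * Real.sin_sq_add_cos_sq θ
  exact (sq_eq_sq₀ (norm_nonneg _) (norm_nonneg _)).mp h

noncomputable def rot (θ : ℝ) : E3 ≃ₗᵢ[ℝ] E3 :=
  LinearIsometry.toLinearIsometryEquiv ⟨rotLin θ, norm_rotLin θ⟩ rfl

lemma rot_apply (θ : ℝ) (x : E3) : rot θ x = rotLin θ x := rfl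

@[simp] lemma rot_apply_zero (θ : ℝ) (x : E3) :
    rot θ x 0 = Real.cos θ * x 0 - Real.sin θ * x 1 := rfl
@[simp] lemma rot_apply_one (θ : ℝ) (x : E3) :
    rot θ x 1 = Real.sin θ * x 0 + Real.cos θ * x 1 := rfl
@[simp] lemma rot_apply_two (θ : ℝ) (x : E3) : rot θ x 2 = x 2 := rfl

lemma rot_add (θ φ : ℝ) (x : E3) : rot θ (rot φ x) = rot (θ + φ) x := by
  ext i
  fin_cases i <;> simp [Real.cos_add, Real.sin_add] <;> ring

lemma continuous_rot : Continuous (fun p : ℝ × E3 => rot p.1 p.2) := by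
  have : (fun p : ℝ × E3 => rot p.1 p.2) =
    fun p : ℝ × E3 => !₂[Real.cos p.1 * p.2 0 - Real.sin p.1 * p.2 1,
      Real.sin p.1 * p.2 0 + Real.cos p.1 * p.2 1, p.2 2] := rfl
  rw [this]
  refine (PiLp.continuous_toLp 2 _).comp ?_
  refine continuous_pi fun i => ?_
  fin_cases i <;> simp <;> fun_prop

attribute [irreducible] rot

/-- the third basis vector -/
noncomputable def e2 : E3 := EuclideanSpace.single 2 1

/-- trine condition -/
def Trine (f : E3 → ℝ) : Prop :=
  ∀ v : Fin 3 → E3, (∀ i, ‖v i‖ = 1) → v 0 + v 1 + v 2 = 0 → f (v 0) + f (v 1) + f (v 2) = 0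

noncomputable def avg (f : E3 → ℝ) (x : E3) : ℝ := ∫ θ in (0:ℝ)..(2 * Real.pi), f (rot θ x)

lemma avg_rot (f : E3 → ℝ) (φ : ℝ) (x : E3) : avg f (rot φ x) = avg f x := by
  unfold avg
  simp only [rot_add]
  rw [intervalIntegral.integral_comp_add_right (fun θ => f (rot θ x)) φ]
  have hper : Function.Periodic (fun θ => f (rot θ x)) (2 * Real.pi) := by
    intro θ
    have : rot (θ + 2 * Real.pi) x = rot θ x := by
      ext i
      fin_cases i <;> simp
    simp [this]
  have := hper.intervalIntegral_add_eq φ 0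
  simp only [zero_add] at this ⊢
  rw [add_comm (2 * Real.pi) φ]
  exact this

lemma continuous_avg {f : E3 → ℝ} (hf : Continuous f) : Continuous (avg f) := by
  unfold avg
  have : Continuous (Function.uncurry fun (x : E3) (θ : ℝ) => f (rot θ x)) := by
    have := continuous_rot.comp (continuous_swap (X := E3) (Y := ℝ))
    exact hf.comp this
  exact intervalIntegral.continuous_parametric_intervalIntegral_of_continuous' this 0 (2 * Real.pi)

lemma intervalIntegrable_rot {f : E3 → ℝ} (hf : Continuous f) (x : E3) (a b : ℝ) :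
    IntervalIntegrable (fun θ => f (rot θ x)) volume a b := by
  apply Continuous.intervalIntegrable
  have h1 : Continuous (fun θ : ℝ => (θ, x)) := by fun_prop
  have h2 : Continuous (fun θ : ℝ => rot θ x) :=
    Continuous.comp (g := fun p : ℝ × E3 => rot p.1 p.2) continuous_rot h1
  exact hf.comp h2

lemma avg_trine {f : E3 → ℝ} (hf : Continuous f) (ht : Trine f) : Trine (avg f) := by
  intro v hv hs
  unfold avg
  rw [← intervalIntegral.integral_add (intervalIntegrable_rot hf _ _ _)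
    (intervalIntegrable_rot hf _ _ _), ← intervalIntegral.integral_add
    ((intervalIntegrable_rot hf _ _ _).add (intervalIntegrable_rot hf _ _ _))
    (intervalIntegrable_rot hf _ _ _)]
  have : ∀ θ : ℝ, f (rot θ (v 0)) + f (rot θ (v 1)) + f (rot θ (v 2)) = 0 := by
    intro θ
    refine ht (fun i => rot θ (v i)) (fun i => ?_) ?_
    · rw [LinearIsometryEquiv.norm_map]; exact hv i
    · rw [← map_add, ← map_add, hs, map_zero]
  simp [this]


/-- profile point -/
noncomputable def prof (z : ℝ) : E3 := !₂[Real.sqrt (1 - z ^ 2), 0, z]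

lemma continuous_prof : Continuous prof := by
  unfold prof
  refine (PiLp.continuous_toLp 2 _).comp ?_
  refine continuous_pi fun i => ?_
  fin_cases i <;> simp <;> fun_prop

lemma exists_rot (x : E3) (hx : ‖x‖ = 1) : ∃ φ : ℝ, x = rot φ (prof (x 2)) := by
  have h1 : x 0 ^ 2 + x 1 ^ 2 + x 2 ^ 2 = 1 := by rw [← norm_sq_eq, hx]; norm_num
  set w : ℂ := ⟨x 0, x 1⟩ with hw
  have hnw : ‖w‖ = Real.sqrt (1 - x 2 ^ 2) := by
    rw [Complex.norm_def, Complex.normSq_apply]
    congr 1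
    simp [hw]
    linarith
  refine ⟨Complex.arg w, ?_⟩
  have hre : x 0 = ‖w‖ * Real.cos (Complex.arg w) := by
    rw [Complex.norm_mul_cos_arg]
  have him : x 1 = ‖w‖ * Real.sin (Complex.arg w) := by
    rw [Complex.norm_mul_sin_arg]
  ext i
  fin_cases i
  · simp [prof]
    rw [← hnw, mul_comm]
    exact hre
  · simp [prof]
    rw [← hnw, mul_comm]
    exact him
  · simp [prof]

lemma prof_norm (z : ℝ) (hz : z ^ 2 ≤ 1) : ‖prof z‖ = 1 := by
  have : ‖prof z‖ ^ 2 = 1 := by
    rw [norm_sq_eq]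
    simp [prof]
    rw [Real.sq_sqrt (by linarith)]
    ring
  nlinarith [norm_nonneg (prof z)]

lemma avg_eq_prof (f : E3 → ℝ) (x : E3) (hx : ‖x‖ = 1) : avg f x = avg f (prof (x 2)) := by
  obtain ⟨φ, hφ⟩ := exists_rot x hx
  conv_lhs => rw [hφ]
  exact avg_rot f φ _

lemma prof_one : prof 1 = e2 := by
  ext i
  fin_cases i <;> simp [prof, e2]

lemma avg_unit {f : E3 → ℝ} (hf : Continuous f) (ht : Trine f) (x : E3) (hx : ‖x‖ = 1) :
    avg f x = x 2 * avg f e2 := by
  have hx2 : x 2 ^ 2 ≤ 1 := by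
    have : x 0 ^ 2 + x 1 ^ 2 + x 2 ^ 2 = 1 := by rw [← norm_sq_eq, hx]; norm_num
    nlinarith [sq_nonneg (x 0), sq_nonneg (x 1)]
  rw [avg_eq_prof f x hx, ← prof_one]
  apply cauchy_local (fun z => avg f (prof z)) ((continuous_avg hf).comp continuous_prof).continuousOn
    _ _ hx2
  intro z h hz hh
  have htr := avg_trine hf ht
  have hs3 : Real.sqrt 3 ^ 2 = 3 := Real.sq_sqrt (by norm_num)
  -- choose the vector w
  obtain ⟨s, c, hsc, hsh⟩ : ∃ s c : ℝ, s ^ 2 + c ^ 2 = 1 ∧ s * Real.sqrt (1 - z ^ 2) = h := by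
    by_cases h0 : 1 - z ^ 2 = 0
    · have hh0 : h = 0 := by
        rw [h0] at hh
        nlinarith
      exact ⟨0, 1, by norm_num, by simp [hh0]⟩
    · have hpos : 0 < 1 - z ^ 2 := lt_of_le_of_ne (by linarith) (Ne.symm h0)
      have hsq : Real.sqrt (1 - z ^ 2) ^ 2 = 1 - z ^ 2 := Real.sq_sqrt hpos.le
      refine ⟨h / Real.sqrt (1 - z ^ 2), Real.sqrt (1 - h ^ 2 / (1 - z ^ 2)), ?_, ?_⟩
      · rw [div_pow, hsq, Real.sq_sqrt]
        · ring
        · rw [sub_nonneg, div_le_one hpos]; exact hh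
      · have : Real.sqrt (1 - z ^ 2) ≠ 0 := (Real.sqrt_pos.mpr hpos).ne'
        field_simp
  set r := Real.sqrt (1 - z ^ 2) with hr
  have hr2 : r ^ 2 = 1 - z ^ 2 := Real.sq_sqrt (by linarith)
  set k := Real.sqrt 3 / 2 with hk
  have hk2 : k ^ 2 = 3 / 4 := by rw [hk, div_pow, hs3]; norm_num
  -- the trine
  let v1 : E3 := !₂[-r / 2 - k * s * z, k * c, -z / 2 + k * h]
  let v2 : E3 := !₂[-r / 2 + k * s * z, - (k * c), -z / 2 - k * h]
  have n1 : ‖v1‖ = 1 := by
    have : ‖v1‖ ^ 2 = 1 := by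
      rw [norm_sq_eq]
      simp [v1]
      rw [← hsh]
      have : (-r / 2 - k * s * z) ^ 2 + (k * c) ^ 2 + (-z / 2 + k * (s * r)) ^ 2 =
        (r ^ 2 + z ^ 2) / 4 + k ^ 2 * (s ^ 2 * (z ^ 2 + r ^ 2) + c ^ 2) := by ring
      rw [this, hr2, hk2]
      have : z ^ 2 + (1 - z ^ 2) = 1 := by ring
      rw [this]
      linarith
    nlinarith [norm_nonneg v1]
  have n2 : ‖v2‖ = 1 := by
    have : ‖v2‖ ^ 2 = 1 := by
      rw [norm_sq_eq]
      simp [v2]
      rw [← hsh]
      have : (-r / 2 + k * s * z) ^ 2 + (k * c) ^ 2 + (-z / 2 - k * (s * r)) ^ 2 =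
        (r ^ 2 + z ^ 2) / 4 + k ^ 2 * (s ^ 2 * (z ^ 2 + r ^ 2) + c ^ 2) := by ring
      rw [this, hr2, hk2]
      have : z ^ 2 + (1 - z ^ 2) = 1 := by ring
      rw [this]
      linarith
    nlinarith [norm_nonneg v2]
  have hsum := htr ![prof z, v1, v2] (by
    intro i
    fin_cases i
    · exact prof_norm z hz
    · exact n1
    · exact n2) (by
    ext i
    fin_cases i
    · simp [prof, v1, v2, ← hr]; ring
    · simp [prof, v1, v2]
    · simp [prof, v1, v2]; ring)
  simp only [Matrix.cons_val_zero, Matrix.cons_val_one, Matrix.cons_val_two, Matrix.head_cons,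
    Matrix.tail_cons, Matrix.cons_val] at hsum
  rw [avg_eq_prof f v1 n1, avg_eq_prof f v2 n2] at hsum
  exact hsum

lemma rot_e2 (θ : ℝ) : rot θ e2 = e2 := by
  ext i
  fin_cases i <;> simp [e2]

lemma avg_e2 (f : E3 → ℝ) : avg f e2 = 2 * Real.pi * f e2 := by
  unfold avg
  simp [rot_e2]

lemma avg_all {f : E3 → ℝ} (hf : Continuous f) (ht : Trine f)
    (hhom : ∀ (c : ℝ) (x : E3), 0 ≤ c → f (c • x) = c * f x) (x : E3) :
    avg f x = x 2 * (2 * Real.pi * f e2) := by
  rw [← avg_e2]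
  by_cases hx : x = 0
  · subst hx
    have h0 : f 0 = 0 := by
      have := hhom 0 0 le_rfl
      simpa using this
    unfold avg
    simp [h0]
  · have hn : 0 < ‖x‖ := norm_pos_iff.mpr hx
    have h1 : ‖(‖x‖⁻¹ • x)‖ = 1 := by
      rw [norm_smul, norm_inv, norm_norm]
      exact inv_mul_cancel₀ hn.ne'
    have h2 := avg_unit hf ht _ h1
    have h3 : avg f (‖x‖⁻¹ • x) = ‖x‖⁻¹ * avg f x := by
      unfold avg
      rw [← intervalIntegral.integral_const_mul]
      congr 1
      ext θ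
      rw [map_smul, hhom _ _ (by positivity)]
    rw [h3] at h2
    simp only [PiLp.smul_apply, smul_eq_mul] at h2
    field_simp at h2
    exact h2

end Pool.Agent.H25.Rot
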