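import Pool.Agent.H25.RotA
open scoped RealInnerProductSpace
open MeasureTheory

namespace Pool.Agent.H25.Rot

lemma ball_swap {f : E3 → ℝ} (hf : Continuous f) :
    ∫ θ in (0:ℝ)..(2 * Real.pi), ∫ x in Metric.closedBall (0:E3) 1, f (rot θ x) * x 2 =
    ∫ x in Metric.closedBall (0:E3) 1, ∫ θ in (0:ℝ)..(2 * Real.pi), f (rot θ x) * x 2 := by
  apply intervalIntegral_integral_swap
  have hcont : Continuous (Function.uncurry fun (θ : ℝ) (x : E3) => f (rot θ x) * x 2) := by
    have h1 : Continuous (fun p : ℝ × E3 => f (rot p.1 p.2)) := hf.comp continuous_rot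
    have h2 : Continuous (fun p : ℝ × E3 => p.2 2) := by fun_prop
    exact h1.mul h2
  have h3 : (volume.restrict (Set.uIoc (0:ℝ) (2 * Real.pi))).prod
      (volume.restrict (Metric.closedBall (0:E3) 1)) =
      (volume.prod volume).restrict (Set.uIoc (0:ℝ) (2 * Real.pi) ×ˢ Metric.closedBall (0:E3) 1) := by
    rw [Measure.prod_restrict]
  rw [h3]
  have h4 : IntegrableOn (Function.uncurry fun (θ : ℝ) (x : E3) => f (rot θ x) * x 2)
      (Set.uIcc (0:ℝ) (2 * Real.pi) ×ˢ Metric.closedBall (0:E3) 1) (volume.prod volume) := by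
    apply hcont.continuousOn.integrableOn_compact
    exact isCompact_uIcc.prod (isCompact_closedBall _ _)
  exact h4.mono_set (Set.prod_mono Set.uIoc_subset_uIcc subset_rfl)

lemma ball_rot (f : E3 → ℝ) (θ : ℝ) :
    ∫ x in Metric.closedBall (0:E3) 1, f (rot θ x) * x 2 =
    ∫ x in Metric.closedBall (0:E3) 1, f x * x 2 := by
  have h := (LinearIsometryEquiv.measurePreserving (rot θ)).setIntegral_preimage_emb
    (rot θ).toHomeomorph.measurableEmbedding (fun y => f y * y 2) (Metric.closedBall (0:E3) 1)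
  have hpre : (rot θ) ⁻¹' (Metric.closedBall (0:E3) 1) = Metric.closedBall (0:E3) 1 := by
    ext x
    simp
  rw [hpre] at h
  simpa using h

lemma ball_e2 {f : E3 → ℝ} (hf : Continuous f) (ht : Trine f)
    (hhom : ∀ (c : ℝ) (x : E3), 0 ≤ c → f (c • x) = c * f x) :
    ∫ x in Metric.closedBall (0:E3) 1, f x * x 2 =
      f e2 * ∫ x in Metric.closedBall (0:E3) 1, (x 2) ^ 2 := by
  have h := ball_swap hf
  simp_rw [ball_rot] at h
  rw [intervalIntegral.integral_const] at h
  have h2 : ∀ x : E3, ∫ θ in (0:ℝ)..(2 * Real.pi), f (rot θ x) * x 2 =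
      (2 * Real.pi * f e2) * (x 2) ^ 2 := by
    intro x
    rw [intervalIntegral.integral_mul_const]
    have := avg_all hf ht hhom x
    unfold avg at this
    rw [this]
    ring
  simp_rw [h2] at h
  rw [integral_const_mul] at h
  simp only [sub_zero, smul_eq_mul] at h
  have hpi : (2 * Real.pi) ≠ 0 := by positivity
  have : (2 * Real.pi) * (∫ x in Metric.closedBall (0:E3) 1, f x * x 2) =
    (2 * Real.pi) * (f e2 * ∫ x in Metric.closedBall (0:E3) 1, (x 2) ^ 2) := by
    rw [h]; ring
  exact mul_left_cancel₀ hpi this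

lemma e2_norm : ‖e2‖ = 1 := by simp [e2]

lemma inner_e2 (x : E3) : ⟪x, e2⟫ = x 2 := by
  rw [inner_eq]; simp [e2]

lemma const_pos : 0 < ∫ x in Metric.closedBall (0:E3) 1, (x 2) ^ 2 := by
  have hint : Integrable (fun x : E3 => (x 2) ^ 2) (volume.restrict (Metric.closedBall (0:E3) 1)) := by
    apply ContinuousOn.integrableOn_compact (isCompact_closedBall _ _)
    fun_prop
  rw [integral_pos_iff_support_of_nonneg (fun x => sq_nonneg _) hint]
  have hopen : IsOpen {x : E3 | x 2 ≠ 0} := by
    apply isOpen_ne_fun <;> fun_prop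
  rw [Measure.restrict_apply' Metric.isClosed_closedBall.measurableSet]
  have hsub : {x : E3 | x 2 ≠ 0} ∩ Metric.ball (0:E3) 1 ⊆
      (Function.support fun x : E3 => (x 2) ^ 2) ∩ Metric.closedBall (0:E3) 1 := by
    intro x hx
    refine ⟨?_, Metric.ball_subset_closedBall hx.2⟩
    simp only [Function.mem_support]
    exact pow_ne_zero 2 hx.1
  refine lt_of_lt_of_le ?_ (measure_mono hsub)
  apply IsOpen.measure_pos
  · exact hopen.inter Metric.isOpen_ball
  · refine ⟨(1/2 : ℝ) • e2, ?_, ?_⟩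
    · simp [e2]
    · rw [Metric.mem_ball, dist_zero_right, norm_smul, e2_norm]
      norm_num

/-- A continuous positively homogeneous function of degree one satisfying the trine condition is
linear on the sphere. -/
theorem linear_of_trine {f : E3 → ℝ} (hf : Continuous f) (ht : Trine f)
    (hhom : ∀ (c : ℝ) (x : E3), 0 ≤ c → f (c • x) = c * f x) :
    ∃ V : E3, ∀ p : E3, ‖p‖ = 1 → f p = ⟪V, p⟫ := by
  set C := ∫ x in Metric.closedBall (0:E3) 1, (x 2) ^ 2 with hC
  have hCpos : 0 < C := const_pos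
  refine ⟨C⁻¹ • ∫ x in Metric.closedBall (0:E3) 1, f x • x, ?_⟩
  intro p hp
  -- an isometry taking e2 to p
  obtain ⟨φ, hφ⟩ : ∃ φ : E3 ≃ₗᵢ[ℝ] E3, φ e2 = p :=
    ⟨Submodule.reflection (ℝ ∙ (e2 - p))ᗮ, Submodule.reflection_sub (by rw [e2_norm, hp])⟩
  have h1 := ball_e2 (f := fun x => f (φ x)) (hf.comp φ.continuous) (by
    intro v hv hs
    refine ht (fun i => φ (v i)) (fun i => by rw [LinearIsometryEquiv.norm_map]; exact hv i) ?_
    rw [← map_add, ← map_add, hs, map_zero]) (by
    intro c x hc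
    rw [map_smul, hhom _ _ hc])
  have h2 := (LinearIsometryEquiv.measurePreserving φ).setIntegral_preimage_emb
    φ.toHomeomorph.measurableEmbedding (fun y => f y * ⟪y, p⟫) (Metric.closedBall (0:E3) 1)
  have hpre : φ ⁻¹' (Metric.closedBall (0:E3) 1) = Metric.closedBall (0:E3) 1 := by
    ext x
    simp
  rw [hpre] at h2
  have h3 : ∀ x : E3, ⟪φ x, p⟫ = x 2 := by
    intro x
    rw [← hφ, LinearIsometryEquiv.inner_map_map, inner_e2]
  simp_rw [h3] at h2
  rw [h1, hφ] at h2
  rw [inner_smul_left]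
  have hint : IntegrableOn (fun x : E3 => f x • x) (Metric.closedBall (0:E3) 1) volume := by
    apply ContinuousOn.integrableOn_compact (isCompact_closedBall _ _)
    exact (hf.smul continuous_id).continuousOn
  have h4 : ⟪∫ x in Metric.closedBall (0:E3) 1, f x • x, p⟫ =
      ∫ x in Metric.closedBall (0:E3) 1, f x * ⟪x, p⟫ := by
    rw [real_inner_comm, ← integral_inner hint]
    congr 1
    ext x
    rw [inner_smul_right, real_inner_comm]
  rw [h4, ← h2]
  simp only [conj_trivial]
  rw [← hC]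
  field_simp

end Pool.Agent.H25.Rot
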