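import Pool.Agent.H25.RotB
open scoped RealInnerProductSpace
open MeasureTheory

namespace Pool.Agent.H25.Rot

/-- support function -/
noncomputable def supp (K : Set E3) (v : E3) : ℝ := sSup ((fun x => ⟪x, v⟫) '' K)

section
variable {K : Set E3} (hK : IsCompact K) (hne : K.Nonempty)
include hK hne

lemma supp_isGreatest (v : E3) : IsGreatest ((fun x => ⟪x, v⟫) '' K) (supp K v) := by
  have hc : IsCompact ((fun x : E3 => ⟪x, v⟫) '' K) := by
    apply hK.image_of_continuousOn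
    fun_prop
  exact hc.isGreatest_sSup (hne.image _)

lemma le_supp {x : E3} (hx : x ∈ K) (v : E3) : ⟪x, v⟫ ≤ supp K v :=
  (supp_isGreatest hK hne v).2 ⟨x, hx, rfl⟩

lemma supp_eq {v : E3} {c : ℝ} (h1 : ∀ x ∈ K, ⟪x, v⟫ ≤ c) (h2 : ∃ x ∈ K, ⟪x, v⟫ = c) :
    supp K v = c := by
  have h := supp_isGreatest hK hne v
  apply IsGreatest.unique h
  refine ⟨?_, ?_⟩
  · obtain ⟨x, hx, he⟩ := h2
    exact ⟨x, hx, he⟩
  · rintro _ ⟨x, hx, rfl⟩
    exact h1 x hx

lemma supp_smul (c : ℝ) (v : E3) (hc : 0 ≤ c) : supp K (c • v) = c * supp K v := by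
  obtain ⟨⟨x, hx, he⟩, hle⟩ := supp_isGreatest hK hne v
  apply supp_eq hK hne
  · intro y hy
    rw [inner_smul_right]
    exact mul_le_mul_of_nonneg_left (hle ⟨y, hy, rfl⟩) hc
  · exact ⟨x, hx, by rw [inner_smul_right]; simp only at he; rw [he]⟩

lemma supp_continuous : Continuous (supp K) := by
  obtain ⟨M, hM⟩ := hK.isBounded.exists_norm_le
  have key : ∀ v w : E3, supp K v - supp K w ≤ M * ‖v - w‖ := by
    intro v w
    obtain ⟨⟨x, hx, he⟩, -⟩ := supp_isGreatest hK hne v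
    have h1 := le_supp hK hne hx w
    have h2 : ⟪x, v - w⟫ ≤ ‖x‖ * ‖v - w‖ := real_inner_le_norm _ _
    have h3 : ‖x‖ * ‖v - w‖ ≤ M * ‖v - w‖ :=
      mul_le_mul_of_nonneg_right (hM x hx) (norm_nonneg _)
    rw [inner_sub_right] at h2
    simp only at he
    rw [← he]
    linarith
  have hlip : LipschitzWith (Real.toNNReal M) (supp K) := by
    apply LipschitzWith.of_dist_le_mul
    intro v w
    have hM0 : 0 ≤ M := by
      obtain ⟨x, hx⟩ := hne
      exact (norm_nonneg x).trans (hM x hx)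
    rw [Real.coe_toNNReal _ hM0, Real.dist_eq, abs_le, dist_eq_norm]
    constructor
    · have := key w v
      rw [norm_sub_rev] at this
      linarith
    · exact key v w
  exact hlip.continuous

end

/-- if the support function of a compact convex set is that of a ball, then the set is a ball -/
lemma eq_closedBall {K : Set E3} (hK : IsCompact K) (hne : K.Nonempty) (hconv : Convex ℝ K)
    (V : E3) (r : ℝ) (hr : 0 ≤ r) (h : ∀ v : E3, ‖v‖ = 1 → supp K v = r + ⟪V, v⟫) :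
    K = Metric.closedBall V r := by
  ext x
  rw [Metric.mem_closedBall, dist_eq_norm]
  constructor
  · intro hx
    by_cases h0 : x - V = 0
    · rw [h0, norm_zero]; exact hr
    · have hn : 0 < ‖x - V‖ := norm_pos_iff.mpr h0
      have hu : ‖(‖x - V‖⁻¹ • (x - V))‖ = 1 := by
        rw [norm_smul, norm_inv, norm_norm]
        exact inv_mul_cancel₀ hn.ne'
      have h1 := le_supp hK hne hx (‖x - V‖⁻¹ • (x - V))
      rw [h _ hu] at h1
      have h2 : ⟪x - V, ‖x - V‖⁻¹ • (x - V)⟫ ≤ r := by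
        rw [inner_sub_left]
        linarith
      rw [inner_smul_right, real_inner_self_eq_norm_sq] at h2
      have h3 : ‖x - V‖⁻¹ * ‖x - V‖ ^ 2 = ‖x - V‖ := by
        field_simp
      rw [h3] at h2
      exact h2
  · intro hx
    by_contra hxK
    obtain ⟨f, u, hf1, hf2⟩ := geometric_hahn_banach_closed_point hconv hK.isClosed hxK
    -- represent f
    set w : E3 := (InnerProductSpace.toDual ℝ E3).symm f with hw
    have hfw : ∀ y, f y = ⟪y, w⟫ := by
      intro y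
      rw [real_inner_comm, hw, InnerProductSpace.toDual_symm_apply]
    have hw0 : w ≠ 0 := by
      intro hw0
      obtain ⟨y, hy⟩ := hne
      have h1 := hf1 y hy
      rw [hfw, hw0, inner_zero_right] at h1
      rw [hfw, hw0, inner_zero_right] at hf2
      linarith
    have hn : 0 < ‖w‖ := norm_pos_iff.mpr hw0
    have hu : ‖(‖w‖⁻¹ • w)‖ = 1 := by
      rw [norm_smul, norm_inv, norm_norm]
      exact inv_mul_cancel₀ hn.ne'
    have h1 := h _ hu
    obtain ⟨⟨y, hy, he⟩, -⟩ := supp_isGreatest hK hne (‖w‖⁻¹ • w)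
    simp only at he
    have h2 : ⟪x - V, ‖w‖⁻¹ • w⟫ ≤ r := by
      have := real_inner_le_norm (x - V) (‖w‖⁻¹ • w)
      rw [hu, mul_one] at this
      linarith
    have h3 : ⟪x, ‖w‖⁻¹ • w⟫ ≤ ⟪y, ‖w‖⁻¹ • w⟫ := by
      rw [he, h1]
      rw [inner_sub_left] at h2
      linarith
    rw [inner_smul_right, inner_smul_right] at h3
    have h4 : ⟪x, w⟫ ≤ ⟪y, w⟫ := le_of_mul_le_mul_left h3 (inv_pos.mpr hn)
    have h5 := hf1 y hy
    rw [hfw] at h5 hf2
    linarith

/-- two unit trines are related by a linear isometry of determinant one or minus one -/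
lemma exists_iso (v u : Fin 3 → E3) (hv : ∀ i, ‖v i‖ = 1) (hu : ∀ i, ‖u i‖ = 1)
    (hv0 : v 0 + v 1 + v 2 = 0) (hu0 : u 0 + u 1 + u 2 = 0) :
    ∃ ρ : E3 ≃ₗᵢ[ℝ] E3, (∀ i, ρ (v i) = u i) ∧
      (LinearMap.det (ρ.toLinearEquiv : E3 →ₗ[ℝ] E3) = 1 ∨
       LinearMap.det (ρ.toLinearEquiv : E3 →ₗ[ℝ] E3) = -1) := by
  have hin : ∀ w : Fin 3 → E3, (∀ i, ‖w i‖ = 1) → w 0 + w 1 + w 2 = 0 → ⟪w 0, w 1⟫ = -(1/2) := by
    intro w hw hw0
    have h2 : w 2 = -(w 0 + w 1) := by
      rw [eq_neg_iff_add_eq_zero, add_comm]; exact hw0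
    have h3 : ‖w 0 + w 1‖ ^ 2 = 1 := by
      rw [← norm_neg, ← h2, hw 2]; norm_num
    rw [norm_add_sq_real, hw 0, hw 1] at h3
    linarith
  set R1 : E3 ≃ₗᵢ[ℝ] E3 := Submodule.reflection (ℝ ∙ (v 0 - u 0))ᗮ with hR1
  have h1 : R1 (v 0) = u 0 := Submodule.reflection_sub (by rw [hv, hu])
  set R2 : E3 ≃ₗᵢ[ℝ] E3 := Submodule.reflection (ℝ ∙ (R1 (v 1) - u 1))ᗮ with hR2
  have h2 : R2 (R1 (v 1)) = u 1 :=
    Submodule.reflection_sub (by rw [LinearIsometryEquiv.norm_map, hv, hu])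
  have h3 : R2 (u 0) = u 0 := by
    rw [hR2]
    apply Submodule.reflection_mem_subspace_eq_self
    rw [Submodule.mem_orthogonal_singleton_iff_inner_right]
    rw [inner_sub_left, real_inner_comm, real_inner_comm (u 0) (u 1), hin u hu hu0]
    rw [← h1, LinearIsometryEquiv.inner_map_map, hin v hv hv0]
    norm_num
  refine ⟨R1.trans R2, ?_, ?_⟩
  · intro i
    have e0 : R2 (R1 (v 0)) = u 0 := by rw [h1, h3]
    fin_cases i
    · exact e0
    · exact h2
    · change R2 (R1 (v 2)) = u 2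
      have hv2 : v 2 = -(v 0 + v 1) := by
        rw [eq_neg_iff_add_eq_zero, add_comm]; exact hv0
      have hu2 : u 2 = -(u 0 + u 1) := by
        rw [eq_neg_iff_add_eq_zero, add_comm]; exact hu0
      rw [hv2, map_neg, map_neg, map_add, map_add, e0, h2, hu2]
  · have hcomp : ((R1.trans R2).toLinearEquiv : E3 →ₗ[ℝ] E3) =
        (R2.toLinearEquiv : E3 →ₗ[ℝ] E3) ∘ₗ (R1.toLinearEquiv : E3 →ₗ[ℝ] E3) := rfl
    rw [hcomp, LinearMap.det_comp]
    have d1 : LinearMap.det (R1.toLinearEquiv : E3 →ₗ[ℝ] E3) = 1 ∨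
        LinearMap.det (R1.toLinearEquiv : E3 →ₗ[ℝ] E3) = -1 := by
      have : LinearMap.det (R1.toLinearEquiv : E3 →ₗ[ℝ] E3) = _ := Submodule.det_reflection _
      rw [this]
      exact neg_one_pow_eq_or ℝ _
    have d2 : LinearMap.det (R2.toLinearEquiv : E3 →ₗ[ℝ] E3) = 1 ∨
        LinearMap.det (R2.toLinearEquiv : E3 →ₗ[ℝ] E3) = -1 := by
      have : LinearMap.det (R2.toLinearEquiv : E3 →ₗ[ℝ] E3) = _ := Submodule.det_reflection _
      rw [this]
      exact neg_one_pow_eq_or ℝ _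
    rcases d1 with d1 | d1 <;> rcases d2 with d2 | d2 <;> rw [d1, d2] <;> norm_num

end Pool.Agent.H25.Rot
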